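import Pool.Agent.Lib.MP_688fd0_co.SQ4.Small.IfaceN
import Pool.Agent.Lib.MP_688fd0_co.SQ4.H31.HeartC
import Pool.Agent.Lib.MP_688fd0_co.SQ3.Small.Sq

/-!
Type C1, at most two lines: the geometry of the lines.
-/

set_option autoImplicit false

namespace Pool.Agent.Lib.MP_688fd0_co.SQ4.Small

open Pool.Agent.Lib.MP_688fd0_co.OSF Pool.Agent.Lib.MP_688fd0_co.SQ2 Pool.Agent.Lib.MP_688fd0_co.SQ3
open Pool.Agent.Lib.MP_688fd0_co.SQ4
open H31

/-- `y` is on the line of `x`. -/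
def Ln {Q : Type} [Group Q] {B : Lb.{0, 0} Q} (U : Up B) (x y : Q) : Prop := ∃ t : ℕ, y = (U.U ^ t) x

theorem _root_.Pool.Agent.Lib.MP_688fd0_co.SQ4.FrC.fr {Q : Type} [Group Q] {B : Lb.{0, 0} Q} {U : Up B}
    {D : Subgroup Q} {k c W : ℕ} {x : Q} {F : Finset Q} (h : FrC U D k c W x F) : Fr U D W F := ⟨h.inv, h.disj⟩

section

variable {Q : Type} [Group Q] {B : Lb.{0, 0} Q} {a b : B.L} {eps : Q →* ℤˣ} {D : Subgroup Q} {z : Q} {k : ℕ}

theorem ai {α : Type} (f : Equiv.Perm α) (x : α) : f (f⁻¹ x) = x := f.apply_symm_apply x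

theorem lnM_even (a b : B.L) : Even (lnM B a b) := even_two_mul _

variable (H : HypC B a b eps D z k)

include H

theorem ord_pos : 0 < orderOf (B.q a * (B.q b)⁻¹) := by
  have := H.fin
  exact orderOf_pos _

theorem lnM_pos : 0 < lnM B a b := by
  have := ord_pos H
  unfold lnM
  omega

/-- Left multiplications by the kernel of `eps` commute with `U`. -/
theorem U_lm {g : Q} (hg : eps g = 1) (x : Q) : H.up.U (g * x) = g * H.up.U x := by
  rw [H.up.hU, H.up.hU, C_up H, C_up H, map_mul, hg, one_mul, mul_assoc]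

theorem U_lmp {g : Q} (hg : eps g = 1) (t : ℕ) (x : Q) : (H.up.U ^ t) (g * x) = g * (H.up.U ^ t) x := by
  induction t with
  | zero => rfl
  | succ t ih => rw [H.up.U_pow_succ', H.up.U_pow_succ', ih, U_lm H hg]

theorem U_lmz {g : Q} (hg : eps g = 1) (t : ℤ) (x : Q) : (H.up.U ^ t) (g * x) = g * (H.up.U ^ t) x := by
  rcases Int.eq_nat_or_neg t with ⟨n, rfl | rfl⟩
  · rw [zpow_natCast]; exact U_lmp H hg n x
  · rw [zpow_neg, zpow_natCast]
    apply (H.up.U ^ n).injective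
    rw [U_lmp H hg, ai, ai]

omit H in
theorem eps_neg {x : Q} (h : eps x ≠ 1) : eps x = -1 := (Int.units_eq_one_or _).resolve_left h

theorem eps_U (x : Q) : eps (H.up.U x) = -eps x := by
  rcases Int.units_eq_one_or (eps x) with h | h
  · rw [C_U_one H h, map_mul, h, H.ea, one_mul]
  · rw [C_U_neg H (by rw [h]; decide), map_mul, map_inv, h, H.eb]; decide

theorem eps_Up (t : ℕ) (x : Q) : eps ((H.up.U ^ t) x) = (-1) ^ t * eps x := by
  induction t with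
  | zero => rw [pow_zero, pow_zero, one_mul]; rfl
  | succ t ih => rw [H.up.U_pow_succ', eps_U H, ih, pow_succ]; simp

theorem U_odd {x : Q} (h : eps x = 1) (n : ℕ) : (H.up.U ^ (2 * n + 1)) x = x * (B.q a * (B.q b)⁻¹) ^ n * B.q a := by
  have h1 : eps (x * (B.q a * (B.q b)⁻¹) ^ n) = 1 := by rw [map_mul, map_pow, C_eps_w H, h, one_pow, one_mul]
  rw [H.up.U_pow_succ', C_U_pow H h, C_U_one H h1]

theorem fix_one {v : Q} (h : eps v = 1) (t : ℕ) : (H.up.U ^ t) v = v ↔ lnM B a b ∣ t := by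
  rcases Nat.even_or_odd' t with ⟨n, rfl | rfl⟩
  · rw [C_U_pow H h, mul_eq_left, ← orderOf_dvd_iff_pow_eq_one]
    unfold lnM
    exact (Nat.mul_dvd_mul_iff_left (by norm_num)).symm
  · constructor
    · intro h1
      exfalso
      have h2 := eps_Up H (2 * n + 1) v
      rw [h1, h, mul_one, Odd.neg_one_pow ⟨n, rfl⟩] at h2
      exact absurd h2 (by decide)
    · intro h1
      exfalso
      have h2 : 2 ∣ 2 * n + 1 := (Dvd.intro _ rfl : 2 ∣ lnM B a b).trans h1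
      omega

theorem fix (v : Q) (t : ℕ) : (H.up.U ^ t) v = v ↔ lnM B a b ∣ t := by
  rcases Int.units_eq_one_or (eps v) with h | h
  · exact fix_one H h t
  · have h1 : eps (H.up.U v) = 1 := by rw [eps_U H, h, neg_neg]
    rw [← fix_one H h1 t, ← H.up.U_pow_succ, H.up.U_pow_succ']
    exact H.up.U.injective.eq_iff.symm

theorem U_per (v : Q) : (H.up.U ^ lnM B a b) v = v := (fix H v _).2 dvd_rfl

theorem U_mod (v : Q) (t : ℕ) : (H.up.U ^ t) v = (H.up.U ^ (t % lnM B a b)) v := by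
  conv_lhs => rw [← Nat.mod_add_div t (lnM B a b), H.up.U_pow_add]
  exact (fix H _ _).2 (dvd_mul_right _ _)

theorem U_inj {v : Q} {t t' : ℕ} (h : (H.up.U ^ t) v = (H.up.U ^ t') v) : t ≡ t' [MOD lnM B a b] := by
  wlog hle : t ≤ t' generalizing t t' with H'
  · exact (H' h.symm (by omega)).symm
  obtain ⟨d, rfl⟩ := Nat.exists_eq_add_of_le hle
  rw [add_comm, H.up.U_pow_add] at h
  have h2 := ((fix H v d).1 ((H.up.U ^ t).injective h).symm)
  have h3 : t + 0 ≡ t + d [MOD lnM B a b] := Nat.ModEq.add_left _ ((Nat.modEq_zero_iff_dvd.2 h2).symm)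
  rwa [add_zero] at h3

theorem U_inj' {v : Q} {t t' : ℕ} (h0 : 0 < t) (h1 : t ≤ lnM B a b) (h0' : 0 < t')
    (h1' : t' ≤ lnM B a b) (h : (H.up.U ^ t) v = (H.up.U ^ t') v) : t = t' := by
  wlog hle : t ≤ t' generalizing t t' with H'
  · exact (H' h0' h1' h0 h1 h.symm (by omega)).symm
  obtain ⟨d, rfl⟩ := Nat.exists_eq_add_of_le hle
  rw [add_comm, H.up.U_pow_add] at h
  have h2 := ((fix H v d).1 ((H.up.U ^ t).injective h).symm)
  rcases Nat.eq_zero_or_pos d with h3 | h3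
  · omega
  · have := Nat.le_of_dvd h3 h2
    omega

theorem U_inj0 {v : Q} {t t' : ℕ} (h1 : t < lnM B a b) (h1' : t' < lnM B a b)
    (h : (H.up.U ^ t) v = (H.up.U ^ t') v) : t = t' := by
  have := U_inj H h
  rwa [Nat.ModEq, Nat.mod_eq_of_lt h1, Nat.mod_eq_of_lt h1'] at this

omit H in
theorem ln_refl (U : Up B) (x : Q) : Ln U x x := ⟨0, rfl⟩

omit H in
theorem Ln.trans {U : Up B} {x y v : Q} (h : Ln U x y) (h' : Ln U y v) : Ln U x v := by
  obtain ⟨t, rfl⟩ := h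
  obtain ⟨s, rfl⟩ := h'
  exact ⟨t + s, (U.U_pow_add _ _ _).symm⟩

theorem ln_symm {x y : Q} (h : Ln H.up x y) : Ln H.up y x := by
  obtain ⟨t, rfl⟩ := h
  have hM := lnM_pos H
  refine ⟨lnM B a b - t % lnM B a b, ?_⟩
  rw [U_mod H x t, ← H.up.U_pow_add]
  have h1 := Nat.mod_lt t hM
  rw [show t % lnM B a b + (lnM B a b - t % lnM B a b) = lnM B a b by omega, U_per H]

/-- The position on the line. -/
theorem ln_pos {x y : Q} (h : Ln H.up x y) : ∃ t < lnM B a b, (H.up.U ^ t) x = y := by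
  obtain ⟨t, rfl⟩ := h
  exact ⟨t % lnM B a b, Nat.mod_lt _ (lnM_pos H), (U_mod H _ _).symm⟩

theorem ln_pos' {x y : Q} (h : Ln H.up x y) (hne : y ≠ x) : ∃ t, 0 < t ∧ t < lnM B a b ∧ (H.up.U ^ t) x = y := by
  obtain ⟨t, h1, rfl⟩ := ln_pos H h
  refine ⟨t, Nat.pos_of_ne_zero ?_, h1, rfl⟩
  rintro rfl
  exact hne rfl

theorem ln_lm {g : Q} (hg : eps g = 1) {x y : Q} (h : Ln H.up x y) : Ln H.up (g * x) (g * y) := by
  obtain ⟨t, rfl⟩ := h
  exact ⟨t, (U_lmp H hg t x).symm⟩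

/-- Every strand has a representative in the kernel. -/
theorem ln_ker (x : Q) : ∃ y, eps y = 1 ∧ Ln H.up x y := by
  rcases Int.units_eq_one_or (eps x) with h | h
  · exact ⟨x, h, ln_refl _ _⟩
  · refine ⟨H.up.U x, by rw [eps_U H, h, neg_neg], 1, ?_⟩
    rw [pow_one]

/-- The lines in the kernel. -/
theorem ln_iff {x y : Q} (hx : eps x = 1) (hy : eps y = 1) :
    Ln H.up x y ↔ x⁻¹ * y ∈ Subgroup.zpowers (B.q a * (B.q b)⁻¹) := by
  have := H.fin
  constructor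
  · rintro ⟨t, rfl⟩
    rcases Nat.even_or_odd' t with ⟨n, rfl | rfl⟩
    · rw [C_U_pow H hx, inv_mul_cancel_left]
      exact Subgroup.pow_mem _ (Subgroup.mem_zpowers _) _
    · exfalso
      rw [eps_Up H, hx, mul_one, Odd.neg_one_pow ⟨n, rfl⟩] at hy
      exact absurd hy (by decide)
  · intro h
    rw [← (isOfFinOrder_of_finite (B.q a * (B.q b)⁻¹)).mem_powers_iff_mem_zpowers] at h
    obtain ⟨n, hn⟩ := h
    refine ⟨2 * n, ?_⟩
    have hn' : (B.q a * (B.q b)⁻¹) ^ n = x⁻¹ * y := hn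
    rw [C_U_pow H hx, hn', mul_inv_cancel_left]

/-- The lines, `x` in the kernel, `y` outside. -/
theorem ln_iff' {x y : Q} (hx : eps x = 1) (hy : eps y = -1) :
    Ln H.up x y ↔ x⁻¹ * (y * (B.q a)⁻¹) ∈ Subgroup.zpowers (B.q a * (B.q b)⁻¹) := by
  have h1 : eps (y * (B.q a)⁻¹) = 1 := by rw [map_mul, map_inv, hy, H.ea]; decide
  have h2 : H.up.U (y * (B.q a)⁻¹) = y := by rw [C_U_one H h1, inv_mul_cancel_right]
  rw [← ln_iff H hx h1]
  have h3 : Ln H.up (y * (B.q a)⁻¹) y := ⟨1, by rw [pow_one, h2]⟩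
  exact ⟨fun h => h.trans (ln_symm H h3), fun h => h.trans h3⟩

/-- One line. -/
theorem cover1 (hi : (Subgroup.zpowers (B.q a * (B.q b)⁻¹)).relIndex eps.ker = 1) (x v : Q) : Ln H.up x v := by
  obtain ⟨x', hx', h1⟩ := ln_ker H x
  obtain ⟨v', hv', h2⟩ := ln_ker H v
  refine h1.trans (Ln.trans ?_ (ln_symm H h2))
  rw [ln_iff H hx' hv']
  refine (Subgroup.relIndex_eq_one.1 hi) ?_
  rw [MonoidHom.mem_ker, map_mul, map_inv, hx', hv']
  rfl

/-- Two lines. -/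
theorem cover2 (hi : (Subgroup.zpowers (B.q a * (B.q b)⁻¹)).relIndex eps.ker = 2) {x y : Q} (h : ¬ Ln H.up x y)
    (v : Q) : Ln H.up x v ∨ Ln H.up y v := by
  by_contra hc
  push Not at hc
  obtain ⟨x', hx', h1⟩ := ln_ker H x
  obtain ⟨y', hy', h2⟩ := ln_ker H y
  obtain ⟨v', hv', h3⟩ := ln_ker H v
  have e1 : ¬ Ln H.up x' y' := fun h4 => h (h1.trans (h4.trans (ln_symm H h2)))
  have e2 : ¬ Ln H.up x' v' := fun h4 => hc.1 (h1.trans (h4.trans (ln_symm H h3)))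
  have e3 : ¬ Ln H.up y' v' := fun h4 => hc.2 (h2.trans (h4.trans (ln_symm H h3)))
  rw [ln_iff H hx' hy'] at e1
  rw [ln_iff H hx' hv'] at e2
  rw [ln_iff H hy' hv'] at e3
  have hi' : ((Subgroup.zpowers (B.q a * (B.q b)⁻¹)).subgroupOf eps.ker).index = 2 := hi
  have k1 : x'⁻¹ * y' ∈ eps.ker := by rw [MonoidHom.mem_ker, map_mul, map_inv, hx', hy']; rfl
  have k2 : x'⁻¹ * v' ∈ eps.ker := by rw [MonoidHom.mem_ker, map_mul, map_inv, hx', hv']; rfl
  have g1 : (⟨x'⁻¹ * y', k1⟩ : eps.ker)⁻¹ ∉ (Subgroup.zpowers (B.q a * (B.q b)⁻¹)).subgroupOf eps.ker := by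
    intro h'
    exact e1 ((Subgroup.inv_mem_iff _).1 h')
  have g2 : (⟨x'⁻¹ * v', k2⟩ : eps.ker) ∉ (Subgroup.zpowers (B.q a * (B.q b)⁻¹)).subgroupOf eps.ker := e2
  have g3 := (Subgroup.mul_mem_iff_of_index_two hi').2 (iff_of_false g1 g2)
  apply e3
  have g4 : (x'⁻¹ * y')⁻¹ * (x'⁻¹ * v') ∈ Subgroup.zpowers (B.q a * (B.q b)⁻¹) := g3
  have g5 : (x'⁻¹ * y')⁻¹ * (x'⁻¹ * v') = y'⁻¹ * v' := by group
  rwa [g5] at g4

/-- There is a second line. -/
theorem ex2 (hi : (Subgroup.zpowers (B.q a * (B.q b)⁻¹)).relIndex eps.ker = 2) (x : Q) : ∃ y, ¬ Ln H.up x y := by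
  by_contra hc
  push Not at hc
  have h1 : eps.ker ≤ Subgroup.zpowers (B.q a * (B.q b)⁻¹) := by
    intro g hg
    have h2 := (ln_iff H (x := 1) (y := g) (map_one _) hg).1 ((ln_symm H (hc 1)).trans (hc g))
    rwa [inv_one, one_mul] at h2
  rw [Subgroup.relIndex_eq_one.2 h1] at hi
  omega

/-- `U` respects the sheets. -/
theorem U_sheet {x y : Q} (h : x⁻¹ * y ∈ D) : (H.up.U x)⁻¹ * H.up.U y ∈ D := by
  have h1 : eps y = eps x := by
    have h2 : eps (x⁻¹ * y) = 1 := H.leD h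
    rw [map_mul, map_inv] at h2
    exact (inv_mul_eq_one.1 h2).symm
  have h3 : H.up.up y = H.up.up x := by rw [C_up H, C_up H, h1]
  rw [H.up.hU, H.up.hU, h3]
  have h4 := H.nD.conj_mem _ h (B.q (H.up.up x))⁻¹
  have h5 : (B.q (H.up.up x))⁻¹ * (x⁻¹ * y) * (B.q (H.up.up x))⁻¹⁻¹ = (x * B.q (H.up.up x))⁻¹ *
    (y * B.q (H.up.up x)) := by group
  rwa [h5] at h4

/-- `U⁻¹` respects the sheets. -/
theorem U_sheet' {x y : Q} (h : (H.up.U x)⁻¹ * H.up.U y ∈ D) : x⁻¹ * y ∈ D := by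
  have h1 : eps y = eps x := by
    have h2 : eps ((H.up.U x)⁻¹ * H.up.U y) = 1 := H.leD h
    rw [map_mul, map_inv, eps_U H, eps_U H] at h2
    have := (inv_mul_eq_one.1 h2).symm
    exact neg_inj.1 this
  have h3 : H.up.up y = H.up.up x := by rw [C_up H, C_up H, h1]
  rw [H.up.hU, H.up.hU, h3] at h
  have h4 := H.nD.conj_mem _ h (B.q (H.up.up x))
  have h5 : B.q (H.up.up x) * ((x * B.q (H.up.up x))⁻¹ * (y * B.q (H.up.up x))) * (B.q (H.up.up x))⁻¹ = x⁻¹ * y := by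
    group
  rwa [h5] at h4

theorem Up_sheet {x y : Q} (t : ℕ) : ((H.up.U ^ t) x)⁻¹ * (H.up.U ^ t) y ∈ D ↔ x⁻¹ * y ∈ D := by
  induction t with
  | zero => exact Iff.rfl
  | succ t ih =>
    rw [H.up.U_pow_succ', H.up.U_pow_succ', ← ih]
    exact ⟨U_sheet' H, U_sheet H⟩

theorem Uz_sheet {x y : Q} (t : ℤ) : ((H.up.U ^ t) x)⁻¹ * (H.up.U ^ t) y ∈ D ↔ x⁻¹ * y ∈ D := by
  rcases Int.eq_nat_or_neg t with ⟨n, rfl | rfl⟩
  · rw [zpow_natCast]; exact Up_sheet H n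
  · rw [← Up_sheet H n, zpow_neg, zpow_natCast, ai, ai]

end

end Pool.Agent.Lib.MP_688fd0_co.SQ4.Small
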