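import Pool.Agent.Lib.MP_688fd0_co.SQ4.Small.Geo
import Pool.Agent.Lib.MP_688fd0_co.SQ4.IfaceV

/-!
Type C1, one window: the components of the puzzle of the window are `InS` sets; the start.
-/

set_option autoImplicit false

namespace Pool.Agent.Lib.MP_688fd0_co.SQ4.Small

open Pool.Agent.Lib.MP_688fd0_co.OSF Pool.Agent.Lib.MP_688fd0_co.SQ2 Pool.Agent.Lib.MP_688fd0_co.SQ3
open Pool.Agent.Lib.MP_688fd0_co.SQ4 Pool.Agent.Lib.MP_688fd0_co.SQ4.CV
open SQ2.V (Puz)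
open SQ2.V.Puz (St)

section rf

variable {Q : Type} [Group Q] {B : Lb.{0, 0} Q} {a b : B.L} {eps : Q →* ℤˣ} {D : Subgroup Q} {z : Q} {k : ℕ}

theorem rf_lm {α : Q} {d : Q} (hd : eps d = 1) (x : Q) : rfC eps α (d * x) = d * rfC eps α x := by
  unfold rfC
  rw [map_mul, hd, one_mul]
  split_ifs
  · rfl
  · rw [mul_assoc]

theorem rf_U (H : HypC B a b eps D z k) (x : Q) : (H.up.U ^ (eeC eps x)) (rfC eps (B.q a) x) = x := by
  unfold rfC eeC
  rcases Int.units_eq_one_or (eps x) with h | h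
  · rw [if_pos h, if_pos h]; rfl
  · have h' : eps x ≠ 1 := by rw [h]; decide
    rw [if_neg h', if_neg h', pow_one]
    rw [H31.C_U_one H (by rw [map_mul, map_inv, h, H.ea]; decide), inv_mul_cancel_right]

theorem ee_le (x : Q) : eeC eps x ≤ 1 := by
  unfold eeC; split_ifs <;> omega

/-- `rf` is injective on a frontier. -/
theorem rf_inj (H : HypC B a b eps D z k) {F : Finset Q} {W : ℕ} (hW : 1 ≤ W)
    (hF : ∀ s ∈ F, ∀ t : ℤ, |t| ≤ W → (H.up.U ^ t) s ∈ F → t = 0) {u v : Q} (hu : u ∈ F) (hv : v ∈ F)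
    (h : rfC eps (B.q a) u = rfC eps (B.q a) v) : u = v := by
  have h1 := rf_U H u
  have h2 := rf_U H v
  rw [h] at h1
  have key : ∀ (u v : Q), u ∈ F → v ∈ F → (H.up.U ^ (eeC eps u)) (rfC eps (B.q a) v) = u →
      (H.up.U ^ (eeC eps v)) (rfC eps (B.q a) v) = v → u = v := by
    intro u v hu hv e1 e2
    have e3 : (H.up.U ^ ((eeC eps u : ℤ) - (eeC eps v : ℤ))) v = u := by
      have e4 : (H.up.U ^ ((eeC eps u : ℤ) - (eeC eps v : ℤ))) v =
          (H.up.U ^ ((eeC eps u : ℤ) - (eeC eps v : ℤ))) ((H.up.U ^ (eeC eps v)) (rfC eps (B.q a) v)) := by rw [e2]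
      rw [e4, ← Equiv.Perm.mul_apply, ← zpow_natCast, ← zpow_add, sub_add_cancel, zpow_natCast, e1]
    have h3 := ee_le (eps := eps) u
    have h4 := ee_le (eps := eps) v
    have e5 := hF v hv ((eeC eps u : ℤ) - (eeC eps v : ℤ)) (abs_le.2 ⟨by omega, by omega⟩) (by rw [e3]; exact hu)
    rw [e5, zpow_zero] at e3
    exact e3.symm
  exact key u v hu hv h1 h2

end rf

section li

variable {S : Type} [Fintype S] [DecidableEq S] {Q : Type} [Group Q] [DecidableEq Q] {B : Lb.{0, 0} Q} {a b : B.L}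
  {eps : Q →* ℤˣ} {D : Subgroup Q} {z : Q} {k : ℕ} {H : HypC B a b eps D z k} {g : S → Q}
  {inj : Function.Injective g} {R : Type} [Fintype R]

/-- Left multiplications by `D` preserve the rungs of a class. -/
def LI (X : ClsW H.up g inj (2 * k) R) : Prop :=
  ∀ d ∈ D, ∀ u u' v v' : S, g u = d * g v → g u' = d * g v' →
    (∃ r, (X.x r = v ∧ X.y r = v') ∨ (X.x r = v' ∧ X.y r = v)) →
      ∃ r, (X.x r = u ∧ X.y r = u') ∨ (X.x r = u' ∧ X.y r = u)

/-- A set of strands which is invariant under left multiplications by `D`. -/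
def LD (D : Subgroup Q) (g : S → Q) (Y : S → Prop) : Prop := ∀ d ∈ D, ∀ u v : S, g u = d * g v → Y v → Y u

omit [Fintype S] [DecidableEq S] [DecidableEq Q] in
theorem ld_sh (hn : D.Normal) (v₀ : S) : LD D g (fun v => Sh D (g v₀) (g v)) := by
  intro d hd u v h hv
  show (g v₀)⁻¹ * g u ∈ D
  rw [h]
  have h1 : (g v₀)⁻¹ * (d * g v) = (g v₀)⁻¹ * g v * ((g v)⁻¹ * d * (g v)⁻¹⁻¹) := by group
  rw [h1]
  exact Subgroup.mul_mem _ hv (hn.conj_mem _ hd _)

omit [Fintype S] [DecidableEq S] [DecidableEq Q] in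
theorem LD.or {Y Y' : S → Prop} (h : LD D g Y) (h' : LD D g Y') : LD D g fun v => Y v ∨ Y' v :=
  fun d hd u v e hv => hv.imp (h d hd u v e) (h' d hd u v e)

omit [Fintype S] [DecidableEq S] [DecidableEq Q] in
theorem LD.not {Y : S → Prop} (h : LD D g Y) : LD D g fun v => ¬ Y v := by
  intro d hd u v e hv hu
  exact hv (h d⁻¹ (D.inv_mem hd) v u (by rw [e, inv_mul_cancel_left]) hu)

theorem li_in {X : ClsW H.up g inj (2 * k) R} {Y : S → Prop} {wd : R → List B.L} {In : R → Prop} {h : ℕ}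
    (hX : FamB H g inj X Y wd In h) (hY : LD D g Y)
    (hrf : ∀ u v : S, rfC eps (B.q a) (g u) = rfC eps (B.q a) (g v) → u = v) {d : Q} (hd : d ∈ D) {u u' v v' : S}
    (e : g u = d * g v) (e' : g u' = d * g v') {r : R} (hr : In r) (h1 : X.x r = v) (h2 : X.y r = v') :
    ∃ r, X.x r = u ∧ X.y r = u' := by
  have hd1 : eps d = 1 := H.leD hd
  obtain ⟨-, q, hq, h3⟩ := hX.inner r hr
  obtain ⟨r', -, h4, h5⟩ := hX.inn u (hY d hd u v e (by rw [← h1]; exact hX.xY r)) q hq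
  refine ⟨r', h4, hrf _ _ ?_⟩
  rw [h5, e, rf_lm hd1, e', rf_lm hd1, mul_assoc, ← h2, h3, h1]

theorem li_b {X : ClsW H.up g inj (2 * k) R} {Y : S → Prop} {wd : R → List B.L} {In : R → Prop} {h : ℕ}
    (hX : FamB H g inj X Y wd In h) (hY : LD D g Y) (hall : ∀ r, In r)
    (hrf : ∀ u v : S, rfC eps (B.q a) (g u) = rfC eps (B.q a) (g v) → u = v) : LI X := by
  rintro d hd u u' v v' e e' ⟨r, ⟨h1, h2⟩ | ⟨h1, h2⟩⟩
  · obtain ⟨r', h3⟩ := li_in hX hY hrf hd e e' (hall r) h1 h2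
    exact ⟨r', Or.inl h3⟩
  · obtain ⟨r', h3⟩ := li_in hX hY hrf hd e' e (hall r) h1 h2
    exact ⟨r', Or.inr h3⟩

omit [Fintype S] [DecidableEq S] [DecidableEq Q] in
theorem crs_lm {s : B.L} {n : ℤ} {M : Set Q} {Y₀ Y₁ : S → Prop} (h₀ : LD D g Y₀) (h₁ : LD D g Y₁) {d : Q}
    (hd : d ∈ D) {u u' v v' : S} (e : g u = d * g v) (e' : g u' = d * g v') (h : Crs H g s n M Y₀ Y₁ v v') :
    Crs H g s n M Y₀ Y₁ u u' := by
  have hd1 : eps d = 1 := H.leD hd
  obtain ⟨h1, h2, i, m, hm, h3⟩ := h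
  refine ⟨h₀ d hd u v e h1, h₁ d hd u' v' e' h2, i, m, hm, ?_⟩
  rw [e, e', rf_lm hd1, rf_lm hd1, mul_assoc, h3]
  group

theorem li_x {X : ClsW H.up g inj (2 * k) R} {s : B.L} {n : ℤ} {M : Set Q} {Y₀ Y₁ : S → Prop} {wd : R → List B.L}
    {In : R → Prop} {h : ℕ} (hX : FamX H g inj X s n M Y₀ Y₁ wd In h) (h₀ : LD D g Y₀) (h₁ : LD D g Y₁)
    (hrf : ∀ u v : S, rfC eps (B.q a) (g u) = rfC eps (B.q a) (g v) → u = v) : LI X := by
  have key : ∀ d ∈ D, ∀ u u' v v' : S, g u = d * g v → g u' = d * g v' → ∀ r, X.x r = v → X.y r = v' →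
      ∃ r, (X.x r = u ∧ X.y r = u') ∨ (X.x r = u' ∧ X.y r = u) := by
    intro d hd u u' v v' e e' r h1 h2
    by_cases hr : In r
    · obtain ⟨r', h3⟩ := li_in hX.toFamB (h₀.or h₁) hrf hd e e' hr h1 h2
      exact ⟨r', Or.inl h3⟩
    · rcases hX.cross r hr with h3 | h3
      · rw [h1, h2] at h3
        obtain ⟨r', -, h4⟩ := hX.crs _ _ (crs_lm h₀ h₁ hd e e' h3)
        exact ⟨r', h4⟩
      · rw [h1, h2] at h3
        obtain ⟨r', -, h4⟩ := hX.crs _ _ (crs_lm h₀ h₁ hd e' e h3)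
        exact ⟨r', h4.symm⟩
  rintro d hd u u' v v' e e' ⟨r, ⟨h1, h2⟩ | ⟨h1, h2⟩⟩
  · exact key d hd u u' v v' e e' r h1 h2
  · obtain ⟨r', h3⟩ := key d hd u' u v' v e' e r h1 h2
    exact ⟨r', h3.symm⟩

end li

section comp

variable {Q : Type} [Group Q] [DecidableEq Q] {B : Lb.{0, 0} Q} {a b : B.L}
  {eps : Q →* ℤˣ} {D : Subgroup Q} {z : Q} {k : ℕ} {H : HypC B a b eps D z k} {F : Finset Q}

theorem comp_lm (T : Pth H F) (hF : ∀ s ∈ F, ∀ δ ∈ D, s * δ ∈ F) {J : T.C → Prop}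
    (hJ : ∀ c, J c → LI (T.X c)) {d : Q} (hd : d ∈ D) {v v' : {v // v ∈ F}}
    (h : Relation.ReflTransGen (T.Jn J) v v') : ∀ u u' : {v // v ∈ F}, (u : Q) = d * v → (u' : Q) = d * v' →
      Relation.ReflTransGen (T.Jn J) u u' := by
  have hm : ∀ v : {v // v ∈ F}, d * (v : Q) ∈ F := by
    intro v
    have h1 : d * (v : Q) = v * ((v : Q)⁻¹ * d * (v : Q)⁻¹⁻¹) := by group
    rw [h1]
    exact hF _ v.2 _ (H.nD.conj_mem _ hd _)
  induction h with
  | refl =>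
    intro u u' e e'
    have : u = u' := Subtype.ext (e.trans e'.symm)
    rw [this]
  | tail _ h2 ih =>
    rename_i v₁ v₂ _
    intro u u' e e'
    refine (ih u ⟨d * v₁, hm v₁⟩ e rfl).tail ?_
    obtain ⟨c, hc, hr⟩ := h2
    obtain ⟨r', h3⟩ := hJ c hc d hd ⟨d * v₁, hm v₁⟩ u' v₁ v₂ rfl e' hr
    exact ⟨c, hc, r', h3⟩

/-- A component is an `InS` set. -/
theorem inS_comp (T : Pth H F) {J : T.C → Prop} {x s₁ s₂ : Q}
    (hJ : ∀ c, J c → LI (T.X c)) (hF : ∀ s ∈ F, ∀ δ ∈ D, s * δ ∈ F)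
    (hfin : Finite Q) {A : {v // v ∈ F} → Prop} (hx : x ∈ F) (hA : T.IsComp J ⟨x, hx⟩ A) (h₁ : ∃ h, A ⟨s₁, h⟩)
    (h₂ : ∃ h, A ⟨s₂, h⟩) {y₁ y₂ y : Q}
    (hs : ∀ v, A v → Sh D x v ∨ Sh D y₁ v ∨ Sh D y₂ v ∨ Sh D y v) (S : Finset Q)
    (hS : ∀ v, v ∈ S ↔ ∃ h : v ∈ F, A ⟨v, h⟩) : InS D k F x s₁ s₂ S := by
  classical
  refine ⟨fun v hv => ((hS v).1 hv).1, (hS x).2 ⟨hx, (hA _).2 Relation.ReflTransGen.refl⟩, (hS _).2 h₁, (hS _).2 h₂,
    ?_, ?_⟩
  · have hk : Nat.card D ≤ k := Nat.le_of_dvd H.kpos H.card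
    have hc : ∀ u : Q, (S.filter fun v => u⁻¹ * v ∈ D).card ≤ Nat.card D := by
      intro u
      classical
      have : Fintype D := Fintype.ofFinite _
      rw [Nat.card_eq_fintype_card]
      have h1 : (S.filter fun v => u⁻¹ * v ∈ D).card ≤ (Finset.univ : Finset D).card := by
        refine Finset.card_le_card_of_injOn (fun v => if h : u⁻¹ * v ∈ D then ⟨_, h⟩ else 1) (fun _ _ => Finset.mem_univ _) ?_
        intro v hv v' hv' e
        have k1 := (Finset.mem_filter.1 (Finset.mem_coe.1 hv)).2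
        have k2 := (Finset.mem_filter.1 (Finset.mem_coe.1 hv')).2
        simp only [dif_pos k1, dif_pos k2] at e
        exact mul_left_cancel (congrArg Subtype.val e)
      exact h1
    have hsub : S ⊆ (S.filter fun v => x⁻¹ * v ∈ D) ∪ ((S.filter fun v => y₁⁻¹ * v ∈ D) ∪
        ((S.filter fun v => y₂⁻¹ * v ∈ D) ∪ (S.filter fun v => y⁻¹ * v ∈ D))) := by
      intro v hv
      obtain ⟨h1, h2⟩ := (hS v).1 hv
      simp only [Finset.mem_union, Finset.mem_filter]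
      rcases hs _ h2 with h3 | h3 | h3 | h3
      · exact Or.inl ⟨hv, h3⟩
      · exact Or.inr (Or.inl ⟨hv, h3⟩)
      · exact Or.inr (Or.inr (Or.inl ⟨hv, h3⟩))
      · exact Or.inr (Or.inr (Or.inr ⟨hv, h3⟩))
    have h1 := Finset.card_le_card hsub
    have h2 := Finset.card_union_le (S.filter fun v => x⁻¹ * v ∈ D) ((S.filter fun v => y₁⁻¹ * v ∈ D) ∪
        ((S.filter fun v => y₂⁻¹ * v ∈ D) ∪ (S.filter fun v => y⁻¹ * v ∈ D)))
    have h3 := Finset.card_union_le (S.filter fun v => y₁⁻¹ * v ∈ D)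
        ((S.filter fun v => y₂⁻¹ * v ∈ D) ∪ (S.filter fun v => y⁻¹ * v ∈ D))
    have h4 := Finset.card_union_le (S.filter fun v => y₂⁻¹ * v ∈ D) (S.filter fun v => y⁻¹ * v ∈ D)
    have k1 := hc x
    have k2 := hc y₁
    have k3 := hc y₂
    have k4 := hc y
    omega
  · intro u hu hxu v hv
    obtain ⟨hu1, hu2⟩ := (hS u).1 hu
    obtain ⟨hv1, hv2⟩ := (hS v).1 hv
    have hd : u * x⁻¹ ∈ D := by
      have h1 := H.nD.conj_mem _ hxu x
      have h2 : x * (x⁻¹ * u) * x⁻¹ = u * x⁻¹ := by group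
      rwa [h2] at h1
    have hm : u * x⁻¹ * v ∈ F := by
      have h1 : u * x⁻¹ * v = v * (v⁻¹ * (u * x⁻¹) * v⁻¹⁻¹) := by group
      rw [h1]
      exact hF _ hv1 _ (H.nD.conj_mem _ hd _)
    refine (hS _).2 ⟨hm, (hA _).2 (((hA _).1 hu2).trans ?_)⟩
    exact comp_lm T hF hJ hd ((hA _).1 hv2) _ _ (by show u = u * x⁻¹ * x; group) rfl

/-- The start: the tokens are at home. -/
theorem strt0 (T : Pth H F) {x s₁ s₂ : Q} (hl : (T.l₀ : Q) = x) (hadj : T.P.Adj T.g T.f T.l₀)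
    (h₁ : (T.P.oth T.f T.l₀ : Q) = s₁) {J : T.C → Prop} {A : {v // v ∈ F} → Prop} (hJf : T.rg J A T.f)
    (hC : T.fw.Clo A (T.rg J A)) {S : Finset Q} (hS : ∀ v, v ∈ S ↔ ∃ h : v ∈ F, A ⟨v, h⟩)
    {K : Type} [Field K] (w : Q → K) (hw : w x + w s₁ = 0) (hsum : ∑ s ∈ S, w s ≠ 0)
    {Cc : (Σ c, T.Rc c) → Prop} (hCc : Cc (T.P.tau T.f)) : Strt T.P T.f A Cc (fun v => w (v : Q)) := by
  refine ⟨T.P.st₁ T.f, ⟨[], trivial, rfl⟩, hCc, ?_, ?_, ?_⟩
  · intro t t' h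
    exact Subtype.ext ((T.P.T T.f).injective h)
  · intro L
    have hon : T.P.On (T.P.tau T.f) L ↔ T.P.On T.f ((T.P.T T.f)⁻¹ L) := by
      obtain ⟨h1, h2⟩ | ⟨h1, h2⟩ := T.P.T_ends T.f
      · unfold Puz.On
        rw [← h1, ← h2, Equiv.Perm.inv_eq_iff_eq, Equiv.Perm.inv_eq_iff_eq]
      · unfold Puz.On
        rw [← h1, ← h2, Equiv.Perm.inv_eq_iff_eq, Equiv.Perm.inv_eq_iff_eq, or_comm]
    show (∃ t : T.P.TokOf T.f, T.P.T T.f t = L) ↔ ¬ T.P.On (T.P.tau T.f) L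
    rw [hon]
    constructor
    · rintro ⟨t, rfl⟩
      have : (T.P.T T.f)⁻¹ (T.P.T T.f (t : {v // v ∈ F})) = t := (T.P.T T.f).symm_apply_apply _
      rw [this]
      exact t.2
    · intro h
      exact ⟨⟨_, h⟩, (T.P.T T.f).apply_symm_apply _⟩
  · intro hdec h0
    apply hsum
    classical
    have hT : ∀ v : {v // v ∈ F}, A (T.P.T T.f v) ↔ A v := fun v => (hC.iff_T v hJf).symm
    have hnot : ¬ (T.P.oth T.f T.l₀ : Q) = T.l₀ := by
      intro h
      have h1 : T.P.oth T.f T.l₀ = T.l₀ := Subtype.ext h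
      have h2 := T.P.ne T.f
      unfold Puz.oth at h1
      split_ifs at h1 with h3
      · exact h2 (h3.symm.trans h1.symm)
      · rcases hadj.2.1 with h4 | h4
        · exact h3 h4
        · exact h2 (h1.trans h4)
    -- the ends of `f`
    have hon : ∀ v : {v // v ∈ F}, T.P.On T.f v ↔ v = T.l₀ ∨ v = T.P.oth T.f T.l₀ := by
      intro v
      unfold Puz.oth Puz.On
      rcases hadj.2.1 with h4 | h4
      · rw [if_pos h4, h4]
      · by_cases h5 : T.l₀ = T.P.x T.f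
        · exact absurd (h5.symm.trans h4) (T.P.ne T.f)
        · rw [if_neg h5, h4, or_comm]
    have hAx : A T.l₀ := by
      rcases hadj.2.1 with h4 | h4
      · rw [h4]; exact hC.x _ hJf
      · rw [h4]; exact hC.y _ hJf
    have hAs : A (T.P.oth T.f T.l₀) := by
      unfold Puz.oth
      split_ifs
      · exact hC.y _ hJf
      · exact hC.x _ hJf
    have e1 : ∑ s ∈ S, w s = ∑ v : {v // v ∈ F}, if A v then w v else 0 := by
      rw [← Finset.sum_filter]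
      refine Finset.sum_bij' (fun s hs => ⟨s, ((hS s).1 hs).1⟩) (fun v _ => (v : Q)) ?_ ?_ ?_ ?_ ?_
      · intro s hs
        simp only [Finset.mem_filter, Finset.mem_univ, true_and]
        exact ((hS s).1 hs).2
      · intro v hv
        rw [Finset.mem_filter] at hv
        exact (hS _).2 ⟨v.2, hv.2⟩
      · intro s hs; rfl
      · intro v hv; rfl
      · intro s hs; rfl
    have e2 : ∑ v : {v // v ∈ F}, (if A v then w v else 0) =
        ∑ v : {v // v ∈ F} with T.P.On T.f v, (if A v then w v else 0) +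
          ∑ v : {v // v ∈ F} with ¬ T.P.On T.f v, (if A v then w v else 0) :=
      (Finset.sum_filter_add_sum_filter_not _ _ _).symm
    have e3 : ∑ v : {v // v ∈ F} with T.P.On T.f v, (if A v then w v else 0) = 0 := by
      have h5 : (Finset.univ.filter fun v : {v // v ∈ F} => T.P.On T.f v) = {T.l₀, T.P.oth T.f T.l₀} := by
        ext v
        simp only [Finset.mem_filter, Finset.mem_univ, true_and, Finset.mem_insert, Finset.mem_singleton]
        exact hon v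
      rw [h5, Finset.sum_pair (fun h => hnot (congrArg Subtype.val h).symm), if_pos hAx, if_pos hAs, hl, h₁]
      exact hw
    have e4 : ∑ v : {v // v ∈ F} with ¬ T.P.On T.f v, (if A v then w v else 0) =
        ∑ t : T.P.TokOf T.f, if A ((T.P.st₁ T.f).2 t) then w ((t : {v // v ∈ F}) : Q) else 0 := by
      rw [Finset.sum_subtype (Finset.univ.filter fun v : {v // v ∈ F} => ¬ T.P.On T.f v)
        (p := fun v => ¬ T.P.On T.f v) (by simp)]
      refine Finset.sum_congr rfl fun t _ => ?_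
      show _ = if A (T.P.T T.f t) then _ else _
      by_cases hA : A (t : {v // v ∈ F})
      · rw [if_pos hA, if_pos ((hT _).2 hA)]
      · rw [if_neg hA, if_neg (fun h => hA ((hT _).1 h))]
    rw [e1, e2, e3, zero_add, e4]
    exact h0

end comp

end Pool.Agent.Lib.MP_688fd0_co.SQ4.Small
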