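import Pool.Agent.Lib.MP_688fd0_co.SQ4.Small.IfaceR

/-!
Type C1, at most two lines, not rigid: row CN2 (two lines, a context exists).
-/

set_option autoImplicit false

namespace Pool.Agent.Lib.MP_688fd0_co.SQ4.Small

open Pool.Agent.Lib.MP_688fd0_co.OSF Pool.Agent.Lib.MP_688fd0_co.SQ2 Pool.Agent.Lib.MP_688fd0_co.SQ3
open Pool.Agent.Lib.MP_688fd0_co.SQ4
open H31

namespace CN2

section

variable {Q : Type} [Group Q] {B : Lb.{0, 0} Q} {a b : B.L} {eps : Q →* ℤˣ} {D : Subgroup Q} {z : Q} {k c W : ℕ}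
  {F : Finset Q}

/-! ### The subgroup of `w` in the kernel of `eps` -/

section

variable (H : HypC B a b eps D z k) (hi : (Subgroup.zpowers (B.q a * (B.q b)⁻¹)).relIndex eps.ker = 2)

include H hi

omit H in
theorem w_mul {x y : Q} (hx : eps x = 1) (hy : eps y = 1) :
    x * y ∈ Subgroup.zpowers (B.q a * (B.q b)⁻¹) ↔
      (x ∈ Subgroup.zpowers (B.q a * (B.q b)⁻¹) ↔ y ∈ Subgroup.zpowers (B.q a * (B.q b)⁻¹)) := by
  have hi' : ((Subgroup.zpowers (B.q a * (B.q b)⁻¹)).subgroupOf eps.ker).index = 2 := hi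
  exact Subgroup.mul_mem_iff_of_index_two hi' (a := ⟨x, hx⟩) (b := ⟨y, hy⟩)

omit H in
theorem w_conj {x y : Q} (hx : eps x = 1) (hy : eps y = 1) (h : x ∈ Subgroup.zpowers (B.q a * (B.q b)⁻¹)) :
    y * x * y⁻¹ ∈ Subgroup.zpowers (B.q a * (B.q b)⁻¹) := by
  have h1 : eps (y * x) = 1 := by rw [map_mul, hx, hy, one_mul]
  have h2 : eps y⁻¹ = 1 := by rw [map_inv, hy, inv_one]
  rw [w_mul hi h1 h2, w_mul hi hy hx, Subgroup.inv_mem_iff]
  tauto

end

section

variable (H : HypC B a b eps D z k)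

include H

theorem eps_D {m : Q} (h : m ∈ D) : eps m = 1 := H.leD h

/-- Lines of elements of the kernel. -/
theorem ln_one {y : Q} (hy : eps y = 1) : Ln H.up 1 y ↔ y ∈ Subgroup.zpowers (B.q a * (B.q b)⁻¹) := by
  rw [ln_iff H (map_one _) hy, inv_one, one_mul]

theorem ln_one' {y : Q} (hy : eps y = -1) :
    Ln H.up 1 y ↔ y * (B.q a)⁻¹ ∈ Subgroup.zpowers (B.q a * (B.q b)⁻¹) := by
  rw [ln_iff' H (map_one _) hy, inv_one, one_mul]

theorem ln_z (x : Q) (o : ℤ) : Ln H.up x ((H.up.U ^ o) x) := by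
  rcases Int.eq_nat_or_neg o with ⟨n, rfl | rfl⟩
  · exact ⟨n, by rw [zpow_natCast]⟩
  · refine ln_symm H ⟨n, ?_⟩
    rw [zpow_neg, zpow_natCast]
    exact (ai _ _).symm

theorem D_sub (hF : FrC H.up D k c W 1 F) {m : Q} (hm : m ∈ D) : m ∈ F := by
  have := hF.inv 1 hF.fx m hm
  rwa [one_mul] at this

theorem F_left (hF : FrC H.up D k c W 1 F) {m s : Q} (hm : m ∈ D) (hs : s ∈ F) : m * s ∈ F := by
  have h1 := H.nD.conj_mem m hm s⁻¹
  have h2 := hF.inv s hs _ h1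
  have h3 : s * (s⁻¹ * m * s⁻¹⁻¹) = m * s := by group
  rwa [h3] at h2

/-! ### Neighbours -/

/-- The near moves. -/
def Mv (H : HypC B a b eps D z k) (m : Q) : Prop :=
  ∃ (i : ℕ) (t : B.L), i < 2 * k ∧ eps (B.q t) = 1 ∧ (H.up.U ^ i) 1 * B.q t = (H.up.U ^ i) m

omit H in
theorem Mv.lf {H : HypC B a b eps D z k} {m : Q} (h : Mv H m) : Lf B a b eps D z k c H.up 1 m := by
  obtain ⟨i, t, h1, h2, h3⟩ := h
  exact Lf.rot i t h1 h2 h3

omit H in
theorem Mv.mem {H : HypC B a b eps D z k} {m : Q} (h : Mv H m) : m ∈ D := by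
  obtain ⟨i, t, h1, h2, h3⟩ := h
  have h4 : (1 : Q)⁻¹ * m ∈ D := by
    rw [← Up_sheet H i, ← h3, inv_mul_cancel_left]
    exact H.near t h2
  rwa [inv_one, one_mul] at h4

omit H in
theorem Mv.ne {H : HypC B a b eps D z k} {m : Q} (h : Mv H m) : m ≠ 1 := by
  obtain ⟨i, t, h1, h2, h3⟩ := h
  rintro rfl
  exact B.ne_one t (mul_eq_left.1 h3)

theorem mv0 {t : B.L} (ht : eps (B.q t) = 1) : Mv H (B.q t) := by
  refine ⟨0, t, by have := H.kpos; omega, ht, ?_⟩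
  rw [pow_zero, Equiv.Perm.one_apply, Equiv.Perm.one_apply, one_mul]

omit H in
theorem eps_cj {t : B.L} (ht : eps (B.q t) = 1) (x : Q) : eps (x * B.q t * x⁻¹) = 1 := by
  rw [map_mul, map_mul, map_inv, ht, mul_one, mul_inv_cancel]

theorem mv1 {t : B.L} (ht : eps (B.q t) = 1) : Mv H (B.q a * B.q t * (B.q a)⁻¹) := by
  refine ⟨1, t, by have := H.kpos; omega, ht, ?_⟩
  rw [pow_one, C_U_one H (map_one _), C_U_one H (eps_cj ht _), inv_mul_cancel_right, one_mul]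

theorem mv2 (hk : 2 ≤ k) {t : B.L} (ht : eps (B.q t) = 1) :
    Mv H (B.q a * (B.q b)⁻¹ * B.q t * (B.q a * (B.q b)⁻¹)⁻¹) := by
  refine ⟨2, t, by omega, ht, ?_⟩
  have h1 := C_U_pow H (x := 1) (map_one _) 1
  have h2 := C_U_pow H (x := B.q a * (B.q b)⁻¹ * B.q t * (B.q a * (B.q b)⁻¹)⁻¹) (eps_cj ht _) 1
  rw [mul_one, pow_one, one_mul] at h1
  rw [mul_one, pow_one, inv_mul_cancel_right] at h2
  rw [h1, h2]

theorem k_ge {t : B.L} (ht : eps (B.q t) = 1) : 2 ≤ k := by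
  have hf := H.fin
  have h1 : Nat.card D ≠ 1 := by
    intro h1
    rw [Subgroup.card_eq_one] at h1
    have h2 := H.near t ht
    rw [h1, Subgroup.mem_bot] at h2
    exact B.ne_one t h2
  have h2 := Nat.le_of_dvd H.kpos H.card
  have h3 : 0 < Nat.card D := Nat.card_pos
  omega

/-- A far leaf. -/
theorem far_leaf (hF : FrC H.up D k c W 1 F) {g : B.L} (hg : FarC B a b eps D g) {μ : Q} (hm : μ ∈ D)
    (hμ : shZ B a b D z k μ) : ∃ s ∈ F, Lf B a b eps D z k c H.up 1 s ∧ Ln H.up (μ * B.q g) s ∧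
      ∃ o : ℤ, |o| ≤ c ∧ μ * B.q g = (H.up.U ^ o) s := by
  obtain ⟨o, ho, h1⟩ := hF.fsh [g] (by simp)
  have h2 : B.fin 1 [g] = B.q g := by
    show B.fin (1 * B.q g) [] = _
    rw [one_mul]
    rfl
  rw [h2] at h1
  have h3 := F_left H hF hm h1
  rw [← U_lmz H (eps_D H hm)] at h3
  have h4 : μ * B.q g = (H.up.U ^ (-o)) ((H.up.U ^ o) (μ * B.q g)) := by
    rw [zpow_neg]
    exact ((H.up.U ^ o).symm_apply_apply _).symm
  refine ⟨_, h3, Lf.far g μ (-o) hg hμ (by rw [abs_neg]; omega) (by rw [one_mul]; exact h4), ln_z H _ _, -o,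
    by rw [abs_neg]; exact ho, h4⟩

omit H in
theorem shZ_one : shZ B a b D z k 1 := Subgroup.one_mem _

/-- The strand of a near reflection. -/
theorem near_strand {g : B.L} (hg : eps (B.q g) = -1) (hn : ¬ FarC B a b eps D g) :
    ∃ σ ∈ D, (σ = B.q g * (B.q a)⁻¹ ∨ σ = B.q g * (B.q b)⁻¹) ∧ shZ B a b D z k σ ∧
      ∃ o : ℤ, (o = 1 ∨ o = -1) ∧ 1 * B.q g = (H.up.U ^ o) σ := by
  have h1 : (B.q a)⁻¹ * B.q g ∈ D ∨ (B.q b)⁻¹ * B.q g ∈ D := by
    by_contra hc
    push Not at hc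
    exact hn ⟨hg, hc.1, hc.2⟩
  have haa : (B.q a)⁻¹ * B.q a ∈ D := by rw [inv_mul_cancel]; exact one_mem _
  have hbb : (B.q b)⁻¹ * B.q b ∈ D := by rw [inv_mul_cancel]; exact one_mem _
  rcases h1 with h1 | h1
  · have h2 := H.nD.conj_mem _ h1 (B.q a)
    have h3 : B.q a * ((B.q a)⁻¹ * B.q g) * (B.q a)⁻¹ = B.q g * (B.q a)⁻¹ := by group
    rw [h3] at h2
    refine ⟨_, h2, Or.inl rfl, ?_, 1, Or.inl rfl, ?_⟩
    · have e1 := Subgroup.subset_closure (show ((z⁻¹ * (B.q g * (B.q b)⁻¹), Multiplicative.ofAdd 1) :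
        Q × Multiplicative (ZMod k)) ∈ {v : Q × Multiplicative (ZMod k) | ∃ c d : B.L,
          (B.q a)⁻¹ * B.q c ∈ D ∧ (B.q b)⁻¹ * B.q d ∈ D ∧ v = (z⁻¹ * (B.q c * (B.q d)⁻¹), Multiplicative.ofAdd 1)}
        from ⟨g, b, h1, hbb, rfl⟩)
      have e2 := Subgroup.subset_closure (show ((z⁻¹ * (B.q a * (B.q b)⁻¹), Multiplicative.ofAdd 1) :
        Q × Multiplicative (ZMod k)) ∈ {v : Q × Multiplicative (ZMod k) | ∃ c d : B.L,
          (B.q a)⁻¹ * B.q c ∈ D ∧ (B.q b)⁻¹ * B.q d ∈ D ∧ v = (z⁻¹ * (B.q c * (B.q d)⁻¹), Multiplicative.ofAdd 1)}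
        from ⟨a, b, haa, hbb, rfl⟩)
      have e3 := Subgroup.mul_mem _ e1 (Subgroup.inv_mem _ e2)
      have e4 : ((z⁻¹ * (B.q g * (B.q b)⁻¹), Multiplicative.ofAdd 1) : Q × Multiplicative (ZMod k)) *
          ((z⁻¹ * (B.q a * (B.q b)⁻¹), Multiplicative.ofAdd 1) : Q × Multiplicative (ZMod k))⁻¹ =
          (B.q g * (B.q a)⁻¹, 1) := by
        refine Prod.ext ?_ ?_
        · show z⁻¹ * (B.q g * (B.q b)⁻¹) * (z⁻¹ * (B.q a * (B.q b)⁻¹))⁻¹ = B.q g * (B.q a)⁻¹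
          have e5 := H.cen _ (eps_D H h2)
          have e6 : z⁻¹ * (B.q g * (B.q b)⁻¹) * (z⁻¹ * (B.q a * (B.q b)⁻¹))⁻¹ = z⁻¹ * (B.q g * (B.q a)⁻¹ * z) := by
            group
          rw [e6, e5, inv_mul_cancel_left]
        · exact mul_inv_cancel _
      rw [e4] at e3
      exact e3
    · rw [zpow_one, C_U_one H (eps_D H h2), inv_mul_cancel_right, one_mul]
  · have h2 := H.nD.conj_mem _ h1 (B.q b)
    have h3 : B.q b * ((B.q b)⁻¹ * B.q g) * (B.q b)⁻¹ = B.q g * (B.q b)⁻¹ := by group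
    rw [h3] at h2
    refine ⟨_, h2, Or.inr rfl, ?_, -1, Or.inr rfl, ?_⟩
    · have e1 := Subgroup.subset_closure (show ((z⁻¹ * (B.q a * (B.q g)⁻¹), Multiplicative.ofAdd 1) :
        Q × Multiplicative (ZMod k)) ∈ {v : Q × Multiplicative (ZMod k) | ∃ c d : B.L,
          (B.q a)⁻¹ * B.q c ∈ D ∧ (B.q b)⁻¹ * B.q d ∈ D ∧ v = (z⁻¹ * (B.q c * (B.q d)⁻¹), Multiplicative.ofAdd 1)}
        from ⟨a, g, haa, h1, rfl⟩)
      have e2 := Subgroup.subset_closure (show ((z⁻¹ * (B.q a * (B.q b)⁻¹), Multiplicative.ofAdd 1) :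
        Q × Multiplicative (ZMod k)) ∈ {v : Q × Multiplicative (ZMod k) | ∃ c d : B.L,
          (B.q a)⁻¹ * B.q c ∈ D ∧ (B.q b)⁻¹ * B.q d ∈ D ∧ v = (z⁻¹ * (B.q c * (B.q d)⁻¹), Multiplicative.ofAdd 1)}
        from ⟨a, b, haa, hbb, rfl⟩)
      have e3 := Subgroup.mul_mem _ (Subgroup.inv_mem _ e1) e2
      have e4 : ((z⁻¹ * (B.q a * (B.q g)⁻¹), Multiplicative.ofAdd 1) : Q × Multiplicative (ZMod k))⁻¹ *
          ((z⁻¹ * (B.q a * (B.q b)⁻¹), Multiplicative.ofAdd 1) : Q × Multiplicative (ZMod k)) =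
          (B.q g * (B.q b)⁻¹, 1) := by
        refine Prod.ext ?_ ?_
        · show (z⁻¹ * (B.q a * (B.q g)⁻¹))⁻¹ * (z⁻¹ * (B.q a * (B.q b)⁻¹)) = B.q g * (B.q b)⁻¹
          group
        · exact inv_mul_cancel _
      rw [e4] at e3
      exact e3
    · have e0 : (H.up.U ^ (-1 : ℤ)) (B.q g * (B.q b)⁻¹) = B.q g := by
        rw [zpow_neg, zpow_one]
        apply H.up.U.injective
        rw [ai, C_U_neg H (by rw [hg]; decide)]
      rw [e0, one_mul]

/-- The position of `t` or of its inverse. -/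
theorem pos_half {t : Q} (h1 : eps t = 1) (ht : t ≠ 1) (hw : t ∈ Subgroup.zpowers (B.q a * (B.q b)⁻¹)) :
    ∃ s, (s = t ∨ s = t⁻¹) ∧ ∃ d, 0 < d ∧ d < lnM B a b ∧ (H.up.U ^ d) 1 = s ∧ lnM B a b ≤ 2 * d := by
  obtain ⟨d, d0, d1, d2⟩ := ln_pos' H ((ln_one H h1).2 hw) ht
  by_cases h : lnM B a b ≤ 2 * d
  · exact ⟨t, Or.inl rfl, d, d0, d1, d2, h⟩
  · refine ⟨t⁻¹, Or.inr rfl, lnM B a b - d, by omega, by omega, ?_, by omega⟩
    have e1 : (H.up.U ^ (lnM B a b - d)) t = 1 := by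
      rw [← d2, ← H.up.U_pow_add, show d + (lnM B a b - d) = lnM B a b by omega, U_per H]
    have e2 := U_lmp H h1 (lnM B a b - d) 1
    rw [mul_one, e1] at e2
    exact eq_inv_of_mul_eq_one_right e2.symm

/-- The kernel of `eps` is generated by `w` and `r`. -/
theorem central (hi : (Subgroup.zpowers (B.q a * (B.q b)⁻¹)).relIndex eps.ker = 2) {r : Q} (hr : eps r = 1)
    (hrw : r ∉ Subgroup.zpowers (B.q a * (B.q b)⁻¹)) (hw : r * (B.q a * (B.q b)⁻¹) = B.q a * (B.q b)⁻¹ * r)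
    (ha : r * B.q a = B.q a * r) (x : Q) : r * x = x * r := by
  have hcw : ∀ y ∈ Subgroup.zpowers (B.q a * (B.q b)⁻¹), r * y = y * r := by
    rintro y ⟨n, rfl⟩
    exact ((show Commute r (B.q a * (B.q b)⁻¹) from hw).zpow_right n).eq
  have hker : ∀ y, eps y = 1 → r * y = y * r := by
    intro y hy
    by_cases h : y ∈ Subgroup.zpowers (B.q a * (B.q b)⁻¹)
    · exact hcw y h
    · have h1 : r⁻¹ * y ∈ Subgroup.zpowers (B.q a * (B.q b)⁻¹) := by
        rw [w_mul hi (by rw [map_inv, hr, inv_one]) hy, Subgroup.inv_mem_iff]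
        exact iff_of_false hrw h
      have h2 := hcw _ h1
      rw [mul_inv_cancel_left] at h2
      have h3 : r * (r⁻¹ * y * r) = y * r := by group
      rw [← h3, ← h2]
  rcases Int.units_eq_one_or (eps x) with h | h
  · exact hker x h
  · have h1 : eps (x * (B.q a)⁻¹) = 1 := by rw [map_mul, map_inv, h, H.ea]; decide
    have h2 := hker _ h1
    calc r * x = r * (x * (B.q a)⁻¹) * B.q a := by group
      _ = x * (B.q a)⁻¹ * (r * B.q a) := by rw [h2, mul_assoc]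
      _ = x * r := by rw [ha]; group

end

/-! ### Positions -/

section

variable (H : HypE B a b eps D z k) (hi : (Subgroup.zpowers (B.q a * (B.q b)⁻¹)).relIndex eps.ker = 2)

include H hi

/-- The positions of two leaves, one of them is near and on the second line. -/
theorem pos_near (hF : FrC H.up D k c W 1 F) {r s : Q} (hr : r ∈ D)
    (hrw : r ∉ Subgroup.zpowers (B.q a * (B.q b)⁻¹)) (hs : s ∈ F) (h1 : s ≠ 1) (hrs : s ≠ r)
    (lr : Lf B a b eps D z k c H.up 1 r) (ls : Lf B a b eps D z k c H.up 1 s)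
    (hx : ¬ Ln H.up 1 s → ∃ y ∈ F, y ≠ 1 ∧ Ln H.up 1 y) :
    ∃ (s₁ s₂ : Q), s₁ ∈ F ∧ s₂ ∈ F ∧ s₁ ≠ 1 ∧ s₂ ≠ 1 ∧ s₁ ≠ s₂ ∧
      Lf B a b eps D z k c H.up 1 s₁ ∧ Lf B a b eps D z k c H.up 1 s₂ ∧ Pos H F 1 s₁ s₂ := by
  have er : eps r = 1 := eps_D H.toHypC hr
  have hl : ¬ Ln H.up 1 r := fun h => hrw ((ln_one H.toHypC er).1 h)
  have hr1 : r ≠ 1 := by
    rintro rfl
    exact hrw (one_mem _)
  by_cases h : Ln H.up 1 s
  · obtain ⟨d, d0, d1, d2⟩ := ln_pos' H.toHypC h h1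
    refine ⟨r, s, D_sub H.toHypC hF hr, hs, hr1, h1, hrs.symm, lr, ls, Pos.p2 d hi d0 d1 d2 ?_ (Or.inl ?_)⟩
    · intro t ht
      exact hl ⟨t, ht⟩
    · rw [inv_one, one_mul]; exact hr
  · obtain ⟨y, hy, hy1, hyl⟩ := hx h
    obtain ⟨e, e0, e1, e2⟩ := ln_pos' H.toHypC hyl hy1
    have hsr : Ln H.up r s := (cover2 H.toHypC hi hl s).resolve_left h
    obtain ⟨d, d0, d1, d2⟩ := ln_pos' H.toHypC hsr hrs
    refine ⟨s, r, hs, D_sub H.toHypC hF hr, h1, hr1, hrs, ls, lr,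
      Pos.p3 d e hi d0 d1 d2 ?_ (Or.inr ?_) e0 e1 (by rw [e2]; exact hy)⟩
    · intro t ht
      exact hl ⟨t, ht⟩
    · rw [inv_one, one_mul]; exact hr

/-- Case A: a near move on the second line. -/
theorem caseA (hR : ¬ RigC B a b) (hS : SinkU H.up D W) (hcW : c ≤ W) (hF : FrC H.up D k c W 1 F) {r : Q}
    (hr : Mv H.toHypC r) (hrw : r ∉ Subgroup.zpowers (B.q a * (B.q b)⁻¹)) :
    ∃ (s₁ s₂ : Q), s₁ ∈ F ∧ s₂ ∈ F ∧ s₁ ≠ 1 ∧ s₂ ≠ 1 ∧ s₁ ≠ s₂ ∧
      Lf B a b eps D z k c H.up 1 s₁ ∧ Lf B a b eps D z k c H.up 1 s₂ ∧ Pos H F 1 s₁ s₂ := by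
  have er : eps r = 1 := eps_D H.toHypC hr.mem
  have hl : ¬ Ln H.up 1 r := fun h => hrw ((ln_one H.toHypC er).1 h)
  by_cases hm : ∃ m, Mv H.toHypC m ∧ m ≠ r
  · obtain ⟨m, hm, hne⟩ := hm
    have em : eps m = 1 := eps_D H.toHypC hm.mem
    refine pos_near H hi hF hr.mem hrw (D_sub H.toHypC hF hm.mem) hm.ne hne hr.lf hm.lf fun hml => ?_
    have hmw : m ∉ Subgroup.zpowers (B.q a * (B.q b)⁻¹) := fun h => hml ((ln_one H.toHypC em).2 h)
    by_cases h2 : r * r = 1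
    · refine ⟨r * m, D_sub H.toHypC hF (D.mul_mem hr.mem hm.mem), ?_, ?_⟩
      · intro h3
        rw [← h2] at h3
        exact hne (mul_left_cancel h3)
      · rw [ln_one H.toHypC (by rw [map_mul, er, em, one_mul]), w_mul hi er em]
        exact iff_of_false hrw hmw
    · refine ⟨r * r, D_sub H.toHypC hF (D.mul_mem hr.mem hr.mem), h2, ?_⟩
      rw [ln_one H.toHypC (by rw [map_mul, er, one_mul]), w_mul hi er er]
  · push Not at hm
    -- all moves are `r`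
    obtain ⟨t, ht⟩ := H.rot
    have k2 := k_ge H.toHypC ht
    have et : ∀ t : B.L, eps (B.q t) = 1 → B.q t = r := fun t ht => hm _ (mv0 H.toHypC ht)
    have e1 := hm _ (mv1 H.toHypC ht)
    have e2 := hm _ (mv2 H.toHypC k2 ht)
    rw [et t ht] at e1 e2
    have ha : r * B.q a = B.q a * r := by
      conv_lhs => rw [← e1]
      rw [inv_mul_cancel_right]
    have hw : r * (B.q a * (B.q b)⁻¹) = B.q a * (B.q b)⁻¹ * r := by
      conv_lhs => rw [← e2]
      rw [inv_mul_cancel_right]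
    have hc := central H.toHypC hi er hrw hw ha
    have e3 : r⁻¹ = r := by
      have h1 : eps (B.q (B.inv t)) = 1 := by rw [B.q_inv, map_inv, ht, inv_one]
      have h2 := et _ h1
      rw [B.q_inv, et t ht] at h2
      exact h2
    have e4 : r * r = 1 := by
      conv_lhs => rw [← e3]
      rw [e3]
      nth_rewrite 1 [← e3]
      exact inv_mul_cancel r
    have hg : ∃ g, ¬ (B.q g = r ∨ B.q g = B.q a ∨ B.q g = r * B.q a ∨ B.q g = B.q b ∨ B.q g = r * B.q b) := by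
      by_contra hcon
      push Not at hcon
      exact hR ⟨r, hr.ne, e4, hc, fun g => by
        have := hcon g
        tauto⟩
    by_cases hf : ∃ g, FarC B a b eps D g
    · obtain ⟨g, hg⟩ := hf
      obtain ⟨s, hs, hls, hln, o, ho, he⟩ := far_leaf H.toHypC hF hg (one_mem _) shZ_one
      have h5 : (1 : Q)⁻¹ * s ∉ D := far_not H.toHypC hS hg (map_one _) (o := o) (by omega) (by
        rw [← he])
      rw [inv_one, one_mul] at h5
      have hs1 : s ≠ 1 := by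
        rintro rfl
        exact h5 (one_mem _)
      have hsr : s ≠ r := by
        rintro rfl
        exact h5 hr.mem
      refine pos_near H hi hF hr.mem hrw hs hs1 hsr hr.lf hls fun hsl => ?_
      refine ⟨r * s, F_left H.toHypC hF hr.mem hs, ?_, ?_⟩
      · intro h3
        rw [← e4] at h3
        exact hsr (mul_left_cancel h3)
      · have h6 : Ln H.up r s := (cover2 H.toHypC hi hl s).resolve_left hsl
        have h7 := ln_lm H.toHypC er h6
        rwa [e4] at h7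
    · push Not at hf
      obtain ⟨g, hg⟩ := hg
      have eg : eps (B.q g) = -1 := by
        rcases Int.units_eq_one_or (eps (B.q g)) with h | h
        · exact absurd (Or.inl (et g h)) hg
        · exact h
      obtain ⟨σ, hσ, h5, -, o, ho, he⟩ := near_strand H.toHypC eg (hf g)
      have hσ1 : σ ≠ 1 := by
        rintro rfl
        apply hg
        rcases h5 with h5 | h5
        · exact Or.inr (Or.inl (mul_inv_eq_one.1 h5.symm))
        · exact Or.inr (Or.inr (Or.inr (Or.inl (mul_inv_eq_one.1 h5.symm))))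
      have hσr : σ ≠ r := by
        rintro rfl
        apply hg
        rcases h5 with h5 | h5
        · exact Or.inr (Or.inr (Or.inl (by rw [h5, inv_mul_cancel_right])))
        · exact Or.inr (Or.inr (Or.inr (Or.inr (by rw [h5, inv_mul_cancel_right]))))
      have hcl : σ ∉ Subgroup.normalClosure {y | ∃ t : B.L, eps (B.q t) = 1 ∧ y = B.q t} := by
        have h6 : Subgroup.normalClosure {y | ∃ t : B.L, eps (B.q t) = 1 ∧ y = B.q t} ≤ Subgroup.zpowers r := by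
          have h7 : (Subgroup.zpowers r).Normal := by
            refine ⟨fun n hn g => ?_⟩
            obtain ⟨j, rfl⟩ := hn
            refine ⟨j, ?_⟩
            have h8 : Commute (r ^ j) g := (show Commute r g from hc g).zpow_left j
            show r ^ j = g * r ^ j * g⁻¹
            rw [← h8.eq, mul_inv_cancel_right]
          refine Subgroup.normalClosure_le_normal ?_
          rintro y ⟨t, ht, rfl⟩
          rw [et t ht]
          exact Subgroup.mem_zpowers r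
        intro h7
        obtain ⟨j, hj⟩ := Subgroup.mem_zpowers_iff.1 (h6 h7)
        rcases Int.even_or_odd' j with ⟨n, rfl | rfl⟩
        · rw [zpow_mul, show (2 : ℤ) = ((2 : ℕ) : ℤ) by norm_num, zpow_natCast, pow_two, e4, one_zpow] at hj
          exact hσ1 hj.symm
        · rw [zpow_add_one, zpow_mul, show (2 : ℤ) = ((2 : ℕ) : ℤ) by norm_num, zpow_natCast, pow_two, e4, one_zpow,
            one_mul] at hj
          exact hσr hj.symm
      have hlf : Lf B a b eps D z k c H.up 1 σ :=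
        Lf.nr g o hf eg ho he (by rw [inv_one, one_mul]; exact hcl)
      refine pos_near H hi hF hr.mem hrw (D_sub H.toHypC hF hσ) hσ1 hσr hr.lf hlf fun hsl => ?_
      refine ⟨r * σ, D_sub H.toHypC hF (D.mul_mem hr.mem hσ), ?_, ?_⟩
      · intro h3
        rw [← e4] at h3
        exact hσr (mul_left_cancel h3)
      · have h6 : Ln H.up r σ := (cover2 H.toHypC hi hl σ).resolve_left hsl
        have h7 := ln_lm H.toHypC er h6
        rwa [e4] at h7

/-- Some reflection leads to the second line. -/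
theorem ex_refl (hT : ∀ t : B.L, eps (B.q t) = 1 → B.q t ∈ Subgroup.zpowers (B.q a * (B.q b)⁻¹)) :
    ∃ s : B.L, eps (B.q s) = -1 ∧ B.q s * (B.q a)⁻¹ ∉ Subgroup.zpowers (B.q a * (B.q b)⁻¹) := by
  by_contra hcon
  push Not at hcon
  have hfin := H.fin
  have ea' : eps (B.q (B.inv a)) = -1 := by rw [B.q_inv, map_inv, H.ea]; decide
  have eb' : eps (B.q (B.inv b)) = -1 := by rw [B.q_inv, map_inv, H.eb]; decide
  have h1 := hcon _ ea'
  have h2 := hcon _ eb'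
  rw [B.q_inv] at h1 h2
  -- `a` normalises the subgroup
  have haa : B.q a * B.q a ∈ Subgroup.zpowers (B.q a * (B.q b)⁻¹) := by
    have := Subgroup.inv_mem _ h1
    rwa [mul_inv_rev, inv_inv] at this
  have hn : ∀ x ∈ Subgroup.zpowers (B.q a * (B.q b)⁻¹), B.q a * x * (B.q a)⁻¹ ∈
      Subgroup.zpowers (B.q a * (B.q b)⁻¹) := by
    rintro x ⟨n, rfl⟩
    have h3 : B.q a * (B.q a * (B.q b)⁻¹) * (B.q a)⁻¹ ∈ Subgroup.zpowers (B.q a * (B.q b)⁻¹) := by
      have h4 := Subgroup.mul_mem _ haa h2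
      have h5 : B.q a * B.q a * ((B.q b)⁻¹ * (B.q a)⁻¹) = B.q a * (B.q a * (B.q b)⁻¹) * (B.q a)⁻¹ := by group
      rwa [h5] at h4
    have h6 := Subgroup.zpow_mem _ h3 n
    rw [conj_zpow] at h6
    exact h6
  -- all elements of the group
  have hall : ∀ g : Q, ∀ y : Q, (y ∈ Subgroup.zpowers (B.q a * (B.q b)⁻¹) ∨
      y * (B.q a)⁻¹ ∈ Subgroup.zpowers (B.q a * (B.q b)⁻¹)) → (y * g ∈ Subgroup.zpowers (B.q a * (B.q b)⁻¹) ∨
      y * g * (B.q a)⁻¹ ∈ Subgroup.zpowers (B.q a * (B.q b)⁻¹)) := by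
    intro g
    have hg : g ∈ Subgroup.closure (Set.range B.q) := by rw [H.gen]; trivial
    -- generators
    have hgen : ∀ l : B.L, ∀ y : Q, (y ∈ Subgroup.zpowers (B.q a * (B.q b)⁻¹) ∨
        y * (B.q a)⁻¹ ∈ Subgroup.zpowers (B.q a * (B.q b)⁻¹)) →
        (y * B.q l ∈ Subgroup.zpowers (B.q a * (B.q b)⁻¹) ∨
        y * B.q l * (B.q a)⁻¹ ∈ Subgroup.zpowers (B.q a * (B.q b)⁻¹)) := by
      intro l y hy
      rcases Int.units_eq_one_or (eps (B.q l)) with h | h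
      · have h3 := hT l h
        rcases hy with hy | hy
        · exact Or.inl (Subgroup.mul_mem _ hy h3)
        · right
          have h4 := Subgroup.mul_mem _ hy (hn _ h3)
          have h5 : y * (B.q a)⁻¹ * (B.q a * B.q l * (B.q a)⁻¹) = y * B.q l * (B.q a)⁻¹ := by group
          rwa [h5] at h4
      · have h3 := hcon l h
        rcases hy with hy | hy
        · right
          rw [mul_assoc]
          exact Subgroup.mul_mem _ hy h3
        · left
          have h4 := Subgroup.mul_mem _ (Subgroup.mul_mem _ hy (hn _ h3)) haa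
          have h5 : y * (B.q a)⁻¹ * (B.q a * (B.q l * (B.q a)⁻¹) * (B.q a)⁻¹) * (B.q a * B.q a) = y * B.q l := by
            group
          rwa [h5] at h4
    induction hg using Subgroup.closure_induction with
    | mem g hg =>
      obtain ⟨l, rfl⟩ := hg
      exact hgen l
    | one => intro y hy; rwa [mul_one]
    | mul g g' _ _ h h' => intro y hy; rw [← mul_assoc]; exact h' _ (h y hy)
    | inv g _ h =>
      intro y hy
      have key : ∀ n : ℕ, (y * g ^ n ∈ Subgroup.zpowers (B.q a * (B.q b)⁻¹) ∨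
          y * g ^ n * (B.q a)⁻¹ ∈ Subgroup.zpowers (B.q a * (B.q b)⁻¹)) := by
        intro n
        induction n with
        | zero => rwa [pow_zero, mul_one]
        | succ n ih =>
          rw [pow_succ, ← mul_assoc]
          exact h _ ih
      have e : g⁻¹ = g ^ (orderOf g - 1) := by
        have hp := orderOf_pos g
        apply inv_eq_of_mul_eq_one_left
        rw [← pow_succ, Nat.sub_add_cancel hp, pow_orderOf_eq_one]
      rw [e]
      exact key _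
  have hle : eps.ker ≤ Subgroup.zpowers (B.q a * (B.q b)⁻¹) := by
    intro x hx
    have h3 := hall x 1 (Or.inl (one_mem _))
    rw [one_mul] at h3
    rcases h3 with h3 | h3
    · exact h3
    · exfalso
      obtain ⟨n, hn⟩ := h3
      have h4 := congrArg eps hn
      have h5 : eps ((B.q a * (B.q b)⁻¹) ^ n) = 1 := by rw [map_zpow, C_eps_w H.toHypC, one_zpow]
      have h6 : eps (x * (B.q a)⁻¹) = 1 := h4.symm.trans h5
      rw [map_mul, map_inv, MonoidHom.mem_ker.1 hx, H.ea] at h6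
      exact absurd h6 (by decide)
  rw [Subgroup.relIndex_eq_one.2 hle] at hi
  omega

/-- Case B: all near moves are on the first line. -/
theorem caseB (hF : FrC H.up D k c W 1 F)
    (hT : ∀ m, Mv H.toHypC m → m ∈ Subgroup.zpowers (B.q a * (B.q b)⁻¹)) :
    ∃ (s₁ s₂ : Q), s₁ ∈ F ∧ s₂ ∈ F ∧ s₁ ≠ 1 ∧ s₂ ≠ 1 ∧ s₁ ≠ s₂ ∧
      Lf B a b eps D z k c H.up 1 s₁ ∧ Lf B a b eps D z k c H.up 1 s₂ ∧ Pos H F 1 s₁ s₂ := by
  obtain ⟨t, ht⟩ := H.rot
  obtain ⟨s₂, h1, d, d0, d1, d2, d3⟩ := pos_half H.toHypC ht (B.ne_one t) (hT _ (mv0 H.toHypC ht))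
  have hs₂ : Mv H.toHypC s₂ := by
    rcases h1 with rfl | rfl
    · exact mv0 H.toHypC ht
    · rw [← B.q_inv]
      exact mv0 H.toHypC (by rw [B.q_inv, map_inv, ht, inv_one])
  have hfin : ∀ s₁ ∈ F, Lf B a b eps D z k c H.up 1 s₁ → ¬ Ln H.up 1 s₁ →
      ∃ (s₁ s₂ : Q), s₁ ∈ F ∧ s₂ ∈ F ∧ s₁ ≠ 1 ∧ s₂ ≠ 1 ∧ s₁ ≠ s₂ ∧
        Lf B a b eps D z k c H.up 1 s₁ ∧ Lf B a b eps D z k c H.up 1 s₂ ∧ Pos H F 1 s₁ s₂ := by
    intro s₁ g1 g2 g3
    refine ⟨s₁, s₂, g1, D_sub H.toHypC hF hs₂.mem, ?_, hs₂.ne, ?_, g2, hs₂.lf,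
      Pos.p2 d hi d0 d1 d2 (fun t ht => g3 ⟨t, ht⟩) (Or.inr ⟨?_, d3⟩)⟩
    · rintro rfl
      exact g3 (ln_refl _ _)
    · rintro rfl
      exact g3 ⟨d, d2.symm⟩
    · rw [inv_one, one_mul]; exact hs₂.mem
  obtain ⟨s, es, hsw⟩ := ex_refl H hi (fun t ht => hT _ (mv0 H.toHypC ht))
  have hsl : ¬ Ln H.up 1 (B.q s) := fun h => hsw ((ln_one' H.toHypC es).1 h)
  by_cases hsf : FarC B a b eps D s
  · obtain ⟨s₁, g1, g2, g3, -⟩ := far_leaf H.toHypC hF hsf (one_mem _) shZ_one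
    rw [one_mul] at g3
    exact hfin s₁ g1 g2 fun h => hsl (h.trans (ln_symm H.toHypC g3))
  · obtain ⟨σ, hσ, h5, h6, o, ho, he⟩ := near_strand H.toHypC es hsf
    have eσ : eps σ = 1 := eps_D H.toHypC hσ
    have hσw : σ ∉ Subgroup.zpowers (B.q a * (B.q b)⁻¹) := by
      rcases h5 with h5 | h5
      · rw [h5]; exact hsw
      · intro h7
        apply hsw
        have h8 := Subgroup.mul_mem _ h7 (Subgroup.inv_mem _ (Subgroup.mem_zpowers (B.q a * (B.q b)⁻¹)))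
        have h9 : σ * (B.q a * (B.q b)⁻¹)⁻¹ = B.q s * (B.q a)⁻¹ := by rw [h5]; group
        rwa [h9] at h8
    have hσl : ¬ Ln H.up 1 σ := fun h => hσw ((ln_one H.toHypC eσ).1 h)
    by_cases hf : ∃ g, FarC B a b eps D g
    · obtain ⟨g, hg⟩ := hf
      by_cases hgl : Ln H.up 1 (B.q g)
      · obtain ⟨s₁, g1, g2, g3, -⟩ := far_leaf H.toHypC hF hg hσ h6
        refine hfin s₁ g1 g2 fun h => hσl ?_
        have h7 := ln_lm H.toHypC eσ hgl
        rw [mul_one] at h7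
        exact (h.trans (ln_symm H.toHypC g3)).trans (ln_symm H.toHypC h7)
      · obtain ⟨s₁, g1, g2, g3, -⟩ := far_leaf H.toHypC hF hg (one_mem _) shZ_one
        rw [one_mul] at g3
        exact hfin s₁ g1 g2 fun h => hgl (h.trans (ln_symm H.toHypC g3))
    · push Not at hf
      refine hfin σ (D_sub H.toHypC hF hσ) (Lf.nr s o hf es ho he ?_) hσl
      rw [inv_one, one_mul]
      intro h7
      apply hσw
      refine (?_ : Subgroup.normalClosure {y | ∃ t : B.L, eps (B.q t) = 1 ∧ y = B.q t} ≤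
        Subgroup.zpowers (B.q a * (B.q b)⁻¹)) h7
      unfold Subgroup.normalClosure
      rw [Subgroup.closure_le]
      intro y hy
      obtain ⟨v, ⟨t', ht', rfl⟩, hv⟩ := Group.mem_conjugatesOfSet_iff.1 hy
      obtain ⟨x, hx⟩ := isConj_iff.1 hv
      rw [← hx]
      rcases Int.units_eq_one_or (eps x) with h | h
      · exact w_conj hi ht' h (hT _ (mv0 H.toHypC ht'))
      · have e1 : eps (x * (B.q a)⁻¹) = 1 := by rw [map_mul, map_inv, h, H.ea]; decide
        have e2 := w_conj hi (eps_cj ht' _) e1 (hT _ (mv1 H.toHypC ht'))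
        have e3 : x * (B.q a)⁻¹ * (B.q a * B.q t' * (B.q a)⁻¹) * (x * (B.q a)⁻¹)⁻¹ = x * B.q t' * x⁻¹ := by group
        rw [e3] at e2
        exact e2

end

end

end CN2

open CN2 in
/-- **CN2.** -/
theorem cn2 : CN2S := by
  intro Q _ B a b eps D z k c W H hR hi hS hP hL hW F hF
  have hcW : c ≤ W := by
    refine le_trans ?_ hW
    unfold lamC
    calc c ≤ 1 * (c + 1) := by omega
      _ ≤ _ := Nat.mul_le_mul_right _ Nat.one_le_two_pow
  by_cases h : ∃ r, Mv H.toHypC r ∧ r ∉ Subgroup.zpowers (B.q a * (B.q b)⁻¹)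
  · obtain ⟨r, h1, h2⟩ := h
    exact caseA H hi hR hS hcW hF h1 h2
  · push Not at h
    exact caseB H hi hF h

end Pool.Agent.Lib.MP_688fd0_co.SQ4.Small
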