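import Pool.Agent.Lib.MP_688fd0_co.SQ4.Small.IfaceR

/-!
Type C1, one line, not rigid: a context exists (row CN1).
-/

set_option autoImplicit false

namespace Pool.Agent.Lib.MP_688fd0_co.SQ4.Small

open Pool.Agent.Lib.MP_688fd0_co.OSF Pool.Agent.Lib.MP_688fd0_co.SQ2 Pool.Agent.Lib.MP_688fd0_co.SQ3
open Pool.Agent.Lib.MP_688fd0_co.SQ4

namespace Cn

section

variable {Q : Type} [Group Q]

/-- There is at most one involution in a cyclic group. -/
theorem inv_unique {w x y : Q} (hw : IsOfFinOrder w) (hx : x ∈ Subgroup.zpowers w) (hy : y ∈ Subgroup.zpowers w)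
    (hx1 : x ≠ 1) (hy1 : y ≠ 1) (hx2 : x * x = 1) (hy2 : y * y = 1) : x = y := by
  have key : ∀ v : Q, v ∈ Subgroup.zpowers w → v ≠ 1 → v * v = 1 →
      ∃ i, i < orderOf w ∧ w ^ i = v ∧ 2 * i = orderOf w := by
    classical
    intro v hv h1 h2
    rw [← hw.mem_powers_iff_mem_zpowers, hw.mem_powers_iff_mem_range_orderOf] at hv
    simp only [Finset.mem_image, Finset.mem_range] at hv
    obtain ⟨i, hi, rfl⟩ := hv
    refine ⟨i, hi, rfl, ?_⟩
    rw [← pow_add, ← two_mul] at h2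
    have h3 := orderOf_dvd_of_pow_eq_one h2
    obtain ⟨q, hq⟩ := h3
    have hi0 : i ≠ 0 := by rintro rfl; exact h1 (pow_zero _)
    have : q < 2 := by
      by_contra hc
      push Not at hc
      have := Nat.mul_le_mul_left (orderOf w) hc
      omega
    interval_cases q
    · omega
    · omega
  obtain ⟨i, -, rfl, hi⟩ := key x hx hx1 hx2
  obtain ⟨j, -, rfl, hj⟩ := key y hy hy1 hy2
  rw [show i = j by omega]

/-- The elements of order four. -/
theorem four {w x : Q} (hw : IsOfFinOrder w) (hx : x ∈ Subgroup.zpowers w) (hx2 : x * x ≠ 1) (hx4 : (x * x) * (x * x) = 1) :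
    ∃ i : ℕ, 0 < i ∧ 4 * i = orderOf w ∧ (w ^ i = x ∨ w ^ i = x⁻¹) := by
  classical
  rw [← hw.mem_powers_iff_mem_zpowers, hw.mem_powers_iff_mem_range_orderOf] at hx
  simp only [Finset.mem_image, Finset.mem_range] at hx
  obtain ⟨j, hj, rfl⟩ := hx
  rw [← pow_add, ← pow_add] at hx4
  rw [← pow_add] at hx2
  obtain ⟨q, hq⟩ := orderOf_dvd_of_pow_eq_one hx4
  have hN : 0 < orderOf w := hw.orderOf_pos
  have hj0 : j ≠ 0 := by rintro rfl; exact hx2 (pow_zero _)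
  have h2 : ∀ r, j + j ≠ orderOf w * r := by
    intro r hr
    apply hx2
    rw [hr, pow_mul, pow_orderOf_eq_one, one_pow]
  have hq4 : q < 4 := by
    by_contra hc
    push Not at hc
    have := Nat.mul_le_mul_left (orderOf w) hc
    omega
  have h2' := h2 1
  interval_cases q
  · omega
  · exact ⟨j, by omega, by omega, Or.inl rfl⟩
  · omega
  · obtain ⟨i, hi⟩ : ∃ i, orderOf w = 4 * i := ⟨orderOf w - j, by omega⟩
    refine ⟨i, by omega, hi.symm, Or.inr ?_⟩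
    rw [eq_inv_iff_mul_eq_one, ← pow_add, show i + j = orderOf w by omega, pow_orderOf_eq_one]

end

section

variable {Q : Type} [Group Q] {B : Lb.{0, 0} Q} {a b : B.L} {eps : Q →* ℤˣ} {D : Subgroup Q} {z : Q} {k : ℕ}

/-- The near moves: the rotations and their conjugates by `a`. -/
def Mv (B : Lb.{0, 0} Q) (a : B.L) (eps : Q →* ℤˣ) (m : Q) : Prop :=
  ∃ t : B.L, eps (B.q t) = 1 ∧ (m = B.q t ∨ m = B.q a * B.q t * (B.q a)⁻¹)

theorem Mv.inv {m : Q} (h : Mv B a eps m) : Mv B a eps m⁻¹ := by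
  obtain ⟨t, ht, h⟩ := h
  refine ⟨B.inv t, by rw [B.q_inv, map_inv, ht, inv_one], ?_⟩
  rcases h with rfl | rfl
  · exact Or.inl (B.q_inv t).symm
  · refine Or.inr ?_
    rw [B.q_inv]
    group

theorem Mv.ne {m : Q} (h : Mv B a eps m) : m ≠ 1 := by
  obtain ⟨t, ht, h⟩ := h
  rcases h with rfl | rfl
  · exact B.ne_one t
  · intro h
    apply B.ne_one t
    rw [mul_inv_eq_one] at h
    exact mul_eq_left.1 h

variable (H : HypC B a b eps D z k)

include H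

theorem Mv.memD {m : Q} (h : Mv B a eps m) : m ∈ D := by
  obtain ⟨t, ht, h⟩ := h
  rcases h with rfl | rfl
  · exact H.near t ht
  · exact H.nD.conj_mem _ (H.near t ht) _

theorem Mv.lf {c : ℕ} {m : Q} (h : Mv B a eps m) : Lf B a b eps D z k c H.up 1 m := by
  have hk := H.kpos
  have hD := h.memD H
  obtain ⟨t, ht, h⟩ := h
  rcases h with h | h
  · refine Lf.rot 0 t (by omega) ht ?_
    rw [pow_zero, h]
    exact one_mul _
  · refine Lf.rot 1 t (by omega) ht ?_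
    rw [pow_one, H31.C_U_one H (map_one _), H31.C_U_one H (H.leD hD), h]
    group

theorem eps_u : ∀ s : Q, eps s = 1 → (H.up.U ^ orderOf (B.q a * (B.q b)⁻¹)) s =
    s * (H.up.U ^ orderOf (B.q a * (B.q b)⁻¹)) 1 := by
  intro s hs
  have h := U_lmp H hs (orderOf (B.q a * (B.q b)⁻¹)) 1
  rwa [mul_one] at h

/-- The antipode of `1`. -/
theorem u_sq (hu : eps ((H.up.U ^ orderOf (B.q a * (B.q b)⁻¹)) 1) = 1) :
    (H.up.U ^ orderOf (B.q a * (B.q b)⁻¹)) 1 * (H.up.U ^ orderOf (B.q a * (B.q b)⁻¹)) 1 = 1 := by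
  rw [← eps_u H _ hu, ← H.up.U_pow_add, ← two_mul]
  exact U_per H 1

theorem anti {s s' : Q} (h : s' = (H.up.U ^ orderOf (B.q a * (B.q b)⁻¹)) s) :
    s = (H.up.U ^ orderOf (B.q a * (B.q b)⁻¹)) s' := by
  rw [h, ← H.up.U_pow_add, ← two_mul]
  exact (U_per H s).symm

end

section

variable {Q : Type} [Group Q] {B : Lb.{0, 0} Q} {a b : B.L} {eps : Q →* ℤˣ} {D : Subgroup Q} {z : Q} {k : ℕ}
  (H : HypE B a b eps D z k)

include H

/-- Two leaves which are not antipodal. -/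
theorem mk_pos {c : ℕ} {F : Finset Q} (hi : (Subgroup.zpowers (B.q a * (B.q b)⁻¹)).relIndex eps.ker = 1) {m₁ m₂ : Q}
    (hm : m₁ ≠ m₂) (h₁ : m₁ ≠ 1) (h₂ : m₂ ≠ 1) (f₁ : m₁ ∈ F) (f₂ : m₂ ∈ F)
    (l₁ : Lf B a b eps D z k c H.up 1 m₁) (l₂ : Lf B a b eps D z k c H.up 1 m₂)
    (hh : m₁ ≠ (H.up.U ^ orderOf (B.q a * (B.q b)⁻¹)) m₂)
    (n : (m₁ ∈ D ∧ m₂ ∈ D) ∨ (m₁ ∈ D ∧ Even (orderOf m₁)) ∨ (m₂ ∈ D ∧ Even (orderOf m₂))) :
    ∃ (s₁ s₂ : Q), s₁ ∈ F ∧ s₂ ∈ F ∧ s₁ ≠ 1 ∧ s₂ ≠ 1 ∧ s₁ ≠ s₂ ∧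
      Lf B a b eps D z k c H.up 1 s₁ ∧ Lf B a b eps D z k c H.up 1 s₂ ∧ Pos H F 1 s₁ s₂ := by
  have HC := H.toHypC
  obtain ⟨t₁, p₁, q₁, e₁⟩ := ln_pos' HC (cover1 HC hi 1 m₁) h₁
  obtain ⟨t₂, p₂, q₂, e₂⟩ := ln_pos' HC (cover1 HC hi 1 m₂) h₂
  have hne : t₁ ≠ t₂ := by
    rintro rfl
    exact hm (e₁.symm.trans e₂)
  rcases lt_or_gt_of_ne hne with hlt | hlt
  · -- `m₁` first
    have hd : lnM B a b ≠ 2 * (t₂ - t₁) := by
      intro hd
      apply hh
      apply anti HC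
      have h3 : t₂ = orderOf (B.q a * (B.q b)⁻¹) + t₁ := by unfold lnM at hd; omega
      rw [← e₂, ← e₁, h3, H.up.U_pow_add, ← H.up.U_pow_add, ← H.up.U_pow_add, add_comm]
    refine ⟨m₂, m₁, f₂, f₁, h₂, h₁, hm.symm, l₂, l₁, ?_⟩
    rcases n with n | n
    · exact Pos.p1 t₁ t₂ hi p₁ hlt q₂ e₁ e₂ hd (by rw [inv_one, one_mul]; exact n.2)
        (by rw [inv_one, one_mul]; exact n.1)
    · refine Pos.p1f t₁ t₂ hi p₁ hlt q₂ e₁ e₂ hd ?_
      rw [inv_one, one_mul, one_mul]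
      exact n.symm
  · have hd : lnM B a b ≠ 2 * (t₁ - t₂) := by
      intro hd
      apply hh
      have h3 : t₁ = orderOf (B.q a * (B.q b)⁻¹) + t₂ := by unfold lnM at hd; omega
      rw [← e₂, ← e₁, h3, ← H.up.U_pow_add, add_comm]
    refine ⟨m₁, m₂, f₁, f₂, h₁, h₂, hm, l₁, l₂, ?_⟩
    rcases n with n | n
    · exact Pos.p1 t₂ t₁ hi p₂ hlt q₁ e₂ e₁ hd (by rw [inv_one, one_mul]; exact n.1)
        (by rw [inv_one, one_mul]; exact n.2)
    · refine Pos.p1f t₂ t₁ hi p₂ hlt q₁ e₂ e₁ hd ?_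
      rw [inv_one, one_mul, one_mul]
      exact n

end

end Cn

open Cn in
/-- CN1. -/
theorem cn1 : CN1S := by
  intro Q _ B a b eps D z k c W H hr hi hS hP hL hW F hFr
  have HC := H.toHypC
  have hfin := H.fin
  have hw : IsOfFinOrder (B.q a * (B.q b)⁻¹) := isOfFinOrder_of_finite _
  have hle : eps.ker ≤ Subgroup.zpowers (B.q a * (B.q b)⁻¹) := Subgroup.relIndex_eq_one.1 hi
  have hcW : c ≤ W := by
    refine le_trans ?_ hW
    unfold lamC
    have h3 : 1 ≤ 2 ^ (((Nat.card B.L + 2) ^ 4 * k + k + 20) ^ 4) := Nat.one_le_two_pow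
    calc c ≤ 1 * (c + 1) := by omega
      _ ≤ _ := Nat.mul_le_mul_right _ h3
  -- the group `ker eps` is abelian
  have hcom : ∀ x y : Q, eps x = 1 → eps y = 1 → x * y = y * x := by
    intro x y hx hy
    obtain ⟨i, hi⟩ := hle hx
    obtain ⟨j, hj⟩ := hle hy
    simp only at hi hj
    rw [← hi, ← hj]
    exact zpow_mul_comm _ _ _
  have hDF : ∀ m ∈ D, m ∈ F := by
    intro m hm
    have h := hFr.inv 1 hFr.fx m hm
    rwa [one_mul] at h
  have hDw : ∀ m ∈ D, m ∈ Subgroup.zpowers (B.q a * (B.q b)⁻¹) := fun m hm => hle (H.leD hm)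
  -- criterion for antipodes
  have hant : ∀ m₁ m₂ : Q, eps m₁ = 1 → eps m₂ = 1 → m₁ = (H.up.U ^ orderOf (B.q a * (B.q b)⁻¹)) m₂ →
      (m₂⁻¹ * m₁) * (m₂⁻¹ * m₁) = 1 := by
    intro m₁ m₂ h1 h2 h
    rw [eps_u HC m₂ h2] at h
    have h3 : m₂⁻¹ * m₁ = (H.up.U ^ orderOf (B.q a * (B.q b)⁻¹)) 1 := by rw [h, inv_mul_cancel_left]
    rw [h3]
    apply u_sq HC
    rw [← h3, map_mul, map_inv, h1, h2, inv_one, one_mul]
  -- two moves in `D`
  have hDD : ∀ m₁ m₂ : Q, m₁ ∈ D → m₂ ∈ D → m₁ ≠ 1 → m₂ ≠ 1 → Lf B a b eps D z k c H.up 1 m₁ →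
      Lf B a b eps D z k c H.up 1 m₂ → (m₂⁻¹ * m₁) * (m₂⁻¹ * m₁) ≠ 1 →
      ∃ (s₁ s₂ : Q), s₁ ∈ F ∧ s₂ ∈ F ∧ s₁ ≠ 1 ∧ s₂ ≠ 1 ∧ s₁ ≠ s₂ ∧
        Lf B a b eps D z k c H.up 1 s₁ ∧ Lf B a b eps D z k c H.up 1 s₂ ∧ Pos H F 1 s₁ s₂ := by
    intro m₁ m₂ d₁ d₂ n₁ n₂ l₁ l₂ h
    refine mk_pos H hi ?_ n₁ n₂ (hDF _ d₁) (hDF _ d₂) l₁ l₂ ?_ (Or.inl ⟨d₁, d₂⟩)
    · rintro rfl
      apply h
      rw [inv_mul_cancel, one_mul]
    · intro h'
      exact h (hant m₁ m₂ (H.leD d₁) (H.leD d₂) h')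
  obtain ⟨t₀, ht₀⟩ := H.rot
  have hr0 : Mv B a eps (B.q t₀) := ⟨t₀, ht₀, Or.inl rfl⟩
  by_cases hT : ∃ m₁ m₂, Mv B a eps m₁ ∧ Mv B a eps m₂ ∧ (m₂⁻¹ * m₁) * (m₂⁻¹ * m₁) ≠ 1
  · obtain ⟨m₁, m₂, h1, h2, h3⟩ := hT
    exact hDD m₁ m₂ (h1.memD HC) (h2.memD HC) h1.ne h2.ne (h1.lf HC) (h2.lf HC) h3
  push Not at hT
  obtain ⟨r, hr⟩ : ∃ r, r = B.q t₀ := ⟨_, rfl⟩
  rw [← hr] at hr0
  have hrD := hr0.memD HC
  have hre := H.leD hrD
  have hr1 := hr0.ne
  have hr4 : (r * r) * (r * r) = 1 := by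
    have h := hT r r⁻¹ hr0 hr0.inv
    rwa [inv_inv] at h
  -- the involution
  obtain ⟨ι, hι, hι1, hι2, hιD⟩ : ∃ ι, (ι = r ∨ ι = r * r) ∧ ι ≠ 1 ∧ ι * ι = 1 ∧ ι ∈ D := by
    by_cases h2 : r * r = 1
    · exact ⟨r, Or.inl rfl, hr1, h2, hrD⟩
    · exact ⟨r * r, Or.inr rfl, h2, hr4, D.mul_mem hrD hrD⟩
  have huniq : ∀ x : Q, eps x = 1 → x ≠ 1 → x * x = 1 → x = ι := fun x hx hx1 hx2 =>
    inv_unique hw (hle hx) (hDw ι hιD) hx1 hι1 hx2 hι2
  have hιr : ι ∈ Subgroup.zpowers r := by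
    rcases hι with rfl | rfl
    · exact Subgroup.mem_zpowers _
    · exact Subgroup.mul_mem _ (Subgroup.mem_zpowers _) (Subgroup.mem_zpowers _)
  -- all moves
  have hall : ∀ m, Mv B a eps m → m = r ∨ m = r⁻¹ := by
    intro m hm
    have hme : eps m = 1 := H.leD (hm.memD HC)
    have h1 := hT m r hm hr0
    by_cases h2 : r⁻¹ * m = 1
    · left
      exact (inv_mul_eq_one.1 h2).symm
    · right
      have h3 := huniq (r⁻¹ * m) (by rw [map_mul, map_inv, hme, hre, inv_one, one_mul]) h2 h1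
      have h4 : m = r * ι := by rw [← h3, mul_inv_cancel_left]
      rcases hι with h5 | h5
      · exfalso
        apply hm.ne
        rw [h4, h5]
        rw [h5] at hι2
        exact hι2
      · rw [h4, h5, eq_inv_iff_mul_eq_one]
        calc r * (r * r) * r = (r * r) * (r * r) := by group
          _ = 1 := hr4
  have heven : Even (orderOf r) := by
    rw [even_iff_two_dvd]
    have h1 : orderOf ι = 2 := orderOf_eq_prime (by rw [sq]; exact hι2) hι1
    rw [← h1]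
    exact orderOf_dvd_of_mem_zpowers hιr
  -- the antipode of `1` is the involution
  have hu : eps ((H.up.U ^ orderOf (B.q a * (B.q b)⁻¹)) 1) = 1 := by
    have h1 : Even (orderOf (B.q a * (B.q b)⁻¹)) := by
      rw [even_iff_two_dvd]
      exact (even_iff_two_dvd.1 heven).trans (orderOf_dvd_of_mem_zpowers (hDw r hrD))
    rw [eps_Up HC, map_one, mul_one, h1.neg_one_pow]
  have huι : (H.up.U ^ orderOf (B.q a * (B.q b)⁻¹)) 1 = ι := by
    apply huniq _ hu _ (u_sq HC hu)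
    intro h
    have h1 := (fix HC 1 _).1 h
    unfold lnM at h1
    have h2 := Nat.le_of_dvd hw.orderOf_pos h1
    have h3 := hw.orderOf_pos
    omega
  by_cases hfar : ∃ g, FarC B a b eps D g
  · -- a far leaf
    obtain ⟨g, hg⟩ := hfar
    obtain ⟨o, ho, hoF⟩ := hFr.fsh [g] (by simp)
    have e0 : B.fin (1 : Q) [g] = B.q g := one_mul _
    rw [e0] at hoF
    have e1 : 1 * B.q g = (H.up.U ^ (-o)) ((H.up.U ^ o) (B.q g)) := by
      rw [zpow_neg, one_mul]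
      exact ((H.up.U ^ o).symm_apply_apply _).symm
    have hc : ((|o| : ℤ)) ≤ W := ho.trans (by exact_mod_cast hcW)
    have hsD := far_not HC hS hg (map_one eps) (o := -o) (by rw [abs_neg]; exact hc) e1
    rw [inv_one, one_mul] at hsD
    refine mk_pos H hi (m₁ := (H.up.U ^ o) (B.q g)) (m₂ := r) ?_ ?_ hr1 hoF (hDF r hrD) ?_ (hr0.lf HC) ?_
      (Or.inr (Or.inr ⟨hrD, heven⟩))
    · intro h
      rw [h] at hsD
      exact hsD hrD
    · intro h
      rw [h] at hsD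
      exact hsD D.one_mem
    · refine Lf.far g 1 (-o) hg (Subgroup.one_mem _) ?_ ?_
      · rw [abs_neg]
        have : (0 : ℤ) ≤ c := by positivity
        omega
      · rw [mul_one]; exact e1
    · intro h
      rw [eps_u HC r hre, huι] at h
      rw [h] at hsD
      exact hsD (D.mul_mem hrD hιD)
  push Not at hfar
  -- conjugation by reflections
  have hconja : B.q a * r * (B.q a)⁻¹ = r ∨ B.q a * r * (B.q a)⁻¹ = r⁻¹ := hall _ ⟨t₀, ht₀, Or.inr (by rw [hr])⟩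
  have hconj : ∀ x : Q, x * r * x⁻¹ = r ∨ x * r * x⁻¹ = r⁻¹ := by
    intro x
    rcases Int.units_eq_one_or (eps x) with hx | hx
    · left
      rw [hcom x r hx hre, mul_inv_cancel_right]
    · have hy : eps (x * (B.q a)⁻¹) = 1 := by rw [map_mul, map_inv, hx, H.ea]; decide
      have e : x * r * x⁻¹ = (x * (B.q a)⁻¹) * (B.q a * r * (B.q a)⁻¹) * (x * (B.q a)⁻¹)⁻¹ := by group
      rw [e]
      rcases hconja with h | h
      · left
        rw [h, hcom _ r hy hre, mul_inv_cancel_right]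
      · right
        rw [h, hcom _ r⁻¹ hy (by rw [map_inv, hre, inv_one]), mul_inv_cancel_right]
  have hnorm : (Subgroup.zpowers r).Normal := by
    refine ⟨fun n hn g => ?_⟩
    obtain ⟨i, rfl⟩ := hn
    simp only
    have h1 : g * r ^ i * g⁻¹ = (g * r * g⁻¹) ^ i := (conj_zpow).symm
    rw [h1]
    rcases hconj g with h | h
    · rw [h]; exact Subgroup.zpow_mem _ (Subgroup.mem_zpowers _) _
    · rw [h]; exact Subgroup.zpow_mem _ (Subgroup.inv_mem _ (Subgroup.mem_zpowers _)) _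
  have hncl : Subgroup.normalClosure {y | ∃ t : B.L, eps (B.q t) = 1 ∧ y = B.q t} ≤ Subgroup.zpowers r := by
    apply Subgroup.normalClosure_le_normal
    rintro _ ⟨t, ht, rfl⟩
    rcases hall _ ⟨t, ht, Or.inl rfl⟩ with h | h
    · rw [h]; exact Subgroup.mem_zpowers _
    · rw [h]; exact Subgroup.inv_mem _ (Subgroup.mem_zpowers _)
  -- near reflections
  have hND : ∀ σ : Q, σ ∈ D → σ ∉ Subgroup.zpowers r → Lf B a b eps D z k c H.up 1 σ →
      ∃ (s₁ s₂ : Q), s₁ ∈ F ∧ s₂ ∈ F ∧ s₁ ≠ 1 ∧ s₂ ≠ 1 ∧ s₁ ≠ s₂ ∧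
        Lf B a b eps D z k c H.up 1 s₁ ∧ Lf B a b eps D z k c H.up 1 s₂ ∧ Pos H F 1 s₁ s₂ := by
    intro σ hσ hσr hl
    have hσ1 : σ ≠ 1 := by
      rintro rfl
      exact hσr (Subgroup.one_mem _)
    refine hDD σ r hσ hrD hσ1 hr1 hl (hr0.lf HC) ?_
    intro h
    apply hσr
    by_cases h2 : r⁻¹ * σ = 1
    · rw [← inv_mul_eq_one.1 h2]
      exact Subgroup.mem_zpowers _
    · have h3 := huniq (r⁻¹ * σ) (by rw [map_mul, map_inv, show eps σ = 1 from H.leD hσ, hre, inv_one, one_mul]) h2 h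
      have h4 : σ = r * ι := by rw [← h3, mul_inv_cancel_left]
      rw [h4]
      exact Subgroup.mul_mem _ (Subgroup.mem_zpowers _) hιr
  by_cases hA : ∃ g, eps (B.q g) = -1 ∧ (B.q a)⁻¹ * B.q g ∈ D ∧ B.q g * (B.q a)⁻¹ ∉ Subgroup.zpowers r
  · obtain ⟨g, g1, g2, g3⟩ := hA
    have hσ : B.q g * (B.q a)⁻¹ ∈ D := by
      have h := H.nD.conj_mem _ g2 (B.q a)
      rwa [mul_inv_cancel_left] at h
    refine hND _ hσ g3 (Lf.nr g 1 hfar g1 (Or.inl rfl) ?_ ?_)
    · rw [zpow_one, H31.C_U_one HC (H.leD hσ), inv_mul_cancel_right, one_mul]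
    · rw [inv_one, one_mul]
      exact fun h => g3 (hncl h)
  by_cases hB : ∃ g, eps (B.q g) = -1 ∧ (B.q b)⁻¹ * B.q g ∈ D ∧ B.q g * (B.q b)⁻¹ ∉ Subgroup.zpowers r
  · obtain ⟨g, g1, g2, g3⟩ := hB
    have hσ : B.q g * (B.q b)⁻¹ ∈ D := by
      have h := H.nD.conj_mem _ g2 (B.q b)
      rwa [mul_inv_cancel_left] at h
    refine hND _ hσ g3 (Lf.nr g (-1) hfar g1 (Or.inr rfl) ?_ ?_)
    · have e : B.q g * (B.q b)⁻¹ = H.up.U (B.q g) := (H31.C_U_neg HC (by rw [g1]; decide)).symm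
      rw [e, zpow_neg, zpow_one, one_mul]
      exact (H.up.U.symm_apply_apply _).symm
    · rw [inv_one, one_mul]
      exact fun h => g3 (hncl h)
  push Not at hA hB
  by_cases h2 : r * r = 1
  · -- rigid
    exfalso
    have hinv : r⁻¹ = r := inv_eq_of_mul_eq_one_left h2
    have hz : ∀ x ∈ Subgroup.zpowers r, x = 1 ∨ x = r := by
      rintro _ ⟨i, rfl⟩
      simp only
      rcases Int.even_or_odd' i with ⟨j, rfl | rfl⟩
      · left
        rw [zpow_mul, zpow_two, h2, one_zpow]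
      · right
        rw [zpow_add, zpow_mul, zpow_two, h2, one_zpow, one_mul, zpow_one]
    apply ‹¬ RigC B a b›
    refine ⟨r, hr1, h2, ?_, ?_⟩
    · intro x
      have h := hconj x
      rw [hinv, or_self] at h
      exact (mul_inv_eq_iff_eq_mul.1 h).symm
    · intro g
      rcases Int.units_eq_one_or (eps (B.q g)) with hg | hg
      · left
        rcases hall _ ⟨g, hg, Or.inl rfl⟩ with h | h
        · exact h
        · rw [h, hinv]
      · right
        have h := hfar g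
        unfold FarC at h
        by_cases h3 : (B.q a)⁻¹ * B.q g ∈ D
        · rcases hz _ (hA g hg h3) with h4 | h4
          · left; exact mul_inv_eq_one.1 h4
          · right; left; exact mul_inv_eq_iff_eq_mul.1 h4
        · have h5 : (B.q b)⁻¹ * B.q g ∈ D := by
            by_contra h6
            exact h ⟨hg, h3, h6⟩
          rcases hz _ (hB g hg h5) with h4 | h4
          · right; right; left; exact mul_inv_eq_one.1 h4
          · right; right; right; exact mul_inv_eq_iff_eq_mul.1 h4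
  · -- rotations of order four only
    obtain ⟨i, hi0, hi4, hir⟩ := four hw (hDw r hrD) h2 hr4
    obtain ⟨s, hs⟩ : ∃ s, s = (B.q a * (B.q b)⁻¹) ^ i := ⟨_, rfl⟩
    rw [← hs] at hir
    have hsr : ∀ x, x = r ∨ x = r⁻¹ → x = s ∨ x = s⁻¹ := by
      intro x hx
      rcases hir with h | h
      · rw [h]; exact hx
      · rw [h, inv_inv]; exact hx.symm
    have hsr' : r = s ∨ r = s⁻¹ := hsr r (Or.inl rfl)
    have hsD : s ∈ D := by
      rcases hir with h | h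
      · rw [h]; exact hrD
      · rw [h]; exact D.inv_mem hrD
    have hse := H.leD hsD
    have hsM : Mv B a eps s := by
      rcases hir with h | h
      · rw [h]; exact hr0
      · rw [h]; exact hr0.inv
    -- the labels over `s` and `s⁻¹`
    have hlab : ∀ x, x = s ∨ x = s⁻¹ → ∃ t : B.L, B.q t = x := by
      intro x hx
      have : x = r ∨ x = r⁻¹ := by
        rcases hir with h | h
        · rwa [← h]
        · rw [h, inv_inv] at hx; exact hx.symm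
      rcases this with h | h
      · exact ⟨t₀, by rw [h, hr]⟩
      · exact ⟨B.inv t₀, by rw [h, hr, B.q_inv]⟩
    have hconjs : ∀ x : Q, x * s * x⁻¹ = s ∨ x * s * x⁻¹ = s⁻¹ := by
      intro x
      rcases hir with h | h
      · rw [h]; exact hconj x
      · rw [h, inv_inv]
        have e : x * r⁻¹ * x⁻¹ = (x * r * x⁻¹)⁻¹ := by group
        rw [e]
        rcases hconj x with h' | h'
        · left; rw [h']
        · right; rw [h', inv_inv]
    have hw4 : (B.q a * (B.q b)⁻¹) ^ (4 * i) = 1 := by rw [hi4, pow_orderOf_eq_one]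
    have hs3 : s⁻¹ = (B.q a * (B.q b)⁻¹) ^ (3 * i) := by
      rw [inv_eq_iff_mul_eq_one, hs, ← pow_add, show i + 3 * i = 4 * i by ring, hw4]
    have hne : s⁻¹ ≠ s := by
      intro h
      have h5 : s * s = 1 := by
        rw [← h] 
        nth_rewrite 2 [h]
        exact inv_mul_cancel s
      rw [hs, ← pow_add] at h5
      have h6 := Nat.le_of_dvd (by omega) (orderOf_dvd_of_pow_eq_one h5)
      omega
    refine ⟨s⁻¹, s, hDF _ (D.inv_mem hsD), hDF _ hsD, hsM.inv.ne, hsM.ne, hne, hsM.inv.lf HC, hsM.lf HC, ?_⟩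
    refine Pos.p0 (2 * i) hi (by omega) ?_ ?_ ?_ (by rw [inv_one, one_mul]; exact D.inv_mem hsD)
      (by rw [inv_one, one_mul]; exact hsD) ?_
    · unfold lnM; omega
    · rw [H31.C_U_pow HC (map_one _), one_mul, hs]
    · rw [show 3 * (2 * i) = 2 * (3 * i) by ring, H31.C_U_pow HC (map_one _), one_mul, hs3]
    · intro n
      have e : ∀ m : ℕ, (H.up.U ^ m) s⁻¹ = s⁻¹ * (H.up.U ^ m) 1 := by
        intro m
        have h := U_lmp HC (g := s⁻¹) (by rw [map_inv, show eps s = 1 from hse, inv_one]) m 1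
        rwa [mul_one] at h
      obtain ⟨t, ht⟩ := hlab (((H.up.U ^ n) 1)⁻¹ * s * (((H.up.U ^ n) 1)⁻¹)⁻¹) (hconjs _)
      refine ⟨t, ?_⟩
      rw [ht, e]
      group

end Pool.Agent.Lib.MP_688fd0_co.SQ4.Small
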