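import Pool.Agent.Lib.MP_688fd0_co.SQ4.Small.Geo
import Pool.Agent.Lib.MP_688fd0_co.SQ4.H41.Front0

/-!
Type C1, at most two lines, not rigid: rows CN1, CN2 (contexts).
-/

set_option autoImplicit false

namespace Pool.Agent.Lib.MP_688fd0_co.SQ4.Small

open Pool.Agent.Lib.MP_688fd0_co.OSF Pool.Agent.Lib.MP_688fd0_co.SQ2 Pool.Agent.Lib.MP_688fd0_co.SQ3
open Pool.Agent.Lib.MP_688fd0_co.SQ4

/-- CN1: a context exists, one line. -/
def CN1S : Prop :=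
  ∀ (Q : Type) [Group Q] (B : Lb.{0, 0} Q) (a b : B.L) (eps : Q →* ℤˣ) (D : Subgroup Q) (z : Q) (k c W : ℕ)
    (H : HypE B a b eps D z k), ¬ RigC B a b → (Subgroup.zpowers (B.q a * (B.q b)⁻¹)).relIndex eps.ker = 1 →
    SinkU H.up D W → SepU H.up D c W → LevU H.up D W → lamC ((Nat.card B.L + 2) ^ 4 * k) k c ≤ W →
    ∀ F : Finset Q, FrC H.up D k c W 1 F →
    ∃ (s₁ s₂ : Q), s₁ ∈ F ∧ s₂ ∈ F ∧ s₁ ≠ 1 ∧ s₂ ≠ 1 ∧ s₁ ≠ s₂ ∧
      Lf B a b eps D z k c H.up 1 s₁ ∧ Lf B a b eps D z k c H.up 1 s₂ ∧ Pos H F 1 s₁ s₂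

/-- CN2: a context exists, two lines. -/
def CN2S : Prop :=
  ∀ (Q : Type) [Group Q] (B : Lb.{0, 0} Q) (a b : B.L) (eps : Q →* ℤˣ) (D : Subgroup Q) (z : Q) (k c W : ℕ)
    (H : HypE B a b eps D z k), ¬ RigC B a b → (Subgroup.zpowers (B.q a * (B.q b)⁻¹)).relIndex eps.ker = 2 →
    SinkU H.up D W → SepU H.up D c W → LevU H.up D W → lamC ((Nat.card B.L + 2) ^ 4 * k) k c ≤ W →
    ∀ F : Finset Q, FrC H.up D k c W 1 F →
    ∃ (s₁ s₂ : Q), s₁ ∈ F ∧ s₂ ∈ F ∧ s₁ ≠ 1 ∧ s₂ ≠ 1 ∧ s₁ ≠ s₂ ∧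
      Lf B a b eps D z k c H.up 1 s₁ ∧ Lf B a b eps D z k c H.up 1 s₂ ∧ Pos H F 1 s₁ s₂

theorem cnc (h1 : CN1S) (h2 : CN2S) : CNCS := by
  intro Q _ B a b eps D z k c W H hr hS hP hL hW
  have hlam : 4 * c ≤ W := by
    refine le_trans ?_ hW
    unfold lamC
    have h3 : 4 ≤ 2 ^ (((Nat.card B.L + 2) ^ 4 * k + k + 20) ^ 4) := by
      calc 4 = 2 ^ 2 := by norm_num
        _ ≤ _ := Nat.pow_le_pow_right (by norm_num) ?_
      calc 2 ≤ 20 := by norm_num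
        _ ≤ (Nat.card B.L + 2) ^ 4 * k + k + 20 := by omega
        _ = ((Nat.card B.L + 2) ^ 4 * k + k + 20) ^ 1 := (pow_one _).symm
        _ ≤ _ := Nat.pow_le_pow_right (by omega) (by norm_num)
    calc 4 * c ≤ 4 * (c + 1) := by omega
      _ ≤ _ := Nat.mul_le_mul_right _ h3
  obtain ⟨F, hFr, hF0⟩ := H59.one_front0 H.toHypC c W hP (by omega) 1
  have hle := H.le2
  have hfin := H.fin
  have hne : (Subgroup.zpowers (B.q a * (B.q b)⁻¹)).relIndex eps.ker ≠ 0 := by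
    unfold Subgroup.relIndex
    exact Subgroup.index_ne_zero_of_finite
  rcases (show (Subgroup.zpowers (B.q a * (B.q b)⁻¹)).relIndex eps.ker = 1 ∨
    (Subgroup.zpowers (B.q a * (B.q b)⁻¹)).relIndex eps.ker = 2 by omega) with hi | hi
  · obtain ⟨s₁, s₂, g1, g2, g3, g4, g5, g6, g7, g8⟩ := h1 Q B a b eps D z k c W H hr hi hS hP hL hW F hFr
    exact ⟨1, s₁, s₂, F, map_one _, hFr, hF0, g1, g2, g3, g4, g5, g6, g7, g8⟩
  · obtain ⟨s₁, s₂, g1, g2, g3, g4, g5, g6, g7, g8⟩ := h2 Q B a b eps D z k c W H hr hi hS hP hL hW F hFr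
    exact ⟨1, s₁, s₂, F, map_one _, hFr, hF0, g1, g2, g3, g4, g5, g6, g7, g8⟩

/-- No far rotation or reflection leads to the sheet of `1`. -/
theorem far_not {Q : Type} [Group Q] {B : Lb.{0, 0} Q} {a b : B.L} {eps : Q →* ℤˣ} {D : Subgroup Q} {z : Q} {k : ℕ}
    (H : HypC B a b eps D z k) {W : ℕ} (hS : SinkU H.up D W) {s : B.L} (hs : FarC B a b eps D s) {x y : Q}
    (hx : eps x = 1) {o : ℤ} (ho : |o| ≤ W) (h : x * B.q s = (H.up.U ^ o) y) : x⁻¹ * y ∉ D := by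
  intro hy
  have h1 := (Uz_sheet H o).2 hy
  rw [← h] at h1
  by_cases h2 : 2 ≤ |o|
  · exact hS x s o h2 ho h1
  · have h3 : o = 0 ∨ o = 1 ∨ o = -1 := by
      have : |o| ≤ 1 := by omega
      rw [abs_le] at this
      omega
    rcases h3 with rfl | rfl | rfl
    · rw [zpow_zero, Equiv.Perm.one_apply, inv_mul_cancel_left] at h1
      have h4 := H.leD h1
      rw [MonoidHom.mem_ker, hs.1] at h4
      exact absurd h4 (by decide)
    · rw [zpow_one, H31.C_U_one H hx] at h1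
      have e : (x * B.q a)⁻¹ * (x * B.q s) = (B.q a)⁻¹ * B.q s := by group
      rw [e] at h1
      exact hs.2.1 h1
    · have e0 : (H.up.U ^ (-1 : ℤ)) x = x * B.q b := by
        rw [zpow_neg, zpow_one]
        apply H.up.U.injective
        rw [ai, H31.C_U_neg H (by rw [map_mul, hx, H.eb]; decide), mul_inv_cancel_right]
      rw [e0] at h1
      have e : (x * B.q b)⁻¹ * (x * B.q s) = (B.q b)⁻¹ * B.q s := by group
      rw [e] at h1
      exact hs.2.2 h1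

end Pool.Agent.Lib.MP_688fd0_co.SQ4.Small
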