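import Pool.Agent.Lib.MP_688fd0_co.SQ3.Small.Mk1

/-!
MK0: one line; a square (two rungs) on the strands `u₀`, `u₁` above the flat window: one tour, the whole arc from `x` up to
`u₀` is run downwards.
-/

set_option autoImplicit false

namespace Pool.Agent.Lib.MP_688fd0_co.SQ4.Small

open Pool.Agent.Lib.MP_688fd0_co.OSF Pool.Agent.Lib.MP_688fd0_co.SQ2 Pool.Agent.Lib.MP_688fd0_co.SQ3
open Pool.Agent.Lib.MP_688fd0_co.SQ3.Small

section

variable {Q : Type} [Group Q] [DecidableEq Q] {B : Lb.{0, 0} Q}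

/-- The window with the square. -/
def sqr (U : Up B) (X : TW B) {n : ℕ} {xs : Q} (hF : Flat U X n xs) (b b' : B.L)
    (hb : (U.U ^ n) X.u₀ * B.q b = (U.U ^ n) X.u₁) (hb' : (U.U ^ (n + 1)) X.u₀ * B.q b' = (U.U ^ (n + 1)) X.u₁) :
    TW B where
  L₀ := X.L₀
  L₁ := im (U.U ^ (n + 1)) X.L₀
  u₀ := X.u₀
  u₁ := X.u₁
  w₀ := (U.U ^ (n + 1)) X.u₀
  w₁ := (U.U ^ (n + 1)) X.u₁
  cup := X.cup
  cap := [b']
  f := fun y => (U.U ^ (n + 1)) y
  path := fun y => if y = xs then X.path y ++ (b :: (X.cap ++ [U.up ((U.U ^ n) xs)])) else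
    X.path y ++ [U.up ((U.U ^ n) y)]
  hu₀ := X.hu₀
  hu₁ := X.hu₁
  hu := X.hu
  hw₀ := map_mem_im.2 X.hu₀
  hw₁ := map_mem_im.2 X.hu₁
  hw := fun h => X.hu ((U.U ^ (n + 1)).injective h)
  cup_fin := X.cup_fin
  cap_fin := hb'
  path_fin := fun y h h0 h1 => by
    by_cases hy : y = xs
    · subst hy
      rw [if_pos rfl, fin_append, X.path_fin y h h0 h1, hF.f_xs]
      show B.fin ((U.U ^ n) X.u₀ * B.q b) (X.cap ++ [U.up ((U.U ^ n) y)]) = _
      rw [hb, fin_append, ← hF.w₀, X.cap_fin, hF.w₁]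
      show (U.U ^ n) y * B.q (U.up ((U.U ^ n) y)) = _
      rw [← U.hU, ← U.U_pow_succ']
    · rw [if_neg hy, fin_append, X.path_fin y h h0 h1, hF.f y (TW.mem_tok₀.2 ⟨h, h0, h1⟩) hy]
      show (U.U ^ n) y * B.q (U.up ((U.U ^ n) y)) = _
      rw [← U.hU, ← U.U_pow_succ']
  f_mem := fun y h h0 h1 => ⟨map_mem_im.2 h, fun e => h0 ((U.U ^ (n + 1)).injective e),
    fun e => h1 ((U.U ^ (n + 1)).injective e)⟩
  f_inj := fun y _ _ _ y' _ _ _ e => (U.U ^ (n + 1)).injective e
  f_surj := fun y h h0 h1 => by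
    rw [mem_im] at h
    refine ⟨(U.U ^ (n + 1))⁻¹ y, h, fun e => h0 ?_, fun e => h1 ?_, ?_⟩
    · rw [← e]; simp
    · rw [← e]; simp
    · simp

theorem sqr_tok (U : Up B) (X : TW B) {n : ℕ} {xs : Q} (hF : Flat U X n xs) (b b' : B.L)
    (hb : (U.U ^ n) X.u₀ * B.q b = (U.U ^ n) X.u₁) (hb' : (U.U ^ (n + 1)) X.u₀ * B.q b' = (U.U ^ (n + 1)) X.u₁) :
    (sqr U X hF b b' hb hb').tok₀ = X.tok₀ := rfl

omit [Group Q] [DecidableEq Q] in
theorem coe_aux (l t : List Q) (a b c : Q) : ((l ++ (a :: ((b :: t) ++ [c])) : List Q) : Multiset Q) =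
    (l : Multiset Q) + {c} + ({a} + {b} + (t : Multiset Q)) := by
  have h : l ++ (a :: ((b :: t) ++ [c])) = l ++ ([a] ++ ([b] ++ (t ++ [c]))) := rfl
  rw [h, ← Multiset.coe_add, ← Multiset.coe_add, ← Multiset.coe_add, ← Multiset.coe_add, Multiset.coe_singleton,
    Multiset.coe_singleton, Multiset.coe_singleton]
  abel

theorem sqr_R (U : Up B) (X : TW B) {n : ℕ} {xs : Q} (hF : Flat U X n xs) (b b' : B.L)
    (hb : (U.U ^ n) X.u₀ * B.q b = (U.U ^ n) X.u₁) (hb' : (U.U ^ (n + 1)) X.u₀ * B.q b' = (U.U ^ (n + 1)) X.u₁) :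
    (sqr U X hF b b' hb hb').R = U.lev X.L₀ (n + 1) := by
  have h1 : ∀ y ∈ X.tok₀, (src B y ((sqr U X hF b b' hb hb').path y) : Multiset Q) =
      (src B y (X.path y) : Multiset Q) + ({(U.U ^ n) y} : Multiset Q) +
        if y = xs then ({(U.U ^ n) X.u₀} : Multiset Q) + {(U.U ^ n) X.u₁} + ((src B X.w₀ X.cap).tail : Multiset Q)
          else 0 := by
    intro y hy
    have hy' := TW.mem_tok₀.1 hy
    by_cases hx : y = xs
    · subst hx
      rw [if_pos rfl]
      show (src B y (if y = y then X.path y ++ (b :: (X.cap ++ [U.up ((U.U ^ n) y)])) else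
        X.path y ++ [U.up ((U.U ^ n) y)]) : Multiset Q) = _
      rw [if_pos rfl, src_append, X.path_fin y hy'.1 hy'.2.1 hy'.2.2, hF.f_xs]
      have e1 : src B ((U.U ^ n) X.u₀) (b :: (X.cap ++ [U.up ((U.U ^ n) y)])) =
          (U.U ^ n) X.u₀ :: (src B ((U.U ^ n) X.u₀ * B.q b) (X.cap ++ [U.up ((U.U ^ n) y)])) := rfl
      have e2 : src B X.w₀ (X.cap ++ [U.up ((U.U ^ n) y)]) = (X.w₀ :: (src B X.w₀ X.cap).tail) ++ [(U.U ^ n) y] := by
        rw [src_append, X.cap_fin, hF.w₁, ← src_ne_nil _ X.cap_ne]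
        rfl
      rw [e1, hb, ← hF.w₀, e2, coe_aux]
    · rw [if_neg hx]
      show (src B y (if y = xs then X.path y ++ (b :: (X.cap ++ [U.up ((U.U ^ n) xs)])) else
        X.path y ++ [U.up ((U.U ^ n) y)]) : Multiset Q) = _
      rw [if_neg hx, src_append, X.path_fin y hy'.1 hy'.2.1 hy'.2.2, hF.f y hy hx, ← Multiset.coe_add, add_zero]
      rfl
  have h2 : (sqr U X hF b b' hb hb').R = ∑ y ∈ X.tok₀, (src B y ((sqr U X hF b b' hb hb').path y) : Multiset Q) +
      (B.verts X.u₀ X.cup : Multiset Q) := by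
    unfold TW.R
    show _ + _ + (((src B ((U.U ^ (n + 1)) X.u₀) [b']).tail : List Q) : Multiset Q) = _
    show _ + _ + (([] : List Q) : Multiset Q) = _
    rw [Multiset.coe_nil, add_zero]
    rfl
  rw [h2, Finset.sum_congr rfl h1, Finset.sum_add_distrib, Finset.sum_add_distrib,
    Finset.sum_ite_eq' X.tok₀ xs, if_pos hF.xs_mem]
  have h3 : ∑ y ∈ X.tok₀, ({(U.U ^ n) y} : Multiset Q) + ({(U.U ^ n) X.u₀} : Multiset Q) + {(U.U ^ n) X.u₁} =
      (im (U.U ^ n) X.L₀).val := by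
    have e1 : (im (U.U ^ n) X.L₀).val = X.L₀.val.map (U.U ^ n) := rfl
    have e2 : ∑ y ∈ X.tok₀, ({(U.U ^ n) y} : Multiset Q) = X.tok₀.val.map (U.U ^ n) := by
      rw [← Multiset.sum_map_singleton (X.tok₀.val.map (U.U ^ n)), Multiset.map_map]
      rfl
    rw [e1, e2, X.L₀_val]
    simp
  have h4 : U.lev X.L₀ (n + 1) = X.R + (im (U.U ^ n) X.L₀).val := by
    rw [hF.reg']
    unfold Up.lev
    rw [Finset.sum_range_succ]
  rw [h4, ← h3]
  unfold TW.R
  abel

end

/-- MK0. -/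
def Mk0S : Prop :=
  ∀ (Q : Type) [Group Q] [Fintype Q] [DecidableEq Q] (B : Lb.{0, 0} Q) (U : Up B) (L₀ : Finset Q) (M n d₁ d₂ : ℕ)
    (x : Q) (w : Bool → Q → ℤ) (b b' : B.L), 0 < n → LvD U (n + 1) L₀ → (∀ (v : Q) (t : ℕ), (U.U ^ t) v = v ↔ M ∣ t) →
    (∀ v, ∃ t : ℕ, v = (U.U ^ t) x) → x ∈ L₀ → (U.U ^ d₁) x ∈ L₀ → (U.U ^ d₂) x ∈ L₀ → 0 < d₁ → d₁ < d₂ → d₂ < M →
    (U.U ^ n) ((U.U ^ d₂) x) * B.q b = (U.U ^ n) x → (U.U ^ (n + 1)) ((U.U ^ d₂) x) * B.q b' = (U.U ^ (n + 1)) x →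
    (∀ t : ℕ, 0 < t → t ≤ M → (U.U ^ t) x ∈ L₀ → w false ((U.U ^ t) x) = if t ≤ d₂ then -1 else 1) →
    TM U L₀ ((U.U ^ d₂) x) x ((U.U ^ d₁) x) n w (fun _ => false)

theorem mk0 (h : OneWS) : Mk0S := by
  intro Q _ _ _ B U L₀ M n' d₁ d₂ x w b b' hn' hD hM hcov hx hx1 hx2 h1 h12 h2 hb hb' hw
  classical
  obtain ⟨n, hn0⟩ : ∃ n, n = n' + 1 := ⟨_, rfl⟩
  rw [← hn0] at hD
  have hn : 0 < n := by omega
  have hM0 : 0 < M := by omega
  have hb1 : n < d₁ := by
    by_contra hc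
    have := lvd_zero hD hx (by omega) hx1
    omega
  have hb2 : n < d₂ - d₁ := by
    by_contra hc
    have := lvd_zero hD hx1 (j := d₂ - d₁) (by omega) (by
      rw [← U.U_pow_add, show d₁ + (d₂ - d₁) = d₂ by omega]; exact hx2)
    omega
  have hMx : (U.U ^ M) x = x := (hM x M).2 dvd_rfl
  have hb3 : n < M - d₂ := by
    by_contra hc
    have := lvd_zero hD hx2 (j := M - d₂) (by omega) (by
      rw [← U.U_pow_add, show d₂ + (M - d₂) = M by omega, hMx]; exact hx)
    omega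
  choose pos hp1 hp2 using fun v => ex_pos hM hM0 n x v (hcov v)
  let ar : Q → Fin 3 := fun v => if pos v < d₁ then 0 else if pos v < d₂ then 1 else 2
  let s : Fin 3 → Q := ![x, (U.U ^ d₁) x, (U.U ^ d₂) x]
  let nx : Equiv.Perm (Fin 3) := finRotate 3
  let g : Fin 3 → ℕ := ![d₁, d₂ - d₁, M - d₂]
  let off : Fin 3 → ℕ := ![0, d₁, d₂]
  let d : Fin 3 → Bool := ![false, false, true]
  have n0 : nx.symm 0 = 2 := by decide
  have n1 : nx.symm 1 = 0 := by decide
  have n2 : nx.symm 2 = 1 := by decide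
  have hs : ∀ i, s i = (U.U ^ off i) x := by
    intro i
    fin_cases i <;> rfl
  have hoff : ∀ i, off i + g i ≤ M := by
    intro i
    fin_cases i
    · show 0 + d₁ ≤ M; omega
    · show d₁ + (d₂ - d₁) ≤ M; omega
    · show d₂ + (M - d₂) ≤ M; omega
  have hsn : ∀ i (t : ℕ), (U.U ^ (n + t)) (s i) = (U.U ^ (n + (off i + t))) x := by
    intro i t
    rw [hs, ← U.U_pow_add]
    congr 2
    omega
  have hpos : ∀ i, ∀ t < g i, pos ((U.U ^ (n + t)) (s i)) = off i + t := by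
    intro i t ht
    have e1 := hp2 ((U.U ^ (n + t)) (s i))
    have e2 : (U.U ^ (n + (off i + t))) x = (U.U ^ (n + pos ((U.U ^ (n + t)) (s i)))) x := by
      rw [← e1, hsn]
    have := hoff i
    exact (eq_pos hM n x (by omega) (hp1 _) e2).symm
  have hA : Arcs U n s nx g ar := by
    refine ⟨hn, ?_, ?_, ?_, ?_, ?_⟩
    · intro i
      fin_cases i
      · exact hb1
      · exact hb2
      · exact hb3
    · intro i
      rw [hs, ← U.U_pow_add]
      fin_cases i
      · show (U.U ^ (0 + d₁)) x = (U.U ^ d₁) x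
        rw [zero_add]
      · show (U.U ^ (d₁ + (d₂ - d₁))) x = (U.U ^ d₂) x
        congr 2; omega
      · show (U.U ^ (d₂ + (M - d₂))) x = x
        rw [show d₂ + (M - d₂) = M by omega, hMx]
    · intro i t ht
      have e := hpos i t ht
      show (if pos _ < d₁ then (0 : Fin 3) else if pos _ < d₂ then 1 else 2) = i
      rw [e]
      fin_cases i
      · have ht' : t < d₁ := ht
        show (if 0 + t < d₁ then (0 : Fin 3) else if 0 + t < d₂ then 1 else 2) = 0
        rw [if_pos (by omega)]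
      · have ht' : t < d₂ - d₁ := ht
        show (if d₁ + t < d₁ then (0 : Fin 3) else if d₁ + t < d₂ then 1 else 2) = 1
        rw [if_neg (by omega), if_pos (by omega)]
      · show (if d₂ + t < d₁ then (0 : Fin 3) else if d₂ + t < d₂ then 1 else 2) = 2
        rw [if_neg (by omega), if_neg (by omega)]
    · intro y
      have e := hp2 y
      have hlt := hp1 y
      have key : ∀ i, off i ≤ pos y → pos y < off i + g i → ar y = i →
          ∃ t < g (ar y), y = (U.U ^ (n + t)) (s (ar y)) := by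
        intro i a1 a2 a3
        rw [a3]
        refine ⟨pos y - off i, by omega, ?_⟩
        rw [hsn, show off i + (pos y - off i) = pos y by omega]
        exact e
      by_cases c1 : pos y < d₁
      · exact key 0 (Nat.zero_le _) (by show pos y < 0 + d₁; omega) (by
          show (if pos y < d₁ then (0 : Fin 3) else if pos y < d₂ then 1 else 2) = 0
          rw [if_pos c1])
      · by_cases c2 : pos y < d₂
        · exact key 1 (by show d₁ ≤ pos y; omega) (by show pos y < d₁ + (d₂ - d₁); omega) (by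
            show (if pos y < d₁ then (0 : Fin 3) else if pos y < d₂ then 1 else 2) = 1
            rw [if_neg c1, if_pos c2])
        · exact key 2 (by show d₂ ≤ pos y; omega) (by show pos y < d₂ + (M - d₂); omega) (by
            show (if pos y < d₁ then (0 : Fin 3) else if pos y < d₂ then 1 else 2) = 2
            rw [if_neg c1, if_neg c2])
    · intro i t ht t' ht' he
      have e1 := hpos i t ht
      have e2 := hpos i t' ht'
      rw [he, e2] at e1
      omega
  have hsL : ∀ i, s i ∈ L₀ := by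
    intro i
    fin_cases i
    · exact hx
    · exact hx1
    · exact hx2
  obtain ⟨bv, hbv⟩ := h Q B U (Fin 3) s nx g n ar L₀ d (fun _ => false) 2 0 1 hA hD hsL (by decide) (by decide)
    (by decide) (by rw [n0, n2]; rfl) (by rw [n1, n0]; rfl) rfl rfl (by
      intro i j _
      rw [n0, n1, n2]
      right
      constructor
      · fin_cases i <;> decide
      · fin_cases j <;> decide)
  rw [n0, n1, n2] at hbv
  refine ⟨fun R _ V γ cup cap => bv R V γ +
    (∑ y ∈ (L₀.erase ((U.U ^ d₂) x)).erase x, ((w false y : ℤ) : R) * (if y = (U.U ^ d₁) x then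
      V.vol ((U.U ^ n') ((U.U ^ d₂) x)) (b :: (cap ++ [U.up ((U.U ^ n') y)])) else
      V.vol ((U.U ^ n') y) [U.up ((U.U ^ n') y)])) +
    (if (false : Bool) = γ then (if d 1 then 1 else -1) *
      (V.vol ((U.U ^ d₂) x) cup + V.vol ((U.U ^ n) ((U.U ^ d₂) x)) [b']) else 0), ?_⟩
  intro X hF hX0 hXu0 hXu1
  have hbX : (U.U ^ n') X.u₀ * B.q b = (U.U ^ n') X.u₁ := by rw [hXu0, hXu1]; exact hb
  have hbX' : (U.U ^ (n' + 1)) X.u₀ * B.q b' = (U.U ^ (n' + 1)) X.u₁ := by rw [hXu0, hXu1]; exact hb'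
  set X' := sqr U X hF b b' hbX hbX' with hX'
  obtain ⟨T, hT1, hT2⟩ := hbv X' hX0 hXu0 hXu1 (by rw [hn0, ← hX0]; rfl) (by
      rw [hX', sqr_R, hX0, hn0]) (by
      show (U.U ^ (n' + 1)) X.u₀ = (U.U ^ n) ((U.U ^ d₂) x)
      rw [hXu0, hn0]) (by
      show (U.U ^ (n' + 1)) X.u₁ = (U.U ^ n) x
      rw [hXu1, hn0]) (by
      show (U.U ^ (n' + 1)) ((U.U ^ d₁) x) = (U.U ^ n) ((U.U ^ d₁) x)
      rw [hn0]) (by
      intro i i0 i1 i2
      exfalso
      fin_cases i
      · exact i1 rfl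
      · exact i2 rfl
      · exact i0 rfl) (by
      intro y hy hne
      show (U.U ^ (n' + 1)) y = (U.U ^ n) y
      rw [hn0])
  refine ⟨T, fun y => ⟨y, ?_⟩, ?_⟩
  · obtain ⟨i, hi⟩ := hT1 y
    exact hi
  · intro R _ V γ ⟨_, hγ⟩
    have hγ : γ = false := hγ.symm
    subst hγ
    rw [hT2, hX', sqr_tok, ← hX']
    have e1 : ∀ y ∈ X.tok₀, (sgc d (fun _ => false) false (ar y) : ℤ) = w false y := by
      intro y hy
      have hyL : y ∈ L₀ := by rw [← hX0]; exact (TW.mem_tok₀.1 hy).1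
      have e := hp2 y
      have hlt := hp1 y
      have hyL' : (U.U ^ (n + pos y)) x ∈ L₀ := by rw [← e]; exact hyL
      have c0 : n + pos y ≤ M := by
        by_contra hc
        have e2 : (U.U ^ (n + pos y - M)) x = (U.U ^ (n + pos y)) x := by
          rw [pow_eq_iff hM]
          have e3 : n + pos y = (n + pos y - M) + M := by omega
          have e4 : (n + pos y - M) + M ≡ (n + pos y - M) [MOD M] := Nat.add_modEq_right
          rw [← e3] at e4
          exact e4.symm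
        have := lvd_zero hD hx (j := n + pos y - M) (by omega) (by rw [e2]; exact hyL')
        omega
      have hw' := hw (n + pos y) (by omega) c0 hyL'
      rw [← e] at hw'
      rw [hw']
      have c2 : n + pos y ≤ d₂ ↔ pos y < d₂ := by
        constructor
        · intro; omega
        · intro hc
          by_contra hc'
          have := lvd_zero hD hx2 (j := n + pos y - d₂) (by omega) (by
            rw [← U.U_pow_add, show d₂ + (n + pos y - d₂) = n + pos y by omega]; exact hyL')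
          omega
      show (if (false : Bool) = false then (if d (if pos y < d₁ then (0 : Fin 3) else if pos y < d₂ then 1 else 2)
        then (1 : ℤ) else -1) else 0) = _
      rw [if_pos rfl]
      by_cases k2 : pos y < d₂
      · rw [if_pos (c2.2 k2)]
        by_cases k1 : pos y < d₁
        · rw [if_pos k1]; rfl
        · rw [if_neg k1, if_pos k2]; rfl
      · have k1 : ¬ pos y < d₁ := by omega
        rw [if_neg (fun hh => k2 (c2.1 hh)), if_neg k1, if_neg k2]; rfl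
    have e4 : X.tok₀ = (L₀.erase ((U.U ^ d₂) x)).erase x := by
      unfold TW.tok₀
      rw [hX0, hXu0, hXu1]
    have e2 : ∑ y ∈ X.tok₀, ((sgc d (fun _ => false) false (ar y) : ℤ) : R) * V.vol y (X'.path y) =
        ∑ y ∈ X.tok₀, ((w false y : ℤ) : R) * V.vol y (X.path y) +
          ∑ y ∈ (L₀.erase ((U.U ^ d₂) x)).erase x, ((w false y : ℤ) : R) * (if y = (U.U ^ d₁) x then
            V.vol ((U.U ^ n') ((U.U ^ d₂) x)) (b :: (X.cap ++ [U.up ((U.U ^ n') y)])) else
            V.vol ((U.U ^ n') y) [U.up ((U.U ^ n') y)]) := by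
      rw [← e4, ← Finset.sum_add_distrib]
      refine Finset.sum_congr rfl fun y hy => ?_
      rw [e1 y hy, ← mul_add]
      congr 1
      have hy' := TW.mem_tok₀.1 hy
      show V.vol y (if y = (U.U ^ d₁) x then X.path y ++ (b :: (X.cap ++ [U.up ((U.U ^ n') ((U.U ^ d₁) x))])) else
        X.path y ++ [U.up ((U.U ^ n') y)]) = _
      by_cases hyx : y = (U.U ^ d₁) x
      · rw [if_pos hyx, if_pos hyx, vol_append, X.path_fin y hy'.1 hy'.2.1 hy'.2.2, hyx, hF.f_xs, hXu0]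
      · rw [if_neg hyx, if_neg hyx, vol_append, X.path_fin y hy'.1 hy'.2.1 hy'.2.2, hF.f y hy hyx]
    rw [e2]
    have e3 : V.vol X'.u₀ X'.cup + V.vol X'.w₀ X'.cap =
        V.vol ((U.U ^ d₂) x) X.cup + V.vol ((U.U ^ n) ((U.U ^ d₂) x)) [b'] := by
      show V.vol X.u₀ X.cup + V.vol ((U.U ^ (n' + 1)) X.u₀) [b'] = _
      rw [hXu0, hn0]
    rw [e3]
    ring

end Pool.Agent.Lib.MP_688fd0_co.SQ4.Small
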