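import Pool.Agent.Lib.MP_688fd0_co.SQ4.Small.Tm
import Pool.Agent.Lib.MP_688fd0_co.SQ4.Small.IfaceR
import Pool.Agent.Lib.MP_688fd0_co.SQ3.Small.HnU

/-!
Type C1, at most two lines, not rigid: one window. Assembly.
-/

set_option autoImplicit false

namespace Pool.Agent.Lib.MP_688fd0_co.SQ4.Small

open Pool.Agent.Lib.MP_688fd0_co.OSF Pool.Agent.Lib.MP_688fd0_co.SQ2 Pool.Agent.Lib.MP_688fd0_co.SQ3
open Pool.Agent.Lib.MP_688fd0_co.SQ4
open Pool.Agent.Lib.MP_688fd0_co.SQ3.Small (TM spr spr_eq spr_zero spr_lw hnU)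
open H31

theorem needN_le {ρ r k c W : ℕ} (h : needC ρ r k c ≤ W) :
    (r ^ 2 + 1) * lamC ((ρ + 2) ^ 4 * k) k c + 2 * k + 1 ≤ W ∨ k = 0 := by
  rcases Nat.eq_zero_or_pos k with hk | hk
  · exact Or.inr hk
  left
  unfold needC at h
  generalize lamC ((ρ + 2) ^ 4 * k) k c = Λ at h ⊢
  refine le_trans ?_ h
  have h1 : 1 ≤ 2 ^ r := Nat.one_le_two_pow
  have h2 : (r ^ 2 + 1) * Λ + 2 * k + 1 ≤ (r + 2) ^ 2 * (Λ + 4 * k) := by
    have e : (r + 2) ^ 2 * (Λ + 4 * k) = (r ^ 2 + 1) * Λ + (4 * r + 3) * Λ + (r ^ 2 + 4 * r + 4) * (4 * k) := by ring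
    rw [e]
    have h4 : 1 * (4 * k) ≤ (r ^ 2 + 4 * r + 4) * (4 * k) := Nat.mul_le_mul_right _ (by omega)
    omega
  refine h2.trans ?_
  refine Nat.mul_le_mul_right _ ?_
  calc (r + 2) ^ 2 = 1 * (r + 2) ^ 2 * 1 := by ring
    _ ≤ 100 * (r + 2) ^ 2 * 2 ^ r := Nat.mul_le_mul (Nat.mul_le_mul_right _ (by norm_num)) h1

/-- The levels `2 k n`. -/
theorem tr_2k {Q : Type} [Group Q] {B : Lb.{0, 0} Q} {a b : B.L} {eps : Q →* ℤˣ} {D : Subgroup Q} {z : Q} {k : ℕ}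
    (H : HypC B a b eps D z k) (n : ℕ) (hn : 2 * k ∣ n) : Tr H.up n (z ^ (n / 2)) := by
  obtain ⟨q, rfl⟩ := hn
  have e : 2 * k * q / 2 = k * q := by
    rw [mul_assoc, Nat.mul_div_cancel_left _ (by norm_num)]
  rw [e]
  have h1 : eps z = 1 := C_eps_z H
  constructor
  · intro x
    induction q with
    | zero => simp
    | succ q ih =>
      rw [mul_add, mul_one, H.up.U_pow_add, C_U_2k H, ih, ← mul_assoc, ← pow_add]
      · congr 2; ring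
      · rw [mul_assoc, Nat.mul_div_cancel_left _ (by norm_num)]
  · intro x
    rw [C_up H, C_up H, map_mul, map_pow, h1, one_pow, one_mul]

theorem nrig (hFl : FlipLS) (hC : CNCS) (hT : TMCS) : NRigCS := by
  intro Q _ _ _ B a b eps D z k c W H hr hS hP hL m V hN hz hK
  right
  have hk : 0 < k := H.kpos
  have hneed := (needN_le hN.need).resolve_right hk.ne'
  have hFl' := hFl Q B a b eps D z k H.toHypC c W hS hP hL
  have hC' := hC Q B a b eps D z k c W H hr hS hP hL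
  generalize lamC ((Nat.card B.L + 2) ^ 4 * k) k c = Λ at hneed hFl' hC'
  have hΛW : Λ ≤ W := by
    have : 1 * Λ ≤ ((2 * m.primeFactors.card) ^ 2 + 1) * Λ := Nat.mul_le_mul_right _ (by omega)
    omega
  obtain ⟨x, s₁, s₂, F, hx, hF, hF0, m₁, m₂, n₁, n₂, n₃, L₁, L₂, hPos⟩ := hC' hΛW
  obtain ⟨w, cl, hw0, hwS, hTM⟩ := hT Q B a b eps D z k c W H x s₁ s₂ F hx hF m₁ m₂ hPos
  obtain ⟨t₀, ht₀, ⟨X, n, hn, hX⟩, hfl⟩ := hFl' hΛW x s₁ s₂ F hx hF hF0 m₁ m₂ n₁ n₂ n₃ L₁ L₂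
  have h2k : 2 * k ≤ W := by omega
  refine hnU H.up (2 * k) (fun n => z ^ (n / 2)) m V hN.odd (tr_2k H.toHypC) ?_ ?_ (im (H.up.U ^ t₀) F)
    ((H.up.U ^ t₀) s₁) ((H.up.U ^ t₀) x) ((H.up.U ^ t₀) s₂) Λ (fun γ => spr H.up F (2 * k) (w γ)) cl ?_ ?_ ?_
  · intro n
    rw [map_pow, hz, one_pow]
  · intro p hp
    have h1 := (hN.prm p hp).2.1
    nlinarith [Nat.zero_le m.primeFactors.card]
  · intro n hn _ hle
    refine hTM _ n t₀ hn (by omega) ht₀ ?_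
    intro γ s hs
    exact spr_eq hF.fr h2k (w γ) hs ht₀
  · exact ⟨X, n, hn, hX.dvd, hX.flat, hX.L₀, hX.u₀, hX.u₁⟩
  · intro p hp γ hγ
    have hpp := Nat.prime_of_mem_primeFactors hp
    have : Fact p.Prime := ⟨hpp⟩
    have hp4 := (hN.prm p hp).1
    obtain ⟨Y, Y', n', g1, g2, g3, g4⟩ := hfl p ⟨hpp⟩ (V.map (red (Nat.dvd_of_mem_primeFactors hp))) hp4 (by
      show red (Nat.dvd_of_mem_primeFactors hp) (V.chi z) = 1
      rw [hz, map_one]) (hK p hp) (fun y => ((spr H.up F (2 * k) (w γ) y : ℤ) : ZMod p))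
      (spr_lw hF.fr h2k (w γ) p) (by
        show ((spr H.up F (2 * k) (w γ) x : ℤ) : ZMod p) + ((spr H.up F (2 * k) (w γ) s₁ : ℤ) : ZMod p) = 0
        rw [spr_zero hF.fr h2k (by omega) (w γ) hF.fx, spr_zero hF.fr h2k (by omega) (w γ) m₁, ← Int.cast_add,
          hw0 γ, Int.cast_zero]) (by
        intro S hSS
        have e : ∑ s ∈ S, ((spr H.up F (2 * k) (w γ) s : ℤ) : ZMod p) = ((∑ s ∈ S, w γ s : ℤ) : ZMod p) := by
          rw [Int.cast_sum]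
          refine Finset.sum_congr rfl fun s hs => ?_
          rw [spr_zero hF.fr h2k (by omega) (w γ) (hSS.sub hs)]
        rw [e]
        obtain ⟨h3, h4⟩ := hwS γ hγ S hSS
        intro h5
        rw [ZMod.intCast_zmod_eq_zero_iff_dvd] at h5
        have h6 := Int.le_of_dvd (abs_pos.2 h3) ((dvd_abs _ _).2 h5)
        have h7 : (p : ℤ) ≤ 4 * k := h6.trans h4
        have h8 : p ≤ 4 * k := by exact_mod_cast h7
        omega)
    exact ⟨Y, Y', n', g1, g2.dvd, g2.L₀, g2.u₀, g2.u₁, g3, g4⟩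

end Pool.Agent.Lib.MP_688fd0_co.SQ4.Small
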