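import Pool.Agent.Lib.MP_688fd0_co.SQ4.Small.LadT1

/-!
Ladders, rows T1B and T1Z.
-/

set_option autoImplicit false

namespace Pool.Agent.Lib.MP_688fd0_co.SQ4.Small

open Pool.Agent.Lib.MP_688fd0_co.OSF Pool.Agent.Lib.MP_688fd0_co.SQ2 Pool.Agent.Lib.MP_688fd0_co.SQ3
open Pool.Agent.Lib.MP_688fd0_co.SQ3.Small

namespace Lad

section base

variable {Q : Type} [Group Q] {B : Lb.{0, 0} Q} {R : Type} [CommRing R] (V : Vd B R)
  (H : AddSubgroup R)

theorem tt_of (P : Q → R) (l : List B.L) (q : Q) (v : R) (h : ∀ y r, (y, r) ∈ es V (q, v) l → P y = r)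
    (hf : P (B.fin q l) - (v + V.vol q l) ∈ H) : Tt V H P q l := by
  induction l generalizing q v with
  | nil => trivial
  | cons g l ih =>
    have h0 : P q = v := h q v List.mem_cons_self
    have hf' : P (B.fin (q * B.q g) l) - (v + V.chi q * V.n g + V.vol (q * B.q g) l) ∈ H := by
      have : P (B.fin (q * B.q g) l) - (v + V.chi q * V.n g + V.vol (q * B.q g) l) =
          P (B.fin q (g :: l)) - (v + V.vol q (g :: l)) := by
        show _ = P (B.fin (q * B.q g) l) - (v + (V.chi q * V.n g + V.vol (q * B.q g) l))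
        ring
      rw [this]; exact hf
    refine ⟨?_, ih _ _ (fun y r hy => h y r (List.mem_cons_of_mem _ hy)) hf'⟩
    cases l with
    | nil =>
      have : P (q * B.q g) - P q - V.chi q * V.n g = P (B.fin (q * B.q g) []) -
          (v + V.chi q * V.n g + V.vol (q * B.q g) []) := by
        show _ = P (q * B.q g) - (v + V.chi q * V.n g + 0)
        rw [h0]; ring
      rw [this]; exact hf'
    | cons g' l' =>
      have h1 : P (q * B.q g) = v + V.chi q * V.n g :=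
        h _ _ (List.mem_cons_of_mem _ List.mem_cons_self)
      rw [h0, h1]
      have : v + V.chi q * V.n g - v - V.chi q * V.n g = 0 := by ring
      rw [this]; exact H.zero_mem

theorem twoC_cw {x₀ y₀ : Q} {wX wY : List B.L} (hT : TwoC B x₀ y₀ wX wY) (hX : wX ≠ []) (hY : wY ≠ [])
    (vX : AddSubgroup.zmultiples (V.vol x₀ wX) = H) (vY : AddSubgroup.zmultiples (V.vol y₀ wY) = H) :
    ∃ (side : Q → Bool) (P : Q → R), CW V H side P x₀ wX ∧ CW V H side P y₀ wY ∧ side x₀ = true ∧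
      side y₀ = false := by
  classical
  have hnd := hT.nd
  rw [List.nodup_append] at hnd
  obtain ⟨ndX, ndY, ndXY⟩ := hnd
  set P : Q → R := fun q => if h : ∃ r, (q, r) ∈ es V (x₀, 0) wX then h.choose else
    if h : ∃ r, (q, r) ∈ es V (y₀, 0) wY then h.choose else 0 with hP
  have eX := es_fst V (x₀, (0 : R)) wX
  have eY := es_fst V (y₀, (0 : R)) wY
  simp only at eX eY
  have pX : ∀ y r, (y, r) ∈ es V (x₀, 0) wX → P y = r := by
    intro y r hy
    have h : ∃ r, (y, r) ∈ es V (x₀, 0) wX := ⟨r, hy⟩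
    have e : P y = h.choose := by simp only [hP]; rw [dif_pos h]
    rw [e]
    have := H6.es_inj V (x₀, (0 : R)) wX ndX _ _ h.choose_spec hy rfl
    simp only [Prod.mk.injEq, true_and] at this
    exact this
  have pY : ∀ y r, (y, r) ∈ es V (y₀, 0) wY → P y = r := by
    intro y r hy
    have h : ∃ r, (y, r) ∈ es V (y₀, 0) wY := ⟨r, hy⟩
    have hn : ¬ ∃ r, (y, r) ∈ es V (x₀, 0) wX := by
      rintro ⟨r', hr'⟩
      have a1 : y ∈ src B x₀ wX := by rw [← eX]; exact List.mem_map.2 ⟨_, hr', rfl⟩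
      have a2 : y ∈ src B y₀ wY := by rw [← eY]; exact List.mem_map.2 ⟨_, hy, rfl⟩
      exact ndXY y a1 y a2 rfl
    have e : P y = h.choose := by simp only [hP]; rw [dif_neg hn, dif_pos h]
    rw [e]
    have := H6.es_inj V (y₀, (0 : R)) wY ndY _ _ h.choose_spec hy rfl
    simp only [Prod.mk.injEq, true_and] at this
    exact this
  have mX : x₀ ∈ src B x₀ wX := by rw [src_ne_nil _ hX]; exact List.mem_cons_self
  have mY : y₀ ∈ src B y₀ wY := by rw [src_ne_nil _ hY]; exact List.mem_cons_self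
  have P0X : P x₀ = 0 := by
    apply pX
    cases wX with
    | nil => exact absurd rfl hX
    | cons g l => exact List.mem_cons_self
  have P0Y : P y₀ = 0 := by
    apply pY
    cases wY with
    | nil => exact absurd rfl hY
    | cons g l => exact List.mem_cons_self
  have nY : ∀ y, y ∈ src B y₀ wY ↔ y ∉ src B x₀ wX := by
    intro y
    constructor
    · intro h1 h2; exact ndXY y h2 y h1 rfl
    · intro h1
      rcases List.mem_append.1 (hT.all y) with h | h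
      · exact absurd h h1
      · exact h
  refine ⟨fun q => decide (q ∈ src B x₀ wX), P, ⟨hT.fx, ndX, ?_, ?_, vX⟩, ⟨hT.fy, ndY, ?_, ?_, vY⟩, ?_, ?_⟩
  · intro y
    simp [mX]
  · refine tt_of V H P wX x₀ 0 pX ?_
    rw [hT.fx, P0X, ← vX]
    have : (0 : R) - (0 + V.vol x₀ wX) = -V.vol x₀ wX := by ring
    rw [this]
    exact AddSubgroup.neg_mem _ (AddSubgroup.mem_zmultiples _)
  · intro y
    have := (nY y₀).1 mY
    rw [nY]
    simp [this]
  · refine tt_of V H P wY y₀ 0 pY ?_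
    rw [hT.fy, P0Y, ← vY]
    have : (0 : R) - (0 + V.vol y₀ wY) = -V.vol y₀ wY := by ring
    rw [this]
    exact AddSubgroup.neg_mem _ (AddSubgroup.mem_zmultiples _)
  · simp [mX]
  · have := (nY y₀).1 mY
    simp [this]

end base

section arith

theorem rd_zero {m : ℕ} [NeZero m] (p : ℕ) : rd p (0 : ZMod m) = 0 := by
  rw [H6.rd_eq_zero]; simp

theorem rd_neg {m p : ℕ} (h : p ∣ m) (x : ZMod m) : rd p (-x) = -rd p x := ZMod.cast_neg h x

theorem rd_sub {m p : ℕ} (h : p ∣ m) (x y : ZMod m) : rd p (x - y) = rd p x - rd p y := ZMod.cast_sub h x y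

/-- The elements which vanish at the primes in `T`. -/
def Gam {m : ℕ} [NeZero m] (T : ℕ → Prop) : AddSubgroup (ZMod m) where
  carrier := {v | ∀ p ∈ m.primeFactors, T p → rd p v = 0}
  zero_mem' := fun p _ _ => rd_zero p
  add_mem' := fun {a b} ha hb p hp hT => by
    rw [H6.rd_add (Nat.dvd_of_mem_primeFactors hp), ha p hp hT, hb p hp hT, add_zero]
  neg_mem' := fun {a} ha p hp hT => by
    rw [rd_neg (Nat.dvd_of_mem_primeFactors hp), ha p hp hT, neg_zero]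

theorem mem_K (hz : ZmS) {m : ℕ} [NeZero m] (hsq : Squarefree m) (K : AddSubgroup (ZMod m)) (v : ZMod m)
    (h : ∀ p ∈ m.primeFactors, rd p v ≠ 0 → ∃ x ∈ K, rd p x ≠ 0) : v ∈ K := by
  have hm : m ≠ 0 := NeZero.ne m
  set K' : AddSubgroup (ZMod m) := K.comap (AddMonoidHom.mulRight v) with hK
  have hKt : K' = ⊤ := by
    refine hz m K' ?_
    intro p hp
    by_cases hv : rd p v = 0
    · refine ⟨((m / p : ℕ) : ZMod m), ?_, ?_⟩
      · rw [hK, AddSubgroup.mem_comap]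
        have hp' := (H6.rd_eq_zero p v).1 hv
        have e : (AddMonoidHom.mulRight v) ((m / p : ℕ) : ZMod m) = 0 := by
          show ((m / p : ℕ) : ZMod m) * v = 0
          rw [← ZMod.natCast_zmod_val v, ← Nat.cast_mul, ZMod.natCast_eq_zero_iff]
          obtain ⟨t, ht⟩ := hp'
          rw [ht, ← mul_assoc, Nat.div_mul_cancel (Nat.dvd_of_mem_primeFactors hp)]
          exact Dvd.intro _ rfl
        rw [e]
        exact AddSubgroup.zero_mem _
      · intro h0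
        have hpp := Nat.prime_of_mem_primeFactors hp
        have hd := Nat.dvd_of_mem_primeFactors hp
        have e : rd p ((m / p : ℕ) : ZMod m) = ((m / p : ℕ) : ZMod p) := ZMod.cast_natCast hd _
        rw [e, ZMod.natCast_eq_zero_iff] at h0
        have h2 : p * p ∣ m := by
          have := Nat.mul_dvd_mul h0 (dvd_refl p)
          rwa [Nat.div_mul_cancel hd] at this
        exact hpp.one_lt.ne' (Nat.isUnit_iff.1 (hsq p h2))
    · obtain ⟨x, hx, hx'⟩ := h p hp hv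
      refine ⟨x, ?_, hx'⟩
      rw [hK, AddSubgroup.mem_comap]
      show x * v ∈ K
      rw [← ZMod.natCast_zmod_val v, mul_comm, ← nsmul_eq_mul]
      exact K.nsmul_mem hx _
  have h1 : (1 : ZMod m) ∈ K' := by rw [hKt]; trivial
  rw [hK, AddSubgroup.mem_comap] at h1
  have e : (AddMonoidHom.mulRight v) (1 : ZMod m) = v := one_mul v
  rwa [e] at h1

/-- Both volumes generate the same subgroup. -/
theorem same_zm (hz : ZmS) {m : ℕ} [NeZero m] (hsq : Squarefree m) (a b : ZMod m)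
    (h : ∀ p ∈ m.primeFactors, (rd p a = 0 ↔ rd p b = 0)) :
    AddSubgroup.zmultiples b = AddSubgroup.zmultiples a := by
  apply le_antisymm
  · rw [AddSubgroup.zmultiples_le]
    exact H6.mem_zm hz hsq _ _ fun p hp => (h p hp).1
  · rw [AddSubgroup.zmultiples_le]
    exact H6.mem_zm hz hsq _ _ fun p hp => (h p hp).2

end arith

section sites

variable {Q : Type} [Group Q] {B : Lb.{0, 0} Q} {R : Type} [CommRing R] {V : Vd B R}
  {H : AddSubgroup R} {side : Q → Bool} {P : Q → R}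

/-- The moves of a site: up and down. -/
def Mv (B : Lb.{0, 0} Q) (r : Q) (g h g' h' : B.L) : Set (B.L × B.L × B.L) :=
  {μ | B.q μ.2.1 = r ∧ ((μ.1 = g ∧ μ.2.2 = h) ∨ (μ.1 = g' ∧ μ.2.2 = h'))}

theorem site_of {xs ys r : Q} {s g h g' h' : B.L} (hr : ∀ x, r * x = x * r) (hrr : r * r = 1) (hy : ys = xs * r)
    (hs : B.q s = r) (sx : side xs = true) (sy : side ys = false)
    (o₁ : OKL V H side P xs g) (o₂ : OKL V H side P (ys * B.q g) h) (q₁ : B.q h = (B.q g)⁻¹)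
    (o₃ : OKL V H side P xs g') (o₄ : OKL V H side P (ys * B.q g') h') (q₂ : B.q h' = (B.q g')⁻¹) :
    Site V H side P xs ys s (Mv B r g h g' h') := by
  have hc : ∀ x : Q, xs * x * r = ys * x := by
    intro x; rw [hy, mul_assoc, ← hr x, ← mul_assoc]
  refine ⟨sx, sy, ?_, ?_, ?_, ?_⟩
  · rw [hs, hy, mul_assoc, hrr, mul_one]
  · rintro ⟨a, k, b⟩ ⟨-, (⟨rfl, rfl⟩ | ⟨rfl, rfl⟩)⟩
    · exact o₁
    · exact o₃
  · rintro ⟨a, k, b⟩ ⟨hk, (⟨rfl, rfl⟩ | ⟨rfl, rfl⟩)⟩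
    · show OKL V H side P (xs * B.q a * B.q k) b
      have hk' : B.q k = r := hk
      rw [hk', hc]; exact o₂
    · show OKL V H side P (xs * B.q a * B.q k) b
      have hk' : B.q k = r := hk
      rw [hk', hc]; exact o₄
  · rintro ⟨a, k, b⟩ ⟨hk, (⟨rfl, rfl⟩ | ⟨rfl, rfl⟩)⟩
    · show xs * B.q a * B.q k * B.q b = ys
      have hk' : B.q k = r := hk
      rw [hk', hc, q₁, mul_inv_cancel_right]
    · show xs * B.q a * B.q k * B.q b = ys
      have hk' : B.q k = r := hk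
      rw [hk', hc, q₂, mul_inv_cancel_right]

end sites

end Lad

open Lad

theorem t1b (hH : HsS) (hz : ZmS) : T1BS := by
  intro Q _ _ B m _ V x₀ y₀ r g₀ gX h₀ gY s lX lY hsq hr hrr hy hs hh0 hgY hT hp
  have hm : m ≠ 0 := NeZero.ne m
  set wX := g₀ :: (lX ++ [gX]) with hwX
  set wY := h₀ :: (lY ++ [gY]) with hwY
  have hiff : ∀ p ∈ m.primeFactors, (rd p (V.vol x₀ wX) = 0 ↔ rd p (V.vol y₀ wY) = 0) := by
    intro p hp'
    rcases hp p hp' with ⟨h1, h2⟩ | ⟨h1, h2, _⟩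
    · exact ⟨fun h => absurd h h1, fun h => absurd h h2⟩
    · exact ⟨fun _ => h2, fun _ => h1⟩
  set H := AddSubgroup.zmultiples (V.vol x₀ wX) with hHdef
  have hHY : AddSubgroup.zmultiples (V.vol y₀ wY) = H := same_zm hz hsq _ _ hiff
  obtain ⟨side, P, cX, cY, sx, sy⟩ := twoC_cw V H hT (by simp [hwX]) (by simp [hwY]) rfl hHY
  have cX' : CW V H side P x₀ ((g₀ :: lX) ++ [gX]) := cX
  have cY' : CW V H side P y₀ ((h₀ :: lY) ++ [gY]) := cY
  have hy1 : OKL V H side P (y₀ * B.q h₀) (B.inv h₀) := okl_next cY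
  have S : Site V H side P x₀ y₀ s (Mv B r g₀ (B.inv h₀) (B.inv gX) gY) := by
    refine site_of hr hrr hy hs sx sy (okl_first cX) ?_ ?_ (okl_last cX') ?_ ?_
    · rw [← hh0]; exact hy1
    · rw [B.q_inv, hh0]
    · rw [B.q_inv, ← hgY]; exact okl_prev cY'
    · rw [B.q_inv, inv_inv, hgY]
  obtain ⟨W, a1, a2, a3, -⟩ := run hH S (⊤ : AddSubgroup (ZMod m ⧸ H)) (QuotientAddGroup.mk (dl V P x₀ y₀ s))
    trivial (fun _ _ => trivial) (by
      intro K hK x _
      obtain ⟨t, rfl⟩ := QuotientAddGroup.mk_surjective x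
      have h1 : K.comap (QuotientAddGroup.mk' H) = ⊤ := by
        refine hz m _ ?_
        intro p hp'
        rcases hp p hp' with ⟨h1, _⟩ | ⟨h1, h2, k, hk, h3⟩
        · refine ⟨V.vol x₀ wX, ?_, h1⟩
          rw [AddSubgroup.mem_comap]
          have : QuotientAddGroup.mk' H (V.vol x₀ wX) = 0 :=
            (QuotientAddGroup.eq_zero_iff _).2 (AddSubgroup.mem_zmultiples _)
          rw [this]; exact K.zero_mem
        · rcases h3 with h3 | h3
          · exact ⟨_, hK (g₀, k, B.inv h₀) ⟨hk, Or.inl ⟨rfl, rfl⟩⟩, h3⟩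
          · exact ⟨_, hK (B.inv gX, k, gY) ⟨hk, Or.inr ⟨rfl, rfl⟩⟩, h3⟩
      have h2 : t ∈ K.comap (QuotientAddGroup.mk' H) := by rw [h1]; trivial
      exact h2) (y₀ * B.q h₀, 0) (B.inv h₀) hy1 (by rw [B.q_inv, mul_inv_cancel_right]) g₀ s (okl_first cX)
  refine hp_of (y₀ * B.q h₀, 0) W a1 a2 ?_
  intro y
  rw [a3]
  unfold nu
  rw [QuotientAddGroup.eq]
  trivial

theorem t1z (hH : HsS) (hz : ZmS) : T1ZS := by
  intro Q _ _ B m _ V x₀ x₁ y₀ y₁ r g₀ g₁ gX h₀ h₁ gY s c lX lY hsq hr hrr hy hs hh0 hh1 hgY hx1 hy1 hc hT hp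
  have hm : m ≠ 0 := NeZero.ne m
  set wX := g₀ :: g₁ :: (lX ++ [gX]) with hwX
  set wY := h₀ :: h₁ :: (lY ++ [gY]) with hwY
  have hiff : ∀ p ∈ m.primeFactors, (rd p (V.vol x₀ wX) = 0 ↔ rd p (V.vol y₀ wY) = 0) := by
    intro p hp'
    rcases hp p hp' with ⟨h1, h2⟩ | ⟨h1, h2, _⟩
    · exact ⟨fun h => absurd h h1, fun h => absurd h h2⟩
    · exact ⟨fun _ => h2, fun _ => h1⟩
  set H := AddSubgroup.zmultiples (V.vol x₀ wX) with hHdef
  have hHY : AddSubgroup.zmultiples (V.vol y₀ wY) = H := same_zm hz hsq _ _ hiff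
  obtain ⟨side, P, cX, cY, sx, sy⟩ := twoC_cw V H hT (by simp [hwX]) (by simp [hwY]) rfl hHY
  -- closed walks at the other vertices
  have cX' : CW V H side P x₀ ((g₀ :: g₁ :: lX) ++ [gX]) := cX
  have cY' : CW V H side P y₀ ((h₀ :: h₁ :: lY) ++ [gY]) := cY
  have cX1 : CW V H side P (x₀ * B.q g₀) (g₁ :: ((lX ++ [gX]) ++ [g₀])) :=
    CW.rot (w₁ := [g₀]) (w₂ := g₁ :: (lX ++ [gX])) cX
  have cY1 : CW V H side P (y₀ * B.q h₀) (h₁ :: ((lY ++ [gY]) ++ [h₀])) :=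
    CW.rot (w₁ := [h₀]) (w₂ := h₁ :: (lY ++ [gY])) cY
  rw [← hx1] at cX1
  rw [← hy1] at cY1
  have hyx : y₁ = x₁ * r := by rw [hy1, hx1, hy, hh0, mul_assoc, hr, ← mul_assoc]
  have r_inv : r⁻¹ = r := inv_eq_of_mul_eq_one_left hrr
  have oX0 : OKL V H side P x₀ g₀ := okl_first cX
  have oY0 : OKL V H side P y₀ h₀ := okl_first cY
  have oX1 : OKL V H side P x₁ (B.inv g₀) := by rw [hx1]; exact okl_next cX
  have oY1 : OKL V H side P y₁ (B.inv h₀) := by rw [hy1]; exact okl_next cY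
  have sx1 : side x₁ = true := by rw [hx1, oX0.tight.1, sx]
  have sy1 : side y₁ = false := by rw [hy1, oY0.tight.1, sy]
  have yh : y₁ * (B.q g₀)⁻¹ = y₀ := by rw [hy1, hh0, mul_inv_cancel_right]
  have S0 : Site V H side P x₀ y₀ s (Mv B r g₀ (B.inv h₀) (B.inv gX) gY) := by
    refine site_of hr hrr hy hs sx sy oX0 ?_ ?_ (okl_last cX') ?_ ?_
    · rw [← hh0, ← hy1]; exact oY1
    · rw [B.q_inv, hh0]
    · rw [B.q_inv, ← hgY]; exact okl_prev cY'
    · rw [B.q_inv, inv_inv, hgY]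
  have S1 : Site V H side P x₁ y₁ s (Mv B r g₁ (B.inv h₁) (B.inv g₀) h₀) := by
    refine site_of hr hrr hyx hs sx1 sy1 (okl_first cX1) ?_ ?_ oX1 ?_ ?_
    · rw [← hh1]; exact okl_next cY1
    · rw [B.q_inv, hh1]
    · rw [B.q_inv, yh]; exact oY0
    · rw [B.q_inv, inv_inv, hh0]
  -- the three kinds of primes
  set T : ℕ → Prop := fun p => rd p (V.vol x₀ wX) = 0 ∧ (∀ k, B.q k = r →
      rd p (V.vol x₀ [g₀, k, B.inv h₀, s]) = 0 ∧ rd p (V.vol x₀ [B.inv gX, k, gY, s]) = 0 ∧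
      rd p (V.vol x₁ [g₁, k, B.inv h₁, s]) = 0 ∧ rd p (V.vol x₁ [B.inv g₀, k, h₀, s]) = 0) ∧
      rd p (V.vol y₀ [s, g₀, B.inv c]) = rd p (V.vol y₁ [s, B.inv g₀, c]) ∧
      rd p (V.vol y₀ [s, g₀, B.inv c]) ≠ 0 with hTdef
  have hkind : ∀ p ∈ m.primeFactors, rd p (V.vol x₀ wX) ≠ 0 ∨
      ((∃ k, B.q k = r ∧ (rd p (V.vol x₀ [g₀, k, B.inv h₀, s]) ≠ 0 ∨
        rd p (V.vol x₀ [B.inv gX, k, gY, s]) ≠ 0)) ∧
       ∃ k, B.q k = r ∧ (rd p (V.vol x₁ [g₁, k, B.inv h₁, s]) ≠ 0 ∨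
        rd p (V.vol x₁ [B.inv g₀, k, h₀, s]) ≠ 0)) ∨ T p := by
    intro p hp'
    rcases hp p hp' with ⟨h1, _⟩ | ⟨h1, h2, h3 | ⟨h3, h4, h5⟩⟩
    · exact Or.inl h1
    · exact Or.inr (Or.inl h3)
    · exact Or.inr (Or.inr ⟨h1, h3, h4, h5⟩)
  set Γ : AddSubgroup (ZMod m) := Gam T with hΓ
  have hHΓ : H ≤ Γ := by
    rw [hHdef, AddSubgroup.zmultiples_le]
    intro p _ ht
    exact ht.1
  set G : AddSubgroup (ZMod m ⧸ H) := Γ.map (QuotientAddGroup.mk' H) with hG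
  have memG : ∀ t : ZMod m, (QuotientAddGroup.mk t : ZMod m ⧸ H) ∈ G ↔ t ∈ Γ := by
    intro t
    constructor
    · rintro ⟨t', ht', he⟩
      have he' : (QuotientAddGroup.mk t' : ZMod m ⧸ H) = QuotientAddGroup.mk t := he
      rw [QuotientAddGroup.eq] at he'
      have := Γ.add_mem ht' (hHΓ he')
      rwa [add_neg_cancel_left] at this
    · intro ht; exact ⟨t, ht, rfl⟩
  -- the moves lie in `Γ`
  have d0 : ∀ μ ∈ Mv B r g₀ (B.inv h₀) (B.inv gX) gY, dsp V x₀ s μ ∈ Γ := by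
    rintro ⟨a, k, b⟩ ⟨hk, (⟨rfl, rfl⟩ | ⟨rfl, rfl⟩)⟩ p hp' ht
    · exact (ht.2.1 k hk).1
    · exact (ht.2.1 k hk).2.1
  have d1 : ∀ μ ∈ Mv B r g₁ (B.inv h₁) (B.inv g₀) h₀, dsp V x₁ s μ ∈ Γ := by
    rintro ⟨a, k, b⟩ ⟨hk, (⟨rfl, rfl⟩ | ⟨rfl, rfl⟩)⟩ p hp' ht
    · exact (ht.2.1 k hk).2.2.1
    · exact (ht.2.1 k hk).2.2.2
  have hvX : ∀ K : AddSubgroup (ZMod m ⧸ H), (QuotientAddGroup.mk (V.vol x₀ wX) : ZMod m ⧸ H) ∈ K := by
    intro K
    have : (QuotientAddGroup.mk (V.vol x₀ wX) : ZMod m ⧸ H) = 0 :=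
      (QuotientAddGroup.eq_zero_iff _).2 (AddSubgroup.mem_zmultiples _)
    rw [this]; exact K.zero_mem
  have g0 : ∀ K : AddSubgroup (ZMod m ⧸ H), (∀ μ ∈ Mv B r g₀ (B.inv h₀) (B.inv gX) gY,
      (QuotientAddGroup.mk (dsp V x₀ s μ) : ZMod m ⧸ H) ∈ K) → G ≤ K := by
    rintro K hK _ ⟨t, ht, rfl⟩
    have : t ∈ K.comap (QuotientAddGroup.mk' H) := by
      refine mem_K hz hsq _ t ?_
      intro p hp' hne
      rcases hkind p hp' with h1 | ⟨⟨k, hk, h3⟩, -⟩ | h1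
      · exact ⟨_, hvX K, h1⟩
      · rcases h3 with h3 | h3
        · exact ⟨_, hK (g₀, k, B.inv h₀) ⟨hk, Or.inl ⟨rfl, rfl⟩⟩, h3⟩
        · exact ⟨_, hK (B.inv gX, k, gY) ⟨hk, Or.inr ⟨rfl, rfl⟩⟩, h3⟩
      · exact absurd (ht p hp' h1) hne
    exact this
  have g1 : ∀ K : AddSubgroup (ZMod m ⧸ H), (∀ μ ∈ Mv B r g₁ (B.inv h₁) (B.inv g₀) h₀,
      (QuotientAddGroup.mk (dsp V x₁ s μ) : ZMod m ⧸ H) ∈ K) → G ≤ K := by
    rintro K hK _ ⟨t, ht, rfl⟩
    have : t ∈ K.comap (QuotientAddGroup.mk' H) := by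
      refine mem_K hz hsq _ t ?_
      intro p hp' hne
      rcases hkind p hp' with h1 | ⟨-, ⟨k, hk, h3⟩⟩ | h1
      · exact ⟨_, hvX K, h1⟩
      · rcases h3 with h3 | h3
        · exact ⟨_, hK (g₁, k, B.inv h₁) ⟨hk, Or.inl ⟨rfl, rfl⟩⟩, h3⟩
        · exact ⟨_, hK (B.inv g₀, k, h₀) ⟨hk, Or.inr ⟨rfl, rfl⟩⟩, h3⟩
      · exact absurd (ht p hp' h1) hne
    exact this
  -- tight edges
  have tX := oX0.tight.2
  have tY := oY0.tight.2
  rw [← hx1] at tX
  rw [← hy1] at tY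
  -- the difference between the indices
  have hdl : dl V P x₀ y₀ s - dl V P x₁ y₁ s ∈ Γ := by
    have e : dl V P x₀ y₀ s - dl V P x₁ y₁ s =
        -((P x₁ - P x₀ - V.chi x₀ * V.n g₀) - (P y₁ - P y₀ - V.chi y₀ * V.n h₀) +
          (V.chi x₀ * V.n g₀ - V.chi y₀ * V.n h₀ - V.chi y₁ * V.n s + V.chi y₀ * V.n s)) := by
      unfold dl; ring
    rw [e]
    refine Γ.neg_mem (Γ.add_mem (Γ.sub_mem (hHΓ tX) (hHΓ tY)) ?_)
    intro p hp' ht
    have hd := Nat.dvd_of_mem_primeFactors hp'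
    have k1 := (ht.2.1 s hs).1
    have k2 := (ht.2.1 (B.inv s) (by rw [B.q_inv, hs, r_inv])).1
    have ev1 : ∀ k, B.q k = r → V.vol x₀ [g₀, k, B.inv h₀, s] =
        V.chi x₀ * V.n g₀ + V.chi x₁ * V.n k - V.chi y₀ * V.n h₀ + V.chi y₀ * V.n s := by
      intro k hk
      show V.chi x₀ * V.n g₀ + (V.chi (x₀ * B.q g₀) * V.n k + (V.chi (x₀ * B.q g₀ * B.q k) * V.n (B.inv h₀) +
        (V.chi (x₀ * B.q g₀ * B.q k * B.q (B.inv h₀)) * V.n s + 0))) = _
      have e1 : x₀ * B.q g₀ * B.q k = y₁ := by rw [hk, ← hx1, hyx]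
      have e2 : y₁ * (B.q h₀)⁻¹ = y₀ := by rw [hy1, mul_inv_cancel_right]
      rw [e1, B.q_inv, e2, ← hx1, V.n_inv]
      have e3 : V.chi y₁ * V.chi (B.q h₀)⁻¹ = V.chi y₀ := by rw [← map_mul, e2]
      linear_combination -V.n h₀ * e3
    rw [ev1 s hs] at k1
    rw [ev1 (B.inv s) (by rw [B.q_inv, hs, r_inv])] at k2
    have e4 : V.n (B.inv s) = -(V.chi r * V.n s) := by rw [V.n_inv, hs, r_inv]
    have e5 : V.chi y₁ = V.chi x₁ * V.chi r := by rw [hyx, map_mul]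
    -- difference of `k1` and `k2`
    have k3 : rd p (V.chi x₁ * V.n s + V.chi y₁ * V.n s) = 0 := by
      have : V.chi x₁ * V.n s + V.chi y₁ * V.n s =
          (V.chi x₀ * V.n g₀ + V.chi x₁ * V.n s - V.chi y₀ * V.n h₀ + V.chi y₀ * V.n s) -
          (V.chi x₀ * V.n g₀ + V.chi x₁ * V.n (B.inv s) - V.chi y₀ * V.n h₀ + V.chi y₀ * V.n s) := by
        rw [e4, e5]; ring
      rw [this, rd_sub hd, k1, k2, sub_zero]
    have : V.chi x₀ * V.n g₀ - V.chi y₀ * V.n h₀ - V.chi y₁ * V.n s + V.chi y₀ * V.n s =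
        (V.chi x₀ * V.n g₀ + V.chi x₁ * V.n s - V.chi y₀ * V.n h₀ + V.chi y₀ * V.n s) -
        (V.chi x₁ * V.n s + V.chi y₁ * V.n s) := by ring
    rw [this, rd_sub hd, k1, k3, sub_zero]
  -- the chain
  set δ : ZMod m ⧸ H := QuotientAddGroup.mk (dl V P x₀ y₀ s) with hδ
  set τ : (ZMod m ⧸ H) ⧸ G := QuotientAddGroup.mk (QuotientAddGroup.mk (V.vol y₀ [s, g₀, B.inv c])) with hτ
  set en : Bool → Q := fun f => if f then y₀ else y₁ with hen
  have hnu : ∀ (e : Q × ZMod m), side e.1 = false →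
      nu H G δ (cell H side P e) = QuotientAddGroup.mk (QuotientAddGroup.mk (e.2 - P e.1)) := by
    intro e he
    unfold nu cell
    simp only [he]
    rfl
  -- volumes along the chain
  have vy1 : V.vol y₁ [B.inv h₀] = -(V.chi y₀ * V.n h₀) := by
    show V.chi y₁ * V.n (B.inv h₀) + 0 = _
    have e3 : V.chi y₁ * V.chi (B.q h₀)⁻¹ = V.chi y₀ := by
      rw [← map_mul]; congr 1; rw [hy1, mul_inv_cancel_right]
    rw [V.n_inv]
    linear_combination -V.n h₀ * e3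
  have vsum0 : V.vol y₁ [B.inv h₀, s, g₀, B.inv c] = -(V.chi y₀ * V.n h₀) + V.vol y₀ [s, g₀, B.inv c] := by
    rw [show [B.inv h₀, s, g₀, B.inv c] = [B.inv h₀] ++ [s, g₀, B.inv c] from rfl, H6.vol_append, vy1]
    have : B.fin y₁ [B.inv h₀] = y₀ := by
      show y₁ * B.q (B.inv h₀) = y₀
      rw [B.q_inv, hy1, mul_inv_cancel_right]
    rw [this]
  have vsum1 : V.vol y₀ [h₀, s, B.inv g₀, c] = V.chi y₀ * V.n h₀ + V.vol y₁ [s, B.inv g₀, c] := by
    rw [show [h₀, s, B.inv g₀, c] = [h₀] ++ [s, B.inv g₀, c] from rfl, H6.vol_append]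
    have : B.fin y₀ [h₀] = y₁ := hy1.symm
    rw [this]
    show V.chi y₀ * V.n h₀ + 0 + _ = _
    rw [add_zero]
  have hrun : ∀ (f : Bool) (e : Q × ZMod m), e.1 = en f → ∃ W, ok V H side P e W ∧ (cs V H side P e W).Nodup ∧
      (∀ c, c ∈ cs V H side P e W ↔ nu H G δ c = nu H G δ (cell H side P e)) ∧ (tg V e W).1 = en (!f) ∧
      nu H G δ (cell H side P (tg V e W)) = nu H G δ (cell H side P e) + τ := by
    intro f e he
    cases f with
    | false =>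
      have he' : e.1 = y₁ := he
      obtain ⟨W, a1, a2, a3, t, a4, a5⟩ := run hH S0 G δ (by rw [hδ, sub_self]; exact G.zero_mem)
        (fun μ hμ => (memG _).2 (d0 μ hμ)) g0 e (B.inv h₀) (by rw [he']; exact oY1)
        (by rw [he', B.q_inv, hy1, mul_inv_cancel_right]) g₀ (B.inv c) oX0
      have hend : x₀ * B.q g₀ * B.q (B.inv c) = y₀ := by
        rw [B.q_inv, hc, mul_inv_rev, r_inv, ← mul_assoc, mul_assoc (x₀ * B.q g₀), hr, ← mul_assoc,
          mul_inv_cancel_right, hy]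
      rw [hend] at a4
      refine ⟨W, a1, a2, a3, by rw [a4]; rfl, ?_⟩
      rw [a4, hnu _ sy, hnu e (by rw [he']; exact sy1), hτ, ← QuotientAddGroup.mk_add, ← QuotientAddGroup.mk_add,
        QuotientAddGroup.eq, ← QuotientAddGroup.mk_neg, ← QuotientAddGroup.mk_add, memG]
      rw [memG] at a5
      rw [he', vsum0]
      have e9 : -(e.2 + (-(V.chi y₀ * V.n h₀) + V.vol y₀ [s, g₀, B.inv c]) + t - P y₀) +
          (e.2 - P y₁ + V.vol y₀ [s, g₀, B.inv c]) = -((P y₁ - P y₀ - V.chi y₀ * V.n h₀) + t) := by ring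
      rw [e9]
      exact Γ.neg_mem (Γ.add_mem (hHΓ tY) a5)
    | true =>
      have he' : e.1 = y₀ := he
      obtain ⟨W, a1, a2, a3, t, a4, a5⟩ := run hH S1 G δ (by
          rw [hδ, ← QuotientAddGroup.mk_sub, memG]; exact hdl)
        (fun μ hμ => (memG _).2 (d1 μ hμ)) g1 e h₀ (by rw [he']; exact oY0)
        (by rw [he', hy1]) (B.inv g₀) c oX1
      have hend : x₁ * B.q (B.inv g₀) * B.q c = y₁ := by
        rw [B.q_inv, hx1, mul_inv_cancel_right, hc, ← mul_assoc, ← hx1, hyx]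
      rw [hend] at a4
      refine ⟨W, a1, a2, a3, by rw [a4]; rfl, ?_⟩
      rw [a4, hnu _ sy1, hnu e (by rw [he']; exact sy), hτ, ← QuotientAddGroup.mk_add, ← QuotientAddGroup.mk_add,
        QuotientAddGroup.eq, ← QuotientAddGroup.mk_neg, ← QuotientAddGroup.mk_add, memG]
      rw [memG] at a5
      rw [he', vsum1]
      have e9 : -(e.2 + (V.chi y₀ * V.n h₀ + V.vol y₁ [s, B.inv g₀, c]) + t - P y₁) +
          (e.2 - P y₀ + V.vol y₀ [s, g₀, B.inv c]) = (P y₁ - P y₀ - V.chi y₀ * V.n h₀) - t +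
            (V.vol y₀ [s, g₀, B.inv c] - V.vol y₁ [s, B.inv g₀, c]) := by ring
      rw [e9]
      refine Γ.add_mem (Γ.sub_mem (hHΓ tY) a5) ?_
      intro p hp' ht
      rw [rd_sub (Nat.dvd_of_mem_primeFactors hp'), ht.2.2.1, sub_self]
  obtain ⟨W, a1, a2, a3⟩ := chain G δ τ en hrun (addOrderOf τ) le_rfl false (y₁, 0) rfl
  refine hp_of (y₁, 0) W a1 a2 ?_
  intro y
  rw [a3]
  -- `τ` generates
  have hgen : ∀ x : (ZMod m ⧸ H) ⧸ G, x ∈ AddSubgroup.zmultiples τ := by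
    intro x
    obtain ⟨x, rfl⟩ := QuotientAddGroup.mk_surjective x
    obtain ⟨t, rfl⟩ := QuotientAddGroup.mk_surjective x
    have h1 : ((AddSubgroup.zmultiples τ).comap (QuotientAddGroup.mk' G)).comap (QuotientAddGroup.mk' H) = ⊤ := by
      refine hz m _ ?_
      intro p hp'
      have hin : ∀ t ∈ Γ, t ∈ ((AddSubgroup.zmultiples τ).comap (QuotientAddGroup.mk' G)).comap
          (QuotientAddGroup.mk' H) := by
        intro t ht
        rw [AddSubgroup.mem_comap, AddSubgroup.mem_comap]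
        have : QuotientAddGroup.mk' G (QuotientAddGroup.mk' H t) = 0 :=
          (QuotientAddGroup.eq_zero_iff _).2 ((memG t).2 ht)
        rw [this]; exact AddSubgroup.zero_mem _
      rcases hkind p hp' with h1 | ⟨⟨k, hk, h3⟩, -⟩ | h1
      · exact ⟨_, hin _ (hHΓ (AddSubgroup.mem_zmultiples _)), h1⟩
      · rcases h3 with h3 | h3
        · exact ⟨_, hin _ (d0 (g₀, k, B.inv h₀) ⟨hk, Or.inl ⟨rfl, rfl⟩⟩), h3⟩
        · exact ⟨_, hin _ (d0 (B.inv gX, k, gY) ⟨hk, Or.inr ⟨rfl, rfl⟩⟩), h3⟩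
      · exact ⟨_, AddSubgroup.mem_zmultiples τ, h1.2.2.2⟩
    have h2 : t ∈ ((AddSubgroup.zmultiples τ).comap (QuotientAddGroup.mk' G)).comap (QuotientAddGroup.mk' H) := by
      rw [h1]; trivial
    exact h2
  have h1 := hgen (nu H G δ (cell H side P y) - nu H G δ (cell H side P (y₁, 0)))
  classical
  rw [mem_zmultiples_iff_mem_range_addOrderOf] at h1
  simp only [Finset.mem_image, Finset.mem_range] at h1
  obtain ⟨j, hj, he⟩ := h1
  exact ⟨j, hj, by rw [he]; abel⟩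

end Pool.Agent.Lib.MP_688fd0_co.SQ4.Small
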