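import Pool.Agent.Lib.MP_688fd0_co.SQ4.Small.LadF
import Pool.Agent.Lib.MP_688fd0_co.SQ4.Small.LadT
import Pool.Agent.Lib.MP_688fd0_co.SQ3.Small.HS
import Pool.Agent.Lib.MP_688fd0_co.SQ3.Small.ZM
import Pool.Agent.Lib.MP_688fd0_co.SQ3.Small.BW
import Pool.Agent.Lib.MP_688fd0_co.SQ3.Small.T1a
import Pool.Agent.Lib.MP_688fd0_co.SQ3.Small.Fac

/-!
Row RIGC, all hypotheses discharged.
-/

set_option autoImplicit false

namespace Pool.Agent.Lib.MP_688fd0_co.SQ4.Small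

open Pool.Agent.Lib.MP_688fd0_co.SQ3

/-- RIGC. -/
theorem rig : RigCS :=
  rigC (t1b SQ3.Small.hs SQ3.Small.zm) (t1z SQ3.Small.hs SQ3.Small.zm) SQ3.Small.ar
    (Dih.dih (SQ3.Small.t1a (SQ3.Small.bw SQ3.Small.hs) SQ3.Small.zm) SQ3.Small.fac SQ3.Small.ar)

end Pool.Agent.Lib.MP_688fd0_co.SQ4.Small
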