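import Pool.Agent.Lib.MP_688fd0_co.SQ4.Small.Tm1

/-!
Type C1, at most two lines, one window: the weights and the tour makers.
-/

set_option autoImplicit false

namespace Pool.Agent.Lib.MP_688fd0_co.SQ4.Small

open Pool.Agent.Lib.MP_688fd0_co.OSF Pool.Agent.Lib.MP_688fd0_co.SQ2 Pool.Agent.Lib.MP_688fd0_co.SQ3
open Pool.Agent.Lib.MP_688fd0_co.SQ4
open Pool.Agent.Lib.MP_688fd0_co.SQ3.Small (TM pow_comm' mem_im' lvd Mk1S Mk2S Mk3S LvD)
open Finset (range)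
open H31

section

variable {Q : Type} [Group Q] {B : Lb.{0, 0} Q} {a b : B.L} {eps : Q →* ℤˣ} {D : Subgroup Q} {z : Q}
  {k c W : ℕ}

open Classical in
/-- The weights on two lines, one tour. -/
noncomputable def wB (U : Up B) (x : Q) (d : ℕ) (v : Q) : ℤ :=
  if Arc U x 0 d v then 1 else if Ln U x v then -1 else 1

open Classical in
/-- The weights on two lines, two tours. -/
noncomputable def wC (U : Up B) (x l : Q) (d : ℕ) (γ : Bool) (v : Q) : ℤ :=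
  if Ln U x v then (if γ then 0 else 1) else if Arc U l 0 d v then (if γ then 0 else -1) else (if γ then 1 else 0)

theorem wB_abs (U : Up B) (x : Q) (d : ℕ) (v : Q) : |wB U x d v| ≤ 1 := by
  unfold wB; split_ifs <;> simp

theorem wC_abs (U : Up B) (x l : Q) (d : ℕ) (γ : Bool) (v : Q) : |wC U x l d γ v| ≤ 1 := by
  unfold wC; split_ifs <;> simp

theorem wB_eq (H : HypC B a b eps D z k) {x : Q} {d t : ℕ} (h0 : 0 < t) (h1 : t ≤ lnM B a b)
    (hd : d ≤ lnM B a b) : wB H.up x d ((H.up.U ^ t) x) = if t ≤ d then 1 else -1 := by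
  unfold wB
  by_cases h : t ≤ d
  · rw [if_pos h, if_pos ((arc_iff H h0 h1 hd).2 ⟨h0, h⟩)]
  · rw [if_neg h, if_neg (fun h2 => h ((arc_iff H h0 h1 hd).1 h2).2), if_pos ⟨t, rfl⟩]

theorem arc_ln {U : Up B} {x v : Q} {d e : ℕ} (h : Arc U x d e v) : Ln U x v := by
  obtain ⟨t, -, -, rfl⟩ := h
  exact ⟨t, rfl⟩

theorem wB_off {U : Up B} {x v : Q} (h : ¬ Ln U x v) (d : ℕ) : wB U x d v = 1 := by
  unfold wB
  rw [if_neg (fun h1 => h (arc_ln h1)), if_neg h]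

theorem wC_on {U : Up B} {x v : Q} (h : Ln U x v) (l : Q) (d : ℕ) :
    wC U x l d false v = 1 ∧ wC U x l d true v = 0 := by
  unfold wC
  rw [if_pos h, if_pos h]
  simp

theorem wC_off (H : HypC B a b eps D z k) {x l : Q} (hl : ¬ Ln H.up x l) {d t : ℕ} (h0 : 0 < t) (h1 : t ≤ lnM B a b)
    (hd : d ≤ lnM B a b) : wC H.up x l d false ((H.up.U ^ t) l) = (if t ≤ d then -1 else 0) ∧
      wC H.up x l d true ((H.up.U ^ t) l) = if t ≤ d then 0 else 1 := by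
  have h2 : ¬ Ln H.up x ((H.up.U ^ t) l) := fun h => hl (h.trans (ln_symm H ⟨t, rfl⟩))
  unfold wC
  rw [if_neg h2, if_neg h2]
  by_cases h : t ≤ d
  · rw [if_pos h, if_pos h, if_pos ((arc_iff H h0 h1 hd).2 ⟨h0, h⟩), if_pos ((arc_iff H h0 h1 hd).2 ⟨h0, h⟩)]
    simp
  · rw [if_neg h, if_neg h, if_neg (fun h2 => h ((arc_iff H h0 h1 hd).1 h2).2),
      if_neg (fun h2 => h ((arc_iff H h0 h1 hd).1 h2).2)]
    simp

variable [DecidableEq Q]

/-- p2. -/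
theorem ne_p2 (H : HypC B a b eps D z k) (hi : (Subgroup.zpowers (B.q a * (B.q b)⁻¹)).relIndex eps.ker = 2)
    {F : Finset Q} {x s₁ s₂ : Q} {d : ℕ} (h1 : 0 < d) (h2 : d < lnM B a b)
    (e₂ : (H.up.U ^ d) x = s₂) (l₁ : ¬ Ln H.up x s₁)
    (n : x⁻¹ * s₁ ∈ D ∨ (x⁻¹ * s₂ ∈ D ∧ lnM B a b ≤ 2 * d)) {S : Finset Q} (hS : InS D k F x s₁ s₂ S) :
    ∑ v ∈ S, wB H.up x d v ≠ 0 := by
  classical
  rw [← Finset.sum_filter_add_sum_filter_not S (Ln H.up x)]
  have hL1 : ∀ v ∈ S.filter (Ln H.up x), Ln H.up x v := fun v hv => (Finset.mem_filter.1 hv).2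
  have e1 : ∑ v ∈ S.filter (Ln H.up x), wB H.up x d v = -1 * (S.filter (Ln H.up x)).card +
      (1 - -1) * ∑ t ∈ range d, fS H.up (S.filter (Ln H.up x)) x (0 + t) := by
    refine sum_one H _ x hL1 _ 0 d (by omega) 1 (-1) ?_
    intro t h3 h4
    rw [wB_eq H h3 h4 h2.le]
    by_cases h5 : t ≤ d
    · rw [if_pos h5, if_pos ⟨h3, by omega⟩]
    · rw [if_neg h5, if_neg (by omega)]
  have e2 : ∑ v ∈ S.filter (fun v => ¬ Ln H.up x v), wB H.up x d v = (S.filter (fun v => ¬ Ln H.up x v)).card := by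
    rw [Finset.sum_congr rfl fun v hv => wB_off (Finset.mem_filter.1 hv).2 d]
    simp
  have hfS : ∀ t, fS H.up (S.filter (Ln H.up x)) x t = fS H.up S x t := by
    intro t
    unfold fS
    by_cases h3 : (H.up.U ^ (t + 1)) x ∈ S
    · rw [if_pos h3, if_pos (Finset.mem_filter.2 ⟨h3, ⟨_, rfl⟩⟩)]
    · rw [if_neg h3, if_neg (fun h4 => h3 (Finset.mem_filter.1 h4).1)]
  have e3 : ∑ t ∈ range d, fS H.up (S.filter (Ln H.up x)) x (0 + t) = ∑ t ∈ range d, fS H.up S x t :=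
    Finset.sum_congr rfl fun t _ => by rw [hfS, zero_add]
  have e4 : ((S.filter (Ln H.up x)).card : ℤ) = ∑ t ∈ range (lnM B a b), fS H.up S x t := by
    rw [card_line H _ x hL1]
    exact Finset.sum_congr rfl fun t _ => hfS t
  rw [e1, e2, e3]
  rcases n with n | ⟨n, hn⟩
  · obtain ⟨g1, g2, g3⟩ := near_per H hS hS.h₁ n
    have h6 : ((S.filter (Ln H.up x)).card : ℤ) = (S.filter (fun v => ¬ Ln H.up x v)).card := by
      exact_mod_cast card_swap H hi g1 g2 g3 l₁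
    have h7 : 1 ≤ ∑ t ∈ range d, fS H.up S x t := by
      have h8 : fS H.up S x (d - 1) = 1 := fS_one h1 (by rw [e₂]; exact hS.h₂)
      rw [← h8]
      exact Finset.single_le_sum (fun t _ => fS_nonneg _ _ _ _) (Finset.mem_range.2 (by omega))
    omega
  · have p : ∀ t, fS H.up S x (t + d) = fS H.up S x t := near_f H hS hS.h₂ n e₂
    have h5 := equi _ _ _ (fS_per H S x) p
    rw [← e4] at h5
    have h6 : (1 : ℤ) ≤ (S.filter (fun v => ¬ Ln H.up x v)).card := by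
      have : 0 < (S.filter (fun v => ¬ Ln H.up x v)).card :=
        Finset.card_pos.2 ⟨s₁, Finset.mem_filter.2 ⟨hS.h₁, l₁⟩⟩
      exact_mod_cast this
    have h7 : ((S.filter (Ln H.up x)).card : ℤ) ≤ 2 * ∑ t ∈ range d, fS H.up S x t := by
      have hM : (0 : ℤ) < lnM B a b := by exact_mod_cast lnM_pos H
      have h8 : (0 : ℤ) ≤ (S.filter (Ln H.up x)).card := Int.natCast_nonneg _
      have h9 : (lnM B a b : ℤ) ≤ 2 * d := by exact_mod_cast hn
      refine le_of_mul_le_mul_left ?_ hM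
      calc (lnM B a b : ℤ) * (S.filter (Ln H.up x)).card ≤ 2 * d * (S.filter (Ln H.up x)).card :=
            mul_le_mul_of_nonneg_right h9 h8
        _ = lnM B a b * (2 * ∑ t ∈ range d, fS H.up S x t) := by linear_combination (-2 : ℤ) * h5
    omega

/-- p3. -/
theorem ne_p3 (H : HypC B a b eps D z k) (hi : (Subgroup.zpowers (B.q a * (B.q b)⁻¹)).relIndex eps.ker = 2)
    {F : Finset Q} {x s₁ s₂ : Q} {d : ℕ} (h1 : 0 < d) (h2 : d < lnM B a b)
    (e₁ : (H.up.U ^ d) s₂ = s₁) (l₂ : ¬ Ln H.up x s₂) (n : x⁻¹ * s₁ ∈ D ∨ x⁻¹ * s₂ ∈ D) {S : Finset Q}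
    (hS : InS D k F x s₁ s₂ S) (γ : Bool) : ∑ v ∈ S, wC H.up x s₂ d γ v ≠ 0 := by
  classical
  have l₁ : ¬ Ln H.up x s₁ := fun h => l₂ (h.trans (ln_symm H ⟨d, e₁.symm⟩))
  have hL2 : ∀ v, ¬ Ln H.up x v → Ln H.up s₂ v := fun v hv => (cover2 H hi l₂ v).resolve_left hv
  have hsw : (S.filter (Ln H.up x)).card = (S.filter (fun v => ¬ Ln H.up x v)).card := by
    rcases n with n | n
    · obtain ⟨g1, g2, g3⟩ := near_per H hS hS.h₁ n
      exact card_swap H hi g1 g2 g3 l₁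
    · obtain ⟨g1, g2, g3⟩ := near_per H hS hS.h₂ n
      exact card_swap H hi g1 g2 g3 l₂
  rw [← Finset.sum_filter_add_sum_filter_not S (Ln H.up x)]
  set S' := S.filter (fun v => ¬ Ln H.up x v) with hS'
  have hL' : ∀ v ∈ S', Ln H.up s₂ v := fun v hv => hL2 v (Finset.mem_filter.1 hv).2
  have hM := lnM_pos H
  have hlast : fS H.up S' s₂ (lnM B a b - 1) = 1 :=
    fS_one hM (by rw [U_per H]; exact Finset.mem_filter.2 ⟨hS.h₂, l₂⟩)
  have hsplit : (S'.card : ℤ) = ∑ t ∈ range d, fS H.up S' s₂ t +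
      ∑ t ∈ range (lnM B a b - d), fS H.up S' s₂ (d + t) := by
    rw [card_line H S' s₂ hL']
    conv_lhs => rw [show lnM B a b = d + (lnM B a b - d) by omega]
    rw [Finset.sum_range_add]
  have hpos : 1 ≤ ∑ t ∈ range (lnM B a b - d), fS H.up S' s₂ (d + t) := by
    rw [← hlast]
    have h3 : fS H.up S' s₂ (lnM B a b - 1) = fS H.up S' s₂ (d + (lnM B a b - d - 1)) := by
      congr 1; omega
    rw [h3]
    exact Finset.single_le_sum (f := fun t => fS H.up S' s₂ (d + t)) (fun t _ => fS_nonneg _ _ _ _)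
      (Finset.mem_range.2 (by omega))
  cases γ
  · have e1 : ∑ v ∈ S.filter (Ln H.up x), wC H.up x s₂ d false v = (S.filter (Ln H.up x)).card := by
      rw [Finset.sum_congr rfl fun v hv => (wC_on (Finset.mem_filter.1 hv).2 s₂ d).1]
      simp
    have e2 : ∑ v ∈ S', wC H.up x s₂ d false v = 0 * S'.card + (-1 - 0) * ∑ t ∈ range d, fS H.up S' s₂ (0 + t) := by
      refine sum_one H _ s₂ hL' _ 0 d (by omega) (-1) 0 ?_
      intro t h3 h4
      rw [(wC_off H l₂ h3 h4 h2.le).1]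
      by_cases h5 : t ≤ d
      · rw [if_pos h5, if_pos ⟨h3, by omega⟩]
      · rw [if_neg h5, if_neg (by omega)]
    rw [e1, e2, hsw]
    have e3 : ∑ t ∈ range d, fS H.up S' s₂ (0 + t) = ∑ t ∈ range d, fS H.up S' s₂ t :=
      Finset.sum_congr rfl fun t _ => by rw [zero_add]
    rw [e3]
    omega
  · have e1 : ∑ v ∈ S.filter (Ln H.up x), wC H.up x s₂ d true v = 0 := by
      rw [Finset.sum_congr rfl fun v hv => (wC_on (Finset.mem_filter.1 hv).2 s₂ d).2]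
      simp
    have e2 : ∑ v ∈ S', wC H.up x s₂ d true v = 1 * S'.card + (0 - 1) * ∑ t ∈ range d, fS H.up S' s₂ (0 + t) := by
      refine sum_one H _ s₂ hL' _ 0 d (by omega) 0 1 ?_
      intro t h3 h4
      rw [(wC_off H l₂ h3 h4 h2.le).2]
      by_cases h5 : t ≤ d
      · rw [if_pos h5, if_pos ⟨h3, by omega⟩]
      · rw [if_neg h5, if_neg (by omega)]
    rw [e1, e2]
    have e3 : ∑ t ∈ range d, fS H.up S' s₂ (0 + t) = ∑ t ∈ range d, fS H.up S' s₂ t :=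
      Finset.sum_congr rfl fun t _ => by rw [zero_add]
    rw [e3]
    omega

end

/-- TMC. -/
theorem tmc (mk1 : Mk1S) (mk0 : Mk0S) (mk2 : Mk2S) (mk3 : Mk3S) : TMCS := by
  intro Q _ _ _ B a b eps D z k c W H' x s₁ s₂ F hx hF m₁ m₂ hP
  have H : HypC B a b eps D z k := H'.toHypC
  have hM := lnM_pos H
  have hlv : ∀ n t : ℕ, n ≤ W → LvD H.up n (im (H.up.U ^ t) F) := fun n t hn => lvd hF.fr hn
  -- one line
  have hone : ∀ d₁ d₂ : ℕ, (Subgroup.zpowers (B.q a * (B.q b)⁻¹)).relIndex eps.ker = 1 → 0 < d₁ → d₁ < d₂ →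
      d₂ < lnM B a b → (H.up.U ^ d₁) x = s₂ → (H.up.U ^ d₂) x = s₁ →
      (∀ S, InS D k F x s₁ s₂ S → ∑ s ∈ S, wA H.up x d₁ d₂ s ≠ 0) →
      ∃ (w : Bool → Q → ℤ) (cl : Q → Bool), (∀ γ, w γ x + w γ s₁ = 0) ∧
      (∀ γ, (∃ y, cl y = γ) → ∀ S, InS D k F x s₁ s₂ S → ∑ s ∈ S, w γ s ≠ 0 ∧ |∑ s ∈ S, w γ s| ≤ 4 * k) ∧
      ∀ (w' : Bool → Q → ℤ) (n t : ℕ), 0 < n → n + 2 * k + 1 ≤ W → t < 2 * k →
        (∀ γ, ∀ s ∈ F, w' γ ((H.up.U ^ t) s) = w γ s) →
        TM H.up (im (H.up.U ^ t) F) ((H.up.U ^ t) s₁) ((H.up.U ^ t) x) ((H.up.U ^ t) s₂) n w' cl := by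
    intro d₁ d₂ hi h1 h12 h2 e₂ e₁ hne
    refine ⟨fun _ => wA H.up x d₁ d₂, fun _ => false, fun γ => ?_, fun γ _ S hS => ⟨hne S hS,
      abs_le' hS _ (wA_abs _ _ _ _)⟩, ?_⟩
    · have k1 := wA_eq H (x := x) (d := d₁) (e := d₂) hM le_rfl h2.le
      rw [U_per H, if_neg (by omega)] at k1
      have k2 := wA_eq H (x := x) (d := d₁) (e := d₂) (by omega : 0 < d₂) h2.le h2.le
      rw [e₁, if_pos ⟨h12, le_rfl⟩] at k2
      show wA H.up x d₁ d₂ x + wA H.up x d₁ d₂ s₁ = 0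
      rw [k1, k2]; norm_num
    · intro w' n t hn hnW ht hw
      have g1 : (H.up.U ^ t) s₁ = (H.up.U ^ d₂) ((H.up.U ^ t) x) := by rw [pow_comm', e₁]
      have g2 : (H.up.U ^ t) s₂ = (H.up.U ^ d₁) ((H.up.U ^ t) x) := by rw [pow_comm', e₂]
      rw [g1, g2]
      refine mk1 Q B H.up (im (H.up.U ^ t) F) (lnM B a b) n d₁ d₂ ((H.up.U ^ t) x) _ hn (hlv n t (by omega))
        (fix H) (fun v => cover1 H hi _ v) (mem_im'.2 hF.fx) ?_ ?_ h1 h12 h2 ?_
      · rw [← g2]; exact mem_im'.2 m₂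
      · rw [← g1]; exact mem_im'.2 m₁
      · intro t' h3 h4 h5
        rw [pow_comm'] at h5 ⊢
        rw [mem_im'] at h5
        rw [hw false _ h5]
        show wA H.up x d₁ d₂ _ = _
        rw [wA_eq H h3 h4 h2.le]
        by_cases c1 : t' ≤ d₁
        · rw [if_pos c1, if_neg (by omega)]
        · rw [if_neg c1]
          by_cases c2 : t' ≤ d₂
          · rw [if_pos c2, if_pos ⟨by omega, c2⟩]
          · rw [if_neg c2, if_neg (by omega)]
  cases hP with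
  | p1 d₁ d₂ hi h1 h12 h2 e₂ e₁ hh n₁ n₂ =>
    exact hone d₁ d₂ hi h1 h12 h2 e₂ e₁ fun S hS => ne_p1 H hi hx h12 h2 e₂ e₁ hh n₁ n₂ hS
  | p1f d₁ d₂ hi h1 h12 h2 e₂ e₁ hh n =>
    exact hone d₁ d₂ hi h1 h12 h2 e₂ e₁ fun S hS => ne_p1f H hi hx h1 h12 h2 e₂ e₁ hh n hS
  | p0 d hi h1 h4 e₂ e₁ n₁ n₂ hb =>
    refine ⟨fun _ => wA H.up x 0 (3 * d), fun _ => false, fun γ => ?_, fun γ _ S hS => ⟨ne_p0 H hi hx h1 h4 e₂ n₂ hS,
      abs_le' hS _ (wA_abs _ _ _ _)⟩, ?_⟩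
    · have k1 := wA_eq H (x := x) (d := 0) (e := 3 * d) hM le_rfl (by omega)
      rw [U_per H, if_neg (by omega)] at k1
      have k2 := wA_eq H (x := x) (d := 0) (e := 3 * d) (by omega : 0 < 3 * d) (by omega) (by omega)
      rw [e₁, if_pos ⟨by omega, le_rfl⟩] at k2
      show wA H.up x 0 (3 * d) x + wA H.up x 0 (3 * d) s₁ = 0
      rw [k1, k2]; norm_num
    · intro w' n t hn hnW ht hw
      have g1 : (H.up.U ^ t) s₁ = (H.up.U ^ (3 * d)) ((H.up.U ^ t) x) := by rw [pow_comm', e₁]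
      have g2 : (H.up.U ^ t) s₂ = (H.up.U ^ d) ((H.up.U ^ t) x) := by rw [pow_comm', e₂]
      have hb' : ∀ n : ℕ, ∃ g : B.L, (H.up.U ^ n) ((H.up.U ^ (3 * d)) ((H.up.U ^ t) x)) * B.q g =
          (H.up.U ^ n) ((H.up.U ^ t) x) := by
        intro n
        rw [← g1, ← H.up.U_pow_add, ← H.up.U_pow_add]
        exact hb _
      obtain ⟨g, hg⟩ := hb' n
      obtain ⟨g', hg'⟩ := hb' (n + 1)
      rw [g1, g2]
      refine mk0 Q B H.up (im (H.up.U ^ t) F) (lnM B a b) n d (3 * d) ((H.up.U ^ t) x) _ g g' hn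
        (hlv (n + 1) t (by omega)) (fix H) (fun v => cover1 H hi _ v) (mem_im'.2 hF.fx) ?_ ?_ h1 (by omega) (by omega)
        hg hg' ?_
      · rw [← g2]; exact mem_im'.2 m₂
      · rw [← g1]; exact mem_im'.2 m₁
      · intro t' h3 h5 h6
        rw [pow_comm'] at h6 ⊢
        rw [mem_im'] at h6
        rw [hw false _ h6]
        show wA H.up x 0 (3 * d) _ = _
        rw [wA_eq H h3 h5 (by omega)]
        by_cases c1 : t' ≤ 3 * d
        · rw [if_pos c1, if_pos ⟨by omega, c1⟩]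
        · rw [if_neg c1, if_neg (by omega)]
  | p2 d hi h1 h2 e₂ l₁ n =>
    have l₁' : ¬ Ln H.up x s₁ := by
      rintro ⟨t, ht⟩
      exact l₁ t ht
    refine ⟨fun _ => wB H.up x d, fun _ => false, fun γ => ?_, fun γ _ S hS => ⟨ne_p2 H hi h1 h2 e₂ l₁' n hS,
      abs_le' hS _ (wB_abs _ _ _)⟩, ?_⟩
    · have k1 := wB_eq H (x := x) (d := d) hM le_rfl h2.le
      rw [U_per H, if_neg (by omega)] at k1
      show wB H.up x d x + wB H.up x d s₁ = 0
      rw [k1, wB_off l₁']; norm_num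
    · intro w' n t hn hnW ht hw
      have g2 : (H.up.U ^ t) s₂ = (H.up.U ^ d) ((H.up.U ^ t) x) := by rw [pow_comm', e₂]
      have l₁t : ¬ Ln H.up ((H.up.U ^ t) x) ((H.up.U ^ t) s₁) := fun h =>
        l₁' ((Ln.trans ⟨t, rfl⟩ h).trans (ln_symm H ⟨t, rfl⟩))
      rw [g2]
      refine mk2 Q B H.up (im (H.up.U ^ t) F) (lnM B a b) n d ((H.up.U ^ t) x) ((H.up.U ^ t) s₁) _ hn
        (hlv n t (by omega)) (fix H) (fun v => cover2 H hi l₁t v) (fun t' h => l₁t ⟨t', h⟩) (mem_im'.2 hF.fx) ?_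
        (mem_im'.2 m₁) h1 h2 ?_ ?_
      · rw [← g2]; exact mem_im'.2 m₂
      · intro t' h3 h4 h5
        rw [pow_comm'] at h5 ⊢
        rw [mem_im'] at h5
        rw [hw false _ h5]
        exact wB_eq H h3 h4 h2.le
      · intro t' h5
        rw [pow_comm'] at h5 ⊢
        rw [mem_im'] at h5
        rw [hw false _ h5]
        exact wB_off (fun h => l₁' (h.trans (ln_symm H ⟨t', rfl⟩))) d
  | p3 d e hi h1 h2 e₁ l₂ n he he' hFe =>
    have l₂' : ¬ Ln H.up x s₂ := by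
      rintro ⟨t, ht⟩
      exact l₂ t ht
    classical
    refine ⟨wC H.up x s₂ d, fun v => decide (¬ Ln H.up x v), fun γ => ?_,
      fun γ _ S hS => ⟨ne_p3 H hi h1 h2 e₁ l₂' n hS γ, abs_le' hS _ (wC_abs _ _ _ _ _)⟩, ?_⟩
    · have k1 := wC_on (ln_refl H.up x) s₂ d
      have k2 := wC_off H l₂' h1 h2.le h2.le
      rw [e₁, if_pos le_rfl, if_pos le_rfl] at k2
      cases γ
      · rw [k1.1, k2.1]; norm_num
      · rw [k1.2, k2.2]; norm_num
    · intro w' n t hn hnW ht hw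
      have g1 : (H.up.U ^ t) s₁ = (H.up.U ^ d) ((H.up.U ^ t) s₂) := by rw [pow_comm', e₁]
      have l₂t : ¬ Ln H.up ((H.up.U ^ t) x) ((H.up.U ^ t) s₂) := fun h =>
        l₂' ((Ln.trans ⟨t, rfl⟩ h).trans (ln_symm H ⟨t, rfl⟩))
      rw [g1]
      refine mk3 Q B H.up (im (H.up.U ^ t) F) (lnM B a b) n d e ((H.up.U ^ t) x) ((H.up.U ^ t) s₂) _ _ hn
        (hlv n t (by omega)) (fix H) (fun v => cover2 H hi l₂t v) (fun t' h => l₂t ⟨t', h⟩) (mem_im'.2 hF.fx) ?_ he he'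
        (mem_im'.2 m₂) ?_ h1 h2 ?_ ?_ ?_ ?_
      · rw [pow_comm']; exact mem_im'.2 hFe
      · rw [← g1]; exact mem_im'.2 m₁
      · intro t' h5
        rw [pow_comm'] at h5 ⊢
        rw [mem_im'] at h5
        rw [hw false _ h5, hw true _ h5]
        exact wC_on ⟨t', rfl⟩ s₂ d
      · intro t' h3 h4 h5
        rw [pow_comm'] at h5 ⊢
        rw [mem_im'] at h5
        rw [hw false _ h5, hw true _ h5]
        exact wC_off H l₂' h3 h4 h2.le
      · exact ⟨s₂, decide_eq_true l₂'⟩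
      · exact ⟨x, decide_eq_false fun h => h (ln_refl _ _)⟩

end Pool.Agent.Lib.MP_688fd0_co.SQ4.Small
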