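import Pool.Agent.Lib.MP_688fd0_co.SQ4.Small.FlipL
import Pool.Agent.Lib.MP_688fd0_co.SQ4.H58.Rows
import Pool.Agent.Lib.MP_688fd0_co.SQ4.Small.Nrig
import Pool.Agent.Lib.MP_688fd0_co.SQ4.Small.Rig
import Pool.Agent.Lib.MP_688fd0_co.SQ4.Small.IfaceR
import Pool.Agent.Lib.MP_688fd0_co.SQ4.Small.Cn1
import Pool.Agent.Lib.MP_688fd0_co.SQ4.Small.CN2
import Pool.Agent.Lib.MP_688fd0_co.SQ4.Small.Tm
import Pool.Agent.Lib.MP_688fd0_co.SQ4.Small.Sml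
import Pool.Agent.Lib.MP_688fd0_co.SQ4.H2.Kap
import Pool.Agent.Lib.MP_688fd0_co.SQ3.H43.Factor2
import Pool.Agent.Lib.MP_688fd0_co.SQ3.Small.All
import Pool.Agent.Lib.MP_688fd0_co.SQ4.Small.Mk0
import Pool.Agent.Lib.MP_688fd0_co.OSF.H43.Hdata

/-!
Type C1: row SMALLC from the rows of chapter V.
-/

set_option autoImplicit false

namespace Pool.Agent.Lib.MP_688fd0_co.SQ4.Small

open Pool.Agent.Lib.MP_688fd0_co.OSF Pool.Agent.Lib.MP_688fd0_co.SQ2 Pool.Agent.Lib.MP_688fd0_co.SQ3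
open Pool.Agent.Lib.MP_688fd0_co.SQ4 Pool.Agent.Lib.MP_688fd0_co.SQ4.CV

/-- SMALLC from FLIPL. -/
theorem smallC (hFl : FlipLS) : SmallCS :=
  small (sqC rig (nrig hFl (cnc cn1 cn2) (tmc (SQ3.Small.mk1 SQ3.Small.oneWS) (mk0 SQ3.Small.oneWS)
    (SQ3.Small.mk2 SQ3.Small.oneWS) (SQ3.Small.mk3 SQ3.Small.oneWS)))) kapC hdata SQ3.H43.factor2 SQ3.Small.lift

/-- SMALLC from the rows. -/
theorem smallOf (h1 : Fam1S) (h2 : Fam2S) (hBI : BigIS) : SmallCS :=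
  smallC (flipL h1 h2 hBI gauge caseN)

end Pool.Agent.Lib.MP_688fd0_co.SQ4.Small
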