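import Pool.Agent.Lib.MP_688fd0_co.SQ4.Small.Dih2

/-!
DIH: the twisted ladder without crossings.
-/

set_option autoImplicit false

namespace Pool.Agent.Lib.MP_688fd0_co.SQ4.Small.Dih

open Pool.Agent.Lib.MP_688fd0_co.OSF Pool.Agent.Lib.MP_688fd0_co.SQ2 Pool.Agent.Lib.MP_688fd0_co.SQ3
open Pool.Agent.Lib.MP_688fd0_co.SQ3.Small
open Pool.Agent.Lib.MP_688fd0_co.SQ3.Small.R1D (vol_app vol_one vol_sing vol_flat vol_map ar' copies rd_eq nodup_of_cover
  cast_eq cast_unit)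

section

variable {Q : Type} [Group Q] {B : Lb.{0, 0} Q} {a b r : B.L} {M : ℕ}

theorem DL.card (h : DL B a b r M) (hM : 1 < M) : 4 * M ≤ Nat.card Q := by
  have := h.fin
  have hinj : Function.Injective (fun i : Fin (4 * M) => vv a b (i : ℤ)) := by
    intro i j hij
    obtain ⟨t, ht⟩ := h.vv_inj hM hij
    have hi := i.2
    have hj := j.2
    have : t = 0 := by
      by_contra h0
      rcases lt_or_gt_of_ne h0 with h1 | h1 <;> nlinarith
    subst this
    exact Fin.ext (by omega)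
  have h1 := Nat.card_le_card_of_injective _ hinj
  rwa [Nat.card_fin] at h1

theorem DL.per (h : DL B a b r M) (n i : ℤ) : vv a b (i + 4 * M * n) = vv a b i := by
  have hper : ∀ (n : ℕ) (i : ℤ), vv a b (i + 4 * M * n) = vv a b i := by
    intro n
    induction n with
    | zero => intro i; simp
    | succ n ih =>
      intro i
      rw [← ih i, ← h.vv_per (i + 4 * M * n)]
      congr 1
      push_cast
      ring
  rcases Int.eq_nat_or_neg n with ⟨n, rfl | rfl⟩
  · exact hper n i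
  · rw [← hper n (i + 4 * M * -n)]
    congr 1
    ring

theorem DL.surj' (h : DL B a b r M) (x : Q) : ∃ i : ℤ, 1 ≤ i ∧ i ≤ 4 * M ∧ vv a b i = x := by
  obtain ⟨i, rfl⟩ := h.vv_surj x
  have hM0 := h.M0
  refine ⟨(i - 1) % (4 * M) + 1, ?_, ?_, ?_⟩
  · have := Int.emod_nonneg (i - 1) (show (4 * (M : ℤ)) ≠ 0 by omega)
    omega
  · have := Int.emod_lt_of_pos (i - 1) (show (0 : ℤ) < 4 * (M : ℤ) by omega)
    omega
  · rw [← h.per ((i - 1) / (4 * M)) ((i - 1) % (4 * M) + 1)]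
    congr 1
    have := Int.emod_add_mul_ediv (i - 1) (4 * M)
    linarith

theorem vol_flat' {R : Type} [CommRing R] (V : Vd B R) (x : Q) (ws : List (List B.L)) (h : ∀ w ∈ ws, B.fin x w = x) :
    V.vol x ws.flatten = (ws.map (V.vol x)).sum := by
  induction ws with
  | nil => rfl
  | cons w ws ih =>
    rw [List.flatten_cons, vol_app, h w List.mem_cons_self, ih fun w' h' => h w' (List.mem_cons_of_mem _ h'),
      List.map_cons, List.sum_cons]

theorem vol_of_ef {R : Type} [CommRing R] (V : Vd B R) {c c' : R} {i : ℤ} {w : List B.L}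
    (h : ef V (ll V a b c i) w = ll V a b c' i) : V.vol (vv a b i) w = c' - c := by
  rw [ef_eq] at h
  have h1 := congrArg Prod.snd h
  simp only [ll] at h1
  linear_combination h1

theorem fin_of_ef {R : Type} [CommRing R] (V : Vd B R) {c c' : R} {i : ℤ} {w : List B.L}
    (h : ef V (ll V a b c i) w = ll V a b c' i) : B.fin (vv a b i) w = vv a b i := by
  rw [ef_eq] at h
  exact congrArg Prod.fst h

theorem Sg_card {R : Type} [CommRing R] (V : Vd B R) (c : R) (i : ℤ) (t : ℕ) : (Sg V a b c i t).card = t := by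
  unfold Sg sg
  rw [Multiset.coe_card, List.length_map, List.length_range]

theorem mem_Sg {R : Type} [CommRing R] (V : Vd B R) (c : R) (i i' : ℤ) (t : ℕ) (h1 : i ≤ i') (h2 : i' < i + t) :
    ll V a b c i' ∈ Sg V a b c i t := by
  unfold Sg sg
  rw [Multiset.mem_coe, List.mem_map]
  exact ⟨(i' - i).toNat, List.mem_range.2 (by omega), by congr 1; omega⟩

end

/-- The primes with displacements `d`, `d`. -/
def PP {Q : Type} [Group Q] {B : Lb.{0, 0} Q} {m : ℕ} (V : Vd B (ZMod m)) (a b r : B.L) (p : ℕ) : Prop :=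
  Eqp V a p ∧ Eqp V b p ∧ Eqp V r p ∧ rd p (V.chi (B.q a)) = 1

theorem sq_aux' {κ r N : ℕ} (h : 8 * (κ + 2) ^ 2 < r) (hN : r = N + 2) : κ * κ ≤ N := by
  nlinarith [sq_le_aux κ]

theorem caseM (hf : FacS) (har : ArS) {Q : Type} [Group Q] {B : Lb.{0, 0} Q} {a b r : B.L} {m M : ℕ}
    (V : Vd B (ZMod m)) (h : DL B a b r M) (hsq : Squarefree m) (hm0 : m ≠ 0)
    (hp : ∀ p ∈ m.primeFactors, 8 * (m.primeFactors.card + 2) ^ 2 < p) (hM5 : 5 ≤ M)
    (hall : ∀ g, B.q g = B.q a ∨ B.q g = B.q b ∨ B.q g = B.q r)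
    (hc : ∀ p, ∀ hp : p ∈ m.primeFactors,
      ((V.map (red (Nat.dvd_of_mem_primeFactors hp))).chi (B.q a * B.q b) ≠ 1 ∧
        ∃ s t, (V.map (red (Nat.dvd_of_mem_primeFactors hp))).kap s t ≠ 0) ∨
      ((V.map (red (Nat.dvd_of_mem_primeFactors hp))).chi (B.q a * B.q b) = 1 ∧
        ∃ t : B.L, B.q t = B.q r ∧ (V.map (red (Nat.dvd_of_mem_primeFactors hp))).n t ≠ 0))
    (hex : ∃ p ∈ m.primeFactors, PP V a b r p) : HP V := by
  have := h.fin
  have : NeZero m := ⟨hm0⟩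
  classical
  set κ := m.primeFactors.card with hκ
  have hp32 : ∀ p ∈ m.primeFactors, 32 < p := fun p hpm => by
    refine lt_of_le_of_lt ?_ (hp p hpm)
    calc 32 = 8 * (0 + 2) ^ 2 := by norm_num
      _ ≤ _ := Nat.mul_le_mul_left _ (Nat.pow_le_pow_left (by omega) 2)
  have hne : ∀ p ∈ m.primeFactors, ∀ n : ℕ, 0 < n → n ≤ 32 → ((n : ℕ) : ZMod p) ≠ 0 := by
    intro p hpm n hn0 hn h0
    rw [ZMod.natCast_eq_zero_iff] at h0
    have := Nat.le_of_dvd hn0 h0
    have := hp32 p hpm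
    omega
  -- the pure primes
  have hpure : ∀ p, ∀ hpm : p ∈ m.primeFactors, Eqp V a p → Eqp V b p → Eqp V r p → Odd M ∧
      ((rd p (V.chi (B.q a)) = 1 ∧ rd p (V.chi (B.q b)) = -1 ∧ rd p (V.n a) = 0 ∧ rd p (V.n r) ≠ rd p (V.n b)) ∨
      (rd p (V.chi (B.q a)) = -1 ∧ rd p (V.chi (B.q b)) = 1 ∧ rd p (V.n b) = 0 ∧ rd p (V.n r) ≠ rd p (V.n a))) := by
    intro p hpm ha hb hr
    have : Fact p.Prime := ⟨Nat.prime_of_mem_primeFactors hpm⟩
    have h2 : (2 : ZMod p) ≠ 0 := by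
      have := hne p hpm 2 (by norm_num) (by norm_num)
      exact_mod_cast this
    exact pure_cases h2 (V.map (red (Nat.dvd_of_mem_primeFactors hpm))) h hall (hc p hpm) ha hb hr
  obtain ⟨p₀, hp₀, hPP₀⟩ := hex
  have hMo : M % 2 = 1 := Nat.odd_iff.1 (hpure p₀ hp₀ hPP₀.1 hPP₀.2.1 hPP₀.2.2.1).1
  -- a prime `P₊`
  have hplus : ∀ p, p ∈ m.primeFactors → PP V a b r p →
      rd p (V.chi (B.q a)) = 1 ∧ rd p (V.chi (B.q b)) = -1 ∧ rd p (V.n a) = 0 ∧ rd p (V.n r) ≠ rd p (V.n b) := by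
    intro p hpm hPP
    rcases (hpure p hpm hPP.1 hPP.2.1 hPP.2.2.1).2 with h1 | h1
    · exact h1
    · exfalso
      have h2 := hPP.2.2.2
      rw [h1.1] at h2
      have h3 := hne p hpm 2 (by norm_num) (by norm_num)
      apply h3
      push_cast
      linear_combination -h2
  -- the product
  set Z := m.primeFactors.filter (PP V a b r) with hZdef
  set r₀ := ∏ p ∈ Z, p with hr₀
  have hrm : r₀ ∣ m := by
    conv_rhs => rw [← Nat.prod_primeFactors_of_squarefree hsq]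
    exact Finset.prod_dvd_prod_of_subset _ _ _ (Finset.filter_subset _ _)
  have hZp : ∀ p ∈ Z, p.Prime := fun p hp => Nat.prime_of_mem_primeFactors (Finset.mem_filter.1 hp).1
  have hdv : ∀ p, p.Prime → (p ∣ r₀ ↔ p ∈ Z) := by
    intro p hp
    constructor
    · intro h3
      obtain ⟨p', hp', h4⟩ := (Prime.dvd_finsetProd_iff hp.prime _).1 h3
      rw [(Nat.prime_dvd_prime_iff_eq hp (hZp p' hp')).1 h4]
      exact hp'
    · intro h3
      exact Finset.dvd_prod_of_mem _ h3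
  have hs : ∃ s : Finset ℕ, (∀ p ∈ s, p.Prime) ∧ r₀ = ∏ p ∈ s, p := ⟨Z, hZp, rfl⟩
  have hp₀Z : p₀ ∈ Z := Finset.mem_filter.2 ⟨hp₀, hPP₀⟩
  have hrpos : 0 < r₀ := Nat.pos_of_dvd_of_pos hrm (Nat.pos_of_ne_zero hm0)
  have hrbig : 8 * (κ + 2) ^ 2 < r₀ :=
    lt_of_lt_of_le (hp p₀ hp₀) (Nat.le_of_dvd hrpos ((hdv _ (hZp _ hp₀Z)).2 hp₀Z))
  obtain ⟨N, hN⟩ : ∃ N, r₀ = N + 2 := ⟨r₀ - 2, by
    have : 1 ≤ (κ + 2) ^ 2 := Nat.one_le_pow _ _ (by omega)
    omega⟩
  have hNκ : κ * κ ≤ N := sq_aux' hrbig hN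
  have : NeZero r₀ := ⟨hrpos.ne'⟩
  have hz1 : ∀ p, p.Prime → p ∣ r₀ → PP V a b r p := fun p hp h3 => (Finset.mem_filter.1 ((hdv p hp).1 h3)).2
  have hz2 : ∀ p, p.Prime → p ∣ r₀ → p ∈ m.primeFactors := fun p hp h3 => (Finset.mem_filter.1 ((hdv p hp).1 h3)).1
  -- the voltages modulo `r₀`
  set V₀ := V.map (ZMod.castHom hrm (ZMod r₀)) with hV₀
  have hw : V₀.chi (B.q a * B.q b) = -1 := by
    show ZMod.castHom hrm (ZMod r₀) (V.chi (B.q a * B.q b)) = -1
    rw [← map_one (ZMod.castHom hrm (ZMod r₀)), ← map_neg]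
    refine cast_eq hrm hs fun p hp h3 => ?_
    obtain ⟨h4, h5, -, -⟩ := hplus p (hz2 p hp h3) (hz1 p hp h3)
    have hd := Nat.dvd_of_mem_primeFactors (hz2 p hp h3)
    rw [map_mul, rd_mul hd, h4, h5, rd_neg hd, rd_one hd, one_mul]
  have hn : ∀ g g' : B.L, B.q g = B.q g' → V₀.n g = V₀.n g' := by
    intro g g' hg
    refine cast_eq hrm hs fun p hp h3 => ?_
    obtain ⟨k1, k2, k3, -⟩ := hz1 p hp h3
    rcases hall g with h4 | h4 | h4
    · rw [k1 g h4, k1 g' (hg ▸ h4)]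
    · rw [k2 g h4, k2 g' (hg ▸ h4)]
    · rw [k3 g h4, k3 g' (hg ▸ h4)]
  have hd0 : D₀ V₀ a b r = ZMod.castHom hrm (ZMod r₀) (D₀ V a b r) := by
    unfold D₀
    rw [map_sub, map_add, map_mul]
    rfl
  have hd1 : D₁ V₀ a b r = D₀ V₀ a b r := by
    have e1 : D₁ V₀ a b r = ZMod.castHom hrm (ZMod r₀) (D₁ V a b r) := by
      unfold D₁
      rw [map_sub, map_add, map_mul, map_mul]
      rfl
    rw [e1, hd0]
    refine cast_eq hrm hs fun p hp h3 => ?_
    obtain ⟨h4, h5, h6, -⟩ := hplus p (hz2 p hp h3) (hz1 p hp h3)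
    have hd := Nat.dvd_of_mem_primeFactors (hz2 p hp h3)
    unfold D₀ D₁
    rw [rd_sub hd, rd_add hd, rd_mul hd, rd_mul hd, rd_sub hd, rd_add hd, rd_mul hd, h4, h6]
    ring
  obtain ⟨u, hu⟩ := cast_unit (x := 2 * D₀ V a b r) hrm hs fun p hp h3 h4 => by
    obtain ⟨h5, h6, h7, h8⟩ := hplus p (hz2 p hp h3) (hz1 p hp h3)
    have hd := Nat.dvd_of_mem_primeFactors (hz2 p hp h3)
    have : Fact p.Prime := ⟨hp⟩
    unfold D₀ at h4
    rw [rd_mul hd, rd_sub hd, rd_add hd, rd_mul hd, h5, h7] at h4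
    have h9 := hne p (hz2 p hp h3) 2 (by norm_num) (by norm_num)
    have h10 : rd p (2 : ZMod m) = ((2 : ℕ) : ZMod p) := by
      have := rd_natCast hd 2
      exact_mod_cast this
    rw [h10] at h4
    rcases mul_eq_zero.1 h4 with h11 | h11
    · exact h9 h11
    · apply h8
      linear_combination h11
  set d := D₀ V₀ a b r with hd
  have hud : (u : ZMod r₀) = 2 * d := by
    rw [hu, map_mul, ← hd0]
    congr 1
    exact map_ofNat _ 2
  -- the families
  set x₀ := vv a b (2 * M) with hx₀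
  have hdn : dnl a b (2 * M) (2 * M - 1) = B.inv b :: B.inv a :: dnl a b (2 * M - 1 - 1) (2 * M - 3) := by
    rw [show 2 * M - 1 = (2 * M - 3) + 1 + 1 by omega, dnl, dnl, da, if_pos (by omega), da, if_neg (by omega)]
  have hW1 : W₀ a b r M = B.inv b :: B.inv a :: (dnl a b (2 * M - 1 - 1) (2 * M - 3) ++ ([r] ++
      pu a b r (2 * M + 1) (2 * M - 1))) := by
    unfold W₀ pd
    rw [hdn, List.append_assoc]
    rfl
  have hW2 : W₀ a b r M = (pd a b r (2 * M) (2 * M - 1) ++ upl a b (2 * M + 1) (2 * M - 1)) ++ [r] := by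
    unfold W₀ pu
    rw [List.append_assoc]
  have hai : B.q (B.inv a) = B.q a := by rw [B.q_inv, h.ai]
  have hbi : B.q (B.inv b) = B.q b := by rw [B.q_inv, h.bi]
  have hfam : ∀ p : {p // p ∈ m.primeFactors}, ∃ w : List B.L, w.map B.q = (W₀ a b r M).map B.q ∧
      (¬ (Eqp V a p.1 ∧ Eqp V b p.1 ∧ Eqp V r p.1) → rd p.1 (V.vol x₀ w - V.vol x₀ (W₀ a b r M)) ≠ 0) := by
    rintro ⟨p, hpm⟩
    have hd' := Nat.dvd_of_mem_primeFactors hpm
    have : Fact p.Prime := ⟨Nat.prime_of_mem_primeFactors hpm⟩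
    by_cases c1 : Eqp V b p
    swap
    · obtain ⟨g, hg, hgn⟩ := not_eqp c1 (B.inv b)
      refine ⟨g :: B.inv a :: (dnl a b (2 * M - 1 - 1) (2 * M - 3) ++ ([r] ++ pu a b r (2 * M + 1) (2 * M - 1))), ?_,
        fun _ => ?_⟩
      · rw [hW1]
        simp only [List.map_cons, hg, hbi]
      · have e : V.vol x₀ (g :: B.inv a :: (dnl a b (2 * M - 1 - 1) (2 * M - 3) ++ ([r] ++
            pu a b r (2 * M + 1) (2 * M - 1)))) - V.vol x₀ (W₀ a b r M) = V.chi x₀ * (V.n g - V.n (B.inv b)) := by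
          rw [hW1]
          show V.chi x₀ * V.n g + V.vol (x₀ * B.q g) _ - (V.chi x₀ * V.n (B.inv b) + V.vol (x₀ * B.q (B.inv b)) _) = _
          rw [hg, hbi]
          ring
        rw [e, rd_mul hd', rd_sub hd']
        exact mul_ne_zero (rd_chi_ne V hpm _) (sub_ne_zero.2 hgn)
    by_cases c2 : Eqp V a p
    swap
    · obtain ⟨g, hg, hgn⟩ := not_eqp c2 (B.inv a)
      refine ⟨B.inv b :: g :: (dnl a b (2 * M - 1 - 1) (2 * M - 3) ++ ([r] ++ pu a b r (2 * M + 1) (2 * M - 1))), ?_,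
        fun _ => ?_⟩
      · rw [hW1]
        simp only [List.map_cons, hg, hai]
      · have e : V.vol x₀ (B.inv b :: g :: (dnl a b (2 * M - 1 - 1) (2 * M - 3) ++ ([r] ++
            pu a b r (2 * M + 1) (2 * M - 1)))) - V.vol x₀ (W₀ a b r M) =
            V.chi (x₀ * B.q (B.inv b)) * (V.n g - V.n (B.inv a)) := by
          rw [hW1]
          show V.chi x₀ * V.n (B.inv b) + (V.chi (x₀ * B.q (B.inv b)) * V.n g +
            V.vol (x₀ * B.q (B.inv b) * B.q g) _) - (V.chi x₀ * V.n (B.inv b) +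
            (V.chi (x₀ * B.q (B.inv b)) * V.n (B.inv a) + V.vol (x₀ * B.q (B.inv b) * B.q (B.inv a)) _)) = _
          rw [hg, hai]
          ring
        rw [e, rd_mul hd', rd_sub hd']
        exact mul_ne_zero (rd_chi_ne V hpm _) (sub_ne_zero.2 hgn)
    by_cases c3 : Eqp V r p
    swap
    · obtain ⟨g, hg, hgn⟩ := not_eqp c3 r
      refine ⟨(pd a b r (2 * M) (2 * M - 1) ++ upl a b (2 * M + 1) (2 * M - 1)) ++ [g], ?_, fun _ => ?_⟩
      · rw [hW2, List.map_append, List.map_append (l₂ := [r]), List.map_singleton, List.map_singleton, hg]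
      · rw [hW2, vol_app, vol_app V x₀ _ [r], vol_sing, vol_sing, add_sub_add_left_eq_sub, ← mul_sub, rd_mul hd',
          rd_sub hd']
        exact mul_ne_zero (rd_chi_ne V hpm _) (sub_ne_zero.2 hgn)
    · exact ⟨W₀ a b r M, rfl, fun h3 => absurd ⟨c2, c1, c3⟩ h3⟩
  choose blk hblk using hfam
  obtain ⟨j, hj1, hj2⟩ := ar' har (fun p hpp => lt_of_le_of_lt (by nlinarith [sq_le_aux κ] : κ ≤ 8 * (κ + 2) ^ 2) (hp p hpp))
    {p // p ∈ m.primeFactors} (N * V.vol x₀ (W₀ a b r M) + V.vol x₀ (B₀ a b r M))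
    (fun i => V.vol x₀ (blk i) - V.vol x₀ (W₀ a b r M))
  have hsum : ∑ i, j i ≤ N := by
    refine le_trans (Finset.sum_le_sum fun i _ => hj1 i) ?_
    rw [Finset.sum_const, smul_eq_mul, Finset.card_univ, Fintype.card_coe]
    exact hNκ
  obtain ⟨ws, ws1, ws2, ws3⟩ := copies blk (W₀ a b r M) j N hsum (fun w => w.map B.q = (W₀ a b r M).map B.q) rfl
    (fun i => (hblk i).1) (V.vol x₀)
  set c₀ : ZMod r₀ := -ph V₀ a b (2 * M) with hc₀
  have hst : ((x₀, 0) : Q × ZMod r₀) = ll V₀ a b c₀ (2 * M) := by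
    unfold ll
    rw [hc₀, neg_add_cancel]
  obtain ⟨t1, t2⟩ := h.chain hw hMo (d := d) rfl hd1 hn ws ws2 c₀
  rw [ws1] at t1 t2
  obtain ⟨b1, b2⟩ := h.B₀_cov hw hMo hM5 (d := d) rfl hd1 (c₀ + 2 * N * d)
  have hes : (es V₀ (x₀, 0) (ws.flatten ++ B₀ a b r M) : Multiset (Q × ZMod r₀)) =
      ((List.range N).map fun k : ℕ => bM V₀ a b M d (c₀ + 2 * k * d)).sum +
        (bM V₀ a b M d (c₀ + 2 * N * d) + bM V₀ a b M d (c₀ + 2 * N * d + 2 * d)) := by
    rw [hst, es_append, ← Multiset.coe_add, t1, t2, b1]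
  have hNr : ((N : ZMod r₀) + 2) = 0 := by
    have : ((N + 2 : ℕ) : ZMod r₀) = 0 := by rw [← hN]; exact ZMod.natCast_self r₀
    push_cast at this
    exact this
  have hcov : ∀ y : Q × ZMod r₀, y ∈ es V₀ (x₀, 0) (ws.flatten ++ B₀ a b r M) := by
    rintro ⟨x, y⟩
    rw [← Multiset.mem_coe, hes]
    have hk : ∀ k < r₀, ∀ z, z ∈ bM V₀ a b M d (c₀ + 2 * k * d) →
        z ∈ ((List.range N).map fun k : ℕ => bM V₀ a b M d (c₀ + 2 * k * d)).sum +
        (bM V₀ a b M d (c₀ + 2 * N * d) + bM V₀ a b M d (c₀ + 2 * N * d + 2 * d)) := by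
      intro k hk z hz
      rw [Multiset.mem_add, Multiset.mem_add]
      rcases lt_trichotomy k N with h1 | rfl | h1
      · left
        have h2 : bM V₀ a b M d (c₀ + 2 * k * d) ≤
            ((List.range N).map fun k : ℕ => bM V₀ a b M d (c₀ + 2 * k * d)).sum :=
          List.single_le_sum (by intro x _; exact Multiset.zero_le x) _
            (List.mem_map.2 ⟨k, List.mem_range.2 h1, rfl⟩)
        exact Multiset.mem_of_le h2 hz
      · exact Or.inr (Or.inl hz)
      · have h2 : k = N + 1 := by omega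
        subst h2
        right; right
        convert hz using 2
        push_cast
        ring
    obtain ⟨i, hi1, hi2, rfl⟩ := h.surj' x
    have hval : ∀ z : ZMod r₀, ((z * ((u⁻¹ : (ZMod r₀)ˣ) : ZMod r₀)).val : ZMod r₀) * (2 * d) = z := by
      intro z
      rw [ZMod.natCast_val, ZMod.cast_id', id_eq, ← hud, mul_assoc, Units.inv_mul, mul_one]
    rcases le_or_gt i (2 * M) with h1 | h1
    · refine hk ((y - ph V₀ a b i - c₀) * ((u⁻¹ : (ZMod r₀)ˣ) : ZMod r₀)).val (ZMod.val_lt _) _ ?_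
      have h2 := hval (y - ph V₀ a b i - c₀)
      set k := ((y - ph V₀ a b i - c₀) * ((u⁻¹ : (ZMod r₀)ˣ) : ZMod r₀)).val
      have h3 : ((vv a b i, y) : Q × ZMod r₀) = ll V₀ a b (c₀ + 2 * k * d) i := by
        unfold ll
        refine Prod.ext rfl ?_
        show y = c₀ + 2 * k * d + ph V₀ a b i
        linear_combination -h2
      rw [h3]
      unfold bM
      rw [Multiset.mem_add]
      exact Or.inl (mem_Sg V₀ _ _ _ _ hi1 (by omega))
    · refine hk ((y - ph V₀ a b i - c₀ - d) * ((u⁻¹ : (ZMod r₀)ˣ) : ZMod r₀)).val (ZMod.val_lt _) _ ?_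
      have h2 := hval (y - ph V₀ a b i - c₀ - d)
      set k := ((y - ph V₀ a b i - c₀ - d) * ((u⁻¹ : (ZMod r₀)ˣ) : ZMod r₀)).val
      have h3 : ((vv a b i, y) : Q × ZMod r₀) = ll V₀ a b (c₀ + 2 * k * d + d) i := by
        unfold ll
        refine Prod.ext rfl ?_
        show y = c₀ + 2 * k * d + d + ph V₀ a b i
        linear_combination -h2
      rw [h3]
      unfold bM
      rw [Multiset.mem_add]
      exact Or.inr (mem_Sg V₀ _ _ _ _ (by omega) (by push_cast; omega))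
  refine hf Q B m r₀ V hrm x₀ (ws.flatten ++ B₀ a b r M) hsq ?_ hcov ?_ ?_
  · refine nodup_of_cover _ hcov ?_ inferInstance
    have hbc : ∀ c, (bM V₀ a b M d c).card = 4 * M := by
      intro c
      unfold bM
      rw [Multiset.card_add, Sg_card, Sg_card]
      ring
    have h1 : (es V₀ (x₀, 0) (ws.flatten ++ B₀ a b r M)).length = (N + 2) * (4 * M) := by
      rw [← Multiset.coe_card, hes, Multiset.card_add, Multiset.card_add, hbc, hbc]
      have h2 : ∀ n : ℕ, (((List.range n).map fun k : ℕ => bM V₀ a b M d (c₀ + 2 * k * d)).sum).card = n * (4 * M) := by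
        intro n
        induction n with
        | zero => simp
        | succ n ih =>
          rw [List.range_succ, List.map_append, List.sum_append, Multiset.card_add, ih, List.map_singleton,
            List.sum_singleton, hbc]
          ring
      rw [h2]
      ring
    rw [h1, Nat.card_prod, Nat.card_zmod, ← hN, mul_comm]
    exact Nat.mul_le_mul_right _ (h.card (by omega))
  · show ef V₀ (x₀, 0) (ws.flatten ++ B₀ a b r M) = (x₀, 0)
    rw [hst, ef_append, t2, b2]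
    congr 1
    linear_combination 2 * d * hNr
  · intro p hpm hpr
    have hd' := Nat.dvd_of_mem_primeFactors hpm
    have : Fact p.Prime := ⟨Nat.prime_of_mem_primeFactors hpm⟩
    have hfW : B.fin x₀ (W₀ a b r M) = x₀ := fin_of_ef V₀ (h.W₀_es hw hMo 0).2
    have hfw : ∀ w ∈ ws, B.fin x₀ w = x₀ := fun w hw' => by rw [(q_congr (ws2 w hw') _).2.1, hfW]
    have hff : B.fin x₀ ws.flatten = x₀ := fin_of_ef V₀ t2
    rw [vol_app, hff, vol_flat' V x₀ ws hfw, ws3]
    have key : rd p ((N : ZMod m) * V.vol x₀ (W₀ a b r M) + V.vol x₀ (B₀ a b r M)) ≠ 0 ∨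
        ∃ i : {p // p ∈ m.primeFactors}, rd p (V.vol x₀ (blk i) - V.vol x₀ (W₀ a b r M)) ≠ 0 := by
      by_cases hP : Eqp V a p ∧ Eqp V b p ∧ Eqp V r p
      swap
      · exact Or.inr ⟨⟨p, hpm⟩, (hblk ⟨p, hpm⟩).2 hP⟩
      left
      obtain ⟨hPa, hPb, hPr⟩ := hP
      rcases (hpure p hpm hPa hPb hPr).2 with h1 | ⟨h1, h2, h3, h4⟩
      · exact absurd ((hdv p (Nat.prime_of_mem_primeFactors hpm)).2
          (Finset.mem_filter.2 ⟨hpm, hPa, hPb, hPr, h1.1⟩)) hpr
      · set Vp := V.map (ZMod.castHom hd' (ZMod p)) with hVp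
        have hwp : Vp.chi (B.q a * B.q b) = -1 := by
          show ZMod.castHom hd' (ZMod p) (V.chi (B.q a * B.q b)) = -1
          rw [← rd_hom hd', map_mul, rd_mul hd', h1, h2]
          ring
        have v1 := vol_of_ef Vp (h.W₀_es hwp hMo 0).2
        have v2 := vol_of_ef Vp (h.B₀_es hwp hMo hM5 0 rfl rfl rfl rfl rfl rfl rfl rfl rfl rfl rfl rfl).2
        rw [vol_map] at v1 v2
        have e0 : D₀ Vp a b r = rd p (V.n r) - rd p (V.n a) := by
          show rd p (V.n r) - (rd p (V.n a) + rd p (V.chi (B.q a)) * rd p (V.n b)) = _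
          rw [h3]; ring
        have e1 : D₁ Vp a b r = -(rd p (V.n r) - rd p (V.n a)) := by
          show rd p (V.chi (B.q a)) * rd p (V.n r) + rd p (V.n a) - rd p (V.chi (B.q a)) * rd p (V.n b) = _
          rw [h3, h1]; ring
        rw [rd_add hd', rd_mul hd', rd_hom hd' (V.vol x₀ (W₀ a b r M)), rd_hom hd' (V.vol x₀ (B₀ a b r M)), v1, v2,
          e0, e1]
        intro h0
        have h8 := hne p hpm 8 (by norm_num) (by norm_num)
        have h9 : ((8 : ℕ) : ZMod p) * (rd p (V.n r) - rd p (V.n a)) = 0 := by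
          push_cast
          linear_combination -h0
        rcases mul_eq_zero.1 h9 with h10 | h10
        · exact h8 h10
        · exact h4 (sub_eq_zero.1 h10)
    have h1 := hj2 p hpm key
    intro h2
    apply h1
    rw [← h2]
    congr 1
    ring

/-- DIH. -/
theorem dih (ht : T1aS) (hf : FacS) (har : ArS) : DihS := by
  intro Q _ B a b r m M V hfin hsq hm0 hodd hp haa hbb hord hM hr hcov hall hc
  have hM0 : 5 ≤ M := by
    have : 1 ≤ (m.primeFactors.card + 2) ^ 2 := Nat.one_le_pow _ _ (by omega)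
    omega
  have h : DL B a b r M := ⟨hfin, by omega, haa, hbb, hord, hr, hcov⟩
  by_cases h1 : ∃ p ∈ m.primeFactors, PP V a b r p
  · exact caseM hf har V h hsq hm0 hp hM0 hall hc h1
  have hba : B.q b * B.q a = (B.q a * B.q b)⁻¹ := by rw [mul_inv_rev, h.ai, h.bi]
  have h' : DL B b a r M := by
    refine ⟨hfin, by omega, hbb, haa, by rw [hba, orderOf_inv, hord], ?_, ?_⟩
    · rw [hba, inv_pow, ← hr]
      exact (inv_eq_of_mul_eq_one_left h.rr).symm
    · intro x
      have hz : Subgroup.zpowers (B.q b * B.q a) = Subgroup.zpowers (B.q a * B.q b) := by rw [hba, Subgroup.zpowers_inv]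
      rw [hz]
      rcases hcov x with h2 | h2
      · exact Or.inl h2
      · right
        have h3 : x * B.q b = (x * B.q a) * (B.q a * B.q b) := by
          rw [← mul_assoc, mul_assoc x, haa, mul_one]
        rw [h3]
        exact Subgroup.mul_mem _ h2 (Subgroup.mem_zpowers _)
  have hall' : ∀ g, B.q g = B.q b ∨ B.q g = B.q a ∨ B.q g = B.q r := fun g => by
    rcases hall g with h2 | h2 | h2
    · exact Or.inr (Or.inl h2)
    · exact Or.inl h2
    · exact Or.inr (Or.inr h2)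
  have hcc : ∀ {F : Type} [CommRing F] (V' : Vd B F), V'.chi (B.q b * B.q a) = V'.chi (B.q a * B.q b) := by
    intro F _ V'
    rw [map_mul, map_mul, mul_comm]
  by_cases h2 : ∃ p ∈ m.primeFactors, PP V b a r p
  · refine caseM hf har V h' hsq hm0 hp hM0 hall' ?_ h2
    intro p hpm
    rw [hcc]
    exact hc p hpm
  · refine caseN ht har V h hsq hm0 hp hM ?_
    rintro p hpm ⟨k1, k2, k3⟩
    have : Fact p.Prime := ⟨Nat.prime_of_mem_primeFactors hpm⟩
    have h3 : (2 : ZMod p) ≠ 0 := by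
      intro h0
      have h4 : ((2 : ℕ) : ZMod p) = 0 := by exact_mod_cast h0
      rw [ZMod.natCast_eq_zero_iff] at h4
      have h5 := Nat.le_of_dvd (by norm_num) h4
      have h6 := hp p hpm
      have : 1 ≤ (m.primeFactors.card + 2) ^ 2 := Nat.one_le_pow _ _ (by omega)
      omega
    rcases (pure_cases h3 (V.map (red (Nat.dvd_of_mem_primeFactors hpm))) h hall (hc p hpm) k1 k2 k3).2 with h4 | h4
    · exact h1 ⟨p, hpm, k1, k2, k3, h4.1⟩
    · exact h2 ⟨p, hpm, k2, k1, k3, h4.2.1⟩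

end Pool.Agent.Lib.MP_688fd0_co.SQ4.Small.Dih
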