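import Pool.Agent.Lib.MP_688fd0_co.SQ4.Small.DihI

/-!
DIH, part 0: the line of a dihedral quotient. `vv i`: the vertices of the line (`vv (2 j) = w ^ j`, `vv (2 j + 1) = w ^ j a`,
`w = a b`), `upl i t`, `dnl i t`: the labels of the paths of length `t` from `vv i` up and down.
-/

set_option autoImplicit false

namespace Pool.Agent.Lib.MP_688fd0_co.SQ4.Small.Dih

open Pool.Agent.Lib.MP_688fd0_co.OSF Pool.Agent.Lib.MP_688fd0_co.SQ2 Pool.Agent.Lib.MP_688fd0_co.SQ3
open Pool.Agent.Lib.MP_688fd0_co.SQ3.Small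
open scoped List

/-- The hypotheses on `Q`. -/
structure DL {Q : Type} [Group Q] (B : Lb.{0, 0} Q) (a b r : B.L) (M : ℕ) : Prop where
  fin : Finite Q
  M0 : 0 < M
  aa : B.q a * B.q a = 1
  bb : B.q b * B.q b = 1
  ord : orderOf (B.q a * B.q b) = 2 * M
  hr : B.q r = (B.q a * B.q b) ^ M
  cov : ∀ x, x ∈ Subgroup.zpowers (B.q a * B.q b) ∨ x * B.q a ∈ Subgroup.zpowers (B.q a * B.q b)

section

variable {Q : Type} [Group Q] {B : Lb.{0, 0} Q} (a b : B.L)

/-- The vertices of the line. -/
def vv (i : ℤ) : Q := if i % 2 = 0 then (B.q a * B.q b) ^ (i / 2) else (B.q a * B.q b) ^ (i / 2) * B.q a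

/-- The label up at `i`. -/
def ua (i : ℤ) : B.L := if i % 2 = 0 then a else b

/-- The label down at `i`. -/
def da (i : ℤ) : B.L := if i % 2 = 0 then B.inv b else B.inv a

/-- The path up. -/
def upl : ℤ → ℕ → List B.L
  | _, 0 => []
  | i, t + 1 => ua a b i :: upl (i + 1) t

/-- The path down. -/
def dnl : ℤ → ℕ → List B.L
  | _, 0 => []
  | i, t + 1 => da a b i :: dnl (i - 1) t

theorem vv_even {i : ℤ} (h : i % 2 = 0) : vv a b i = (B.q a * B.q b) ^ (i / 2) := if_pos h

theorem vv_odd {i : ℤ} (h : i % 2 = 1) : vv a b i = (B.q a * B.q b) ^ (i / 2) * B.q a := if_neg (by omega)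

variable {a b}

theorem vv_up (i : ℤ) : vv a b i * B.q (ua a b i) = vv a b (i + 1) := by
  rcases Int.emod_two_eq_zero_or_one i with h | h
  · rw [vv_even a b h, vv_odd a b (by omega), ua, if_pos h]
    congr 2
    omega
  · rw [vv_odd a b h, vv_even a b (by omega), ua, if_neg (by omega), mul_assoc, ← zpow_add_one]
    congr 1
    omega

variable {r : B.L} {M : ℕ}

theorem DL.ai (h : DL B a b r M) : (B.q a)⁻¹ = B.q a := inv_eq_of_mul_eq_one_left h.aa

theorem DL.bi (h : DL B a b r M) : (B.q b)⁻¹ = B.q b := inv_eq_of_mul_eq_one_left h.bb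

theorem DL.qda (h : DL B a b r M) (i : ℤ) : B.q (da a b i) = B.q (ua a b (i - 1)) := by
  rcases Int.emod_two_eq_zero_or_one i with h1 | h1
  · rw [da, if_pos h1, ua, if_neg (by omega), B.q_inv, h.bi]
  · rw [da, if_neg (by omega), ua, if_pos (by omega), B.q_inv, h.ai]

theorem DL.qua (h : DL B a b r M) (i : ℤ) : B.q (ua a b i) * B.q (ua a b i) = 1 := by
  rcases Int.emod_two_eq_zero_or_one i with h1 | h1
  · rw [ua, if_pos h1, h.aa]
  · rw [ua, if_neg (by omega), h.bb]

theorem DL.vv_dn (h : DL B a b r M) (i : ℤ) : vv a b i * B.q (da a b i) = vv a b (i - 1) := by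
  rw [h.qda]
  have h1 := vv_up (a := a) (b := b) (i - 1)
  rw [sub_add_cancel] at h1
  rw [← h1, mul_assoc, h.qua, mul_one]

theorem DL.conj (h : DL B a b r M) (j : ℤ) :
    B.q a * (B.q a * B.q b) ^ j = (B.q a * B.q b) ^ (-j) * B.q a := by
  have h1 : B.q a * (B.q a * B.q b) * (B.q a)⁻¹ = (B.q a * B.q b)⁻¹ := by
    rw [mul_inv_rev, h.ai, h.bi, ← mul_assoc, h.aa, one_mul]
  have h2 : B.q a * (B.q a * B.q b) ^ j * (B.q a)⁻¹ = (B.q a * B.q b) ^ (-j) := by
    rw [← conj_zpow, h1, inv_zpow, zpow_neg]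
  rw [← h2, inv_mul_cancel_right]

theorem DL.w2M (h : DL B a b r M) : (B.q a * B.q b) ^ (2 * (M : ℤ)) = 1 := by
  have h1 := pow_orderOf_eq_one (B.q a * B.q b)
  rw [h.ord] at h1
  exact_mod_cast h1

theorem DL.vv_rung (h : DL B a b r M) (i : ℤ) : vv a b i * B.q r = vv a b (i + 2 * M) := by
  rw [h.hr, ← zpow_natCast]
  rcases Int.emod_two_eq_zero_or_one i with h1 | h1
  · rw [vv_even a b h1, vv_even a b (by omega), ← zpow_add]
    congr 1
    omega
  · rw [vv_odd a b h1, vv_odd a b (by omega), mul_assoc, h.conj, ← mul_assoc, ← zpow_add]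
    congr 1
    have h2 : (i + 2 * (M : ℤ)) / 2 = (i / 2 + -(M : ℤ)) + 2 * M := by omega
    rw [h2, zpow_add _ _ (2 * (M : ℤ)), h.w2M, mul_one]

theorem DL.vv_per (h : DL B a b r M) (i : ℤ) : vv a b (i + 4 * M) = vv a b i := by
  have h2 : (i + 4 * (M : ℤ)) / 2 = i / 2 + 2 * M := by omega
  rcases Int.emod_two_eq_zero_or_one i with h1 | h1
  · rw [vv_even a b h1, vv_even a b (by omega), h2, zpow_add, h.w2M, mul_one]
  · rw [vv_odd a b h1, vv_odd a b (by omega), h2, zpow_add, h.w2M, mul_one]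

theorem DL.a_not (h : DL B a b r M) (hM : 1 < M) : B.q a ∉ Subgroup.zpowers (B.q a * B.q b) := by
  intro ha
  obtain ⟨j, hj⟩ := Subgroup.mem_zpowers_iff.1 ha
  have h1 := h.conj 1
  rw [zpow_one] at h1
  have h2 : B.q a * (B.q a * B.q b) = (B.q a * B.q b) * B.q a := by
    have hc : Commute ((B.q a * B.q b) ^ j) (B.q a * B.q b) := (Commute.refl (B.q a * B.q b)).zpow_left j
    have hc2 : Commute (B.q a) (B.q a * B.q b) := by
      have := hc
      rw [hj] at this
      exact this
    exact hc2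
  rw [h2, mul_left_inj] at h1
  have h3 : (B.q a * B.q b) ^ 2 = 1 := by
    rw [pow_two]
    nth_rw 1 [h1]
    rw [← zpow_add_one]
    simp
  have h4 := orderOf_dvd_of_pow_eq_one h3
  rw [h.ord] at h4
  have := Nat.le_of_dvd (by norm_num) h4
  omega

/-- The vertices of the line are different. -/
theorem DL.vv_inj (h : DL B a b r M) (hM : 1 < M) {i j : ℤ} (hij : vv a b i = vv a b j) :
    ∃ t : ℤ, j = i + 4 * M * t := by
  have hz : ∀ m n : ℤ, (B.q a * B.q b) ^ m = (B.q a * B.q b) ^ n → ∃ t : ℤ, n = m + 2 * M * t := by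
    intro m n hmn
    have h1 : (B.q a * B.q b) ^ (n - m) = 1 := by rw [zpow_sub, hmn, mul_inv_cancel]
    have h2 := orderOf_dvd_iff_zpow_eq_one.2 h1
    rw [h.ord] at h2
    obtain ⟨t, ht⟩ := h2
    push_cast at ht
    exact ⟨t, by omega⟩
  have hmem : ∀ m n : ℤ, (B.q a * B.q b) ^ m ≠ (B.q a * B.q b) ^ n * B.q a := by
    intro m n hmn
    apply h.a_not hM
    have h0 : B.q a = ((B.q a * B.q b) ^ n)⁻¹ * (B.q a * B.q b) ^ m := by rw [hmn, inv_mul_cancel_left]
    have h1 : ((B.q a * B.q b) ^ n)⁻¹ * (B.q a * B.q b) ^ m ∈ Subgroup.zpowers (B.q a * B.q b) :=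
      Subgroup.mul_mem _ (Subgroup.inv_mem _ (Subgroup.zpow_mem _ (Subgroup.mem_zpowers _) _))
        (Subgroup.zpow_mem _ (Subgroup.mem_zpowers _) _)
    exact Eq.mpr (congrArg (fun y => y ∈ Subgroup.zpowers (B.q a * B.q b)) h0) h1
  rcases Int.emod_two_eq_zero_or_one i with h1 | h1 <;> rcases Int.emod_two_eq_zero_or_one j with h2 | h2
  · rw [vv_even a b h1, vv_even a b h2] at hij
    obtain ⟨t, ht⟩ := hz _ _ hij
    refine ⟨t, ?_⟩
    have : 4 * (M : ℤ) * t = 2 * (2 * M * t) := by ring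
    omega
  · rw [vv_even a b h1, vv_odd a b h2] at hij
    exact absurd hij (hmem _ _)
  · rw [vv_odd a b h1, vv_even a b h2] at hij
    exact absurd hij.symm (hmem _ _)
  · rw [vv_odd a b h1, vv_odd a b h2, mul_left_inj] at hij
    obtain ⟨t, ht⟩ := hz _ _ hij
    refine ⟨t, ?_⟩
    have : 4 * (M : ℤ) * t = 2 * (2 * M * t) := by ring
    omega

/-- Every element is on the line. -/
theorem DL.vv_surj (h : DL B a b r M) (x : Q) : ∃ i : ℤ, vv a b i = x := by
  rcases h.cov x with hx | hx
  · obtain ⟨j, hj⟩ := Subgroup.mem_zpowers_iff.1 hx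
    refine ⟨2 * j, ?_⟩
    rw [vv_even a b (by omega), ← hj]
    congr 1
    omega
  · obtain ⟨j, hj⟩ := Subgroup.mem_zpowers_iff.1 hx
    refine ⟨2 * j + 1, ?_⟩
    rw [vv_odd a b (by omega), show (2 * j + 1) / 2 = j by omega, hj, mul_assoc, h.aa, mul_one]

end

/-! ### Paths in `Q` -/

section

variable {Q : Type} [Group Q] {B : Lb.{0, 0} Q} {a b r : B.L} {M : ℕ}

theorem fin_upl (i : ℤ) (t : ℕ) : B.fin (vv a b i) (upl a b i t) = vv a b (i + t) := by
  induction t generalizing i with
  | zero => simp [upl, Lb.fin]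
  | succ t ih =>
    rw [upl, Lb.fin, vv_up, ih]
    push_cast
    congr 1
    ring

theorem DL.fin_dnl (h : DL B a b r M) (i : ℤ) (t : ℕ) : B.fin (vv a b i) (dnl a b i t) = vv a b (i - t) := by
  induction t generalizing i with
  | zero => simp [dnl, Lb.fin]
  | succ t ih =>
    rw [dnl, Lb.fin, h.vv_dn, ih]
    push_cast
    congr 1
    ring

theorem src_upl (i : ℤ) (t : ℕ) : src B (vv a b i) (upl a b i t) = (List.range t).map fun j : ℕ => vv a b (i + j) := by
  induction t generalizing i with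
  | zero => rfl
  | succ t ih =>
    rw [upl, src, vv_up, ih, List.range_succ_eq_map, List.map_cons, List.map_map]
    congr 1
    · simp
    · refine List.map_congr_left fun j _ => ?_
      show _ = vv a b (i + ((j + 1 : ℕ) : ℤ))
      push_cast
      congr 1
      ring

theorem DL.src_dnl (h : DL B a b r M) (i : ℤ) (t : ℕ) :
    src B (vv a b i) (dnl a b i t) = (List.range t).map fun j : ℕ => vv a b (i - j) := by
  induction t generalizing i with
  | zero => rfl
  | succ t ih =>
    rw [dnl, src, h.vv_dn, ih, List.range_succ_eq_map, List.map_cons, List.map_map]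
    congr 1
    · simp
    · refine List.map_congr_left fun j _ => ?_
      show _ = vv a b (i - ((j + 1 : ℕ) : ℤ))
      push_cast
      congr 1
      ring

end

/-! ### Paths in the extension -/

section

variable {Q : Type} [Group Q] {B : Lb.{0, 0} Q} {R : Type} [CommRing R] (V : Vd B R) (a b r : B.L) (M : ℕ)

/-- The potential of the line if `chi w = -1`. -/
def ph (i : ℤ) : R :=
  if i % 4 = 0 then 0 else if i % 4 = 1 then V.n a else
    if i % 4 = 2 then V.n a + V.chi (B.q a) * V.n b else V.chi (B.q a) * V.n b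

/-- The vertex `i` of the line with the coordinate `c`. -/
def ll (c : R) (i : ℤ) : Q × R := (vv a b i, c + ph V a b i)

/-- The displacement of the rung at `i`. -/
def dd (i : ℤ) : R := V.chi (vv a b i) * V.n r + ph V a b i - ph V a b (i + 2 * M)

variable {V a b r M}

theorem ph_per (i : ℤ) : ph V a b (i + 4) = ph V a b i := by
  unfold ph
  rw [Int.add_emod_right]

theorem chi_vv (hw : V.chi (B.q a * B.q b) = -1) (i : ℤ) : V.chi (vv a b i) =
    if i % 4 = 0 then 1 else if i % 4 = 1 then V.chi (B.q a) else if i % 4 = 2 then -1 else -V.chi (B.q a) := by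
  have hz : ∀ j : ℤ, V.chi ((B.q a * B.q b) ^ (2 * j)) = 1 := by
    intro j
    rw [zpow_mul]
    have h1 : V.chi ((B.q a * B.q b) ^ (2 : ℤ)) = 1 := by
      rw [show (2 : ℤ) = ((2 : ℕ) : ℤ) by norm_num, zpow_natCast, map_pow, hw]
      ring
    have h2 : ∀ n : ℕ, V.chi (((B.q a * B.q b) ^ (2 : ℤ)) ^ n) = 1 := fun n => by rw [map_pow, h1, one_pow]
    rcases j with n | n
    · rw [Int.ofNat_eq_natCast, zpow_natCast]
      exact h2 n
    · rw [zpow_negSucc]
      have h3 : V.chi (((B.q a * B.q b) ^ (2 : ℤ)) ^ (n + 1)) * V.chi ((((B.q a * B.q b) ^ (2 : ℤ)) ^ (n + 1))⁻¹) = 1 := by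
        rw [← map_mul, mul_inv_cancel, map_one]
      rw [h2, one_mul] at h3
      exact h3
  have ho : ∀ j : ℤ, V.chi ((B.q a * B.q b) ^ (2 * j + 1)) = -1 := by
    intro j
    rw [zpow_add_one, map_mul, hz, one_mul, hw]
  have h4 : i % 4 = 0 ∨ i % 4 = 1 ∨ i % 4 = 2 ∨ i % 4 = 3 := by omega
  rcases h4 with h | h | h | h
  · rw [if_pos h, vv_even a b (by omega), show i / 2 = 2 * (i / 4) by omega, hz]
  · rw [if_neg (by omega), if_pos h, vv_odd a b (by omega), show i / 2 = 2 * (i / 4) by omega, map_mul, hz, one_mul]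
  · rw [if_neg (by omega), if_neg (by omega), if_pos h, vv_even a b (by omega),
      show i / 2 = 2 * (i / 4) + 1 by omega, ho]
  · rw [if_neg (by omega), if_neg (by omega), if_neg (by omega), vv_odd a b (by omega),
      show i / 2 = 2 * (i / 4) + 1 by omega, map_mul, ho]
    ring

theorem ph_up (hw : V.chi (B.q a * B.q b) = -1) (i : ℤ) :
    ph V a b i + V.chi (vv a b i) * V.n (ua a b i) = ph V a b (i + 1) := by
  rw [chi_vv hw]
  unfold ph ua
  have h4 : i % 4 = 0 ∨ i % 4 = 1 ∨ i % 4 = 2 ∨ i % 4 = 3 := by omega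
  rcases h4 with h | h | h | h
  · have h1 : (i + 1) % 4 = 1 := by omega
    have h2 : i % 2 = 0 := by omega
    simp [h, h1, h2]
  · have h1 : (i + 1) % 4 = 2 := by omega
    have h2 : i % 2 = 1 := by omega
    simp [h, h1, h2]
  · have h1 : (i + 1) % 4 = 3 := by omega
    have h2 : i % 2 = 0 := by omega
    simp [h, h1, h2]
  · have h1 : (i + 1) % 4 = 0 := by omega
    have h2 : i % 2 = 1 := by omega
    simp [h, h1, h2]

theorem DL.ll_up (hw : V.chi (B.q a * B.q b) = -1) (c : R) (i : ℤ) :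
    ((ll V a b c i).1 * B.q (ua a b i), (ll V a b c i).2 + V.chi (ll V a b c i).1 * V.n (ua a b i)) =
      ll V a b c (i + 1) := by
  show (vv a b i * B.q (ua a b i), c + ph V a b i + V.chi (vv a b i) * V.n (ua a b i)) = _
  rw [vv_up, add_assoc, ph_up hw]
  rfl

theorem DL.ll_dn (h : DL B a b r M) (hw : V.chi (B.q a * B.q b) = -1) (c : R) (i : ℤ) :
    ((ll V a b c i).1 * B.q (da a b i), (ll V a b c i).2 + V.chi (ll V a b c i).1 * V.n (da a b i)) =
      ll V a b c (i - 1) := by
  show (vv a b i * B.q (da a b i), c + ph V a b i + V.chi (vv a b i) * V.n (da a b i)) = _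
  have h0 : V.n (da a b i) = -(V.chi (B.q (ua a b (i - 1)))⁻¹ * V.n (ua a b (i - 1))) := by
    rcases Int.emod_two_eq_zero_or_one i with h1 | h1
    · rw [da, if_pos h1, ua, if_neg (by omega), V.n_inv]
    · rw [da, if_neg (by omega), ua, if_pos (by omega), V.n_inv]
  have h1 := ph_up (V := V) (a := a) (b := b) hw (i - 1)
  rw [sub_add_cancel] at h1
  have h2 := vv_up (a := a) (b := b) (i - 1)
  rw [sub_add_cancel] at h2
  have h3 : V.chi (vv a b i) * V.chi (B.q (ua a b (i - 1)))⁻¹ = V.chi (vv a b (i - 1)) := by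
    rw [← h2, ← map_mul, mul_inv_cancel_right]
  rw [h.vv_dn, h0]
  unfold ll
  refine Prod.ext rfl ?_
  show c + ph V a b i + V.chi (vv a b i) * -(V.chi (B.q (ua a b (i - 1)))⁻¹ * V.n (ua a b (i - 1))) =
    c + ph V a b (i - 1)
  linear_combination -h1 - V.n (ua a b (i - 1)) * h3

theorem DL.ll_rung (h : DL B a b r M) (c : R) (i : ℤ) :
    ((ll V a b c i).1 * B.q r, (ll V a b c i).2 + V.chi (ll V a b c i).1 * V.n r) =
      ll V a b (c + dd V a b r M i) (i + 2 * M) := by
  show (vv a b i * B.q r, c + ph V a b i + V.chi (vv a b i) * V.n r) = _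
  rw [h.vv_rung]
  refine Prod.ext rfl ?_
  show c + ph V a b i + V.chi (vv a b i) * V.n r = c + dd V a b r M i + ph V a b (i + 2 * M)
  unfold dd
  ring

theorem DL.ll_per (h : DL B a b r M) (c : R) (i : ℤ) : ll V a b c (i + 4 * M) = ll V a b c i := by
  have h1 : ph V a b (i + 4 * M) = ph V a b i := by
    unfold ph
    rw [Int.add_mul_emod_self_left]
  unfold ll
  rw [h.vv_per, h1]

theorem ph_two (i : ℤ) : ph V a b (i + 2) = V.n a + V.chi (B.q a) * V.n b - ph V a b i := by
  unfold ph
  have h4 : i % 4 = 0 ∨ i % 4 = 1 ∨ i % 4 = 2 ∨ i % 4 = 3 := by omega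
  rcases h4 with h | h | h | h
  · have h1 : (i + 2) % 4 = 2 := by omega
    simp [h, h1]
  · have h1 : (i + 2) % 4 = 3 := by omega
    simp [h, h1]
  · have h1 : (i + 2) % 4 = 0 := by omega
    simp [h, h1]
  · have h1 : (i + 2) % 4 = 1 := by omega
    simp [h, h1]

theorem dd_two (hw : V.chi (B.q a * B.q b) = -1) (i : ℤ) : dd V a b r M (i + 2) = -dd V a b r M i := by
  unfold dd
  have h1 : V.chi (vv a b (i + 2)) = -V.chi (vv a b i) := by
    have h2 : vv a b (i + 2) = (B.q a * B.q b) * vv a b i := by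
      rcases Int.emod_two_eq_zero_or_one i with h | h
      · rw [vv_even a b h, vv_even a b (by omega), show (i + 2) / 2 = 1 + i / 2 by omega, zpow_add, zpow_one]
      · rw [vv_odd a b h, vv_odd a b (by omega), show (i + 2) / 2 = 1 + i / 2 by omega, zpow_add, zpow_one, mul_assoc]
    rw [h2, map_mul, hw, neg_one_mul]
  have h3 : i + 2 + 2 * (M : ℤ) = (i + 2 * M) + 2 := by ring
  rw [h1, h3, ph_two, ph_two]
  ring

theorem dd_four (hw : V.chi (B.q a * B.q b) = -1) (i : ℤ) : dd V a b r M (i + 4) = dd V a b r M i := by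
  have h1 : i + 4 = i + 2 + 2 := by ring
  rw [h1, dd_two hw, dd_two hw, neg_neg]

/-- The list of the vertices `ll c i, .., ll c (i + t - 1)`. -/
def sg (V : Vd B R) (a b : B.L) (c : R) (i : ℤ) (t : ℕ) : List (Q × R) := (List.range t).map fun j : ℕ => ll V a b c (i + j)

theorem es_upl (hw : V.chi (B.q a * B.q b) = -1) (c : R) (i : ℤ) (t : ℕ) :
    es V (ll V a b c i) (upl a b i t) = sg V a b c i t := by
  unfold sg
  induction t generalizing i with
  | zero => rfl
  | succ t ih =>
    rw [upl, es, DL.ll_up hw, ih, List.range_succ_eq_map, List.map_cons, List.map_map]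
    congr 1
    · simp
    · refine List.map_congr_left fun j _ => ?_
      show _ = ll V a b c (i + ((j + 1 : ℕ) : ℤ))
      push_cast
      congr 1
      ring

theorem ef_upl (hw : V.chi (B.q a * B.q b) = -1) (c : R) (i : ℤ) (t : ℕ) :
    ef V (ll V a b c i) (upl a b i t) = ll V a b c (i + t) := by
  induction t generalizing i with
  | zero => simp [upl, ef]
  | succ t ih =>
    rw [upl, ef, DL.ll_up hw, ih]
    push_cast
    congr 1
    ring

theorem DL.ef_dnl (h : DL B a b r M) (hw : V.chi (B.q a * B.q b) = -1) (c : R) (i : ℤ) (t : ℕ) :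
    ef V (ll V a b c i) (dnl a b i t) = ll V a b c (i - t) := by
  induction t generalizing i with
  | zero => simp [dnl, ef]
  | succ t ih =>
    rw [dnl, ef, h.ll_dn hw, ih]
    push_cast
    congr 1
    ring

/-- The vertices of a path down, with the last one. -/
theorem DL.es_dnl (h : DL B a b r M) (hw : V.chi (B.q a * B.q b) = -1) (c : R) (i : ℤ) (t : ℕ) :
    es V (ll V a b c i) (dnl a b i t) = (List.range t).map fun j : ℕ => ll V a b c (i - j) := by
  induction t generalizing i with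
  | zero => rfl
  | succ t ih =>
    rw [dnl, es, h.ll_dn hw, ih, List.range_succ_eq_map, List.map_cons, List.map_map]
    congr 1
    · simp
    · refine List.map_congr_left fun j _ => ?_
      show _ = ll V a b c (i - ((j + 1 : ℕ) : ℤ))
      push_cast
      congr 1
      ring

/-- As multisets. -/
def Sg (V : Vd B R) (a b : B.L) (c : R) (i : ℤ) (t : ℕ) : Multiset (Q × R) := (sg V a b c i t : Multiset (Q × R))

theorem Sg_add (c : R) (i : ℤ) (s t : ℕ) : Sg V a b c i (s + t) = Sg V a b c i s + Sg V a b c (i + s) t := by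
  unfold Sg sg
  rw [List.range_add, List.map_append, List.map_map, Multiset.coe_add]
  congr 2
  refine List.map_congr_left fun j _ => ?_
  show ll V a b c (i + ((s + j : ℕ) : ℤ)) = _
  push_cast
  congr 1
  ring

theorem range_rev (t : ℕ) (c : R) (i : ℤ) :
    ((List.range t).map fun j : ℕ => ll V a b c (i + t - 1 - j)) ~ (List.range t).map fun j : ℕ => ll V a b c (i + j) := by
  induction t with
  | zero => exact List.Perm.refl _
  | succ t ih =>
    rw [List.range_succ_eq_map, List.map_cons, List.map_map, ← List.range_succ_eq_map, List.range_succ,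
      List.map_append, List.map_singleton]
    have h1 : ((List.range t).map ((fun j : ℕ => ll V a b c (i + (t + 1 : ℕ) - 1 - j)) ∘ Nat.succ)) =
        (List.range t).map fun j : ℕ => ll V a b c (i + t - 1 - j) := by
      refine List.map_congr_left fun j _ => ?_
      show ll V a b c (i + ((t + 1 : ℕ) : ℤ) - 1 - ((j + 1 : ℕ) : ℤ)) = _
      push_cast
      congr 1
      ring
    have h2 : ll V a b c (i + ((t + 1 : ℕ) : ℤ) - 1 - ((0 : ℕ) : ℤ)) = ll V a b c (i + t) := by
      push_cast
      congr 1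
      ring
    rw [h1, h2]
    exact (List.perm_append_singleton _ _).symm.trans (List.Perm.append_right _ ih)

/-- A piece down to `i`: `t + 1` vertices, then a rung. -/
theorem DL.es_dn_r (h : DL B a b r M) (hw : V.chi (B.q a * B.q b) = -1) (c : R) (i : ℤ) (t : ℕ) :
    (es V (ll V a b c (i + t)) (dnl a b (i + t) t ++ [r]) : Multiset (Q × R)) = Sg V a b c i (t + 1) ∧
    ef V (ll V a b c (i + t)) (dnl a b (i + t) t ++ [r]) = ll V a b (c + dd V a b r M i) (i + 2 * M) := by
  rw [es_append, ef_append, h.ef_dnl hw, h.es_dnl hw, add_sub_cancel_right]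
  constructor
  · unfold Sg sg
    rw [Multiset.coe_eq_coe]
    have h1 : es V (ll V a b c i) [r] = [ll V a b c i] := rfl
    rw [h1]
    have h2 : ((List.range t).map fun j : ℕ => ll V a b c (i + t - j)) ++ [ll V a b c i] =
        (List.range (t + 1)).map fun j : ℕ => ll V a b c (i + (t + 1 : ℕ) - 1 - j) := by
      rw [List.range_succ, List.map_append, List.map_singleton]
      congr 1
      · refine List.map_congr_left fun j _ => ?_
        push_cast
        congr 1
        ring
      · push_cast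
        congr 2
        ring
    rw [h2]
    exact range_rev _ _ _
  · exact h.ll_rung c i

/-- A piece up from `i`: `t + 1` vertices, then a rung. -/
theorem DL.es_up_r (h : DL B a b r M) (hw : V.chi (B.q a * B.q b) = -1) (c : R) (i : ℤ) (t : ℕ) :
    (es V (ll V a b c i) (upl a b i t ++ [r]) : Multiset (Q × R)) = Sg V a b c i (t + 1) ∧
    ef V (ll V a b c i) (upl a b i t ++ [r]) = ll V a b (c + dd V a b r M (i + t)) (i + t + 2 * M) := by
  rw [es_append, ef_append, ef_upl hw, es_upl hw]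
  constructor
  · unfold Sg sg
    have h1 : es V (ll V a b c (i + t)) [r] = [ll V a b c (i + t)] := rfl
    rw [h1, List.range_succ, List.map_append, List.map_singleton]
  · exact h.ll_rung c (i + t)

end

end Pool.Agent.Lib.MP_688fd0_co.SQ4.Small.Dih
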