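import Pool.Agent.Lib.MP_688fd0_co.SQ4.Small.Dih0
import Pool.Agent.Lib.MP_688fd0_co.SQ3.Small.R1D
import Pool.Agent.Lib.MP_688fd0_co.SQ3.Small.R1A

/-!
DIH, part 1: the pure primes; the case without pure primes.
-/

set_option autoImplicit false

namespace Pool.Agent.Lib.MP_688fd0_co.SQ4.Small.Dih

open Pool.Agent.Lib.MP_688fd0_co.OSF Pool.Agent.Lib.MP_688fd0_co.SQ2 Pool.Agent.Lib.MP_688fd0_co.SQ3
open Pool.Agent.Lib.MP_688fd0_co.SQ3.Small
open Pool.Agent.Lib.MP_688fd0_co.SQ3.Small.R1D (vol_app vol_one vol_sing vol_flat vol_map ar' copies rd_eq nodup_of_cover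
  cast_eq cast_unit)

/-! ### Labels with the same image -/

section

variable {Q : Type} [Group Q] {B : Lb.{0, 0} Q}

theorem q_congr {l l' : List B.L} (h : l.map B.q = l'.map B.q) (x : Q) :
    B.verts x l = B.verts x l' ∧ B.fin x l = B.fin x l' ∧ src B x l = src B x l' := by
  induction l generalizing l' x with
  | nil =>
    cases l' with
    | nil => exact ⟨rfl, rfl, rfl⟩
    | cons g' l' => exact absurd h (by simp)
  | cons g l ih =>
    cases l' with
    | nil => exact absurd h (by simp)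
    | cons g' l' =>
      rw [List.map_cons, List.map_cons, List.cons.injEq] at h
      obtain ⟨h1, h2, h3⟩ := ih h.2 (x * B.q g)
      refine ⟨?_, ?_, ?_⟩
      · show x :: B.verts (x * B.q g) l = x :: B.verts (x * B.q g') l'
        rw [h1, h.1]
      · show B.fin (x * B.q g) l = B.fin (x * B.q g') l'
        rw [h2, h.1]
      · show x :: src B (x * B.q g) l = x :: src B (x * B.q g') l'
        rw [h3, h.1]

theorem es_q {R : Type} [CommRing R] (V : Vd B R) (hn : ∀ g g' : B.L, B.q g = B.q g' → V.n g = V.n g') {l l' : List B.L}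
    (h : l.map B.q = l'.map B.q) (x : Q × R) : es V x l = es V x l' ∧ ef V x l = ef V x l' := by
  induction l generalizing l' x with
  | nil =>
    cases l' with
    | nil => exact ⟨rfl, rfl⟩
    | cons g' l' => exact absurd h (by simp)
  | cons g l ih =>
    cases l' with
    | nil => exact absurd h (by simp)
    | cons g' l' =>
      rw [List.map_cons, List.map_cons, List.cons.injEq] at h
      obtain ⟨h1, h2⟩ := ih h.2 (x.1 * B.q g, x.2 + V.chi x.1 * V.n g)
      refine ⟨?_, ?_⟩
      · show x :: es V (x.1 * B.q g, x.2 + V.chi x.1 * V.n g) l = x :: es V (x.1 * B.q g', x.2 + V.chi x.1 * V.n g') l'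
        rw [h1, h.1, hn g g' h.1]
      · show ef V (x.1 * B.q g, x.2 + V.chi x.1 * V.n g) l = ef V (x.1 * B.q g', x.2 + V.chi x.1 * V.n g') l'
        rw [h2, h.1, hn g g' h.1]

end

/-! ### Pure primes -/

section

variable {Q : Type} [Group Q] {B : Lb.{0, 0} Q} {a b r : B.L} {M : ℕ}

theorem DL.rr (h : DL B a b r M) : B.q r * B.q r = 1 := by
  rw [h.hr, ← pow_add]
  have h1 := pow_orderOf_eq_one (B.q a * B.q b)
  rwa [h.ord, show 2 * M = M + M by ring] at h1

/-- If all labels over `q g` have the same component then `chi = 1` implies that it is zero. -/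
theorem n_zero {F : Type} [Field F] (h2 : (2 : F) ≠ 0) (V : Vd B F) (g : B.L) (hg : B.q g * B.q g = 1)
    (hn : ∀ g', B.q g' = B.q g → V.n g' = V.n g) (hc : V.chi (B.q g) = 1) : V.n g = 0 := by
  have h1 : B.q (B.inv g) = B.q g := by rw [B.q_inv]; exact inv_eq_of_mul_eq_one_left hg
  have h3 := hn _ h1
  rw [V.n_inv, inv_eq_of_mul_eq_one_left hg, hc, one_mul] at h3
  have h4 : 2 * V.n g = 0 := by linear_combination -h3
  exact (mul_eq_zero.1 h4).resolve_left h2

theorem chi_sq {F : Type} [Field F] (V : Vd B F) (x : Q) (hx : x * x = 1) : V.chi x = 1 ∨ V.chi x = -1 := by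
  have h1 : V.chi x * V.chi x = 1 := by rw [← map_mul, hx, map_one]
  exact mul_self_eq_one_iff.1 h1

theorem pure_cases {F : Type} [Field F] (h2 : (2 : F) ≠ 0) (V : Vd B F) (h : DL B a b r M)
    (hall : ∀ g, B.q g = B.q a ∨ B.q g = B.q b ∨ B.q g = B.q r)
    (hc : (V.chi (B.q a * B.q b) ≠ 1 ∧ ∃ s t, V.kap s t ≠ 0) ∨
      (V.chi (B.q a * B.q b) = 1 ∧ ∃ t : B.L, B.q t = B.q r ∧ V.n t ≠ 0))
    (ha : ∀ g, B.q g = B.q a → V.n g = V.n a) (hb : ∀ g, B.q g = B.q b → V.n g = V.n b)
    (hr : ∀ g, B.q g = B.q r → V.n g = V.n r) :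
    Odd M ∧ ((V.chi (B.q a) = 1 ∧ V.chi (B.q b) = -1 ∧ V.n a = 0 ∧ V.n r ≠ V.n b) ∨
      (V.chi (B.q a) = -1 ∧ V.chi (B.q b) = 1 ∧ V.n b = 0 ∧ V.n r ≠ V.n a)) := by
  have hcr : V.chi (B.q r) = V.chi (B.q a * B.q b) ^ M := by rw [h.hr, map_pow]
  rcases hc with ⟨hw, s, t, hst⟩ | ⟨hw, t, ht, htn⟩
  swap
  · rw [hw, one_pow] at hcr
    exact absurd ((hr t ht).trans (n_zero h2 V r h.rr hr hcr)) htn
  · rw [map_mul] at hw hcr
    have hcl : ∀ g : B.L, (V.chi (B.q g) = V.chi (B.q a) ∧ V.n g = V.n a) ∨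
        (V.chi (B.q g) = V.chi (B.q b) ∧ V.n g = V.n b) ∨ (V.chi (B.q g) = V.chi (B.q r) ∧ V.n g = V.n r) := by
      intro g
      rcases hall g with h1 | h1 | h1
      · exact Or.inl ⟨by rw [h1], ha g h1⟩
      · exact Or.inr (Or.inl ⟨by rw [h1], hb g h1⟩)
      · exact Or.inr (Or.inr ⟨by rw [h1], hr g h1⟩)
    have key : (V.chi (B.q a) - 1) * V.n b = (V.chi (B.q b) - 1) * V.n a →
        (V.chi (B.q a) - 1) * V.n r = (V.chi (B.q r) - 1) * V.n a →
        (V.chi (B.q b) - 1) * V.n r = (V.chi (B.q r) - 1) * V.n b → False := by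
      intro e1 e2 e3
      apply hst
      unfold Vd.kap
      rcases hcl s with ⟨p1, p2⟩ | ⟨p1, p2⟩ | ⟨p1, p2⟩ <;> rcases hcl t with ⟨q1, q2⟩ | ⟨q1, q2⟩ | ⟨q1, q2⟩ <;>
        rw [p1, p2, q1, q2]
      · ring
      · linear_combination e1
      · linear_combination e2
      · linear_combination -e1
      · ring
      · linear_combination e3
      · linear_combination -e2
      · linear_combination -e3
      · ring
    have hna := n_zero h2 V a h.aa ha
    have hnb := n_zero h2 V b h.bb hb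
    have hnr := n_zero h2 V r h.rr hr
    rcases chi_sq V _ h.aa with ca | ca <;> rcases chi_sq V _ h.bb with cb | cb
    · exact absurd (by rw [ca, cb, one_mul]) hw
    · rw [ca, cb, one_mul] at hcr
      rcases Nat.even_or_odd M with hM | hM
      · exfalso
        rw [hM.neg_one_pow] at hcr
        refine key ?_ ?_ ?_
        · rw [ca, hna ca]; ring
        · rw [ca, hna ca]; ring
        · rw [hcr, hnr hcr]; ring
      · refine ⟨hM, Or.inl ⟨ca, cb, hna ca, fun hrb => ?_⟩⟩
        rw [hM.neg_one_pow] at hcr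
        refine key ?_ ?_ ?_
        · rw [ca, hna ca]; ring
        · rw [ca, hna ca]; ring
        · rw [hcr, cb, hrb]
    · rw [ca, cb, mul_one] at hcr
      rcases Nat.even_or_odd M with hM | hM
      · exfalso
        rw [hM.neg_one_pow] at hcr
        refine key ?_ ?_ ?_
        · rw [cb, hnb cb]; ring
        · rw [hcr, hnr hcr]; ring
        · rw [cb, hnb cb]; ring
      · refine ⟨hM, Or.inr ⟨ca, cb, hnb cb, fun hrb => ?_⟩⟩
        rw [hM.neg_one_pow] at hcr
        refine key ?_ ?_ ?_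
        · rw [cb, hnb cb]; ring
        · rw [hcr, ca, hrb]
        · rw [cb, hnb cb]; ring
    · exact absurd (by rw [ca, cb]; ring) hw

end

/-! ### No pure primes -/

section

variable {Q : Type} [Group Q] {B : Lb.{0, 0} Q} (a b : B.L)

theorem upl_add (i : ℤ) (s t : ℕ) : upl a b i (s + t) = upl a b i s ++ upl a b (i + s) t := by
  induction s generalizing i with
  | zero => simp [upl]
  | succ s ih =>
    rw [Nat.succ_add, upl, upl, ih, List.cons_append]
    congr 3
    push_cast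
    ring

theorem upl_four (i : ℤ) (h : i % 2 = 0) (t : ℕ) :
    upl a b i (4 * t) = (List.replicate t [a, b, a, b]).flatten := by
  induction t generalizing i with
  | zero => rfl
  | succ t ih =>
    rw [show 4 * (t + 1) = 4 + 4 * t by ring, upl_add, ih _ (by omega), List.replicate_succ, List.flatten_cons]
    congr 1
    have h1 : (i + 1) % 2 ≠ 0 := by omega
    have h2 : (i + 1 + 1) % 2 = 0 := by omega
    have h3 : (i + 1 + 1 + 1) % 2 ≠ 0 := by omega
    simp only [upl, ua, h, h1, h2, h3, if_true, if_false]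

end

/-- All labels over `q g` have the same component modulo `p`. -/
def Eqp {Q : Type} [Group Q] {B : Lb.{0, 0} Q} {m : ℕ} (V : Vd B (ZMod m)) (g : B.L) (p : ℕ) : Prop :=
  ∀ g', B.q g' = B.q g → rd p (V.n g') = rd p (V.n g)

theorem Eqp.of {Q : Type} [Group Q] {B : Lb.{0, 0} Q} {m : ℕ} {V : Vd B (ZMod m)} {g g₀ : B.L} {p : ℕ}
    (h : ∀ g', B.q g' = B.q g → rd p (V.n g') = rd p (V.n g₀)) : Eqp V g p :=
  fun g' hg' => (h g' hg').trans (h g rfl).symm

theorem not_eqp {Q : Type} [Group Q] {B : Lb.{0, 0} Q} {m : ℕ} {V : Vd B (ZMod m)} {g : B.L} {p : ℕ}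
    (h : ¬ Eqp V g p) (g₀ : B.L) : ∃ g', B.q g' = B.q g ∧ rd p (V.n g') ≠ rd p (V.n g₀) := by
  by_contra hc
  push Not at hc
  exact h (Eqp.of hc)

theorem sq_le_aux (n : ℕ) : n * n ≤ (n + 2) ^ 2 := by nlinarith

theorem caseN (ht : T1aS) (har : ArS) {Q : Type} [Group Q] {B : Lb.{0, 0} Q} {a b r : B.L} {m M : ℕ}
    (V : Vd B (ZMod m)) (h : DL B a b r M) (hsq : Squarefree m) (hm0 : m ≠ 0)
    (hp : ∀ p ∈ m.primeFactors, 8 * (m.primeFactors.card + 2) ^ 2 < p)
    (hM : 1000 * (m.primeFactors.card + 2) ^ 2 ≤ M)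
    (hnp : ∀ p ∈ m.primeFactors, ¬ (Eqp V a p ∧ Eqp V b p ∧ Eqp V r p)) : HP V := by
  have := h.fin
  have : NeZero m := ⟨hm0⟩
  classical
  set κ := m.primeFactors.card with hκ
  set N := κ * κ with hN
  have hNM : 1000 * N ≤ M := le_trans (Nat.mul_le_mul_left _ (sq_le_aux κ)) hM
  have hM1 : 1 < M := by
    have : 1 ≤ (κ + 2) ^ 2 := Nat.one_le_pow _ _ (by omega)
    omega
  have hcw2 : V.chi (B.fin 1 [a, b, a, b]) = 1 := by
    have e : B.fin 1 [a, b, a, b] = 1 * B.q a * B.q b * B.q a * B.q b := rfl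
    rw [e]
    simp only [map_mul, map_one, one_mul]
    have e1 : V.chi (B.q a) * V.chi (B.q a) = 1 := by rw [← map_mul, h.aa, map_one]
    have e2 : V.chi (B.q b) * V.chi (B.q b) = 1 := by rw [← map_mul, h.bb, map_one]
    linear_combination (V.chi (B.q b)) * (V.chi (B.q b)) * e1 + e2
  -- the families
  have hfam : ∀ p : {p // p ∈ m.primeFactors}, ∃ w : List B.L, w.map B.q = [a, b, a, b].map B.q ∧
      (Eqp V r p.1 → rd p.1 (V.vol 1 w - V.vol 1 [a, b, a, b]) ≠ 0) := by
    rintro ⟨p, hpm⟩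
    have hd := Nat.dvd_of_mem_primeFactors hpm
    have : Fact p.Prime := ⟨Nat.prime_of_mem_primeFactors hpm⟩
    by_cases c1 : Eqp V a p
    swap
    · obtain ⟨g, hg, hn⟩ := not_eqp c1 a
      refine ⟨[g, b, a, b], by simp [hg], fun _ => ?_⟩
      have e : V.vol 1 [g, b, a, b] - V.vol 1 [a, b, a, b] = V.n g - V.n a := by
        simp only [Vd.vol, hg, map_one]
        ring
      rw [e, rd_sub hd]
      exact sub_ne_zero.2 hn
    by_cases c2 : Eqp V b p
    swap
    · obtain ⟨g, hg, hn⟩ := not_eqp c2 b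
      refine ⟨[a, g, a, b], by simp [hg], fun _ => ?_⟩
      have e : V.vol 1 [a, g, a, b] - V.vol 1 [a, b, a, b] = V.chi (B.q a) * (V.n g - V.n b) := by
        simp only [Vd.vol, hg, map_one, one_mul]
        ring
      rw [e, rd_mul hd, rd_sub hd]
      exact mul_ne_zero (rd_chi_ne V hpm _) (sub_ne_zero.2 hn)
    · exact ⟨[a, b, a, b], rfl, fun h3 => absurd ⟨c1, c2, h3⟩ (hnp p hpm)⟩
  choose blk hblk using hfam
  obtain ⟨T, hT⟩ : ∃ T : ℕ, 2 * M = 3 + 4 * N + T + 1 := ⟨2 * M - (3 + 4 * N) - 1, by omega⟩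
  set lY := dnl a b 0 (2 * M - 1) with hlY
  -- the vertices
  have hx₀ : ∀ (ws : List (List B.L)), (∀ w ∈ ws, w.map B.q = [a, b, a, b].map B.q) → ws.length = N →
      (upl a b 1 3 ++ (ws.flatten ++ upl a b (4 + 4 * N) T)).map B.q = (upl a b 1 (2 * M - 1)).map B.q := by
    intro ws hw hl
    rw [show 2 * M - 1 = 3 + (4 * N + T) by omega, upl_add, upl_add, upl_four a b _ (by norm_num)]
    rw [List.map_append, List.map_append, List.map_append, List.map_append]
    congr 1
    congr 1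
    rw [List.map_flatten, List.map_flatten, List.map_replicate]
    congr 1
    rw [List.eq_replicate_iff]
    refine ⟨by rw [List.length_map, hl], ?_⟩
    intro x hx
    obtain ⟨w, hw', rfl⟩ := List.mem_map.1 hx
    exact hw w hw'
  obtain ⟨j, hj1, hj2⟩ := ar' har (fun p hpp => lt_of_le_of_lt (by nlinarith [sq_le_aux κ] : κ ≤ 8 * (κ + 2) ^ 2) (hp p hpp))
    {p // p ∈ m.primeFactors}
    (V.vol (vv a b 1) (upl a b 1 3) + N * V.vol 1 [a, b, a, b] +
      V.vol (vv a b (4 + 4 * N)) (upl a b (4 + 4 * N) T) + V.vol (vv a b (2 * M)) (r :: (lY ++ [r])))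
    (fun i => V.vol 1 (blk i) - V.vol 1 [a, b, a, b])
  have hsum : ∑ i, j i ≤ N := by
    refine le_trans (Finset.sum_le_sum fun i _ => hj1 i) ?_
    rw [Finset.sum_const, smul_eq_mul, Finset.card_univ, Fintype.card_coe]
  obtain ⟨ws, ws1, ws2, ws3⟩ := copies blk [a, b, a, b] j N hsum (fun w => w.map B.q = [a, b, a, b].map B.q) rfl
    (fun i => (hblk i).1) (V.vol 1)
  set lX := upl a b 1 3 ++ (ws.flatten ++ upl a b (4 + 4 * N) T) with hlX
  have hq := hx₀ ws ws2 ws1
  have hfX : B.fin (vv a b 1) lX = vv a b (2 * M) := by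
    rw [(q_congr hq _).2.1, fin_upl]
    congr 1
    omega
  have hfY : B.fin (vv a b 0) lY = vv a b (1 - 2 * M) := by
    rw [hlY, h.fin_dnl]
    congr 1
    omega
  have hv : ∀ (t : ℕ) (i : ℤ), B.verts (vv a b i) (upl a b i t) =
      (List.range (t + 1)).map fun j : ℕ => vv a b (i + j) := by
    intro t i
    rw [verts_eq, src_upl, fin_upl, List.range_succ, List.map_append, List.map_singleton]
  have hv' : ∀ (t : ℕ) (i : ℤ), B.verts (vv a b i) (dnl a b i t) =
      (List.range (t + 1)).map fun j : ℕ => vv a b (i - j) := by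
    intro t i
    rw [verts_eq, h.src_dnl, h.fin_dnl, List.range_succ, List.map_append, List.map_singleton]
  have hvX : B.verts (vv a b 1) lX = (List.range (2 * M)).map fun j : ℕ => vv a b (1 + j) := by
    rw [(q_congr hq _).1, hv, show 2 * M - 1 + 1 = 2 * M by omega]
  have hvY : B.verts (vv a b 0) lY = (List.range (2 * M)).map fun j : ℕ => vv a b (0 - j) := by
    rw [hlY, hv', show 2 * M - 1 + 1 = 2 * M by omega]
  have hs0 : B.fin (vv a b 1) lX * B.q r = vv a b 0 := by
    rw [hfX, h.vv_rung, ← h.vv_per 0]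
    congr 1
    ring
  have hs1 : B.fin (vv a b 0) lY * B.q r = vv a b 1 := by
    rw [hfY, h.vv_rung]
    congr 1
    ring
  -- T1a
  refine ht Q B m V (vv a b 1) (vv a b 0) lX lY {s | B.q s = B.q r} r ?_ ?_ ?_ hs1 ?_ ⟨r, rfl⟩
  · rw [hvX, hvY]
    refine List.Nodup.append ?_ ?_ ?_
    · refine List.nodup_range.map_on ?_
      intro x hx y hy e
      rw [List.mem_range] at hx hy
      obtain ⟨t, ht⟩ := h.vv_inj hM1 e
      have : t = 0 := by
        by_contra h0
        rcases lt_or_gt_of_ne h0 with h1 | h1 <;> nlinarith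
      subst this
      omega
    · refine List.nodup_range.map_on ?_
      intro x hx y hy e
      rw [List.mem_range] at hx hy
      obtain ⟨t, ht⟩ := h.vv_inj hM1 e
      have : t = 0 := by
        by_contra h0
        rcases lt_or_gt_of_ne h0 with h1 | h1 <;> nlinarith
      subst this
      omega
    · intro z hz hz'
      obtain ⟨x, hx, rfl⟩ := List.mem_map.1 hz
      obtain ⟨y, hy, e⟩ := List.mem_map.1 hz'
      rw [List.mem_range] at hx hy
      obtain ⟨t, ht⟩ := h.vv_inj hM1 e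
      rcases lt_trichotomy t 0 with h1 | rfl | h1
      · nlinarith
      · omega
      · nlinarith
  · intro q
    obtain ⟨i, rfl⟩ := h.vv_surj q
    rw [hvX, hvY]
    -- reduce modulo `4 M`
    have hper : ∀ (n : ℕ) (i : ℤ), vv a b (i + 4 * M * n) = vv a b i := by
      intro n
      induction n with
      | zero => intro i; simp
      | succ n ih =>
        intro i
        rw [← ih i, ← h.vv_per (i + 4 * M * n)]
        congr 1
        push_cast
        ring
    have hper' : ∀ (n : ℤ) (i : ℤ), vv a b (i + 4 * M * n) = vv a b i := by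
      intro n i
      rcases Int.eq_nat_or_neg n with ⟨n, rfl | rfl⟩
      · exact hper n i
      · rw [← hper n (i + 4 * M * -n)]
        congr 1
        ring
    obtain ⟨i', hi1, hi2, hi3⟩ : ∃ i' : ℤ, 1 ≤ i' ∧ i' ≤ 4 * M ∧ vv a b i = vv a b i' := by
      refine ⟨(i - 1) % (4 * M) + 1, ?_, ?_, ?_⟩
      · have := Int.emod_nonneg (i - 1) (show (4 * (M : ℤ)) ≠ 0 by omega)
        omega
      · have := Int.emod_lt_of_pos (i - 1) (show (0 : ℤ) < 4 * (M : ℤ) by omega)
        omega
      · rw [← hper' ((i - 1) / (4 * M)) ((i - 1) % (4 * M) + 1)]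
        congr 1
        have := Int.emod_add_mul_ediv (i - 1) (4 * M)
        linarith
    rw [hi3]
    rcases le_or_gt i' (2 * M) with h1 | h1
    · refine Or.inl (List.mem_map.2 ⟨(i' - 1).toNat, List.mem_range.2 (by omega), ?_⟩)
      congr 1
      omega
    · refine Or.inr (List.mem_map.2 ⟨(4 * M - i').toNat, List.mem_range.2 (by omega), ?_⟩)
      rw [← h.vv_per]
      congr 1
      omega
  · intro s hs
    rw [Set.mem_setOf_eq] at hs
    rw [hs, hs0]
  · intro p hpm
    have hd := Nat.dvd_of_mem_primeFactors hpm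
    have : Fact p.Prime := ⟨Nat.prime_of_mem_primeFactors hpm⟩
    -- the volume
    have hvolX : V.vol (vv a b 1) lX = V.vol (vv a b 1) (upl a b 1 3) + N * V.vol 1 [a, b, a, b] +
        V.vol (vv a b (4 + 4 * N)) (upl a b (4 + 4 * N) T) +
        ∑ i, (j i : ZMod m) * (V.vol 1 (blk i) - V.vol 1 [a, b, a, b]) := by
      rw [hlX, vol_app, vol_app, fin_upl]
      have e1 : (vv a b (1 + ((3 : ℕ) : ℤ)) : Q) = vv a b 4 := by norm_num
      have e2 : V.chi (vv a b (4 : ℤ)) = 1 := by
        have e3 : vv a b (4 : ℤ) = B.fin 1 [a, b, a, b] := by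
          rw [vv_even a b (by norm_num)]
          show _ = 1 * B.q a * B.q b * B.q a * B.q b
          rw [one_mul, show (4 : ℤ) / 2 = 2 by norm_num, zpow_two]
          simp only [mul_assoc]
        rw [e3, hcw2]
      have e4 : B.fin (vv a b 4) ws.flatten = vv a b (4 + 4 * N) := by
        have e5 : ws.flatten.map B.q = (upl a b 4 (4 * N)).map B.q := by
          rw [upl_four a b _ (by norm_num), List.map_flatten, List.map_flatten, List.map_replicate]
          congr 1
          rw [List.eq_replicate_iff]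
          refine ⟨by rw [List.length_map, ws1], ?_⟩
          intro x hx
          obtain ⟨w, hw', rfl⟩ := List.mem_map.1 hx
          exact ws2 w hw'
        rw [(q_congr e5 _).2.1, fin_upl]
        push_cast
        rfl
      rw [e1, e4, vol_flat V ws, e2, one_mul, ws3]
      · ring
      · intro w hw
        rw [(q_congr (ws2 w hw) _).2.1, hcw2]
    have hvol : ∀ s, B.q s = B.q r → V.vol (vv a b 1) (lX ++ s :: (lY ++ [r])) =
        V.vol (vv a b 1) lX + V.vol (vv a b (2 * M)) (r :: (lY ++ [r])) +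
          V.chi (vv a b (2 * M)) * (V.n s - V.n r) := by
      intro s hs
      rw [vol_app, hfX]
      show V.vol (vv a b 1) lX + (V.chi (vv a b (2 * M)) * V.n s + V.vol (vv a b (2 * M) * B.q s) (lY ++ [r])) =
        V.vol (vv a b 1) lX + (V.chi (vv a b (2 * M)) * V.n r + V.vol (vv a b (2 * M) * B.q r) (lY ++ [r])) + _
      rw [hs]
      ring
    by_cases hr : Eqp V r p
    · refine ⟨r, rfl, ?_⟩
      rw [hvol r rfl, sub_self, mul_zero, add_zero, hvolX]
      have h1 := hj2 p hpm (Or.inr ⟨⟨p, hpm⟩, (hblk ⟨p, hpm⟩).2 hr⟩)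
      rw [← sub_ne_zero] at h1 ⊢
      convert h1 using 2
      congr 1
      ring
    · obtain ⟨s, hs, hn⟩ := not_eqp hr r
      by_cases h0 : rd p (V.vol (vv a b 1) (lX ++ r :: (lY ++ [r]))) = 0
      · refine ⟨s, hs, ?_⟩
        have h3 : V.vol (vv a b 1) (lX ++ s :: (lY ++ [r])) = V.vol (vv a b 1) (lX ++ r :: (lY ++ [r])) +
            V.chi (vv a b (2 * M)) * (V.n s - V.n r) := by
          rw [hvol s hs, hvol r rfl]
          ring
        rw [h3, rd_add hd, h0, zero_add, rd_mul hd, rd_sub hd]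
        exact mul_ne_zero (rd_chi_ne V hpm _) (sub_ne_zero.2 hn)
      · exact ⟨r, rfl, h0⟩

end Pool.Agent.Lib.MP_688fd0_co.SQ4.Small.Dih
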