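import Pool.Agent.Lib.MP_688fd0_co.SQ4.Small.Dih1

/-!
DIH, part 2: the walks `W₀` and `B'`.
-/

set_option autoImplicit false

namespace Pool.Agent.Lib.MP_688fd0_co.SQ4.Small.Dih

open Pool.Agent.Lib.MP_688fd0_co.OSF Pool.Agent.Lib.MP_688fd0_co.SQ2 Pool.Agent.Lib.MP_688fd0_co.SQ3
open Pool.Agent.Lib.MP_688fd0_co.SQ3.Small
open Pool.Agent.Lib.MP_688fd0_co.SQ3.Small.R1D (vol_app vol_one vol_sing vol_flat vol_map ar' copies rd_eq nodup_of_cover
  cast_eq cast_unit)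

section

variable {Q : Type} [Group Q] {B : Lb.{0, 0} Q} {R : Type} [CommRing R] {V : Vd B R} {a b r : B.L} {M : ℕ}

/-- The displacement of the rung at `0`, and at `1`. -/
def D₀ (V : Vd B R) (a b r : B.L) : R := V.n r - (V.n a + V.chi (B.q a) * V.n b)

def D₁ (V : Vd B R) (a b r : B.L) : R := V.chi (B.q a) * V.n r + V.n a - V.chi (B.q a) * V.n b

theorem dd_val (hw : V.chi (B.q a * B.q b) = -1) (hM : M % 2 = 1) (i : ℤ) : dd V a b r M i =
    if i % 4 = 0 then D₀ V a b r else if i % 4 = 1 then D₁ V a b r else if i % 4 = 2 then -D₀ V a b r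
      else -D₁ V a b r := by
  unfold dd D₀ D₁
  rw [chi_vv hw]
  unfold ph
  have h4 : i % 4 = 0 ∨ i % 4 = 1 ∨ i % 4 = 2 ∨ i % 4 = 3 := by omega
  rcases h4 with h | h | h | h
  · have h1 : (i + 2 * (M : ℤ)) % 4 = 2 := by omega
    simp [h, h1]
  · have h1 : (i + 2 * (M : ℤ)) % 4 = 3 := by omega
    simp [h, h1]
  · have h1 : (i + 2 * (M : ℤ)) % 4 = 0 := by omega
    simp [h, h1]
    ring
  · have h1 : (i + 2 * (M : ℤ)) % 4 = 1 := by omega
    simp [h, h1]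
    ring

theorem dd0 (hw : V.chi (B.q a * B.q b) = -1) (hM : M % 2 = 1) {i : ℤ} (h : i % 4 = 0) :
    dd V a b r M i = D₀ V a b r := by rw [dd_val hw hM, if_pos h]

theorem dd1 (hw : V.chi (B.q a * B.q b) = -1) (hM : M % 2 = 1) {i : ℤ} (h : i % 4 = 1) :
    dd V a b r M i = D₁ V a b r := by rw [dd_val hw hM, if_neg (by omega), if_pos h]

theorem dd2 (hw : V.chi (B.q a * B.q b) = -1) (hM : M % 2 = 1) {i : ℤ} (h : i % 4 = 2) :
    dd V a b r M i = -D₀ V a b r := by rw [dd_val hw hM, if_neg (by omega), if_neg (by omega), if_pos h]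

/-- A piece down. -/
def pd (a b r : B.L) (j : ℤ) (t : ℕ) : List B.L := dnl a b j t ++ [r]

/-- A piece up. -/
def pu (a b r : B.L) (j : ℤ) (t : ℕ) : List B.L := upl a b j t ++ [r]

theorem DL.ll_eq (h : DL B a b r M) {i j j' : ℤ} (hj : j = i + 2 * M) (hj' : j' = i + 2 * M ∨ j' = i - 2 * M) (c : R) :
    ll V a b c j = ll V a b c j' := by
  subst hj
  rcases hj' with rfl | rfl
  · rfl
  · rw [← h.ll_per c (i - 2 * M)]
    congr 1
    ring

theorem DL.pd_es (h : DL B a b r M) (hw : V.chi (B.q a * B.q b) = -1) {c c' : R} {i j j' : ℤ} {t : ℕ}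
    (hj : j = i + t) (hj' : j' = i + 2 * M ∨ j' = i - 2 * M) (hc : c' = c + dd V a b r M i) :
    (es V (ll V a b c j) (pd a b r j t) : Multiset (Q × R)) = Sg V a b c i (t + 1) ∧
      ef V (ll V a b c j) (pd a b r j t) = ll V a b c' j' := by
  subst hj hc
  obtain ⟨h1, h2⟩ := h.es_dn_r hw c i t
  exact ⟨h1, h2.trans (h.ll_eq rfl hj' _)⟩

theorem DL.pu_es (h : DL B a b r M) (hw : V.chi (B.q a * B.q b) = -1) {c c' : R} {i j j' : ℤ} {t : ℕ}
    (hj : j = i + t) (hj' : j' = j + 2 * M ∨ j' = j - 2 * M) (hc : c' = c + dd V a b r M j) :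
    (es V (ll V a b c i) (pu a b r i t) : Multiset (Q × R)) = Sg V a b c i (t + 1) ∧
      ef V (ll V a b c i) (pu a b r i t) = ll V a b c' j' := by
  subst hj hc
  obtain ⟨h1, h2⟩ := h.es_up_r hw c i t
  exact ⟨h1, h2.trans (h.ll_eq rfl hj' _)⟩

/-- The basic walk. -/
def W₀ (a b r : B.L) (M : ℕ) : List B.L := pd a b r (2 * M) (2 * M - 1) ++ pu a b r (2 * M + 1) (2 * M - 1)

theorem DL.W₀_es (h : DL B a b r M) (hw : V.chi (B.q a * B.q b) = -1) (hM : M % 2 = 1) (c : R) :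
    (es V (ll V a b c (2 * M)) (W₀ a b r M) : Multiset (Q × R)) =
        Sg V a b c 1 (2 * M) + Sg V a b (c + D₁ V a b r) (2 * M + 1) (2 * M) ∧
      ef V (ll V a b c (2 * M)) (W₀ a b r M) = ll V a b (c + D₁ V a b r + D₀ V a b r) (2 * M) := by
  have hM0 := h.M0
  obtain ⟨a1, b1⟩ := h.pd_es (V := V) hw (c := c) (c' := c + D₁ V a b r) (i := 1) (j := 2 * M) (j' := 2 * M + 1)
    (t := 2 * M - 1) (by omega) (Or.inl (by ring)) (by rw [dd1 hw hM (by norm_num)])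
  obtain ⟨a2, b2⟩ := h.pu_es (V := V) hw (c := c + D₁ V a b r) (c' := c + D₁ V a b r + D₀ V a b r) (i := 2 * M + 1)
    (j := 4 * M) (j' := 2 * M) (t := 2 * M - 1) (by omega) (Or.inr (by ring)) (by rw [dd0 hw hM (by omega)])
  rw [W₀, es_append, ef_append, b1, b2, ← Multiset.coe_add, a1, a2, show 2 * M - 1 + 1 = 2 * M by omega]
  exact ⟨rfl, rfl⟩

/-- The walk which replaces two copies of the basic walk. -/
def B₀ (a b r : B.L) (M : ℕ) : List B.L :=
  pd a b r (2 * M) (2 * M - 5) ++ (pd a b r (2 * M + 5) 1 ++ (pd a b r 4 3 ++ (pu a b r (2 * M + 1) 2 ++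
    (pd a b r 3 2 ++ (pu a b r (2 * M + 1) 3 ++ (pu a b r 4 1 ++ (pu a b r (2 * M + 5) 3 ++
      (pd a b r 8 2 ++ (pu a b r (2 * M + 6) (2 * M - 6) ++ (pd a b r (2 * M) (2 * M - 9) ++
        pu a b r (2 * M + 9) (2 * M - 9)))))))))))

theorem DL.B₀_es (h : DL B a b r M) (hw : V.chi (B.q a * B.q b) = -1) (hM : M % 2 = 1) (hM5 : 5 ≤ M) (c : R)
    {c₁ c₂ c₃ c₄ c₅ c₆ c₇ c₈ c₉ c₁₀ c₁₁ c₁₂ : R} (e1 : c₁ = c + D₁ V a b r) (e2 : c₂ = c₁ - D₀ V a b r)
    (e3 : c₃ = c₂ + D₁ V a b r) (e4 : c₄ = c₃ + D₁ V a b r) (e5 : c₅ = c₄ + D₁ V a b r) (e6 : c₆ = c₅ - D₀ V a b r)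
    (e7 : c₇ = c₆ + D₁ V a b r) (e8 : c₈ = c₇ - D₀ V a b r) (e9 : c₉ = c₈ - D₀ V a b r) (e10 : c₁₀ = c₉ + D₀ V a b r)
    (e11 : c₁₁ = c₁₀ + D₁ V a b r) (e12 : c₁₂ = c₁₁ + D₀ V a b r) :
    (es V (ll V a b c (2 * M)) (B₀ a b r M) : Multiset (Q × R)) =
        Sg V a b c 5 (2 * M - 5 + 1) + (Sg V a b c₁ (2 * M + 4) 2 + (Sg V a b c₂ 1 4 + (Sg V a b c₃ (2 * M + 1) 3 +
          (Sg V a b c₄ 1 3 + (Sg V a b c₅ (2 * M + 1) 4 + (Sg V a b c₆ 4 2 + (Sg V a b c₇ (2 * M + 5) 4 +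
            (Sg V a b c₈ 6 3 + (Sg V a b c₉ (2 * M + 6) (2 * M - 6 + 1) + (Sg V a b c₁₀ 9 (2 * M - 9 + 1) +
              Sg V a b c₁₁ (2 * M + 9) (2 * M - 9 + 1))))))))))) ∧
      ef V (ll V a b c (2 * M)) (B₀ a b r M) = ll V a b c₁₂ (2 * M) := by
  obtain ⟨x1, y1⟩ := h.pd_es (V := V) hw (c := c) (c' := c₁) (i := 5) (j := 2 * M) (j' := 2 * M + 5)
    (t := 2 * M - 5) (by omega) (Or.inl (by ring)) (by rw [dd1 hw hM (by norm_num), e1])
  obtain ⟨x2, y2⟩ := h.pd_es (V := V) hw (c := c₁) (c' := c₂) (i := 2 * M + 4) (j := 2 * M + 5) (j' := 4)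
    (t := 1) (by push_cast; ring) (Or.inr (by ring)) (by rw [dd2 hw hM (by omega), e2]; ring)
  obtain ⟨x3, y3⟩ := h.pd_es (V := V) hw (c := c₂) (c' := c₃) (i := 1) (j := 4) (j' := 2 * M + 1)
    (t := 3) (by norm_num) (Or.inl (by ring)) (by rw [dd1 hw hM (by norm_num), e3])
  obtain ⟨x4, y4⟩ := h.pu_es (V := V) hw (c := c₃) (c' := c₄) (i := 2 * M + 1) (j := 2 * M + 3) (j' := 3)
    (t := 2) (by push_cast; ring) (Or.inr (by ring)) (by rw [dd1 hw hM (by omega), e4])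
  obtain ⟨x5, y5⟩ := h.pd_es (V := V) hw (c := c₄) (c' := c₅) (i := 1) (j := 3) (j' := 2 * M + 1)
    (t := 2) (by norm_num) (Or.inl (by ring)) (by rw [dd1 hw hM (by norm_num), e5])
  obtain ⟨x6, y6⟩ := h.pu_es (V := V) hw (c := c₅) (c' := c₆) (i := 2 * M + 1) (j := 2 * M + 4) (j' := 4)
    (t := 3) (by push_cast; ring) (Or.inr (by ring)) (by rw [dd2 hw hM (by omega), e6]; ring)
  obtain ⟨x7, y7⟩ := h.pu_es (V := V) hw (c := c₆) (c' := c₇) (i := 4) (j := 5) (j' := 2 * M + 5)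
    (t := 1) (by norm_num) (Or.inl (by ring)) (by rw [dd1 hw hM (by norm_num), e7])
  obtain ⟨x8, y8⟩ := h.pu_es (V := V) hw (c := c₇) (c' := c₈) (i := 2 * M + 5) (j := 2 * M + 8) (j' := 8)
    (t := 3) (by push_cast; ring) (Or.inr (by ring)) (by rw [dd2 hw hM (by omega), e8]; ring)
  obtain ⟨x9, y9⟩ := h.pd_es (V := V) hw (c := c₈) (c' := c₉) (i := 6) (j := 8) (j' := 2 * M + 6)
    (t := 2) (by norm_num) (Or.inl (by ring)) (by rw [dd2 hw hM (by norm_num), e9]; ring)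
  obtain ⟨x10, y10⟩ := h.pu_es (V := V) hw (c := c₉) (c' := c₁₀) (i := 2 * M + 6) (j := 4 * M) (j' := 2 * M)
    (t := 2 * M - 6) (by omega) (Or.inr (by ring)) (by rw [dd0 hw hM (by omega), e10])
  obtain ⟨x11, y11⟩ := h.pd_es (V := V) hw (c := c₁₀) (c' := c₁₁) (i := 9) (j := 2 * M) (j' := 2 * M + 9)
    (t := 2 * M - 9) (by omega) (Or.inl (by ring)) (by rw [dd1 hw hM (by norm_num), e11])
  obtain ⟨x12, y12⟩ := h.pu_es (V := V) hw (c := c₁₁) (c' := c₁₂) (i := 2 * M + 9) (j := 4 * M) (j' := 2 * M)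
    (t := 2 * M - 9) (by omega) (Or.inr (by ring)) (by rw [dd0 hw hM (by omega), e12])
  unfold B₀
  constructor
  · rw [es_append, y1, es_append, y2, es_append, y3, es_append, y4, es_append, y5, es_append, y6, es_append, y7,
      es_append, y8, es_append, y9, es_append, y10, es_append, y11]
    simp only [← Multiset.coe_add]
    rw [x1, x2, x3, x4, x5, x6, x7, x8, x9, x10, x11, x12]
  · rw [ef_append, y1, ef_append, y2, ef_append, y3, ef_append, y4, ef_append, y5, ef_append, y6, ef_append, y7,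
      ef_append, y8, ef_append, y9, ef_append, y10, ef_append, y11, y12]

/-- Two lines. -/
def bM (V : Vd B R) (a b : B.L) (M : ℕ) (d c : R) : Multiset (Q × R) :=
  Sg V a b c 1 (2 * M) + Sg V a b (c + d) (2 * M + 1) (2 * M)

theorem DL.B₀_cov (h : DL B a b r M) (hw : V.chi (B.q a * B.q b) = -1) (hM : M % 2 = 1) (hM5 : 5 ≤ M) {d : R}
    (h0 : D₀ V a b r = d) (h1 : D₁ V a b r = d) (c : R) :
    (es V (ll V a b c (2 * M)) (B₀ a b r M) : Multiset (Q × R)) = bM V a b M d c + bM V a b M d (c + 2 * d) ∧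
      ef V (ll V a b c (2 * M)) (B₀ a b r M) = ll V a b (c + 4 * d) (2 * M) := by
  obtain ⟨h2, h3⟩ := h.B₀_es hw hM hM5 c (c₁ := c + d) (c₂ := c) (c₃ := c + d) (c₄ := c + 2 * d) (c₅ := c + 3 * d)
    (c₆ := c + 2 * d) (c₇ := c + 3 * d) (c₈ := c + 2 * d) (c₉ := c + d) (c₁₀ := c + 2 * d) (c₁₁ := c + 3 * d)
    (c₁₂ := c + 4 * d) (by rw [h1]) (by rw [h0]; ring) (by rw [h1]) (by rw [h1]; ring) (by rw [h1]; ring)
    (by rw [h0]; ring) (by rw [h1]; ring) (by rw [h0]; ring) (by rw [h0]; ring) (by rw [h0]; ring) (by rw [h1]; ring)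
    (by rw [h0]; ring)
  refine ⟨?_, h3⟩
  rw [h2]
  unfold bM
  have k1 : ∀ x : R, Sg V a b x 1 (2 * M) = Sg V a b x 1 4 + Sg V a b x 5 (2 * M - 5 + 1) := by
    intro x
    have := Sg_add (V := V) (a := a) (b := b) x 1 4 (2 * M - 5 + 1)
    rw [show 4 + (2 * M - 5 + 1) = 2 * M by omega] at this
    rw [this]
    norm_num
  have k2 : ∀ x : R, Sg V a b x (2 * M + 1) (2 * M) =
      Sg V a b x (2 * M + 1) 3 + (Sg V a b x (2 * M + 4) 2 + Sg V a b x (2 * M + 6) (2 * M - 6 + 1)) := by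
    intro x
    have h4 := Sg_add (V := V) (a := a) (b := b) x (2 * M + 1) 3 (2 + (2 * M - 6 + 1))
    have h5 := Sg_add (V := V) (a := a) (b := b) x (2 * M + 4) 2 (2 * M - 6 + 1)
    rw [show 3 + (2 + (2 * M - 6 + 1)) = 2 * M by omega] at h4
    rw [show (2 * (M : ℤ) + 4 + ((2 : ℕ) : ℤ)) = 2 * M + 6 by push_cast; ring] at h5
    rw [h4, show (2 * (M : ℤ) + 1 + ((3 : ℕ) : ℤ)) = 2 * M + 4 by push_cast; ring, h5]
  have k3 : ∀ x : R, Sg V a b x 1 (2 * M) =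
      Sg V a b x 1 3 + (Sg V a b x 4 2 + (Sg V a b x 6 3 + Sg V a b x 9 (2 * M - 9 + 1))) := by
    intro x
    have h4 := Sg_add (V := V) (a := a) (b := b) x 1 3 (2 + (3 + (2 * M - 9 + 1)))
    have h5 := Sg_add (V := V) (a := a) (b := b) x 4 2 (3 + (2 * M - 9 + 1))
    have h6 := Sg_add (V := V) (a := a) (b := b) x 6 3 (2 * M - 9 + 1)
    rw [show 3 + (2 + (3 + (2 * M - 9 + 1))) = 2 * M by omega] at h4
    norm_num at h4 h5 h6
    rw [h4, h5, h6]
  have k4 : ∀ x : R, Sg V a b x (2 * M + 1) (2 * M) =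
      Sg V a b x (2 * M + 1) 4 + (Sg V a b x (2 * M + 5) 4 + Sg V a b x (2 * M + 9) (2 * M - 9 + 1)) := by
    intro x
    have h4 := Sg_add (V := V) (a := a) (b := b) x (2 * M + 1) 4 (4 + (2 * M - 9 + 1))
    have h5 := Sg_add (V := V) (a := a) (b := b) x (2 * M + 5) 4 (2 * M - 9 + 1)
    rw [show 4 + (4 + (2 * M - 9 + 1)) = 2 * M by omega] at h4
    rw [show (2 * (M : ℤ) + 5 + ((4 : ℕ) : ℤ)) = 2 * M + 9 by push_cast; ring] at h5
    rw [h4, show (2 * (M : ℤ) + 1 + ((4 : ℕ) : ℤ)) = 2 * M + 5 by push_cast; ring, h5]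
  rw [show c + 2 * d + d = c + 3 * d by ring, k1 c, k2 (c + d), k3 (c + 2 * d), k4 (c + 3 * d)]
  abel

theorem DL.W₀_cov (h : DL B a b r M) (hw : V.chi (B.q a * B.q b) = -1) (hM : M % 2 = 1) {d : R}
    (h0 : D₀ V a b r = d) (h1 : D₁ V a b r = d) (c : R) :
    (es V (ll V a b c (2 * M)) (W₀ a b r M) : Multiset (Q × R)) = bM V a b M d c ∧
      ef V (ll V a b c (2 * M)) (W₀ a b r M) = ll V a b (c + 2 * d) (2 * M) := by
  obtain ⟨h2, h3⟩ := h.W₀_es hw hM c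
  rw [h1] at h2 h3
  rw [h0] at h3
  refine ⟨h2, h3.trans ?_⟩
  congr 1
  ring

/-- Copies of the basic walk, with exchanged labels. -/
theorem DL.chain (h : DL B a b r M) (hw : V.chi (B.q a * B.q b) = -1) (hM : M % 2 = 1) {d : R}
    (h0 : D₀ V a b r = d) (h1 : D₁ V a b r = d) (hn : ∀ g g' : B.L, B.q g = B.q g' → V.n g = V.n g')
    (ws : List (List B.L)) (hws : ∀ w ∈ ws, w.map B.q = (W₀ a b r M).map B.q) (c : R) :
    (es V (ll V a b c (2 * M)) ws.flatten : Multiset (Q × R)) =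
        ((List.range ws.length).map fun k : ℕ => bM V a b M d (c + 2 * k * d)).sum ∧
      ef V (ll V a b c (2 * M)) ws.flatten = ll V a b (c + 2 * ws.length * d) (2 * M) := by
  induction ws generalizing c with
  | nil =>
    constructor
    · rfl
    · show ll V a b c (2 * M) = ll V a b (c + 2 * ((0 : ℕ) : R) * d) (2 * M)
      rw [Nat.cast_zero]
      congr 1
      ring
  | cons w ws ih =>
    obtain ⟨i1, i2⟩ := ih (fun w' h' => hws w' (List.mem_cons_of_mem _ h')) (c + 2 * d)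
    obtain ⟨w1, w2⟩ := es_q V hn (hws w List.mem_cons_self) (ll V a b c (2 * M))
    obtain ⟨v1, v2⟩ := h.W₀_cov hw hM h0 h1 c
    constructor
    · rw [List.flatten_cons, es_append, w1, w2, v2, ← Multiset.coe_add, v1, i1, List.length_cons,
        List.range_succ_eq_map, List.map_cons, List.sum_cons, List.map_map]
      congr 1
      · congr 1
        rw [Nat.cast_zero]
        ring
      · refine congrArg List.sum (List.map_congr_left fun k _ => ?_)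
        show bM V a b M d (c + 2 * d + 2 * (k : R) * d) = bM V a b M d (c + 2 * ((k + 1 : ℕ) : R) * d)
        congr 1
        push_cast
        ring
    · rw [List.flatten_cons, ef_append, w2, v2, i2, List.length_cons]
      congr 1
      push_cast
      ring

end

end Pool.Agent.Lib.MP_688fd0_co.SQ4.Small.Dih
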