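import Pool.Agent.Lib.MP_688fd0_co.SQ3.Small.IfaceN

/-!
Type C1, at most two lines, rigid case: the row DIH (dihedral quotient, all labels over the two involutions and the
central rotation).
-/

set_option autoImplicit false

namespace Pool.Agent.Lib.MP_688fd0_co.SQ4.Small

open Pool.Agent.Lib.MP_688fd0_co.OSF Pool.Agent.Lib.MP_688fd0_co.SQ2 Pool.Agent.Lib.MP_688fd0_co.SQ3
open Pool.Agent.Lib.MP_688fd0_co.SQ3.Small (HP)

/-- DIH: the twisted ladder without crossings: `Q` is dihedral, generated by the involutions `q a`, `q b`, and all labels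
lie over `a`, `b`, `r = (a b) ^ (M / 2)`. -/
def DihS : Prop :=
  ∀ (Q : Type) [Group Q] (B : Lb.{0, 0} Q) (a b r : B.L) (m M : ℕ) (V : Vd B (ZMod m)), Finite Q → Squarefree m →
    m ≠ 0 → Odd m → (∀ p ∈ m.primeFactors, 8 * (m.primeFactors.card + 2) ^ 2 < p) →
    B.q a * B.q a = 1 → B.q b * B.q b = 1 → orderOf (B.q a * B.q b) = 2 * M →
    1000 * (m.primeFactors.card + 2) ^ 2 ≤ M → B.q r = (B.q a * B.q b) ^ M →
    (∀ x, x ∈ Subgroup.zpowers (B.q a * B.q b) ∨ x * B.q a ∈ Subgroup.zpowers (B.q a * B.q b)) →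
    (∀ g, B.q g = B.q a ∨ B.q g = B.q b ∨ B.q g = B.q r) →
    (∀ p, ∀ hp : p ∈ m.primeFactors,
      ((V.map (red (Nat.dvd_of_mem_primeFactors hp))).chi (B.q a * B.q b) ≠ 1 ∧
        ∃ s t, (V.map (red (Nat.dvd_of_mem_primeFactors hp))).kap s t ≠ 0) ∨
      ((V.map (red (Nat.dvd_of_mem_primeFactors hp))).chi (B.q a * B.q b) = 1 ∧
        ∃ t : B.L, B.q t = B.q r ∧ (V.map (red (Nat.dvd_of_mem_primeFactors hp))).n t ≠ 0)) → HP V

end Pool.Agent.Lib.MP_688fd0_co.SQ4.Small
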