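import Pool.Agent.Lib.MP_688fd0_co.SQ4.Small.Ins
import Pool.Agent.Lib.MP_688fd0_co.SQ4.H41.BigX
import Pool.Agent.Lib.MP_688fd0_co.SQ4.E.AlgR
import Pool.Agent.Lib.MP_688fd0_co.SQ4.E.FlipR
import Pool.Agent.Lib.MP_688fd0_co.SQ4.H62.Num
import Pool.Agent.Lib.MP_688fd0_co.SQ4.H95.RetX
import Pool.Agent.Lib.MP_688fd0_co.SQ4.H69.CompJ
import Pool.Agent.Lib.MP_688fd0_co.SQ4.H87.Stk

/-!
Type C1, at most two lines: FLIPL, flips of one window for arbitrary token weights (union of several families).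
-/

set_option autoImplicit false

namespace Pool.Agent.Lib.MP_688fd0_co.SQ4.Small

open Pool.Agent.Lib.MP_688fd0_co.OSF Pool.Agent.Lib.MP_688fd0_co.SQ2 Pool.Agent.Lib.MP_688fd0_co.SQ3
open Pool.Agent.Lib.MP_688fd0_co.SQ4 Pool.Agent.Lib.MP_688fd0_co.SQ4.CV
open SQ2.V (Puz)
open SQ2.V.Puz (St)

section

variable {Q : Type} [Group Q] [DecidableEq Q] {B : Lb.{0, 0} Q} {a b : B.L}
  {eps : Q →* ℤˣ} {D : Subgroup Q} {z : Q} {k : ℕ} {H : HypC B a b eps D z k} {F : Finset Q}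

omit [DecidableEq Q] in
theorem kt_le (H : HypC B a b eps D z k) {q : B.L × B.L} (hq : Nr1 B a b D q) : KT B a b q ≤ D := by
  unfold KT
  rw [Subgroup.closure_le]
  rintro _ ⟨i, rfl⟩
  rw [zpow_neg]
  refine H.nD.conj_mem _ ?_ _
  have h1 : tp B a b q = B.q q.1 * (B.q q.2)⁻¹ * (wC B a b)⁻¹ := rfl
  have h2 : B.q a * ((B.q a)⁻¹ * B.q q.1) * (B.q a)⁻¹ ∈ D := H.nD.conj_mem _ hq.1.1 _
  have h3 : B.q a * ((B.q q.2)⁻¹ * B.q b) * (B.q a)⁻¹ ∈ D := by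
    refine H.nD.conj_mem _ ?_ _
    have := D.inv_mem hq.1.2
    rwa [mul_inv_rev, inv_inv] at this
  have h4 : tp B a b q = (B.q a * ((B.q a)⁻¹ * B.q q.1) * (B.q a)⁻¹) *
      (B.q a * ((B.q q.2)⁻¹ * B.q b) * (B.q a)⁻¹) := by
    rw [h1]; unfold wC; group
  rw [h4]
  exact D.mul_mem h2 h3

omit [DecidableEq Q] in
/-- Strands of a frontier whose reference vertices are in one sheet are in one sheet. -/
theorem sh_of_rf (H : HypC B a b eps D z k) (hinv : ∀ s ∈ F, ∀ δ ∈ D, s * δ ∈ F) {W : ℕ} (hW : 1 ≤ W)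
    (hF : ∀ s ∈ F, ∀ t : ℤ, |t| ≤ W → (H.up.U ^ t) s ∈ F → t = 0) {u v : Q} (hu : u ∈ F) (hv : v ∈ F)
    (h : (rfC eps (B.q a) u)⁻¹ * rfC eps (B.q a) v ∈ D) : u⁻¹ * v ∈ D := by
  have key : ∀ u v : Q, u ∈ F → v ∈ F → eps u = 1 → eps v ≠ 1 → (rfC eps (B.q a) u)⁻¹ * rfC eps (B.q a) v ∈ D →
      False := by
    intro u v hu hv h1 h2 h3
    rw [rfC, rfC, if_pos h1, if_neg h2] at h3
    have h4 := hinv u hu _ h3
    rw [mul_inv_cancel_left] at h4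
    have h5 : (H.up.U ^ (1 : ℤ)) (v * (B.q a)⁻¹) = v := by
      rw [zpow_one, H31.C_U_one H, inv_mul_cancel_right]
      rw [map_mul, map_inv, H.ea]
      rcases Int.units_eq_one_or (eps v) with h6 | h6
      · exact absurd h6 h2
      · rw [h6]; decide
    have h6 := hF _ h4 1 (by rw [abs_one]; exact_mod_cast hW) (by rw [h5]; exact hv)
    exact absurd h6 one_ne_zero
  by_cases h1 : eps u = 1
  · by_cases h2 : eps v = 1
    · rwa [rfC, rfC, if_pos h1, if_pos h2] at h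
    · exact absurd h (fun h => key u v hu hv h1 h2 h)
  · by_cases h2 : eps v = 1
    · exfalso
      refine key v u hv hu h2 h1 ?_
      have := D.inv_mem h
      rwa [mul_inv_rev, inv_inv] at this
    · rw [rfC, rfC, if_neg h1, if_neg h2, mul_inv_rev, inv_inv] at h
      have h3 := H.nD.conj_mem _ h (B.q a)⁻¹
      have e : (B.q a)⁻¹ * (B.q a * u⁻¹ * (v * (B.q a)⁻¹)) * (B.q a)⁻¹⁻¹ = u⁻¹ * v := by group
      rwa [e] at h3

/-- The three sheets of the window. -/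
theorem inS_three (H : HypC B a b eps D z k) (hinv : ∀ s ∈ F, ∀ δ ∈ D, s * δ ∈ F) {x s₁ s₂ : Q} (hx : x ∈ F)
    (h₁ : s₁ ∈ F) (h₂ : s₂ ∈ F) (S : Finset Q)
    (hS : ∀ v, v ∈ S ↔ v ∈ F ∧ (x⁻¹ * v ∈ D ∨ s₁⁻¹ * v ∈ D ∨ s₂⁻¹ * v ∈ D)) : InS D k F x s₁ s₂ S := by
  classical
  have hfin := H.fin
  refine ⟨fun v hv => ((hS v).1 hv).1, (hS x).2 ⟨hx, Or.inl (by simp)⟩, (hS _).2 ⟨h₁, Or.inr (Or.inl (by simp))⟩,
    (hS _).2 ⟨h₂, Or.inr (Or.inr (by simp))⟩, ?_, ?_⟩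
  · have hk : Nat.card D ≤ k := Nat.le_of_dvd H.kpos H.card
    have hc : ∀ u : Q, (S.filter fun v => u⁻¹ * v ∈ D).card ≤ Nat.card D := by
      intro u
      have : Fintype D := Fintype.ofFinite _
      rw [Nat.card_eq_fintype_card]
      have h1 : (S.filter fun v => u⁻¹ * v ∈ D).card ≤ (Finset.univ : Finset D).card := by
        refine Finset.card_le_card_of_injOn (fun v => if h : u⁻¹ * v ∈ D then ⟨_, h⟩ else 1) (fun _ _ => Finset.mem_univ _) ?_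
        intro v hv v' hv' e
        have k1 := (Finset.mem_filter.1 (Finset.mem_coe.1 hv)).2
        have k2 := (Finset.mem_filter.1 (Finset.mem_coe.1 hv')).2
        simp only [dif_pos k1, dif_pos k2] at e
        exact mul_left_cancel (congrArg Subtype.val e)
      exact h1
    have hsub : S ⊆ (S.filter fun v => x⁻¹ * v ∈ D) ∪ ((S.filter fun v => s₁⁻¹ * v ∈ D) ∪
        (S.filter fun v => s₂⁻¹ * v ∈ D)) := by
      intro v hv
      obtain ⟨h1, h2⟩ := (hS v).1 hv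
      simp only [Finset.mem_union, Finset.mem_filter]
      rcases h2 with h3 | h3 | h3
      · exact Or.inl ⟨hv, h3⟩
      · exact Or.inr (Or.inl ⟨hv, h3⟩)
      · exact Or.inr (Or.inr ⟨hv, h3⟩)
    have h1 := Finset.card_le_card hsub
    have h2 := Finset.card_union_le (S.filter fun v => x⁻¹ * v ∈ D) ((S.filter fun v => s₁⁻¹ * v ∈ D) ∪
        (S.filter fun v => s₂⁻¹ * v ∈ D))
    have h3 := Finset.card_union_le (S.filter fun v => s₁⁻¹ * v ∈ D) (S.filter fun v => s₂⁻¹ * v ∈ D)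
    have k1 := hc x
    have k2 := hc s₁
    have k3 := hc s₂
    omega
  · intro u hu hxu v hv
    obtain ⟨hv1, hv2⟩ := (hS v).1 hv
    have hd : u * x⁻¹ ∈ D := by
      have h1 := H.nD.conj_mem _ hxu x
      have h2 : x * (x⁻¹ * u) * x⁻¹ = u * x⁻¹ := by group
      rwa [h2] at h1
    have hm : u * x⁻¹ * v ∈ F := by
      have h1 : u * x⁻¹ * v = v * (v⁻¹ * (u * x⁻¹) * v⁻¹⁻¹) := by group
      rw [h1]
      exact hinv _ hv1 _ (H.nD.conj_mem _ hd _)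
    have hc : ∀ y : Q, y⁻¹ * v ∈ D → y⁻¹ * (u * x⁻¹ * v) ∈ D := by
      intro y hy
      have h1 : y⁻¹ * (u * x⁻¹ * v) = (y⁻¹ * (u * x⁻¹) * y⁻¹⁻¹) * (y⁻¹ * v) := by group
      rw [h1]
      exact D.mul_mem (H.nD.conj_mem _ hd _) hy
    exact (hS _).2 ⟨hm, hv2.imp (hc x) (Or.imp (hc s₁) (hc s₂))⟩

/-- GOODL: no bad letters, from STK. -/
theorem goodL_of {T : Pth H F} {x s₁ s₂ : Q} {r h W Λ p : ℕ} (hp : Fact p.Prime)
    {V : Vd B (ZMod p)} {w : Q → ZMod p} (hC : Cx T x s₁ s₂ r h W Λ V w) (hW : 1 ≤ W)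
    (hdj : ∀ s ∈ F, ∀ t : ℤ, |t| ≤ W → (H.up.U ^ t) s ∈ F → t = 0) (hx : x ∈ F) (h₁ : s₁ ∈ F) (h₂ : s₂ ∈ F)
    (n₁ : s₁ ≠ x) (hS : ∀ S, InS D k F x s₁ s₂ S → ∑ s ∈ S, w s ≠ 0) : GoodL a b D V := by
  classical
  intro q hq hchi
  by_contra hne
  have h0 := H87.stk Q B a b eps D z k H F T x s₁ s₂ r h W Λ p hp V w hC q hq hchi hne
  set S : Finset Q := F.filter fun v => x⁻¹ * v ∈ D ∨ s₁⁻¹ * v ∈ D ∨ s₂⁻¹ * v ∈ D with hSdef
  have hSm : ∀ v, v ∈ S ↔ v ∈ F ∧ (x⁻¹ * v ∈ D ∨ s₁⁻¹ * v ∈ D ∨ s₂⁻¹ * v ∈ D) := fun v => Finset.mem_filter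
  have hIn := inS_three H hC.inv hx h₁ h₂ S hSm
  refine hS S hIn ?_
  -- the sum over the three sheets
  have e1 : ∑ v ∈ S, wStb x s₁ s₂ w v = ∑ v ∈ S, w v := by
    have h2 : ∑ v ∈ S, (wStb x s₁ s₂ w v - w v) = 0 := by
      have h3 : ∀ v ∈ S, wStb x s₁ s₂ w v - w v =
          (if v = x then (- w s₂ - w x) else 0) + (if v = s₁ then (w s₂ - w s₁) else 0) := by
        intro v _
        unfold wStb
        by_cases e : v = x
        · rw [if_pos e, if_pos e, if_neg (by rw [e]; exact n₁.symm), e]; ring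
        · rw [if_neg e, if_neg e]
          by_cases e' : v = s₁
          · rw [if_pos e', if_pos e', e']; ring
          · rw [if_neg e', if_neg e']; ring
      rw [Finset.sum_congr rfl h3, Finset.sum_add_distrib, Finset.sum_ite_eq' S x, Finset.sum_ite_eq' S s₁,
        if_pos hIn.hx, if_pos hIn.h₁]
      linear_combination - hC.w₁
    rw [Finset.sum_sub_distrib] at h2
    exact sub_eq_zero.1 h2
  rw [← e1]
  -- the cosets
  have hKT := kt_le H hq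
  let f : Q → Q ⧸ KT B a b q := fun v => QuotientGroup.mk (rfC eps (B.q a) v)
  rw [← Finset.sum_fiberwise_of_maps_to (s := S) (t := S.image f) (g := f) (fun v hv => Finset.mem_image_of_mem f hv)]
  refine Finset.sum_eq_zero fun c hc => ?_
  obtain ⟨v₁, hv₁, rfl⟩ := Finset.mem_image.1 hc
  obtain ⟨hv₁F, hv₁S⟩ := (hSm v₁).1 hv₁
  have h2 := h0 v₁ hv₁F
  unfold sumOn at h2
  rw [← Finset.sum_filter] at h2
  rw [← h2]
  refine Finset.sum_congr ?_ fun _ _ => rfl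
  ext v
  rw [Finset.mem_filter, hSm, Finset.mem_filter]
  constructor
  · rintro ⟨⟨h3, _⟩, h4⟩
    exact ⟨h3, QuotientGroup.eq.1 h4.symm⟩
  · rintro ⟨h3, h4⟩
    refine ⟨⟨h3, ?_⟩, (QuotientGroup.eq.2 h4).symm⟩
    have h5 := sh_of_rf H hC.inv hW hdj hv₁F h3 (hKT h4)
    have h6 : ∀ y : Q, y⁻¹ * v₁ ∈ D → y⁻¹ * v ∈ D := by
      intro y hy
      have := D.mul_mem hy h5
      rwa [show y⁻¹ * v₁ * (v₁⁻¹ * v) = y⁻¹ * v by group] at this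
    exact hv₁S.imp (h6 x) (Or.imp (h6 s₁) (h6 s₂))

/-- The other end of a rung at `l₀`. -/
theorem jn_oth (T : Pth H F) {J : T.C → Prop} {q : Σ c, T.Rc c} (hq : J q.1) (hon : T.P.On q T.l₀) :
    T.Jn J T.l₀ (T.P.oth q T.l₀) := by
  refine ⟨q.1, hq, q.2, ?_⟩
  show (T.P.x q = T.l₀ ∧ T.P.y q = T.P.oth q T.l₀) ∨ (T.P.x q = T.P.oth q T.l₀ ∧ T.P.y q = T.l₀)
  unfold Puz.oth
  by_cases h1 : T.l₀ = T.P.x q
  · rw [if_pos h1]
    exact Or.inl ⟨h1.symm, rfl⟩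
  · rw [if_neg h1]
    rcases hon with h2 | h2
    · exact absurd h2 h1
    · exact Or.inr ⟨rfl, h2.symm⟩

/-- The component of `x`. -/
theorem comp_data {T : Pth H F} {x s₁ s₂ : Q} {r h : ℕ} (hT : T.Ok x s₁ s₂ r h)
    (hinv : ∀ s ∈ F, ∀ δ ∈ D, s * δ ∈ F) {J : T.C → Prop} (hJf : J T.f.1) (hJg : J T.g.1)
    (hLI : ∀ c, J c → LI (T.X c)) {y₁ y₂ y₃ : Q}
    (hs : ∀ c, J c → ∀ r, (Sh D x ((T.X c).x r : Q) ∨ Sh D y₁ ((T.X c).x r : Q) ∨ Sh D y₂ ((T.X c).x r : Q) ∨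
      Sh D y₃ ((T.X c).x r : Q)) ∧ (Sh D x ((T.X c).y r : Q) ∨ Sh D y₁ ((T.X c).y r : Q) ∨ Sh D y₂ ((T.X c).y r : Q) ∨
      Sh D y₃ ((T.X c).y r : Q))) {A : {v // v ∈ F} → Prop} (hA : T.IsComp J T.l₀ A) :
    A T.l₀ ∧ T.rg J A T.f ∧ Nat.card {v // A v} ≤ 4 * k ∧
      ∃ S : Finset Q, (∀ v, v ∈ S ↔ ∃ h : v ∈ F, A ⟨v, h⟩) ∧ InS D k F x s₁ s₂ S := by
  classical
  have hA0 : A T.l₀ := (hA _).2 Relation.ReflTransGen.refl
  have hAf : A (T.P.oth T.f T.l₀) := (hA _).2 (Relation.ReflTransGen.single (jn_oth T hJf hT.adj.2.1))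
  have hAg : A (T.P.oth T.g T.l₀) := (hA _).2 (Relation.ReflTransGen.single (jn_oth T hJg hT.adj.1))
  have hx : x ∈ F := by rw [← hT.hx]; exact T.l₀.2
  have hl : T.l₀ = ⟨x, hx⟩ := Subtype.ext hT.hx
  have hrg : T.rg J A T.f := by
    refine ⟨hJf, ?_⟩
    show A (T.P.x T.f)
    rcases hT.adj.2.1 with h1 | h1
    · rw [← h1]; exact hA0
    · unfold Puz.oth at hAf
      by_cases h2 : T.l₀ = T.P.x T.f
      · rw [← h2]; exact hA0
      · rwa [if_neg h2] at hAf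
  let S : Finset Q := F.filter fun v => ∃ h : v ∈ F, A ⟨v, h⟩
  have hSm : ∀ v, v ∈ S ↔ ∃ h : v ∈ F, A ⟨v, h⟩ := by
    intro v
    refine Finset.mem_filter.trans ⟨fun h => h.2, fun h => ⟨h.1, h⟩⟩
  have hsh : ∀ v, A v → Sh D x v ∨ Sh D y₁ v ∨ Sh D y₂ v ∨ Sh D y₃ v := by
    intro v hv
    have h1 := (hA v).1 hv
    induction h1 with
    | refl => left; rw [hT.hx]; exact Sh.refl _
    | tail h2 h3 ih =>
      obtain ⟨c, hc, r', h4 | h4⟩ := h3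
      · rw [← h4.2]; exact (hs c hc r').2
      · rw [← h4.1]; exact (hs c hc r').1
  have hIn : InS D k F x s₁ s₂ S := inS_comp T hLI hinv H.fin hx (by rw [← hl]; exact hA)
    (by
      have h1 := hT.h₁
      have h2 : s₁ ∈ F := by rw [← h1]; exact (T.P.oth T.f T.l₀).2
      exact ⟨h2, by have e : (⟨s₁, h2⟩ : {v // v ∈ F}) = T.P.oth T.f T.l₀ := Subtype.ext h1.symm
                    rw [e]; exact hAf⟩)
    (by
      have h1 := hT.h₂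
      have h2 : s₂ ∈ F := by rw [← h1]; exact (T.P.oth T.g T.l₀).2
      exact ⟨h2, by have e : (⟨s₂, h2⟩ : {v // v ∈ F}) = T.P.oth T.g T.l₀ := Subtype.ext h1.symm
                    rw [e]; exact hAg⟩) hsh S hSm
  refine ⟨hA0, hrg, ?_, S, hSm, hIn⟩
  refine le_trans ?_ hIn.card
  have h1 : Nat.card S = S.card := by rw [Nat.card_eq_fintype_card, Fintype.card_coe]
  rw [← h1]
  refine Nat.card_le_card_of_injective (fun v : {v // A v} => (⟨(v.1 : Q), (hSm _).2 ⟨v.1.2, v.2⟩⟩ : S)) ?_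
  intro u v e
  exact Subtype.ext (Subtype.ext (congrArg (fun t : S => (t : Q)) e))

/-- The start of a component of `x`. -/
theorem strt_of {T : Pth H F} {x s₁ s₂ : Q} {r h : ℕ} (hT : T.Ok x s₁ s₂ r h) {J : T.C → Prop}
    {A : {v // v ∈ F} → Prop} (hA : T.IsComp J T.l₀ A) (hf : T.rg J A T.f) {S : Finset Q}
    (hS : ∀ v, v ∈ S ↔ ∃ h : v ∈ F, A ⟨v, h⟩) {K : Type} [Field K] {w : Q → K} (hw : w x + w s₁ = 0)
    (hsum : ∑ s ∈ S, w s ≠ 0) {Cc : (Σ c, T.Rc c) → Prop}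
    (hCc : T.rg J A (T.P.tau T.f) → Cc (T.P.tau T.f)) : Strt T.P T.f A Cc (fun v => w (v : Q)) :=
  strt0 (s₂ := s₂) T hT.hx hT.adj hT.h₁ hf (T.clo hT hA.cmp) hS w hw hsum (hCc (((T.clo hT hA.cmp).tau T.f).1 hf))

/-- The sheets of a family with cross rungs which touches `x`. -/
theorem two_sheets {T : Pth H F} {c : T.C} {s : B.L} {n : ℤ} {M : Set Q} {v y : {v // v ∈ F}} {h : ℕ}
    (hX : FamX H _ _ (T.X c) s n M (fun u => Sh D (v : Q) (u : Q)) (fun u => Sh D (y : Q) (u : Q)) (T.wd c) (T.In c) h)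
    {x : Q} (hx : Sh D (v : Q) x ∨ Sh D (y : Q) x) : ∃ o : Q, ∀ r : T.Rc c,
      (Sh D x ((T.X c).x r : Q) ∨ Sh D o ((T.X c).x r : Q)) ∧ (Sh D x ((T.X c).y r : Q) ∨ Sh D o ((T.X c).y r : Q)) := by
  rcases hx with hx | hx
  · refine ⟨y, fun r => ⟨?_, ?_⟩⟩
    · exact (hX.xY r).imp (fun h1 => hx.symm.trans h1) id
    · exact (hX.yY r).imp (fun h1 => hx.symm.trans h1) id
  · refine ⟨v, fun r => ⟨?_, ?_⟩⟩
    · exact ((hX.xY r).imp id (fun h1 => hx.symm.trans h1)).symm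
    · exact ((hX.yY r).imp id (fun h1 => hx.symm.trans h1)).symm

theorem on_sheet {T : Pth H F} {q : Σ c, T.Rc c} (hon : T.P.On q T.l₀) {s : B.L} {n : ℤ} {M : Set Q}
    {v y : {v // v ∈ F}} {h : ℕ}
    (hX : FamX H _ _ (T.X q.1) s n M (fun u => Sh D (v : Q) (u : Q)) (fun u => Sh D (y : Q) (u : Q)) (T.wd q.1)
      (T.In q.1) h) : Sh D (v : Q) (T.l₀ : Q) ∨ Sh D (y : Q) (T.l₀ : Q) := by
  rcases hon with h1 | h1
  · rw [h1]; exact hX.xY q.2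
  · rw [h1]; exact hX.yY q.2

/-- If there are effective reflections, no flips exclude `KapV`. -/
theorem noKap_X (hGa : GaugeS) (hCN : CaseNS) {c W r h Λ : ℕ} {x s₁ s₂ : Q}
    (hF : FrC H.up D k c W x F) (hx : eps x = 1) (hW : 1 ≤ W) (n₁ : s₁ ≠ x) (T : Pth H F) {p : ℕ}
    (hp : Fact p.Prime) {V : Vd B (ZMod p)} {w : Q → ZMod p} (hC : Cx T x s₁ s₂ r h W Λ V w)
    (hFull : T.FullM (c + 2) h)
    (hfam : ∀ c', ∃ (s : B.L) (n : ℤ) (M : Set Q) (v y : {v // v ∈ F}) (h : ℕ),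
      FamX H _ _ (T.X c') s n M (fun u => Sh D (v : Q) (u : Q)) (fun u => Sh D (y : Q) (u : Q)) (T.wd c') (T.In c') h)
    (hE : ∃ s, EffL B a b eps D z k s) (hwS : ∀ S, InS D k F x s₁ s₂ S → ∑ s ∈ S, w s ≠ 0) :
    ¬ KapV V a b eps := by
  classical
  have hm₁ : s₁ ∈ F := by rw [← hC.ok.h₁]; exact (T.P.oth T.f T.l₀).2
  have hm₂ : s₂ ∈ F := by rw [← hC.ok.h₂]; exact (T.P.oth T.g T.l₀).2
  have hG : GoodL a b D V := goodL_of hp hC hW hF.disj hF.fx hm₁ hm₂ n₁ hwS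
  have hrf : ∀ u v : {v // v ∈ F}, rfC eps (B.q a) (u : Q) = rfC eps (B.q a) (v : Q) → u = v := fun u v e =>
    Subtype.ext (rf_inj H hW hF.disj u.2 v.2 e)
  have hLI : ∀ c', LI (T.X c') := by
    intro c'
    obtain ⟨s', n', M, v', y', h', hX⟩ := hfam c'
    exact li_x hX (ld_sh H.nD _) (ld_sh H.nD _) hrf
  have hl : T.l₀ = ⟨x, hF.fx⟩ := Subtype.ext hC.ok.hx
  have hlx : (T.l₀ : Q) = x := hC.ok.hx
  have ho : ∀ q : Σ c, T.Rc c, T.P.On q T.l₀ → ∃ o : Q, ∀ r : T.Rc q.1,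
      (Sh D x ((T.X q.1).x r : Q) ∨ Sh D o ((T.X q.1).x r : Q)) ∧
      (Sh D x ((T.X q.1).y r : Q) ∨ Sh D o ((T.X q.1).y r : Q)) := by
    intro q hq
    obtain ⟨s', n', M, v', y', h', hX⟩ := hfam q.1
    have := on_sheet hq hX
    rw [hlx] at this
    exact two_sheets hX this
  obtain ⟨o₁, ho₁⟩ := ho T.f hC.ok.adj.2.1
  obtain ⟨o₂, ho₂⟩ := ho T.g hC.ok.adj.1
  have hdcl : DCl D (fun v : {v // v ∈ F} => (v : Q)) := Ct.dcl hF
  have hdis : Dis H (fun v : {v // v ∈ F} => (v : Q)) 1 := fun v v' t ht e =>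
    Ct.dis H hF v v' t (ht.trans (by exact_mod_cast hW)) e
  have ht₀ : T.t₀ < 2 * k := T.fw.real.lev_lt T.f
  have key : ∀ s, EffL B a b eps D z k s → ∃ (c' : T.C) (n : ℤ) (y : {v // v ∈ F}) (A : {v // v ∈ F} → Prop),
      FamX H _ _ (T.X c') s n (MsC B a b D z k s) (fun u => Sh D (T.l₀ : Q) (u : Q)) (fun u => Sh D (y : Q) (u : Q))
        (T.wd c') (T.In c') h ∧ A T.l₀ ∧ (∀ r, A ((T.X c').x r) ↔ A ((T.X c').y r)) ∧
      (V.chi (wC B a b) = 1 → nuW V a b ≠ 0 →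
        ChiOn V a eps (fun v : {v // v ∈ F} => (v : Q)) (T.X c').x (T.X c').y A) ∧
      ∀ u u' o : ZMod p, (∀ x, (evA V eps u u').e x (H.up.up x) = o) →
        PotOn V a eps u u' (fun v : {v // v ∈ F} => (v : Q)) (T.X c').x (T.X c').y (T.wd c') A := by
    intro s hs
    obtain ⟨y, hy, n, hn, hjm⟩ := Ct.exists_join H hx hF hs.1
    obtain ⟨cs, hcs⟩ := hFull ⟨x, hF.fx⟩ ⟨y, hy⟩ s n (by push_cast; omega) hs (by
      show (rfC eps (B.q a) x * _)⁻¹ * _ ∈ D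
      rw [Ct.rf_one hx]; exact hjm)
    let J : T.C → Prop := fun c' => c' = T.f.1 ∨ c' = T.g.1 ∨ c' = cs
    obtain ⟨o₃, ho₃⟩ := two_sheets hcs (x := x) (Or.inl (Sh.refl x))
    have hs4 : ∀ c, J c → ∀ r, (Sh D x ((T.X c).x r : Q) ∨ Sh D o₁ ((T.X c).x r : Q) ∨ Sh D o₂ ((T.X c).x r : Q) ∨
      Sh D o₃ ((T.X c).x r : Q)) ∧ (Sh D x ((T.X c).y r : Q) ∨ Sh D o₁ ((T.X c).y r : Q) ∨ Sh D o₂ ((T.X c).y r : Q) ∨
      Sh D o₃ ((T.X c).y r : Q)) := by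
      rintro c' (rfl | rfl | rfl) r'
      · exact ⟨(ho₁ r').1.imp id Or.inl, (ho₁ r').2.imp id Or.inl⟩
      · exact ⟨(ho₂ r').1.imp id (fun h => Or.inr (Or.inl h)), (ho₂ r').2.imp id (fun h => Or.inr (Or.inl h))⟩
      · exact ⟨(ho₃ r').1.imp id (fun h => Or.inr (Or.inr h)), (ho₃ r').2.imp id (fun h => Or.inr (Or.inr h))⟩
    let A : {v // v ∈ F} → Prop := fun v => Relation.ReflTransGen (T.Jn J) T.l₀ v
    have hA : T.IsComp J T.l₀ A := fun v => Iff.rfl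
    obtain ⟨hA0, hrg, hcard, S, hSm, hIn⟩ := comp_data hC.ok hC.inv (J := J) (Or.inl rfl) (Or.inr (Or.inl rfl))
      (fun c' _ => hLI c') hs4 hA
    have hsum := hwS S hIn
    have hYf : T.Y T.f.1 T.l₀ := by
      rcases hC.ok.adj.2.1 with h1 | h1
      · rw [h1]; exact (hC.ok.fam T.f.1).xY T.f.2
      · rw [h1]; exact (hC.ok.fam T.f.1).yY T.f.2
    obtain ⟨hK, hδ⟩ := compJ Q B a b eps D z k H F T x s₁ s₂ r h hC.ok hC.inv J (fun c' _ => hfam c') T.l₀ A hA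
      ⟨T.f.1, Or.inl rfl, hYf⟩ p hp hC.big
    have hst : Strt T.P T.f A (fun q => ∃ hq : T.rg J A q, (fun _ : {q // T.rg J A q} => True) ⟨q, hq⟩)
        (fun v => w (v : Q)) := strt_of hC.ok hA hrg hSm hC.w₁ hsum (fun h => ⟨h, trivial⟩)
    have hw' : ∀ s ∈ F, w ((H.up.U ^ T.t₀) s) = w s := fun s hs => hC.wl s hs _ ht₀
    have hfa := fact_ne hp.out hcard hC.big
    have h2 := two_ne hp.out H.kpos hC.big
    refine ⟨cs, n, ⟨y, hy⟩, A, ?_, hA0, hA.cmp cs (Or.inr (Or.inr rfl)), ?_, ?_⟩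
    · rw [hl]; exact hcs
    · intro hchi hnu
      exact Pth.potB hC.ok hA.cmp hK hδ hfa h2 (nat_ne H.kpos (by omega) hC.big) V hC.al hchi hnu w hw' hst hC.hΛ
        hC.nofl cs (Or.inr (Or.inr rfl))
    · intro u u' o ho
      obtain ⟨Φ, hΦ⟩ := Pth.potA hC.ok hA.cmp hK hδ hfa h2 V u u' o hC.al ho hG w hw' hst hC.hΛ hC.nofl
      exact ⟨Φ, fun r' hr' => hΦ cs (Or.inr (Or.inr rfl)) r' hr'⟩
  obtain ⟨s₀, hs₀⟩ := hE
  obtain ⟨u, u', o, ho⟩ := hGa Q B a b eps D z k H p hp V hC.big hC.al fun hw hν =>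
    hCN Q B a b eps D z k H p hp V hC.al hw (fun s hs => by
      obtain ⟨c', n, y, A, hX, hA0, hA1, hA2, -⟩ := key s hs
      exact ⟨_, _, _, _, _, _, _, T.X c', n, _, T.l₀, y, T.wd c', T.In c', h, T.l₀, A, hdcl, hdis, hX,
        Or.inl (Sh.refl _), hA0, hA1, hA2 hw hν⟩) (fun hno => absurd hs₀ (hno s₀))
  exact alg Q B a b eps D z k H p hp V hC.big hC.al hG u u' o ho (fun s hs => by
      obtain ⟨c', n, y, A, hX, hA0, hA1, -, hA2⟩ := key s hs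
      exact ⟨_, _, _, _, _, _, _, T.X c', n, _, T.l₀, y, T.wd c', T.In c', h, T.l₀, A, hdcl, hdis, hX,
        Or.inl (Sh.refl _), hA0, hA1, hA2 u u' o ho⟩) (fun hno => absurd hs₀ (hno s₀))

/-- If there is no effective reflection, no flips exclude `KapV`. -/
theorem noKap_I (hGa : GaugeS) (hCN : CaseNS) {c W r h Λ : ℕ} {x s₁ s₂ : Q}
    (hF : FrC H.up D k c W x F) (hW : 1 ≤ W) (n₁ : s₁ ≠ x) (T : Pth H F) {p : ℕ}
    (hp : Fact p.Prime) {V : Vd B (ZMod p)} {w : Q → ZMod p} (hC : Cx T x s₁ s₂ r h W Λ V w)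
    (hno : ∀ s, ¬ EffL B a b eps D z k s) (hsh : ∀ v ∈ F, x⁻¹ * v ∈ D) (c' : T.C) (hone : ∀ c'', c'' = c')
    (hY : ∀ v, T.Y c' v) (hIn : ∀ r, T.In c' r)
    (hKK : ∀ (v₀ : {v // v ∈ F}) (A : {v // v ∈ F} → Prop), T.IsComp (fun c'' => c'' = c') v₀ A →
      ∀ r : T.Rc c', A ((T.X c').x r) → ∃ K : T.Rc c' → Prop, K r ∧
        ∀ (p : ℕ) (_ : Fact p.Prime), 4 * k < p → T.GoodC c' A K (ZMod p))
    (hwS : ∀ S, InS D k F x s₁ s₂ S → ∑ s ∈ S, w s ≠ 0) : ¬ KapV V a b eps := by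
  classical
  have hm₁ : s₁ ∈ F := by rw [← hC.ok.h₁]; exact (T.P.oth T.f T.l₀).2
  have hm₂ : s₂ ∈ F := by rw [← hC.ok.h₂]; exact (T.P.oth T.g T.l₀).2
  have hG : GoodL a b D V := goodL_of hp hC hW hF.disj hF.fx hm₁ hm₂ n₁ hwS
  have hrf : ∀ u v : {v // v ∈ F}, rfC eps (B.q a) (u : Q) = rfC eps (B.q a) (v : Q) → u = v := fun u v e =>
    Subtype.ext (rf_inj H hW hF.disj u.2 v.2 e)
  have hdcl : DCl D (fun v : {v // v ∈ F} => (v : Q)) := Ct.dcl hF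
  have hdis : Dis H (fun v : {v // v ∈ F} => (v : Q)) 1 := fun v v' t ht e =>
    Ct.dis H hF v v' t (ht.trans (by exact_mod_cast hW)) e
  have hex : ∀ q : (Σ c, T.Rc c), ∃ r₀ : T.Rc c', q = ⟨c', r₀⟩ := by
    rintro ⟨c₁, r₁⟩
    obtain rfl : c₁ = c' := hone c₁
    exact ⟨r₁, rfl⟩
  let J : T.C → Prop := fun c'' => c'' = c'
  have hLI : ∀ c'', J c'' → LI (T.X c'') := by
    intro c'' hc''
    rw [show c'' = c' from hc'']
    exact li_b (hC.ok.fam _) (fun _ _ _ _ _ _ => hY _) hIn hrf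
  have hs4 : ∀ c, J c → ∀ r, (Sh D x ((T.X c).x r : Q) ∨ Sh D x ((T.X c).x r : Q) ∨ Sh D x ((T.X c).x r : Q) ∨
    Sh D x ((T.X c).x r : Q)) ∧ (Sh D x ((T.X c).y r : Q) ∨ Sh D x ((T.X c).y r : Q) ∨ Sh D x ((T.X c).y r : Q) ∨
    Sh D x ((T.X c).y r : Q)) := fun c _ r => ⟨Or.inl (hsh _ ((T.X c).x r).2), Or.inl (hsh _ ((T.X c).y r).2)⟩
  let A : {v // v ∈ F} → Prop := fun v => Relation.ReflTransGen (T.Jn J) T.l₀ v
  have hA : T.IsComp J T.l₀ A := fun v => Iff.rfl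
  obtain ⟨hA0, hrg, hcard, S, hSm, hInS⟩ := comp_data hC.ok hC.inv (J := J) (hone _) (hone _) hLI hs4 hA
  have hsum := hwS S hInS
  obtain ⟨r₁, e⟩ := hex (T.P.tau T.f)
  have hrt : T.rg J A (T.P.tau T.f) := ((T.clo hC.ok hA.cmp).tau T.f).1 hrg
  rw [e] at hrt
  obtain ⟨K, hKr, hGC⟩ := hKK T.l₀ A hA r₁ hrt.2
  have hGC' := hGC p hp hC.big
  have hst : T.StrtC c' A K w := strt_of hC.ok hA hrg hSm hC.w₁ hsum (fun _ => ⟨r₁, e, hrt.2, hKr⟩)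
  have hcl : ∀ r, A ((T.X c').x r) ↔ A ((T.X c').y r) := hA.cmp c' rfl
  obtain ⟨u, u', o, ho⟩ := hGa Q B a b eps D z k H p hp V hC.big hC.al fun hw hν =>
    hCN Q B a b eps D z k H p hp V hC.al hw (fun s hs => absurd hs (hno s)) (fun _ =>
      ⟨_, _, _, _, _, _, _, T.X c', T.Y c', T.wd c', T.In c', h, T.l₀, A, hdcl, hdis, hC.ok.fam c', fun u _ => hY u,
        hA0, hcl, flipB Q B a b eps D z k H F T x s₁ s₂ r h W Λ p hp V w hC hw hν c' T.l₀ A hA K hGC' hst⟩)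
  exact alg Q B a b eps D z k H p hp V hC.big hC.al hG u u' o ho (fun s hs => absurd hs (hno s)) (fun _ =>
      ⟨_, _, _, _, _, _, _, T.X c', T.Y c', T.wd c', T.In c', h, T.l₀, A, hdcl, hdis, hC.ok.fam c', fun u _ => hY u,
        hA0, hcl, flipA Q B a b eps D z k H F T x s₁ s₂ r h W Λ p hp V w hC u u' o ho hG c' T.l₀ A hA K hGC' hst⟩)

end

/-- FLIPL. -/
theorem flipL (h1 : Fam1S) (h2 : Fam2S) (hBI : BigIS) (hGa : GaugeS) (hCN : CaseNS) :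
    FlipLS := by
  classical
  intro Q _ _ _ B a b eps D z k H c W hS hP hL hW x s₁ s₂ F hx hF hF0 m₁ m₂ n₁ n₂ n₁₂ L₁ L₂
  obtain ⟨hn1, hn2⟩ := numV F.card (Nat.card B.L) k c H.kpos hF.fcard
  have hBI' := hBI Q B a b eps D z k H c W hS hP hL hW
  generalize lamC ((Nat.card B.L + 2) ^ 4 * k) k c = Λ at hn1 hn2 hW ⊢
  have hW1 : 1 ≤ W := by omega
  have l₁ := lfg_of_lf H hS hx hF m₁ (N := c + 2) (by omega) (by omega) L₁
  have l₂ := lfg_of_lf H hS hx hF m₂ (N := c + 2) (by omega) (by omega) L₂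
  by_cases hE : ∃ s, EffL B a b eps D z k s
  · obtain ⟨T, hT, hFull, -, hfam⟩ := bigG h1 h2 retX H hS (N := c + 2) (by omega) (by omega) hE hx hF m₁ m₂ n₁ n₂ n₁₂
      l₁ l₂
    obtain ⟨ht₀, hwin⟩ := winV Q B a b eps D z k H F T x s₁ s₂ _ _ W Λ hT hF.inv (Ct.dis H hF) hn1 hW
    refine ⟨T.t₀, ht₀, hwin, ?_⟩
    intro p hp V hkp hz hK w hw hw1 hwS
    by_contra hcon
    have hnofl : NoFl H F T.t₀ x s₁ s₂ Λ V w := by
      intro X X' n hn hX hver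
      by_contra hne
      exact hcon ⟨X, X', n, hn, hX, hver, hne⟩
    refine noKap_X hGa hCN hF hx hW1 n₁ T hp ⟨hT, hF.inv, Ct.dis H hF, hn1, hW, hp.out, hkp, hz, hw, hw1,
      hnofl⟩ hFull (fun c' => ?_) hE hwS hK
    obtain ⟨s, n, v, y, -, -, -, -, hX⟩ := hfam c'
    exact ⟨s, n, _, v, y, _, hX⟩
  · have hno : ∀ s, ¬ EffL B a b eps D z k s := fun s hs => hE ⟨s, hs⟩
    have e₁ : Ed B a b eps D z k (c + 2) x s₁ := by
      rcases l₁ with h | ⟨t, -, -, -, ht, -⟩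
      · exact Or.inl h
      · exact absurd ht (hno t)
    have e₂ : Ed B a b eps D z k (c + 2) x s₂ := by
      rcases l₂ with h | ⟨t, -, -, -, ht, -⟩
      · exact Or.inl h
      · exact absurd ht (hno t)
    obtain ⟨hsh, T, c', hT, hone, hY, hIn, hKK⟩ := hBI' hno x s₁ s₂ F hx hF hF0 m₁ m₂ n₁ n₂ n₁₂ e₁ e₂
    obtain ⟨ht₀, hwin⟩ := winV Q B a b eps D z k H F T x s₁ s₂ _ _ W Λ hT hF.inv (Ct.dis H hF) hn1 hW
    refine ⟨T.t₀, ht₀, hwin, ?_⟩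
    intro p hp V hkp hz hK w hw hw1 hwS
    by_contra hcon
    have hnofl : NoFl H F T.t₀ x s₁ s₂ Λ V w := by
      intro X X' n hn hX hver
      by_contra hne
      exact hcon ⟨X, X', n, hn, hX, hver, hne⟩
    exact noKap_I hGa hCN hF hW1 n₁ T hp ⟨hT, hF.inv, Ct.dis H hF, hn1, hW, hp.out, hkp, hz, hw, hw1,
      hnofl⟩ hno hsh c' hone hY hIn hKK hwS hK

end Pool.Agent.Lib.MP_688fd0_co.SQ4.Small
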