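import Pool.Agent.Lib.MP_688fd0_co.SQ4.Iface
import Pool.Agent.Lib.MP_688fd0_co.SQ4.Small.DihI

/-!
Type C1, at most two lines (row SMALLC). Rigid: all rotations lie over one central involution `r` and all reflections
over `a`, `r a`, `b`, `r b` (ladders). Otherwise: one window. Here `D` is the largest choice: `ker eps = <z> D`.
-/

set_option autoImplicit false

namespace Pool.Agent.Lib.MP_688fd0_co.SQ4.Small

open Pool.Agent.Lib.MP_688fd0_co.OSF Pool.Agent.Lib.MP_688fd0_co.SQ2 Pool.Agent.Lib.MP_688fd0_co.SQ3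
open Pool.Agent.Lib.MP_688fd0_co.SQ4
open Pool.Agent.Lib.MP_688fd0_co.SQ3.Small (HP)

/-- Rigid. -/
def RigC {Q : Type} [Group Q] (B : Lb.{0, 0} Q) (a b : B.L) : Prop :=
  ∃ r : Q, r ≠ 1 ∧ r * r = 1 ∧ (∀ x, r * x = x * r) ∧
    ∀ g, B.q g = r ∨ B.q g = B.q a ∨ B.q g = r * B.q a ∨ B.q g = B.q b ∨ B.q g = r * B.q b

/-- `HypC` with `ker eps = <z> D`, `<z>` normal. -/
structure HypE {Q : Type} [Group Q] (B : Lb.{0, 0} Q) (a b : B.L) (eps : Q →* ℤˣ) (D : Subgroup Q) (z : Q) (k : ℕ) :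
    Prop extends HypC B a b eps D z k where
  prod : ∀ x, eps x = 1 → ∃ j : ℤ, z ^ j * x ∈ D
  nz : (Subgroup.zpowers z).Normal
  oddz : Odd (orderOf z)
  le2 : (Subgroup.zpowers (B.q a * (B.q b)⁻¹)).relIndex eps.ker ≤ 2
  inv : ∃ e : ℕ, z ^ e * z ^ e ≠ 1 ∧ ∀ x, eps x = -1 → x * z ^ e * x⁻¹ = (z ^ e)⁻¹

/-- Numerical hypotheses at the level of the quotient. -/
structure NmC {Q : Type} [Group Q] (B : Lb.{0, 0} Q) (z : Q) (k c W m : ℕ) : Prop where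
  sq : Squarefree m
  odd : Odd m
  prm : ∀ p ∈ m.primeFactors, 4 * k < p ∧ 8 * (m.primeFactors.card + 2) ^ 2 < p ∧ ¬ p ∣ Nat.card Q
  need : needC (Nat.card B.L) (2 * m.primeFactors.card) k c ≤ W
  big : (Nat.card B.L + 2) ^ 40 * k ^ 20 * W ^ 2 < orderOf (z ^ k)

/-- RIGC: ladders. -/
def RigCS : Prop :=
  ∀ (Q : Type) [Group Q] (B : Lb.{0, 0} Q) (a b : B.L) (eps : Q →* ℤˣ) (D : Subgroup Q) (z : Q) (k : ℕ),
    HypE B a b eps D z k → RigC B a b →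
    ∀ (c W m : ℕ) (V : Vd B (ZMod m)), NmC B z k c W m → V.chi z = 1 →
    (∀ p, ∀ hp : p ∈ m.primeFactors, KapV (V.map (red (Nat.dvd_of_mem_primeFactors hp))) a b eps) → HP V

/-- NRIGC: everything else. -/
def NRigCS : Prop :=
  ∀ (Q : Type) [Group Q] [Fintype Q] [DecidableEq Q] (B : Lb.{0, 0} Q) (a b : B.L) (eps : Q →* ℤˣ)
    (D : Subgroup Q) (z : Q) (k c W : ℕ) (H : HypE B a b eps D z k), ¬ RigC B a b →
    SinkU H.up D W → SepU H.up D c W → LevU H.up D W → ∀ (m : ℕ) (V : Vd B (ZMod m)), NmC B z k c W m → V.chi z = 1 →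
    (∀ p, ∀ hp : p ∈ m.primeFactors, KapV (V.map (red (Nat.dvd_of_mem_primeFactors hp))) a b eps) →
    HP V ∨ ∃ T : TourS B Bool, ∀ γ : Bool, (∃ x, T.cls x = γ) → IsUnit (T.vol V γ)

/-- SQC: at most two lines at the level of the quotient. -/
def SqCS : Prop :=
  ∀ (Q : Type) [Group Q] [Fintype Q] [DecidableEq Q] (B : Lb.{0, 0} Q) (a b : B.L) (eps : Q →* ℤˣ)
    (D : Subgroup Q) (z : Q) (k c W : ℕ) (H : HypE B a b eps D z k),
    SinkU H.up D W → SepU H.up D c W → LevU H.up D W → ∀ (m : ℕ) (V : Vd B (ZMod m)), NmC B z k c W m → V.chi z = 1 →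
    (∀ p, ∀ hp : p ∈ m.primeFactors, KapV (V.map (red (Nat.dvd_of_mem_primeFactors hp))) a b eps) →
    HP V ∨ ∃ T : TourS B Bool, ∀ γ : Bool, (∃ x, T.cls x = γ) → IsUnit (T.vol V γ)

theorem sqC (h1 : RigCS) (h2 : NRigCS) : SqCS := by
  intro Q _ _ _ B a b eps D z k c W H hS hP hL m V hN hz hK
  by_cases hr : RigC B a b
  · exact Or.inl (h1 Q B a b eps D z k H hr c W m V hN hz hK)
  · exact h2 Q B a b eps D z k c W H hr hS hP hL m V hN hz hK

end Pool.Agent.Lib.MP_688fd0_co.SQ4.Small
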