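import Pool.Agent.Lib.MP_688fd0_co.SQ4.Small.Iface
import Pool.Agent.Lib.MP_688fd0_co.SQ3.V.LC0

/-!
Type C1, at most two lines, not rigid: one window. Interface to chapter V (`FlipLS`), contexts and weights.
-/

set_option autoImplicit false

namespace Pool.Agent.Lib.MP_688fd0_co.SQ4.Small

open Pool.Agent.Lib.MP_688fd0_co.OSF Pool.Agent.Lib.MP_688fd0_co.SQ2 Pool.Agent.Lib.MP_688fd0_co.SQ3
open Pool.Agent.Lib.MP_688fd0_co.SQ4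
open Pool.Agent.Lib.MP_688fd0_co.SQ3.Small (TM)

/-- The label `s` is a far reflection. -/
def FarC {Q : Type} [Group Q] (B : Lb.{0, 0} Q) (a b : B.L) (eps : Q →* ℤˣ) (D : Subgroup Q) (s : B.L) : Prop :=
  eps (B.q s) = -1 ∧ (B.q a)⁻¹ * B.q s ∉ D ∧ (B.q b)⁻¹ * B.q s ∉ D

/-- The vertical shifts of height `0` modulo `2 k` (helper98: `mZ`). -/
def shZ {Q : Type} [Group Q] (B : Lb.{0, 0} Q) (a b : B.L) (D : Subgroup Q) (z : Q) (k : ℕ) (μ : Q) : Prop :=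
  ((μ, 1) : Q × Multiplicative (ZMod k)) ∈ Subgroup.closure {v : Q × Multiplicative (ZMod k) | ∃ c d : B.L,
    (B.q a)⁻¹ * B.q c ∈ D ∧ (B.q b)⁻¹ * B.q d ∈ D ∧ v = (z⁻¹ * (B.q c * (B.q d)⁻¹), Multiplicative.ofAdd 1)}

/-- The strand `s` is a neighbour of the strand `x` (`eps x = 1`): by a rotation at some level; by a near reflection, if
there is no far one, and `x⁻¹ s` is not in the normal subgroup generated by the rotations; by a far reflection. -/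
inductive Lf {Q : Type} [Group Q] (B : Lb.{0, 0} Q) (a b : B.L) (eps : Q →* ℤˣ) (D : Subgroup Q) (z : Q) (k c : ℕ)
    (U : Up B) (x s : Q) : Prop
  | rot (i : ℕ) (t : B.L) (hi : i < 2 * k) (ht : eps (B.q t) = 1) (h : (U.U ^ i) x * B.q t = (U.U ^ i) s)
  | nr (g : B.L) (o : ℤ) (hn : ∀ s : B.L, ¬ FarC B a b eps D s) (hg : eps (B.q g) = -1) (ho : o = 1 ∨ o = -1)
      (h : x * B.q g = (U.U ^ o) s)
      (hs : x⁻¹ * s ∉ Subgroup.normalClosure {y | ∃ t : B.L, eps (B.q t) = 1 ∧ y = B.q t})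
  | far (g : B.L) (μ : Q) (o : ℤ) (hg : FarC B a b eps D g) (hμ : shZ B a b D z k μ) (ho : |o| ≤ c)
      (h : x * μ * B.q g = (U.U ^ o) s)

/-- The sets of strands of the puzzles around `x` (all of them contain the window). -/
structure InS {Q : Type} [Group Q] (D : Subgroup Q) (k : ℕ) (F : Finset Q) (x s₁ s₂ : Q) (S : Finset Q) : Prop where
  sub : S ⊆ F
  hx : x ∈ S
  h₁ : s₁ ∈ S
  h₂ : s₂ ∈ S
  card : S.card ≤ 4 * k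
  inv : ∀ y ∈ S, x⁻¹ * y ∈ D → ∀ v ∈ S, y * x⁻¹ * v ∈ S

/-- FLIPL: flips of one window for arbitrary token weights. -/
def FlipLS : Prop :=
  ∀ (Q : Type) [Group Q] [Fintype Q] [DecidableEq Q] (B : Lb.{0, 0} Q) (a b : B.L) (eps : Q →* ℤˣ)
    (D : Subgroup Q) (z : Q) (k : ℕ) (H : HypC B a b eps D z k) (c W : ℕ), SinkU H.up D W → SepU H.up D c W →
    LevU H.up D W → lamC ((Nat.card B.L + 2) ^ 4 * k) k c ≤ W →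
    ∀ (x s₁ s₂ : Q) (F : Finset Q), eps x = 1 → FrC H.up D k c W x F →
      (∀ s ∈ F, ∃ l : List B.L, l.length ≤ 4 ∧ (B.fin x l)⁻¹ * s ∈ D) →
      s₁ ∈ F → s₂ ∈ F → s₁ ≠ x → s₂ ≠ x → s₁ ≠ s₂ →
      Lf B a b eps D z k c H.up x s₁ → Lf B a b eps D z k c H.up x s₂ →
      ∃ t₀ < 2 * k, (∃ (X : TW B) (n : ℕ), n ≤ lamC ((Nat.card B.L + 2) ^ 4 * k) k c ∧
          FWin H.up (2 * k) F t₀ x s₁ s₂ X n) ∧
        ∀ (p : ℕ) (_ : Fact p.Prime) (V : Vd B (ZMod p)), 4 * k < p → V.chi z = 1 → KapV V a b eps →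
          ∀ w : Q → ZMod p, LW H.up F (2 * k) w → w x + w s₁ = 0 →
            (∀ S, InS D k F x s₁ s₂ S → ∑ s ∈ S, w s ≠ 0) →
            ∃ (X X' : TW B) (n : ℕ), n ≤ lamC ((Nat.card B.L + 2) ^ 4 * k) k c ∧
              FWin H.up (2 * k) F t₀ x s₁ s₂ X n ∧ Ver H.up X X' n ((H.up.U ^ t₀) s₂) ∧ dvolw V w X X' ≠ 0

/-! ### Positions -/

section

variable {Q : Type} [Group Q] {B : Lb.{0, 0} Q} {a b : B.L} {eps : Q →* ℤˣ} {D : Subgroup Q} {z : Q} {k : ℕ}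

/-- The length of the lines. -/
noncomputable def lnM (B : Lb.{0, 0} Q) (a b : B.L) : ℕ := 2 * orderOf (B.q a * (B.q b)⁻¹)

/-- Positions of the window: one line (`p1`: near leaves; `p1f`: one leaf is near, of even order; `p0`: the leaves are
antipodal, there are only rotations of order four), two lines (`p2`, `p3`). -/
inductive Pos (H : HypE B a b eps D z k) (F : Finset Q) (x s₁ s₂ : Q) : Prop
  | p1 (d₁ d₂ : ℕ) (hi : (Subgroup.zpowers (B.q a * (B.q b)⁻¹)).relIndex eps.ker = 1) (h1 : 0 < d₁) (h12 : d₁ < d₂)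
      (h2 : d₂ < lnM B a b) (e₂ : (H.up.U ^ d₁) x = s₂) (e₁ : (H.up.U ^ d₂) x = s₁) (hh : lnM B a b ≠ 2 * (d₂ - d₁))
      (n₁ : x⁻¹ * s₁ ∈ D) (n₂ : x⁻¹ * s₂ ∈ D)
  | p1f (d₁ d₂ : ℕ) (hi : (Subgroup.zpowers (B.q a * (B.q b)⁻¹)).relIndex eps.ker = 1) (h1 : 0 < d₁) (h12 : d₁ < d₂)
      (h2 : d₂ < lnM B a b) (e₂ : (H.up.U ^ d₁) x = s₂) (e₁ : (H.up.U ^ d₂) x = s₁) (hh : lnM B a b ≠ 2 * (d₂ - d₁))
      (n : (x⁻¹ * s₁ ∈ D ∧ Even (orderOf (x⁻¹ * s₁))) ∨ (x⁻¹ * s₂ ∈ D ∧ Even (orderOf (x⁻¹ * s₂))))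
  | p0 (d : ℕ) (hi : (Subgroup.zpowers (B.q a * (B.q b)⁻¹)).relIndex eps.ker = 1) (h1 : 0 < d) (h4 : 4 * d = lnM B a b)
      (e₂ : (H.up.U ^ d) x = s₂) (e₁ : (H.up.U ^ (3 * d)) x = s₁) (n₁ : x⁻¹ * s₁ ∈ D) (n₂ : x⁻¹ * s₂ ∈ D)
      (hb : ∀ n : ℕ, ∃ g : B.L, (H.up.U ^ n) s₁ * B.q g = (H.up.U ^ n) x)
  | p2 (d : ℕ) (hi : (Subgroup.zpowers (B.q a * (B.q b)⁻¹)).relIndex eps.ker = 2) (h1 : 0 < d) (h2 : d < lnM B a b)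
      (e₂ : (H.up.U ^ d) x = s₂) (l₁ : ∀ t : ℕ, s₁ ≠ (H.up.U ^ t) x)
      (n : x⁻¹ * s₁ ∈ D ∨ (x⁻¹ * s₂ ∈ D ∧ lnM B a b ≤ 2 * d))
  | p3 (d e : ℕ) (hi : (Subgroup.zpowers (B.q a * (B.q b)⁻¹)).relIndex eps.ker = 2) (h1 : 0 < d) (h2 : d < lnM B a b)
      (e₁ : (H.up.U ^ d) s₂ = s₁) (l₂ : ∀ t : ℕ, s₂ ≠ (H.up.U ^ t) x)
      (n : x⁻¹ * s₁ ∈ D ∨ x⁻¹ * s₂ ∈ D) (he : 0 < e) (he' : e < lnM B a b) (hF : (H.up.U ^ e) x ∈ F)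

end

/-- CNC: a context exists. -/
def CNCS : Prop :=
  ∀ (Q : Type) [Group Q] (B : Lb.{0, 0} Q) (a b : B.L) (eps : Q →* ℤˣ) (D : Subgroup Q) (z : Q) (k c W : ℕ)
    (H : HypE B a b eps D z k), ¬ RigC B a b → SinkU H.up D W → SepU H.up D c W → LevU H.up D W →
    lamC ((Nat.card B.L + 2) ^ 4 * k) k c ≤ W →
    ∃ (x s₁ s₂ : Q) (F : Finset Q), eps x = 1 ∧ FrC H.up D k c W x F ∧
      (∀ s ∈ F, ∃ l : List B.L, l.length ≤ 4 ∧ (B.fin x l)⁻¹ * s ∈ D) ∧ s₁ ∈ F ∧ s₂ ∈ F ∧ s₁ ≠ x ∧ s₂ ≠ x ∧ s₁ ≠ s₂ ∧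
      Lf B a b eps D z k c H.up x s₁ ∧ Lf B a b eps D z k c H.up x s₂ ∧ Pos H F x s₁ s₂

/-- The weights at a position, and the tour makers. -/
def TMCS : Prop :=
  ∀ (Q : Type) [Group Q] [Fintype Q] [DecidableEq Q] (B : Lb.{0, 0} Q) (a b : B.L) (eps : Q →* ℤˣ) (D : Subgroup Q)
    (z : Q) (k c W : ℕ) (H : HypE B a b eps D z k) (x s₁ s₂ : Q) (F : Finset Q), eps x = 1 →
    FrC H.up D k c W x F → s₁ ∈ F → s₂ ∈ F → Pos H F x s₁ s₂ →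
    ∃ (w : Bool → Q → ℤ) (cl : Q → Bool), (∀ γ, w γ x + w γ s₁ = 0) ∧
      (∀ γ, (∃ y, cl y = γ) → ∀ S, InS D k F x s₁ s₂ S → ∑ s ∈ S, w γ s ≠ 0 ∧ |∑ s ∈ S, w γ s| ≤ 4 * k) ∧
      ∀ (w' : Bool → Q → ℤ) (n t : ℕ), 0 < n → n + 2 * k + 1 ≤ W → t < 2 * k →
        (∀ γ, ∀ s ∈ F, w' γ ((H.up.U ^ t) s) = w γ s) →
        TM H.up (im (H.up.U ^ t) F) ((H.up.U ^ t) s₁) ((H.up.U ^ t) x) ((H.up.U ^ t) s₂) n w' cl

end Pool.Agent.Lib.MP_688fd0_co.SQ4.Small
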