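import Pool.Agent.Lib.MP_688fd0_co.SQ4.Small.LadP
import Pool.Agent.Lib.MP_688fd0_co.SQ4.Small.DihI
import Pool.Agent.Lib.MP_688fd0_co.SQ3.Small.R1D
import Pool.Agent.Lib.MP_688fd0_co.SQ3.Small.Ar

/-!
Ladders: assembly. The world consists of one list, used for both walks: a straight slot, `ω ^ 2` slots of length eight,
a crossing if `w ^ N = r`, and a straight tail.
-/

set_option autoImplicit false

namespace Pool.Agent.Lib.MP_688fd0_co.SQ4.Small

open Pool.Agent.Lib.MP_688fd0_co.OSF Pool.Agent.Lib.MP_688fd0_co.SQ2 Pool.Agent.Lib.MP_688fd0_co.SQ3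
open Pool.Agent.Lib.MP_688fd0_co.SQ3.Small (HP rd ArS)

section

variable {Q : Type} [Group Q] {B : Lb.{0, 0} Q} {a b : B.L} {eps : Q →* ℤˣ} {r : Q} {N : ℕ}

theorem Ld.r1 (H : Ld B a b eps r N) : r ≠ 1 := by
  obtain ⟨s, hs⟩ := H.rot
  rw [← hs]
  exact B.ne_one s

theorem w_inv (a b : B.L) : B.q b * (B.q a)⁻¹ = (B.q a * (B.q b)⁻¹)⁻¹ := by
  rw [mul_inv_rev, inv_inv]

theorem Ld.pw' (H : Ld B a b eps r N) :
    (B.q b * (B.q a)⁻¹) ^ N = 1 ∨ (B.q b * (B.q a)⁻¹) ^ N = r := by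
  rw [w_inv, inv_pow]
  rcases H.pw with h | h
  · exact Or.inl (by rw [h, inv_one])
  · exact Or.inr (by rw [h, H.ri])

theorem Ld.down (H : Ld B a b eps r N) (n : ℕ) (hn : n ≤ N) :
    ∃ i < N, (B.q a * (B.q b)⁻¹) ^ n = (B.q b * (B.q a)⁻¹) ^ i ∨
      (B.q a * (B.q b)⁻¹) ^ n = (B.q b * (B.q a)⁻¹) ^ i * r := by
  rcases Nat.eq_zero_or_pos n with rfl | h0
  · exact ⟨0, H.N0, Or.inl (by rw [pow_zero, pow_zero])⟩
  · refine ⟨N - n, by omega, ?_⟩
    have h1 : (B.q b * (B.q a)⁻¹) ^ (N - n) = (B.q a * (B.q b)⁻¹) ^ n * (B.q b * (B.q a)⁻¹) ^ N := by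
      have h2 : (B.q b * (B.q a)⁻¹) ^ N = (B.q b * (B.q a)⁻¹) ^ n * (B.q b * (B.q a)⁻¹) ^ (N - n) := by
        rw [← pow_add]; congr 1; omega
      rw [h2, ← mul_assoc, w_inv, inv_pow, inv_pow, mul_inv_cancel, one_mul]
    rcases H.pw' with h | h
    · exact Or.inl (by rw [h1, h, mul_one])
    · exact Or.inr (by rw [h1, h, mul_assoc, H.rr, mul_one])

theorem Ld.swap (H : Ld B a b eps r N) : Ld B b a eps r N where
  fin := H.fin
  finL := H.finL
  rr := H.rr
  rc := H.rc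
  er := H.er
  ea := H.eb
  eb := H.ea
  aa := H.bb
  bb := H.aa
  lab := fun g => by
    rcases H.lab g with h | h | h | h | h
    · exact Or.inl h
    · exact Or.inr (Or.inr (Or.inr (Or.inl h)))
    · exact Or.inr (Or.inr (Or.inr (Or.inr h)))
    · exact Or.inr (Or.inl h)
    · exact Or.inr (Or.inr (Or.inl h))
  rot := H.rot
  N0 := H.N0
  pw := H.pw'
  mn := fun i h0 hi => by
    obtain ⟨h1, h2⟩ := H.mn i h0 hi
    rw [w_inv, inv_pow]
    constructor
    · intro h; exact h1 (inv_eq_one.1 h)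
    · intro h; exact h2 (by rw [← H.ri, ← h, inv_inv])
  all := fun x => by
    have hab : B.q a = (B.q a * (B.q b)⁻¹) * B.q b := by rw [inv_mul_cancel_right]
    have hc : ∀ y z : Q, y * r * z = y * z * r := fun y z => by rw [mul_assoc, H.rc, mul_assoc]
    obtain ⟨i, hi, h | h | h | h⟩ := H.all x
    · obtain ⟨j, hj, h1 | h1⟩ := H.down i hi.le
      · exact ⟨j, hj, Or.inl (h.trans h1)⟩
      · exact ⟨j, hj, Or.inr (Or.inl (h.trans h1))⟩
    · obtain ⟨j, hj, h1 | h1⟩ := H.down i hi.le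
      · exact ⟨j, hj, Or.inr (Or.inl (by rw [h, h1]))⟩
      · exact ⟨j, hj, Or.inl (by rw [h, h1, mul_assoc, H.rr, mul_one])⟩
    · obtain ⟨j, hj, h1 | h1⟩ := H.down (i + 1) hi
      · exact ⟨j, hj, Or.inr (Or.inr (Or.inl (by
          rw [h, ← h1, pow_succ, mul_assoc, inv_mul_cancel_right])))⟩
      · exact ⟨j, hj, Or.inr (Or.inr (Or.inr (by
          rw [← hc, ← h1, h, pow_succ, mul_assoc, inv_mul_cancel_right])))⟩
    · obtain ⟨j, hj, h1 | h1⟩ := H.down (i + 1) hi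
      · exact ⟨j, hj, Or.inr (Or.inr (Or.inr (by
          rw [h, ← h1, pow_succ, mul_assoc _ _ (B.q b), inv_mul_cancel_right])))⟩
      · exact ⟨j, hj, Or.inr (Or.inr (Or.inl (by
          have h2 : (B.q b * (B.q a)⁻¹) ^ j = (B.q a * (B.q b)⁻¹) ^ (i + 1) * r := by
            rw [h1, mul_assoc, H.rr, mul_one]
          rw [h, h2, hc, pow_succ, mul_assoc _ _ (B.q b), inv_mul_cancel_right])))⟩

theorem alt_append {l l' : List B.L} (h : Alt B a b r l) (h' : Alt B a b r l') : Alt B a b r (l ++ l') := by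
  induction l using List.twoStepInduction with
  | nil => exact h'
  | singleton g => exact h.elim
  | cons_cons g g' l ih _ => exact ⟨h.1, h.2.1, ih h.2.2⟩

theorem alt_rep2 (t : ℕ) : Alt B a b r (rep2 a b t) := by
  induction t with
  | zero => trivial
  | succ t ih => exact ⟨Or.inl rfl, Or.inl (B.q_inv b), ih⟩

theorem alt_flatten {ws : List (List B.L)} (h : ∀ l ∈ ws, Alt B a b r l) : Alt B a b r ws.flatten := by
  induction ws with
  | nil => trivial
  | cons l ws ih =>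
    exact alt_append (h l List.mem_cons_self) (ih fun l' hl' => h l' (List.mem_cons_of_mem _ hl'))

theorem rep2_add (s t : ℕ) : rep2 a b (s + t) = rep2 a b s ++ rep2 a b t := by
  unfold rep2
  rw [List.replicate_add, List.flatten_append]

theorem rep2_length (t : ℕ) : (rep2 a b t).length = 2 * t := by
  induction t with
  | zero => rfl
  | succ t ih =>
    show ((rep2 a b t).length + 1) + 1 = _
    rw [ih]; ring

/-! ### The world -/

/-- The slots. -/
def Sl (a b : B.L) (r : Q) (l : List B.L) : Prop :=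
  Alt B a b r l ∧ l.length = 8 ∧ B.fin 1 l = (B.q a * (B.q b)⁻¹) ^ 4

theorem sl_rep2 : Sl a b r (rep2 a b 4) :=
  ⟨alt_rep2 4, rfl, by rw [fin_rep2, one_mul]⟩

/-- The world. -/
def wld (a b : B.L) (ws : List (List B.L)) (tl : List B.L) : List B.L := rep2 a b 4 ++ (ws.flatten ++ tl)

theorem fin_flat' {ws : List (List B.L)} (h : ∀ l ∈ ws, Sl a b r l) (x : Q) :
    B.fin x ws.flatten = x * (B.q a * (B.q b)⁻¹) ^ (4 * ws.length) := by
  induction ws generalizing x with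
  | nil => simp [Lb.fin]
  | cons l ws ih =>
    have h1 : B.fin x l = x * (B.q a * (B.q b)⁻¹) ^ 4 := by
      have := fin_tr (B := B) x 1 l
      rw [mul_one] at this
      rw [this, (h l List.mem_cons_self).2.2]
    rw [List.flatten_cons, fin_append, h1, ih fun l' hl' => h l' (List.mem_cons_of_mem _ hl'), List.length_cons,
      mul_assoc, ← pow_add]
    congr 2; ring

theorem fin_wld {ws : List (List B.L)} (h : ∀ l ∈ ws, Sl a b r l) (tl : List B.L) :
    B.fin 1 (wld a b ws tl) = (B.q a * (B.q b)⁻¹) ^ (4 + 4 * ws.length) * B.fin 1 tl := by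
  have h1 : ∀ x : Q, B.fin x tl = x * B.fin 1 tl := fun x => by
    have := fin_tr (B := B) x 1 tl
    rwa [mul_one] at this
  rw [wld, fin_append, fin_append, fin_flat' h, fin_rep2, one_mul, ← pow_add, h1]

theorem alt_wld {ws : List (List B.L)} (h : ∀ l ∈ ws, Sl a b r l) {tl : List B.L} (ht : Alt B a b r tl) :
    Alt B a b r (wld a b ws tl) :=
  alt_append (alt_rep2 4) (alt_append (alt_flatten fun l hl => (h l hl).1) ht)

theorem length_wld {ws : List (List B.L)} (h : ∀ l ∈ ws, Sl a b r l) (tl : List B.L) :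
    (wld a b ws tl).length = 8 + 8 * ws.length + tl.length := by
  have h1 : ws.flatten.length = 8 * ws.length := by
    induction ws with
    | nil => rfl
    | cons l ws ih =>
      rw [List.flatten_cons, List.length_append, (h l List.mem_cons_self).2.1,
        ih fun l' hl' => h l' (List.mem_cons_of_mem _ hl'), List.length_cons]
      ring
  rw [wld, List.length_append, List.length_append, h1, rep2_length]
  ring

variable {R : Type} [CommRing R] (V : Vd B R)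

theorem chi_w4 (H : Ld B a b eps r N) : V.chi (B.q a * (B.q b)⁻¹) ^ 4 = 1 := by
  have hη : V.chi r * V.chi r = 1 := by rw [← map_mul, H.rr, map_one]
  have ha : V.chi (B.q a) ^ 4 = 1 := by
    have h1 : V.chi (B.q a) ^ 4 = V.chi (B.q a * B.q a) * V.chi (B.q a * B.q a) := by
      rw [map_mul]; ring
    rw [h1]
    rcases H.aa with h | h
    · rw [h, map_one, one_mul]
    · rw [h, hη]
  have hb : V.chi (B.q b)⁻¹ ^ 4 = 1 := by
    have h0 : V.chi (B.q b) ^ 4 = 1 := by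
      have h1 : V.chi (B.q b) ^ 4 = V.chi (B.q b * B.q b) * V.chi (B.q b * B.q b) := by
        rw [map_mul]; ring
      rw [h1]
      rcases H.bb with h | h
      · rw [h, map_one, one_mul]
      · rw [h, hη]
    have h2 : V.chi (B.q b) * V.chi (B.q b)⁻¹ = 1 := by rw [← map_mul, mul_inv_cancel, map_one]
    calc V.chi (B.q b)⁻¹ ^ 4 = V.chi (B.q b) ^ 4 * V.chi (B.q b)⁻¹ ^ 4 := by rw [h0, one_mul]
      _ = 1 := by rw [← mul_pow, h2, one_pow]
  rw [map_mul, mul_pow, ha, hb, one_mul]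

theorem vol_wld (H : Ld B a b eps r N) {ws : List (List B.L)} (h : ∀ l ∈ ws, Sl a b r l) (tl : List B.L) :
    V.vol 1 (wld a b ws tl) = V.vol 1 (rep2 a b 4) + ((ws.map (V.vol 1)).sum + V.vol 1 tl) := by
  have h4 := chi_w4 V H
  rw [wld, SQ3.Small.R1D.vol_app, SQ3.Small.R1D.vol_app, SQ3.Small.R1D.vol_flat V ws (fun l hl => by
    rw [(h l hl).2.2, map_pow, h4]), fin_rep2, one_mul, SQ3.Small.R1D.vol_one V (B.fin _ _) tl, fin_flat' h, map_mul,
    map_pow, map_pow, h4, one_mul, one_mul, pow_mul, h4, one_pow, one_mul]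

/-- The straight part of the world. -/
theorem vol_rep2_four (H : Ld B a b eps r N) (n : ℕ) (tl : List B.L) :
    V.vol 1 (rep2 a b (4 + 4 * n) ++ tl) =
      V.vol 1 (rep2 a b 4) + ((n : R) * V.vol 1 (rep2 a b 4) + V.vol 1 tl) := by
  have h4 := chi_w4 V H
  have h1 : ∀ n : ℕ, V.vol 1 (rep2 a b (4 * n)) = (n : R) * V.vol 1 (rep2 a b 4) := by
    intro n
    induction n with
    | zero => simp [rep2, Vd.vol]
    | succ n ih =>
      rw [show 4 * (n + 1) = 4 + 4 * n by ring, rep2_add, SQ3.Small.R1D.vol_app,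
        SQ3.Small.R1D.vol_one V (B.fin _ _), ih, fin_rep2, one_mul, map_pow, h4]
      push_cast
      ring
  rw [SQ3.Small.R1D.vol_app, rep2_add, SQ3.Small.R1D.vol_app, SQ3.Small.R1D.vol_one V (B.fin 1 (rep2 a b 4)),
    SQ3.Small.R1D.vol_one V _ tl, fin_append, fin_rep2, fin_rep2, h1, one_mul, map_mul, map_pow, map_pow, h4, pow_mul,
    h4]
  ring

end

/-! ### The choice of the slots -/

theorem ar_world (har : ArS) {Q : Type} [Group Q] {B : Lb.{0, 0} Q} {a b : B.L} {eps : Q →* ℤˣ} {r : Q} {N : ℕ}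
    (H : Ld B a b eps r N) {m : ℕ} [NeZero m] (V : Vd B (ZMod m)) (hp : ∀ p ∈ m.primeFactors, m.primeFactors.card < p)
    (tl : List B.L) :
    ∃ ws : List (List B.L), ws.length = m.primeFactors.card * m.primeFactors.card ∧ (∀ l ∈ ws, Sl a b r l) ∧
      ∀ p, ∀ hpm : p ∈ m.primeFactors, rd p (V.vol 1 (wld a b ws tl)) ≠ 0 ∨
        (rd p (V.vol 1 (wld a b ws tl)) = 0 ∧
          SlV (V.map (red (Nat.dvd_of_mem_primeFactors hpm))) a b r ∧
          (V.map (red (Nat.dvd_of_mem_primeFactors hpm))).vol 1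
            (rep2 a b (4 + 4 * (m.primeFactors.card * m.primeFactors.card)) ++ tl) = 0) := by
  classical
  set ω := m.primeFactors.card with hω
  set f : List B.L → ZMod m := V.vol 1 with hf
  have hsl : ∀ p : {p // p ∈ m.primeFactors}, ∃ l, Sl a b r l ∧
      ((∃ l', Sl a b r l' ∧ rd p.1 (f l' - f (rep2 a b 4)) ≠ 0) → rd p.1 (f l - f (rep2 a b 4)) ≠ 0) := by
    intro p
    by_cases h : ∃ l', Sl a b r l' ∧ rd p.1 (f l' - f (rep2 a b 4)) ≠ 0
    · obtain ⟨l, h1, h2⟩ := h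
      exact ⟨l, h1, fun _ => h2⟩
    · exact ⟨rep2 a b 4, sl_rep2, fun h' => absurd h' h⟩
  choose sl hs1 hs2 using hsl
  obtain ⟨j, hj1, hj2⟩ := SQ3.Small.R1D.ar' har hp {p // p ∈ m.primeFactors}
    (f (rep2 a b 4) + (((ω * ω : ℕ) : ZMod m) * f (rep2 a b 4) + f tl)) (fun i => f (sl i) - f (rep2 a b 4))
  have hsum : ∑ i, j i ≤ ω * ω := by
    refine le_trans (Finset.sum_le_sum fun i _ => hj1 i) ?_
    rw [Finset.sum_const, smul_eq_mul, Finset.card_univ, Fintype.card_coe]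
  obtain ⟨ws, ws1, ws2, ws3⟩ := SQ3.Small.R1D.copies sl (rep2 a b 4) j (ω * ω) hsum (Sl a b r) sl_rep2 hs1 f
  refine ⟨ws, ws1, ws2, fun p hpm => ?_⟩
  have hd := Nat.dvd_of_mem_primeFactors hpm
  have hvol : f (wld a b ws tl) = (f (rep2 a b 4) + (((ω * ω : ℕ) : ZMod m) * f (rep2 a b 4) + f tl)) +
      ∑ i, (j i : ZMod m) * (f (sl i) - f (rep2 a b 4)) := by
    rw [hf] at ws3 ⊢
    rw [vol_wld V H ws2, ws3]; ring
  have hrd : ∀ x : ZMod m, rd p x = red hd x := fun x => rfl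
  by_cases hF : rd p (f (rep2 a b 4) + (((ω * ω : ℕ) : ZMod m) * f (rep2 a b 4) + f tl)) ≠ 0 ∨
      ∃ i, rd p (f (sl i) - f (rep2 a b 4)) ≠ 0
  · left
    rw [hvol]
    exact hj2 p hpm hF
  · right
    rw [not_or, not_not, not_exists] at hF
    obtain ⟨h1, h2⟩ := hF
    refine ⟨?_, ?_, ?_⟩
    · rw [hvol, hrd, map_add, ← hrd, h1, zero_add, map_sum]
      refine Finset.sum_eq_zero fun i _ => ?_
      have h3 := h2 i
      rw [not_not, hrd] at h3
      rw [map_mul, h3, mul_zero]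
    · intro l hl1 hl2 hl3
      rw [SQ3.Small.R1D.vol_map, SQ3.Small.R1D.vol_map, ← sub_eq_zero, ← map_sub]
      by_contra h3
      exact h2 ⟨p, hpm⟩ (hs2 ⟨p, hpm⟩ ⟨l, ⟨hl1, hl2, hl3⟩, h3⟩)
    · rw [SQ3.Small.R1D.vol_map, vol_rep2_four V H]
      exact h1

/-! ### The cases -/

theorem forall2_refl {Q : Type} [Group Q] {B : Lb.{0, 0} Q} (l : List B.L) :
    List.Forall₂ (fun g g' => B.q g = B.q g') l l := by
  induction l with
  | nil => exact List.Forall₂.nil
  | cons g l ih => exact List.Forall₂.cons rfl ih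

theorem not_two {m p : ℕ} (hodd : Odd m) (hp : p ∈ m.primeFactors) : p ≠ 2 := by
  rintro rfl
  have h := Nat.dvd_of_mem_primeFactors hp
  obtain ⟨t, ht⟩ := hodd
  omega

/-- A crossing label over `a r`. -/
theorem lad_c' (hZ : T1ZS) (hCov : LdCovS) (har : ArS) {Q : Type} [Group Q] {B : Lb.{0, 0} Q} {a b : B.L}
    {eps : Q →* ℤˣ} {r : Q} {N : ℕ} (H : Ld B a b eps r N) {m : ℕ} (V : Vd B (ZMod m)) (hsq : Squarefree m)
    (hodd : Odd m) (hp : ∀ p ∈ m.primeFactors, m.primeFactors.card < p ∧ ¬ p ∣ N)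
    (hK : ∀ p, ∀ hp : p ∈ m.primeFactors, KapO (V.map (red (Nat.dvd_of_mem_primeFactors hp))) eps)
    (c : B.L) (hc : B.q c = B.q a * r) (tl' : List B.L) (hA : Alt B a b r (tl' ++ [a, B.inv b]))
    (hlen : 8 + 8 * (m.primeFactors.card * m.primeFactors.card) + (tl' ++ [a, B.inv b]).length = 2 * N)
    (hfin : (B.q a * (B.q b)⁻¹) ^ (4 + 4 * (m.primeFactors.card * m.primeFactors.card)) *
      B.fin 1 (tl' ++ [a, B.inv b]) = 1)
    (hB : ∀ (p : ℕ) (_ : Fact p.Prime) (V' : Vd B (ZMod p)),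
      V'.vol 1 (rep2 a b (4 + 4 * (m.primeFactors.card * m.primeFactors.card)) ++ (tl' ++ [a, B.inv b])) = 0 →
      (((B.q a * (B.q b)⁻¹) ^ N = 1 ∧ V'.vol 1 (rep2 a b N) = 0) ∨
        ((B.q a * (B.q b)⁻¹) ^ N = r ∧ ∃ i j, N = i + 1 + j ∧
          V'.vol 1 (rep2 a b i ++ c :: B.inv b :: rep2 a b j) = 0))) : HP V := by
  have hm : m ≠ 0 := hsq.ne_zero
  have : NeZero m := ⟨hm⟩
  have := H.fin
  obtain ⟨s, hs⟩ := H.rot
  obtain ⟨ws, ws1, ws2, hws⟩ := ar_world har H V (fun p h => (hp p h).1) (tl' ++ [a, B.inv b])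
  set L := wld a b ws (tl' ++ [a, B.inv b]) with hL
  have hdec : L = a :: B.inv b :: (([a, B.inv b, a, B.inv b, a, B.inv b] ++ (ws.flatten ++ (tl' ++ [a]))) ++
      [B.inv b]) := by
    rw [hL, wld, rep2_four]
    simp
  have hT : TwoC B 1 r L L := hCov Q B a b eps r N H L L (alt_wld ws2 hA)
    (by rw [hL, length_wld ws2, ws1]; exact hlen) (by rw [hL, fin_wld ws2, ws1]; exact hfin) (forall2_refl L)
  rw [hdec] at hT
  refine hZ Q B m V 1 (B.q a) r (r * B.q a) r a (B.inv b) (B.inv b) a (B.inv b) (B.inv b) s c _ _ hsq H.rc H.rr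
    (one_mul r).symm hs rfl rfl rfl (one_mul _).symm rfl hc hT fun p hpm => ?_
  have hd := Nat.dvd_of_mem_primeFactors hpm
  have hpp : Fact p.Prime := ⟨Nat.prime_of_mem_primeFactors hpm⟩
  have hrd : ∀ x : ZMod m, rd p x = red hd x := fun x => rfl
  have hvol : ∀ x l, rd p (V.vol x l) = (V.map (red hd)).vol x l := fun x l => by
    rw [SQ3.Small.R1D.vol_map]; rfl
  have hy : rd p (V.vol r L) = (V.map (red hd)).chi r * rd p (V.vol 1 L) := by
    rw [hvol, hvol, SQ3.Small.R1D.vol_one]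
  have hη : (V.map (red hd)).chi r ≠ 0 := chi_ne _ r
  rw [← hdec]
  rcases hws p hpm with h | ⟨h1, h2, h3⟩
  · left
    exact ⟨h, by rw [hy]; exact mul_ne_zero hη h⟩
  · right
    refine ⟨h1, by rw [hy, h1, mul_zero], ?_⟩
    have h4 := ldPrC Q B a b eps r N H p hpp (V.map (red hd)) c s (not_two hodd hpm) (hp p hpm).2 hc hs (hK p hpm) h2
      (hB p hpp _ h3)
    simp only [hvol]
    exact h4

/-- A crossing label over `a r`. -/
theorem lad_c (hZ : T1ZS) (hCov : LdCovS) (har : ArS) {Q : Type} [Group Q] {B : Lb.{0, 0} Q} {a b : B.L}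
    {eps : Q →* ℤˣ} {r : Q} {N : ℕ} (H : Ld B a b eps r N) {m : ℕ} (V : Vd B (ZMod m)) (hsq : Squarefree m)
    (hodd : Odd m) (hp : ∀ p ∈ m.primeFactors, m.primeFactors.card < p ∧ ¬ p ∣ N)
    (hN : 1000 * (m.primeFactors.card + 2) ^ 2 ≤ N)
    (hK : ∀ p, ∀ hp : p ∈ m.primeFactors, KapO (V.map (red (Nat.dvd_of_mem_primeFactors hp))) eps)
    (c : B.L) (hc : B.q c = B.q a * r) : HP V := by
  set ω := m.primeFactors.card with hω
  have hN' : 4 + 4 * (ω * ω) + 2 ≤ N := by nlinarith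
  have hsnoc : ∀ t, rep2 a b (t + 1) = rep2 a b t ++ [a, B.inv b] := fun t => by
    rw [rep2_add]; rfl
  rcases H.pw with hw | hw
  · obtain ⟨t, ht⟩ : ∃ t, N = 4 + 4 * (ω * ω) + (t + 1) := ⟨N - (4 + 4 * (ω * ω) + 1), by omega⟩
    refine lad_c' hZ hCov har H V hsq hodd hp hK c hc (rep2 a b t) ?_ ?_ ?_ ?_
    · rw [← hsnoc]; exact alt_rep2 _
    · rw [← hsnoc, rep2_length, ← hω, ht]; ring
    · rw [← hsnoc, fin_rep2, one_mul, ← pow_add, ← hω, ← ht, hw]
    · intro p _ V' h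
      rw [← hsnoc, ← rep2_add, ← hω, ← ht] at h
      exact Or.inl ⟨hw, h⟩
  · obtain ⟨t, ht⟩ : ∃ t, N = 4 + 4 * (ω * ω) + 1 + (t + 1) := ⟨N - (4 + 4 * (ω * ω) + 2), by omega⟩
    have hcb : B.q c * B.q (B.inv b) = (B.q a * (B.q b)⁻¹) * r := by
      rw [hc, B.q_inv, mul_assoc, H.rc, ← mul_assoc]
    refine lad_c' hZ hCov har H V hsq hodd hp hK c hc (c :: B.inv b :: rep2 a b t) ?_ ?_ ?_ ?_
    · show Alt B a b r (c :: B.inv b :: (rep2 a b t ++ [a, B.inv b]))
      rw [← hsnoc]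
      exact ⟨Or.inr hc, Or.inl (B.q_inv b), alt_rep2 _⟩
    · show 8 + 8 * (m.primeFactors.card * m.primeFactors.card) + (((rep2 a b t ++ [a, B.inv b]).length + 1) + 1) = _
      rw [← hsnoc, rep2_length, ← hω, ht]; ring
    · show _ * B.fin (1 * B.q c * B.q (B.inv b)) (rep2 a b t ++ [a, B.inv b]) = 1
      have h6 : ∀ w u : Q, w * r * u = w * u * r := fun w u => by rw [mul_assoc, H.rc, mul_assoc]
      rw [← hsnoc, fin_rep2, one_mul, hcb, h6, ← pow_succ', ← mul_assoc, ← pow_add,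
        ← hω, show 4 + 4 * (ω * ω) + (t + 1 + 1) = N by omega, hw, H.rr]
    · intro p _ V' h
      have h5 : (c :: B.inv b :: rep2 a b t) ++ [a, B.inv b] = c :: B.inv b :: rep2 a b (t + 1) := by
        rw [hsnoc]; rfl
      rw [h5] at h
      exact Or.inr ⟨hw, _, _, ht, h⟩

/-- No crossing label, `w ^ N = 1`. -/
theorem lad_n1 (hT1 : T1BS) (hCov : LdCovS) (har : ArS) {Q : Type} [Group Q] {B : Lb.{0, 0} Q} {a b : B.L}
    {eps : Q →* ℤˣ} {r : Q} {N : ℕ} (H : Ld B a b eps r N) {m : ℕ} (V : Vd B (ZMod m)) (hsq : Squarefree m)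
    (hodd : Odd m) (hp : ∀ p ∈ m.primeFactors, m.primeFactors.card < p ∧ ¬ p ∣ N)
    (hN : 1000 * (m.primeFactors.card + 2) ^ 2 ≤ N)
    (hK : ∀ p, ∀ hp : p ∈ m.primeFactors, KapO (V.map (red (Nat.dvd_of_mem_primeFactors hp))) eps)
    (hna : ∀ g, B.q g ≠ B.q a * r) (hnb : ∀ g, B.q g ≠ B.q b * r) (hw : (B.q a * (B.q b)⁻¹) ^ N = 1) : HP V := by
  set ω := m.primeFactors.card with hω
  have hN' : 4 + 4 * (ω * ω) + 2 ≤ N := by nlinarith
  have hsnoc : ∀ t, rep2 a b (t + 1) = rep2 a b t ++ [a, B.inv b] := fun t => by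
    rw [rep2_add]; rfl
  obtain ⟨t, ht⟩ : ∃ t, N = 4 + 4 * (ω * ω) + (t + 1) := ⟨N - (4 + 4 * (ω * ω) + 1), by omega⟩
  have hm : m ≠ 0 := hsq.ne_zero
  have : NeZero m := ⟨hm⟩
  have := H.fin
  obtain ⟨s, hs⟩ := H.rot
  obtain ⟨ws, ws1, ws2, hws⟩ := ar_world har H V (fun p h => (hp p h).1) (rep2 a b (t + 1))
  set L := wld a b ws (rep2 a b (t + 1)) with hL
  have hdec : L = a :: ((B.inv b :: ([a, B.inv b, a, B.inv b, a, B.inv b] ++ (ws.flatten ++ (rep2 a b t ++ [a])))) ++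
      [B.inv b]) := by
    rw [hL, wld, rep2_four, hsnoc]
    simp
  have hT : TwoC B 1 r L L := hCov Q B a b eps r N H L L (alt_wld ws2 (alt_rep2 _))
    (by rw [hL, length_wld ws2, ws1, rep2_length, ← hω, ht]; ring)
    (by rw [hL, fin_wld ws2, ws1, fin_rep2, one_mul, ← pow_add, ← hω, ← ht, hw]) (forall2_refl L)
  rw [hdec] at hT
  refine hT1 Q B m V 1 r r a (B.inv b) a (B.inv b) s _ _ hsq H.rc H.rr (one_mul r).symm hs rfl rfl hT fun p hpm => ?_
  have hd := Nat.dvd_of_mem_primeFactors hpm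
  have hpp : Fact p.Prime := ⟨Nat.prime_of_mem_primeFactors hpm⟩
  have hvol : ∀ x l, rd p (V.vol x l) = (V.map (red hd)).vol x l := fun x l => by
    rw [SQ3.Small.R1D.vol_map]; rfl
  have hy : rd p (V.vol r L) = (V.map (red hd)).chi r * rd p (V.vol 1 L) := by
    rw [hvol, hvol, SQ3.Small.R1D.vol_one]
  have hη : (V.map (red hd)).chi r ≠ 0 := chi_ne _ r
  rw [← hdec]
  rcases hws p hpm with h | ⟨h1, h2, h3⟩
  · left
    exact ⟨h, by rw [hy]; exact mul_ne_zero hη h⟩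
  · right
    rw [← rep2_add, ← hω, ← ht] at h3
    refine ⟨h1, by rw [hy, h1, mul_zero], ?_⟩
    have h4 := ldPrN Q B a b eps r N H p hpp (V.map (red hd)) s (not_two hodd hpm) (hp p hpm).2 hs hna hnb hw
      (hK p hpm) h2 h3
    simp only [hvol]
    exact h4

/-- No crossing label, `w ^ N = r`: the dihedral case. -/
theorem lad_n2 (hDih : DihS) {Q : Type} [Group Q] {B : Lb.{0, 0} Q} {a b : B.L}
    {eps : Q →* ℤˣ} {r : Q} {N : ℕ} (H : Ld B a b eps r N) {m : ℕ} (V : Vd B (ZMod m)) (hsq : Squarefree m)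
    (hodd : Odd m) (hp : ∀ p ∈ m.primeFactors, 8 * (m.primeFactors.card + 2) ^ 2 < p)
    (hN : 1000 * (m.primeFactors.card + 2) ^ 2 ≤ N)
    (hK : ∀ p, ∀ hp : p ∈ m.primeFactors, KapO (V.map (red (Nat.dvd_of_mem_primeFactors hp))) eps)
    (hna : ∀ g, B.q g ≠ B.q a * r) (hnb : ∀ g, B.q g ≠ B.q b * r) (hw : (B.q a * (B.q b)⁻¹) ^ N = r) : HP V := by
  obtain ⟨s, hs⟩ := H.rot
  have hai : (B.q a)⁻¹ = B.q a := by
    rcases H.ai with h | h
    · exact h
    · exact absurd (by rw [B.q_inv, h]) (hna (B.inv a))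
  have hbi : (B.q b)⁻¹ = B.q b := by
    rcases H.bi with h | h
    · exact h
    · exact absurd (by rw [B.q_inv, h]) (hnb (B.inv b))
  have haa : B.q a * B.q a = 1 := by
    have h1 := mul_inv_cancel (B.q a)
    rwa [hai] at h1
  have hbb : B.q b * B.q b = 1 := by
    have h1 := mul_inv_cancel (B.q b)
    rwa [hbi] at h1
  have hwb : B.q a * (B.q b)⁻¹ = B.q a * B.q b := by rw [hbi]
  have hmn := H.mn
  have hall := H.all
  rw [hwb] at hw
  simp only [hwb] at hmn hall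
  set w := B.q a * B.q b with hwd
  have hord : orderOf w = 2 * N := by
    have h1 : w ^ (2 * N) = 1 := by rw [two_mul, pow_add, hw, H.rr]
    obtain ⟨t, ht⟩ := orderOf_dvd_of_pow_eq_one h1
    have hN0 := H.N0
    have ho : 0 < orderOf w := by
      rcases Nat.eq_zero_or_pos (orderOf w) with h2 | h2
      · rw [h2, zero_mul] at ht; omega
      · exact h2
    have h2 : N < orderOf w := by
      by_contra h3
      rcases Nat.lt_or_ge (orderOf w) N with h4 | h4
      · exact (hmn _ ho h4).1 (pow_orderOf_eq_one w)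
      · have h5 : orderOf w = N := by omega
        apply H.r1
        rw [← hw, ← h5, pow_orderOf_eq_one]
    have h3 : t < 2 := by
      by_contra h4
      have : orderOf w * 2 ≤ orderOf w * t := Nat.mul_le_mul_left _ (by omega)
      omega
    have h4 : t ≠ 0 := by
      rintro rfl
      omega
    have h5 : t = 1 := by omega
    rw [h5, mul_one] at ht
    exact ht.symm
  refine hDih Q B a b s m N V H.fin hsq hsq.ne_zero hodd hp haa hbb hord hN (hs.trans hw.symm) ?_ ?_ ?_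
  · intro x
    have hp : ∀ i : ℕ, w ^ i ∈ Subgroup.zpowers w := fun i => Subgroup.pow_mem _ (Subgroup.mem_zpowers w) i
    have hrz : r ∈ Subgroup.zpowers w := by rw [← hw]; exact hp N
    obtain ⟨i, -, h | h | h | h⟩ := hall x
    · left; rw [h]; exact hp i
    · left; rw [h]; exact Subgroup.mul_mem _ (hp i) hrz
    · right
      rw [h, mul_assoc, haa, mul_one]; exact hp i
    · right
      rw [h, mul_assoc, H.rc, mul_assoc, ← mul_assoc (B.q a), haa, one_mul]
      exact Subgroup.mul_mem _ (hp i) hrz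
  · intro g
    rw [hs]
    rcases H.lab g with h | h | h | h | h
    · exact Or.inr (Or.inr h)
    · exact Or.inl h
    · exact absurd (h.trans (H.rc _)) (hna g)
    · exact Or.inr (Or.inl h)
    · exact absurd (h.trans (H.rc _)) (hnb g)
  · intro p hpm
    have hpp : Fact p.Prime := ⟨Nat.prime_of_mem_primeFactors hpm⟩
    have hew : eps w = 1 := by rw [hwd, map_mul, H.ea, H.eb]; decide
    rcases hK p hpm with ⟨⟨x, hx, hx1⟩, h2⟩ | ⟨h1, t, ht, h2⟩
    · left
      refine ⟨fun h3 => hx1 ?_, h2⟩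
      refine H.chi_er _ (by rw [hwb]; exact h3) ?_ x hx
      rw [← hw, map_pow, h3, one_pow]
    · right
      refine ⟨h1 w hew, t, ?_, h2⟩
      rw [hs]
      exact H.rot' t (by rw [ht]; decide)

/-- Ladders. -/
theorem lad (hT1 : T1BS) (hZ : T1ZS) (hCov : LdCovS) (har : ArS) (hDih : DihS) {Q : Type} [Group Q]
    {B : Lb.{0, 0} Q} {a b : B.L}
    {eps : Q →* ℤˣ} {r : Q} {N : ℕ} (H : Ld B a b eps r N) {m : ℕ} (V : Vd B (ZMod m)) (hsq : Squarefree m)
    (hodd : Odd m) (hp : ∀ p ∈ m.primeFactors, 8 * (m.primeFactors.card + 2) ^ 2 < p ∧ ¬ p ∣ N)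
    (hN : 1000 * (m.primeFactors.card + 2) ^ 2 ≤ N)
    (hK : ∀ p, ∀ hp : p ∈ m.primeFactors, KapO (V.map (red (Nat.dvd_of_mem_primeFactors hp))) eps) : HP V := by
  have hp' : ∀ p ∈ m.primeFactors, m.primeFactors.card < p ∧ ¬ p ∣ N := fun p h =>
    ⟨lt_of_le_of_lt (SQ3.Small.R1D.lt_aux _) (hp p h).1, (hp p h).2⟩
  by_cases hna : ∃ c, B.q c = B.q a * r
  · obtain ⟨c, hc⟩ := hna
    exact lad_c hZ hCov har H V hsq hodd hp' hN hK c hc
  by_cases hnb : ∃ c, B.q c = B.q b * r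
  · obtain ⟨c, hc⟩ := hnb
    exact lad_c hZ hCov har H.swap V hsq hodd hp' hN hK c hc
  rw [not_exists] at hna hnb
  rcases H.pw with hw | hw
  · exact lad_n1 hT1 hCov har H V hsq hodd hp' hN hK hna hnb hw
  · exact lad_n2 hDih H V hsq hodd (fun p h => (hp p h).1) hN hK hna hnb hw

end Pool.Agent.Lib.MP_688fd0_co.SQ4.Small
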