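import Pool.Agent.Lib.MP_688fd0_co.SQ4.Small.LadI

/-!
Ladders: a word which goes up, straight or across, together with its translate by `r`, covers everything.
-/

set_option autoImplicit false

namespace Pool.Agent.Lib.MP_688fd0_co.SQ4.Small

open Pool.Agent.Lib.MP_688fd0_co.OSF Pool.Agent.Lib.MP_688fd0_co.SQ2 Pool.Agent.Lib.MP_688fd0_co.SQ3

namespace LadC

section

variable {Q : Type} [Group Q] {B : Lb.{0, 0} Q}

theorem fin_congr {l l' : List B.L} (h : List.Forall₂ (fun g g' => B.q g = B.q g') l l') :
    ∀ x : Q, B.fin x l' = B.fin x l := by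
  induction h with
  | nil => intro x; rfl
  | @cons g g' l l' hg _ ih =>
    intro x
    show B.fin (x * B.q g') l' = B.fin (x * B.q g) l
    rw [ih, hg]

theorem src_congr {l l' : List B.L} (h : List.Forall₂ (fun g g' => B.q g = B.q g') l l') :
    ∀ x : Q, src B x l' = src B x l := by
  induction h with
  | nil => intro x; rfl
  | @cons g g' l l' hg _ ih =>
    intro x
    show x :: src B (x * B.q g') l' = x :: src B (x * B.q g) l
    rw [ih, hg]

theorem len_src (l : List B.L) : ∀ x : Q, (src B x l).length = l.length := by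
  induction l with
  | nil => intro x; rfl
  | cons g l ih => intro x; exact congrArg (· + 1) (ih _)

/-- The columns. -/
def col (w α : Q) (j : ℕ) : Q := if j % 2 = 0 then w ^ (j / 2) else w ^ (j / 2) * α

theorem col_even (w α : Q) (i : ℕ) : col w α (2 * i) = w ^ i := by
  have h1 : 2 * i % 2 = 0 := by omega
  have h2 : 2 * i / 2 = i := by omega
  simp only [col, h1, h2, if_true]

theorem col_odd (w α : Q) (i : ℕ) : col w α (2 * i + 1) = w ^ i * α := by
  have h1 : ¬ (2 * i + 1) % 2 = 0 := by omega
  have h2 : (2 * i + 1) / 2 = i := by omega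
  simp only [col, h1, h2, if_false]

/-- In the column `j`. -/
def In (w α r : Q) (v : Q) (j : ℕ) : Prop := v = col w α j ∨ v = col w α j * r

theorem step_a {w α r : Q} (rr : r * r = 1) (rc : ∀ x, r * x = x * r) {x g : Q} {i : ℕ}
    (hx : In w α r x (2 * i)) (hg : g = α ∨ g = α * r) : In w α r (x * g) (2 * i + 1) := by
  rw [In, col_even] at hx
  rw [In, col_odd]
  rcases hx with rfl | rfl <;> rcases hg with rfl | rfl
  · left; rfl
  · right; rw [mul_assoc]
  · right; rw [mul_assoc, rc, ← mul_assoc]
  · left
    calc w ^ i * r * (α * r) = w ^ i * (r * α) * r := by simp only [mul_assoc]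
      _ = w ^ i * α * (r * r) := by rw [rc]; simp only [mul_assoc]
      _ = w ^ i * α := by rw [rr, mul_one]

theorem step_b {w α β r : Q} (rr : r * r = 1) (rc : ∀ x, r * x = x * r) (hw : w = α * β) {x g : Q} {i : ℕ}
    (hx : In w α r x (2 * i + 1)) (hg : g = β ∨ g = β * r) : In w α r (x * g) (2 * (i + 1)) := by
  rw [In, col_odd] at hx
  rw [In, col_even]
  have hk : w ^ i * α * β = w ^ (i + 1) := by rw [pow_succ, mul_assoc, ← hw]
  rcases hx with rfl | rfl <;> rcases hg with rfl | rfl
  · left; exact hk
  · right; rw [← mul_assoc, hk]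
  · right; rw [mul_assoc, rc, ← mul_assoc, hk]
  · left
    calc w ^ i * α * r * (β * r) = w ^ i * α * (r * β) * r := by simp only [mul_assoc]
      _ = w ^ i * α * β * (r * r) := by rw [rc]; simp only [mul_assoc]
      _ = w ^ (i + 1) := by rw [rr, mul_one, hk]

theorem src_in {a b : B.L} {r : Q} (rr : r * r = 1) (rc : ∀ x, r * x = x * r) :
    ∀ (n : ℕ) (l : List B.L) (x : Q) (i : ℕ), Alt B a b r l → l.length = 2 * n →
      In (B.q a * (B.q b)⁻¹) (B.q a) r x (2 * i) →
      ∀ (j : ℕ) (h : j < (src B x l).length), In (B.q a * (B.q b)⁻¹) (B.q a) r ((src B x l)[j]) (2 * i + j) := by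
  intro n
  induction n with
  | zero =>
    intro l x i _ hl _ j h
    rw [len_src] at h
    omega
  | succ n ih =>
    intro l x i hA hl hx j h
    match l, hA, hl, h with
    | [], _, hl, _ => simp at hl
    | [_], _, hl, _ => simp at hl; omega
    | g :: g' :: l, hA, hl, h =>
      obtain ⟨hg, hg', hA⟩ := hA
      have h1 := step_a rr rc hx hg
      have h2 := step_b rr rc rfl h1 hg'
      match j, h with
      | 0, _ => exact hx
      | 1, _ => exact h1
      | j + 2, h =>
        have hl' : l.length = 2 * n := by simp at hl; omega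
        have hj : j < (src B (x * B.q g * B.q g') l).length := by
          rw [len_src] at h ⊢
          simp at h
          omega
        have h3 := ih l (x * B.q g * B.q g') (i + 1) hA hl' h2 j hj
        have e : 2 * (i + 1) + j = 2 * i + (j + 2) := by ring
        rw [e] at h3
        exact h3

end

end LadC

open LadC in
theorem ldCov : LdCovS := by
  intro Q _ B a b eps r N H l l' hA hl hf hll
  have rr := H.rr
  have rc := H.rc
  set w := B.q a * (B.q b)⁻¹ with hw
  set α := B.q a with hα
  have hlen : (src B 1 l).length = 2 * N := by rw [len_src, hl]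
  have key : ∀ (j : ℕ) (h : j < (src B 1 l).length), In w α r ((src B 1 l)[j]) j := by
    intro j h
    have := src_in (a := a) (b := b) rr rc N l 1 0 hA hl (Or.inl (by rw [col_even, pow_zero])) j h
    rw [Nat.mul_zero, Nat.zero_add] at this
    exact this
  have hr1 : r ≠ 1 := by
    obtain ⟨s, hs⟩ := H.rot
    rw [← hs]
    exact B.ne_one s
  have ew : eps w = 1 := by
    rw [hw, map_mul, map_inv, H.ea, H.eb]
    decide
  have eE : ∀ i, eps (w ^ i) = 1 := fun i => by rw [map_pow, ew, one_pow]
  -- eps of a column
  have ec0 : ∀ i v, In w α r v (2 * i) → eps v = 1 := by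
    intro i v h
    rw [In, col_even] at h
    rcases h with rfl | rfl
    · exact eE i
    · rw [map_mul, eE, H.er, mul_one]
  have ec1 : ∀ i v, In w α r v (2 * i + 1) → eps v = -1 := by
    intro i v h
    rw [In, col_odd] at h
    rcases h with rfl | rfl
    · rw [map_mul, eE, H.ea, one_mul]
    · rw [map_mul, map_mul, eE, H.ea, H.er, one_mul, mul_one]
  -- powers
  have pw : ∀ i i', i < N → i' < N → (w ^ i = w ^ i' ∨ w ^ i = w ^ i' * r) → i = i' := by
    have aux : ∀ i i', i < i' → i' < N → ¬ (w ^ i = w ^ i' ∨ w ^ i = w ^ i' * r) := by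
      intro i i' h1 h2 h
      have h3 := H.mn (i' - i) (by omega) (by omega)
      have h4 : w ^ i' = w ^ i * w ^ (i' - i) := by rw [← pow_add]; congr 1; omega
      rcases h with h | h
      · apply h3.1
        rw [h4] at h
        exact (mul_eq_left.1 h.symm)
      · apply h3.2
        rw [h4, mul_assoc] at h
        have h5 : w ^ (i' - i) * r = 1 := mul_eq_left.1 h.symm
        calc w ^ (i' - i) = w ^ (i' - i) * (r * r) := by rw [rr, mul_one]
          _ = r := by rw [← mul_assoc, h5, one_mul]
    intro i i' h1 h2 h
    rcases Nat.lt_trichotomy i i' with h3 | h3 | h3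
    · exact absurd h (aux i i' h3 h2)
    · exact h3
    · refine absurd ?_ (aux i' i h3 h1)
      rcases h with h | h
      · left; exact h.symm
      · right
        rw [h, mul_assoc, rr, mul_one]
  have flip : ∀ x y : Q, x = y * r → y = x * r := by
    intro x y h
    rw [h, mul_assoc, rr, mul_one]
  have uniq0 : ∀ v i i', i < N → i' < N → In w α r v (2 * i) → In w α r v (2 * i') → i = i' := by
    intro v i i' h1 h2 h3 h4
    rw [In, col_even] at h3 h4
    apply pw i i' h1 h2
    rcases h3 with h3 | h3 <;> rcases h4 with h4 | h4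
    · left; rw [← h3, h4]
    · right; rw [← h3, h4]
    · right; exact flip _ _ (by rw [← h4, h3])
    · left
      have : w ^ i * r = w ^ i' * r := by rw [← h3, h4]
      exact mul_right_cancel this
  have uniq1 : ∀ v i i', i < N → i' < N → In w α r v (2 * i + 1) → In w α r v (2 * i' + 1) → i = i' := by
    intro v i i' h1 h2 h3 h4
    rw [In, col_odd] at h3 h4
    apply uniq0 (v * α⁻¹) i i' h1 h2
    · rw [In, col_even]
      rcases h3 with h3 | h3
      · left; rw [h3, mul_inv_cancel_right]
      · right
        rw [h3, mul_assoc, mul_assoc, rc]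
        rw [mul_inv_cancel_left]
    · rw [In, col_even]
      rcases h4 with h4 | h4
      · left; rw [h4, mul_inv_cancel_right]
      · right
        rw [h4, mul_assoc, mul_assoc, rc]
        rw [mul_inv_cancel_left]
  have uniq : ∀ v j j', j < 2 * N → j' < 2 * N → In w α r v j → In w α r v j' → j = j' := by
    intro v j j' h1 h2 h3 h4
    rcases Nat.even_or_odd' j with ⟨i, rfl | rfl⟩ <;> rcases Nat.even_or_odd' j' with ⟨i', rfl | rfl⟩
    · rw [uniq0 v i i' (by omega) (by omega) h3 h4]
    · have := (ec0 _ _ h3).symm.trans (ec1 _ _ h4)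
      exact absurd this (by decide)
    · have := (ec0 _ _ h4).symm.trans (ec1 _ _ h3)
      exact absurd this (by decide)
    · rw [uniq1 v i i' (by omega) (by omega) h3 h4]
  have hsrc : src B r l' = (src B 1 l).map (r * ·) := by
    rw [src_congr hll, ← src_tr, mul_one]
  refine ⟨hf, ?_, ?_, ?_⟩
  · rw [fin_congr hll]
    have := fin_tr (B := B) r 1 l
    rw [mul_one] at this
    rw [this, hf, mul_one]
  · rw [hsrc]
    have hnd : (src B 1 l).Nodup := by
      rw [List.nodup_iff_injective_getElem]
      intro ⟨i, hi⟩ ⟨j, hj⟩ h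
      simp only at h
      have h1 := key i hi
      have h2 := key j hj
      rw [← h] at h2
      exact Fin.ext (uniq _ i j (by omega) (by omega) h1 h2)
    rw [List.nodup_append]
    refine ⟨hnd, hnd.map (mul_right_injective r), ?_⟩
    intro v hv u hu
    rw [List.mem_map] at hu
    obtain ⟨v', hv', rfl⟩ := hu
    intro h
    obtain ⟨i, hi, rfl⟩ := List.getElem_of_mem hv
    obtain ⟨j, hj, rfl⟩ := List.getElem_of_mem hv'
    have h1 := key i hi
    have h2 := key j hj
    have h3 : In w α r ((src B 1 l)[i]) j := by
      rw [h]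
      rcases h2 with h2 | h2
      · right; rw [← h2, rc]
      · left; rw [h2, rc, mul_assoc, rr, mul_one]
    have hij := uniq _ i j (by omega) (by omega) h1 h3
    subst hij
    apply hr1
    exact mul_eq_right.1 h.symm
  · intro q
    rw [hsrc, List.mem_append, List.mem_map]
    have fin : ∀ j, j < 2 * N → In w α r q j → q ∈ src B 1 l ∨ ∃ v ∈ src B 1 l, r * v = q := by
      intro j hj h
      have hj' : j < (src B 1 l).length := by omega
      have h1 := key j hj'
      have h2 : q = (src B 1 l)[j] ∨ q = (src B 1 l)[j] * r := by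
        rcases h with h | h <;> rcases h1 with h1 | h1
        · left; rw [h, ← h1]
        · right; rw [h, h1, mul_assoc, rr, mul_one]
        · right; rw [h, ← h1]
        · left; rw [h, ← h1]
      rcases h2 with h2 | h2
      · left; rw [h2]; exact List.getElem_mem hj'
      · right; exact ⟨_, List.getElem_mem hj', by rw [rc, ← h2]⟩
    obtain ⟨i, hi, h | h | h | h⟩ := H.all q
    · exact fin (2 * i) (by omega) (Or.inl (by rw [col_even]; exact h))
    · exact fin (2 * i) (by omega) (Or.inr (by rw [col_even]; exact h))
    · exact fin (2 * i + 1) (by omega) (Or.inl (by rw [col_odd]; exact h))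
    · exact fin (2 * i + 1) (by omega) (Or.inr (by rw [col_odd]; exact h))

end Pool.Agent.Lib.MP_688fd0_co.SQ4.Small
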