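import Pool.Agent.Lib.MP_688fd0_co.SQ4.Small.LadI

/-!
Ladders: row LRED (from the hypotheses of RIGC to a ladder).
-/

set_option autoImplicit false

namespace Pool.Agent.Lib.MP_688fd0_co.SQ4.Small

open Pool.Agent.Lib.MP_688fd0_co.OSF Pool.Agent.Lib.MP_688fd0_co.SQ2 Pool.Agent.Lib.MP_688fd0_co.SQ3

/-- If `z` is a square modulo `D` of a reflection then `z ^ (2 e) = 1`. -/
theorem ld_sq {Q : Type} [Group Q] [Finite Q] (eps : Q →* ℤˣ) (D : Subgroup Q) (hD : D.Normal) (z c : Q) (k e : ℕ)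
    (hk : Nat.card D ∣ k) (hc : eps c = -1) (hco : (orderOf z).Coprime k) (hz : z⁻¹ * (c * c) ∈ D)
    (hinv : ∀ x, eps x = -1 → x * z ^ e * x⁻¹ = (z ^ e)⁻¹) : z ^ e * z ^ e = 1 := by
  have hDn := hD
  have h1 : (QuotientGroup.mk' D z) = QuotientGroup.mk' D (c * c) := by
    rw [QuotientGroup.mk'_eq_mk']
    exact ⟨z⁻¹ * (c * c), hz, by group⟩
  have h2 : (QuotientGroup.mk' D) (c * z ^ e * c⁻¹) = QuotientGroup.mk' D (z ^ e) := by
    have h3 : Commute (QuotientGroup.mk' D c) (QuotientGroup.mk' D z) := by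
      rw [h1, map_mul]
      exact (Commute.refl _).mul_right (Commute.refl _)
    have h4 := (h3.pow_right e).eq
    rw [map_mul, map_mul, map_inv, map_pow, h4, mul_inv_cancel_right]
  rw [hinv c hc] at h2
  have h5 : z ^ e * z ^ e ∈ D := by
    rw [QuotientGroup.mk'_eq_mk'] at h2
    obtain ⟨y, hy, he⟩ := h2
    have h6 : y = z ^ e * z ^ e := by
      nth_rw 1 [← mul_inv_cancel_left (z ^ e) y]
      rw [he]
    rwa [← h6]
  have h6 : orderOf (z ^ e * z ^ e) ∣ Nat.card D := by
    have := orderOf_dvd_natCard (⟨z ^ e * z ^ e, h5⟩ : D)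
    rwa [Subgroup.orderOf_mk] at this
  have h7 : orderOf (z ^ e * z ^ e) ∣ orderOf z := by
    rw [← pow_add]
    exact orderOf_pow_dvd _
  have h8 : orderOf (z ^ e * z ^ e) ∣ 1 := by
    rw [← Nat.Coprime.gcd_eq_one hco]
    exact Nat.dvd_gcd h7 (h6.trans hk)
  exact orderOf_eq_one_iff.mp (Nat.dvd_one.mp h8)

/-- LRED. -/
theorem ldRed : LdRedS := by
  intro Q _ B a b eps D z r k e hfin hfinL hgen hk hnD hD hcard ha hb hnear hrot hcen hcop hmem hne hinv hr1 hrr hrc hlab
  have hfin_ := hfin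
  have er : eps r = 1 := by
    rcases Int.units_eq_one_or (eps r) with h | h
    · exact h
    · exfalso
      have h1 := hinv r h
      rw [hrc, mul_inv_cancel_right] at h1
      apply hne
      nth_rw 1 [h1]
      exact inv_mul_cancel _
  have hneg : ∀ x, eps x = -1 → x ≠ r := by
    intro x hx h
    rw [h, er] at hx
    exact absurd hx (by decide)
  obtain ⟨s, hs⟩ := hrot
  have hsr : B.q s = r := by
    rcases hlab s with h | h | h | h | h
    · exact h
    · rw [h, ha] at hs; exact absurd hs (by decide)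
    · rw [h, map_mul, er, ha] at hs; exact absurd hs (by decide)
    · rw [h, hb] at hs; exact absurd hs (by decide)
    · rw [h, map_mul, er, hb] at hs; exact absurd hs (by decide)
  have hrD : r ∈ D := by rw [← hsr]; exact hnear s hs
  have hrinv : r⁻¹ = r := inv_eq_of_mul_eq_one_right hrr
  -- squares
  have aa : B.q a * B.q a = 1 ∨ B.q a * B.q a = r := by
    have h0 := hlab (B.inv a)
    rw [B.q_inv] at h0
    rcases h0 with h | h | h | h | h
    · exact absurd h (hneg _ (by rw [map_inv, ha]; decide))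
    · left
      nth_rw 1 [← h]
      exact inv_mul_cancel _
    · right
      have h1 : r * (B.q a * B.q a) = 1 := by rw [← mul_assoc, ← h]; exact inv_mul_cancel _
      have h2 : B.q a * B.q a = r⁻¹ := (inv_eq_of_mul_eq_one_right h1).symm
      rw [h2, hrinv]
    · exfalso
      apply hne
      refine ld_sq eps D hnD z (B.q a) k e hcard ha hcop ?_ hinv
      rw [← h, inv_inv] at hmem
      exact hmem
    · exfalso
      apply hne
      refine ld_sq eps D hnD z (B.q a) k e hcard ha hcop ?_ hinv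
      have h1 : B.q b = r * (B.q a)⁻¹ := by
        rw [h, ← mul_assoc, hrr, one_mul]
      have h2 : z⁻¹ * (B.q a * B.q a) = z⁻¹ * (B.q a * (B.q b)⁻¹) * r := by
        rw [h1, mul_inv_rev, inv_inv, hrinv]
        simp only [mul_assoc, hrr, mul_one]
      rw [h2]
      exact D.mul_mem hmem hrD
  have bb : B.q b * B.q b = 1 ∨ B.q b * B.q b = r := by
    have h0 := hlab (B.inv b)
    rw [B.q_inv] at h0
    rcases h0 with h | h | h | h | h
    · exact absurd h (hneg _ (by rw [map_inv, hb]; decide))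
    · exfalso
      apply hne
      refine ld_sq eps D hnD z (B.q a) k e hcard ha hcop ?_ hinv
      rw [h] at hmem
      exact hmem
    · exfalso
      apply hne
      refine ld_sq eps D hnD z (B.q a) k e hcard ha hcop ?_ hinv
      have h2 : z⁻¹ * (B.q a * B.q a) = z⁻¹ * (B.q a * (B.q b)⁻¹) * r := by
        rw [h, hrc]
        simp only [mul_assoc, hrr, mul_one]
      rw [h2]
      exact D.mul_mem hmem hrD
    · left
      nth_rw 1 [← h]
      exact inv_mul_cancel _
    · right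
      have h1 : r * (B.q b * B.q b) = 1 := by rw [← mul_assoc, ← h]; exact inv_mul_cancel _
      have h2 : B.q b * B.q b = r⁻¹ := (inv_eq_of_mul_eq_one_right h1).symm
      rw [h2, hrinv]
  -- the length
  set w : Q := B.q a * (B.q b)⁻¹ with hw
  have hex : ∃ n : ℕ, 0 < n ∧ (w ^ n = 1 ∨ w ^ n = r) := ⟨orderOf w, orderOf_pos w, Or.inl (pow_orderOf_eq_one w)⟩
  classical
  obtain ⟨hN0, hNw⟩ := Nat.find_spec hex
  have hmin : ∀ i : ℕ, 0 < i → i < Nat.find hex → w ^ i ≠ 1 ∧ w ^ i ≠ r := by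
    intro i hi0 hi
    have h := Nat.find_min hex hi
    push Not at h
    exact h hi0
  set N := Nat.find hex with hN
  -- commutation of `r`
  have hbw : B.q b = w⁻¹ * B.q a := by rw [hw]; group
  have habw : ∀ i : ℤ, w ^ i * B.q a * B.q b = w ^ (i + 1) * (B.q b * B.q b) := by
    intro i
    rw [zpow_add_one, hw]
    group
  have hall' : ∀ x : Q, ∃ i : ℤ, x = w ^ i ∨ x = w ^ i * r ∨ x = w ^ i * B.q a ∨ x = w ^ i * B.q a * r := by
    intro x
    have hx : x ∈ Subgroup.closure (Set.range B.q) := by rw [hgen]; exact Subgroup.mem_top x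
    have hstepr : ∀ x : Q, (∃ i : ℤ, x = w ^ i ∨ x = w ^ i * r ∨ x = w ^ i * B.q a ∨ x = w ^ i * B.q a * r) →
        ∃ i : ℤ, x * r = w ^ i ∨ x * r = w ^ i * r ∨ x * r = w ^ i * B.q a ∨ x * r = w ^ i * B.q a * r := by
      rintro x ⟨i, h | h | h | h⟩
      · exact ⟨i, Or.inr (Or.inl (by rw [h]))⟩
      · exact ⟨i, Or.inl (by rw [h, mul_assoc, hrr, mul_one])⟩
      · exact ⟨i, Or.inr (Or.inr (Or.inr (by rw [h])))⟩
      · exact ⟨i, Or.inr (Or.inr (Or.inl (by rw [h, mul_assoc, hrr, mul_one])))⟩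
    have hstepa : ∀ x : Q, (∃ i : ℤ, x = w ^ i ∨ x = w ^ i * r ∨ x = w ^ i * B.q a ∨ x = w ^ i * B.q a * r) →
        ∃ i : ℤ, x * B.q a = w ^ i ∨ x * B.q a = w ^ i * r ∨ x * B.q a = w ^ i * B.q a ∨
          x * B.q a = w ^ i * B.q a * r := by
      rintro x ⟨i, h | h | h | h⟩
      · exact ⟨i, Or.inr (Or.inr (Or.inl (by rw [h])))⟩
      · exact ⟨i, Or.inr (Or.inr (Or.inr (by rw [h, mul_assoc, hrc, ← mul_assoc])))⟩
      · rcases aa with h' | h'
        · exact ⟨i, Or.inl (by rw [h, mul_assoc, h', mul_one])⟩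
        · exact ⟨i, Or.inr (Or.inl (by rw [h, mul_assoc, h']))⟩
      · rcases aa with h' | h'
        · exact ⟨i, Or.inr (Or.inl (by
            rw [h, mul_assoc, hrc, ← mul_assoc, mul_assoc (w ^ i), h', mul_one]))⟩
        · exact ⟨i, Or.inl (by
            rw [h, mul_assoc, hrc, ← mul_assoc, mul_assoc (w ^ i), h', mul_assoc, hrr, mul_one])⟩
    have hstepb : ∀ x : Q, (∃ i : ℤ, x = w ^ i ∨ x = w ^ i * r ∨ x = w ^ i * B.q a ∨ x = w ^ i * B.q a * r) →
        ∃ i : ℤ, x * B.q b = w ^ i ∨ x * B.q b = w ^ i * r ∨ x * B.q b = w ^ i * B.q a ∨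
          x * B.q b = w ^ i * B.q a * r := by
      rintro x ⟨i, h | h | h | h⟩
      · exact ⟨i - 1, Or.inr (Or.inr (Or.inl (by rw [h, hbw, zpow_sub_one, mul_assoc])))⟩
      · exact ⟨i - 1, Or.inr (Or.inr (Or.inr (by
          rw [h, mul_assoc, hrc, ← mul_assoc, hbw, zpow_sub_one, mul_assoc (w ^ i) w⁻¹])))⟩
      · rcases bb with h' | h'
        · exact ⟨i + 1, Or.inl (by rw [h, habw, h', mul_one])⟩
        · exact ⟨i + 1, Or.inr (Or.inl (by rw [h, habw, h']))⟩
      · rcases bb with h' | h'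
        · exact ⟨i + 1, Or.inr (Or.inl (by
            rw [h, mul_assoc, hrc, ← mul_assoc, habw, h', mul_one]))⟩
        · exact ⟨i + 1, Or.inl (by
            rw [h, mul_assoc, hrc, ← mul_assoc, habw, h', mul_assoc, hrr, mul_one])⟩
    have hstep : ∀ g : B.L, ∀ x : Q,
        (∃ i : ℤ, x = w ^ i ∨ x = w ^ i * r ∨ x = w ^ i * B.q a ∨ x = w ^ i * B.q a * r) →
        ∃ i : ℤ, x * B.q g = w ^ i ∨ x * B.q g = w ^ i * r ∨ x * B.q g = w ^ i * B.q a ∨
          x * B.q g = w ^ i * B.q a * r := by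
      intro g x hx
      rcases hlab g with h | h | h | h | h
      · rw [h]; exact hstepr x hx
      · rw [h]; exact hstepa x hx
      · rw [h, ← mul_assoc]; exact hstepa _ (hstepr x hx)
      · rw [h]; exact hstepb x hx
      · rw [h, ← mul_assoc]; exact hstepb _ (hstepr x hx)
    induction hx using Subgroup.closure_induction_right with
    | one => exact ⟨0, Or.inl (by rw [zpow_zero])⟩
    | mul_right x hx y hy ih =>
      obtain ⟨g, rfl⟩ := hy
      exact hstep g x ih
    | mul_inv_cancel x hx y hy ih =>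
      obtain ⟨g, rfl⟩ := hy
      rw [← B.q_inv]
      exact hstep (B.inv g) x ih
  have hNred : ∀ j : ℤ, w ^ ((N : ℤ) * j) = 1 ∨ w ^ ((N : ℤ) * j) = r := by
    intro j
    rw [zpow_mul, zpow_natCast]
    rcases hNw with h | h
    · left; rw [h, one_zpow]
    · rw [h]
      rcases Int.even_or_odd' j with ⟨i, hi | hi⟩
      · left
        rw [hi, zpow_mul, zpow_two, hrr, one_zpow]
      · right
        rw [hi, zpow_add_one, zpow_mul, zpow_two, hrr, one_zpow, one_mul]
  have hred : ∀ i : ℤ, ∃ i' < N, w ^ i = w ^ i' ∨ w ^ i = w ^ i' * r := by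
    intro i
    have hNpos : (0 : ℤ) < N := by exact_mod_cast hN0
    refine ⟨(i % N).toNat, ?_, ?_⟩
    · have h1 := Int.emod_lt_of_pos i hNpos
      have h2 := Int.emod_nonneg i hNpos.ne'
      omega
    · have h2 := Int.emod_nonneg i hNpos.ne'
      have h3 : w ^ i = w ^ (i % N).toNat * w ^ ((N : ℤ) * (i / N)) := by
        rw [← zpow_natCast w (i % N).toNat, Int.toNat_of_nonneg h2, ← zpow_add, Int.emod_add_mul_ediv]
      rcases hNred (i / N) with h | h
      · left; rw [h3, h, mul_one]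
      · right; rw [h3, h]
  have hall : ∀ x : Q, ∃ i < N, x = w ^ i ∨ x = w ^ i * r ∨ x = w ^ i * B.q a ∨ x = w ^ i * B.q a * r := by
    intro x
    obtain ⟨i, hi⟩ := hall' x
    obtain ⟨i', hi', hw'⟩ := hred i
    refine ⟨i', hi', ?_⟩
    rcases hw' with h' | h'
    · rw [h'] at hi
      exact hi
    · rw [h'] at hi
      rcases hi with h | h | h | h
      · exact Or.inr (Or.inl h)
      · exact Or.inl (by rw [h, mul_assoc, hrr, mul_one])
      · exact Or.inr (Or.inr (Or.inr (by rw [h, mul_assoc, hrc, ← mul_assoc])))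
      · exact Or.inr (Or.inr (Or.inl (by
          rw [h, mul_assoc (w ^ i'), hrc, mul_assoc, mul_assoc, hrr, mul_one])))
  -- the order
  have hord : orderOf (z ^ k) ≤ 2 * N := by
    have hcomm : Commute z (z⁻¹ * w) := by
      have h1 : eps (z⁻¹ * w) = 1 := hD hmem
      exact (hcen _ h1).symm
    have hdk : (z⁻¹ * w) ^ k = 1 := by
      obtain ⟨j, hj⟩ := hcard
      have h1 : (z⁻¹ * w) ^ Nat.card D = 1 := by
        have := pow_card_eq_one' (x := (⟨z⁻¹ * w, hmem⟩ : D))
        exact congrArg Subtype.val this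
      rw [hj, pow_mul, h1, one_pow]
    have hwk : w ^ k = z ^ k := by
      have h1 := hcomm.mul_pow k
      rw [mul_inv_cancel_left, hdk, mul_one] at h1
      exact h1
    refine orderOf_le_of_pow_eq_one (by omega) ?_
    rw [← hwk, ← pow_mul, show k * (2 * N) = N * 2 * k by ring, pow_mul, pow_mul]
    rcases hNw with h | h
    · rw [h, one_pow, one_pow]
    · rw [h, pow_two, hrr, one_pow]
  exact ⟨N, hord, hfin, hfinL, hrr, fun x => hrc x, er, ha, hb, aa, bb, hlab, ⟨s, hsr⟩, hN0, hNw, hmin, hall⟩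

end Pool.Agent.Lib.MP_688fd0_co.SQ4.Small
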