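import Pool.Agent.Lib.MP_688fd0_co.SQ4.Small.LadA
import Pool.Agent.Lib.MP_688fd0_co.SQ4.Small.LadC
import Pool.Agent.Lib.MP_688fd0_co.SQ4.Small.LadR
import Pool.Agent.Lib.MP_688fd0_co.SQ4.Small.Dih
import Pool.Agent.Lib.MP_688fd0_co.SQ4.Small.Iface

/-!
Row RIGC: the ladders.
-/

set_option autoImplicit false

namespace Pool.Agent.Lib.MP_688fd0_co.SQ4.Small

open Pool.Agent.Lib.MP_688fd0_co.OSF Pool.Agent.Lib.MP_688fd0_co.SQ2 Pool.Agent.Lib.MP_688fd0_co.SQ3
open Pool.Agent.Lib.MP_688fd0_co.SQ4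
open Pool.Agent.Lib.MP_688fd0_co.SQ3.Small (HP rd ArS T1aS FacS)

theorem Ld.dvd {Q : Type} [Group Q] {B : Lb.{0, 0} Q} {a b : B.L} {eps : Q →* ℤˣ} {r : Q} {N : ℕ}
    (H : Ld B a b eps r N) : N ∣ Nat.card Q := by
  have := H.fin
  have hmn := H.mn
  have hpw := H.pw
  refine dvd_trans ?_ (orderOf_dvd_natCard (B.q a * (B.q b)⁻¹))
  generalize B.q a * (B.q b)⁻¹ = w at hmn hpw ⊢
  have ho : 0 < orderOf w := orderOf_pos w
  have hN := H.N0
  have h1 : N ≤ orderOf w := by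
    by_contra h
    exact (hmn _ ho (by omega)).1 (pow_orderOf_eq_one w)
  rcases hpw with h | h
  · have h2 := Nat.le_of_dvd hN (orderOf_dvd_of_pow_eq_one h)
    rw [show orderOf w = N by omega]
  · have h2 : w ^ (2 * N) = 1 := by rw [two_mul, pow_add, h, H.rr]
    obtain ⟨t, ht⟩ := orderOf_dvd_of_pow_eq_one h2
    have h3 : t ≠ 0 := by
      rintro rfl
      omega
    have h4 : t ≤ 2 := by
      by_contra h4
      have : orderOf w * 3 ≤ orderOf w * t := Nat.mul_le_mul_left _ (by omega)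
      omega
    have h5 : t = 1 ∨ t = 2 := by omega
    rcases h5 with rfl | rfl
    · exact ⟨2, by omega⟩
    · exact ⟨1, by omega⟩

/-- The new condition implies the old one. -/
theorem kapO_of_kapV {Q : Type} [Group Q] {B : Lb.{0, 0} Q} {a b : B.L} {eps : Q →* ℤˣ} {F : Type} [Field F]
    (V : Vd B F) (hgen : Subgroup.closure (Set.range B.q) = ⊤) (ha : eps (B.q a) = -1) (hb : eps (B.q b) = -1)
    (hK : KapV V a b eps) : KapO V eps := by
  by_cases h1 : ∀ x, eps x = 1 → V.chi x = 1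
  · right
    refine ⟨h1, ?_⟩
    rcases hK with ⟨⟨t, ht, ht1⟩, -⟩ | ⟨t, ht, -, hn⟩ | ⟨s, hs, hn⟩
    · exact absurd (h1 _ ht) ht1
    · exact ⟨t, ht, hn⟩
    · exfalso
      apply hn
      rw [kapW, h1 (B.q a * (B.q b)⁻¹) (by rw [map_mul, map_inv, ha, hb]; decide),
        h1 (B.q s * (B.q a)⁻¹) (by rw [map_mul, map_inv, hs, ha]; decide)]
      ring
  · left
    push Not at h1
    obtain ⟨x, hx, hx1⟩ := h1
    refine ⟨⟨x, hx, hx1⟩, ?_⟩
    by_contra hk
    push Not at hk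
    obtain ⟨g, hg⟩ : ∃ g, V.chi (B.q g) ≠ 1 := by
      by_contra h
      push Not at h
      apply hx1
      clear hx hx1
      have h2 : x ∈ Subgroup.closure (Set.range B.q) := by rw [hgen]; trivial
      induction h2 using Subgroup.closure_induction with
      | mem y hy =>
        obtain ⟨l, rfl⟩ := hy
        exact h l
      | one => exact map_one _
      | mul y z _ _ h3 h4 => rw [map_mul, h3, h4, one_mul]
      | inv y _ h3 =>
        have h4 : V.chi y * V.chi y⁻¹ = 1 := by rw [← map_mul, mul_inv_cancel, map_one]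
        rwa [h3, one_mul] at h4
    have hg1 : V.chi (B.q g) - 1 ≠ 0 := sub_ne_zero.2 hg
    obtain ⟨u, hu⟩ : ∃ u, V.n g = (V.chi (B.q g) - 1) * u := ⟨V.n g / (V.chi (B.q g) - 1), by
      rw [mul_div_cancel₀ _ hg1]⟩
    have hall : ∀ t, V.n t = (V.chi (B.q t) - 1) * u := by
      intro t
      have h2 := hk g t
      rw [Vd.kap, hu] at h2
      refine mul_left_cancel₀ hg1 ?_
      linear_combination h2
    have hai : V.chi (B.q a) * V.chi (B.q a)⁻¹ = 1 := by rw [← map_mul, mul_inv_cancel, map_one]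
    have hbi : V.chi (B.q b) * V.chi (B.q b)⁻¹ = 1 := by rw [← map_mul, mul_inv_cancel, map_one]
    rcases hK with ⟨-, s, t, h⟩ | ⟨t, -, h3, h4⟩ | ⟨s, -, h⟩
    · exact h (hk s t)
    · apply h4
      rw [hall t, h3, sub_self, zero_mul]
    · apply h
      rw [kapW, hall s, hall a, hall b]
      simp only [map_mul]
      linear_combination (-(V.chi (B.q a) * V.chi (B.q b)⁻¹ - 1) * V.chi (B.q s) * u) * hai +
        (V.chi (B.q s) * V.chi (B.q a)⁻¹ - 1) * V.chi (B.q a) * u * hbi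

theorem rigC (hT1 : T1BS) (hZ : T1ZS) (har : ArS) (hDih : DihS) : RigCS := by
  intro Q _ B a b eps D z k H hR c W m V hN hz hK
  obtain ⟨r, hr1, hrr, hrc, hlab⟩ := hR
  obtain ⟨e, he, hinv⟩ := H.inv
  obtain ⟨N, hNo, HL⟩ := ldRed Q B a b eps D z r k e H.fin H.finL H.gen H.kpos H.nD H.leD H.card H.ea H.eb H.near
    H.rot H.cen H.cop H.mem he hinv hr1 hrr hrc hlab
  refine lad hT1 hZ ldCov har hDih HL V hN.sq hN.odd (fun p hp => ⟨(hN.prm p hp).2.1, fun h =>
    (hN.prm p hp).2.2 (h.trans HL.dvd)⟩) ?_ fun p hp => ?_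
  · set ω := m.primeFactors.card with hω
    have h1 := hN.need
    have h2 := hN.big
    rw [← hω] at h1
    have hk := H.kpos
    have h3 : 400 * (ω + 2) ^ 2 ≤ W := by
      refine le_trans ?_ h1
      unfold needC
      have h4 : 4 ≤ lamC ((Nat.card B.L + 2) ^ 4 * k) k c + 4 * k := by omega
      have h5 : 1 ≤ 2 ^ (2 * ω) := Nat.one_le_two_pow
      have h6 : (ω + 2) ^ 2 ≤ (2 * ω + 2) ^ 2 := Nat.pow_le_pow_left (by omega) 2
      calc 400 * (ω + 2) ^ 2 = 100 * (ω + 2) ^ 2 * 1 * 4 := by ring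
        _ ≤ _ := Nat.mul_le_mul (Nat.mul_le_mul (Nat.mul_le_mul_left _ h6) h5) h4
    have h7 : 2 ^ 40 * 1 * W ≤ (Nat.card B.L + 2) ^ 40 * k ^ 20 * W ^ 2 := by
      refine Nat.mul_le_mul (Nat.mul_le_mul (Nat.pow_le_pow_left (by omega) 40) (Nat.one_le_pow _ _ hk)) ?_
      nlinarith [Nat.zero_le W]
    have h8 : 2000 * (ω + 2) ^ 2 ≤ 2 ^ 40 * 1 * W := by
      have : 2000 * (ω + 2) ^ 2 = 5 * (400 * (ω + 2) ^ 2) := by ring
      rw [this]
      have h9 : 5 * (400 * (ω + 2) ^ 2) ≤ 5 * W := Nat.mul_le_mul_left _ h3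
      omega
    omega
  · have : Fact p.Prime := ⟨Nat.prime_of_mem_primeFactors hp⟩
    exact kapO_of_kapV _ H.gen H.ea H.eb (hK p hp)

end Pool.Agent.Lib.MP_688fd0_co.SQ4.Small
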