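import Pool.Agent.Lib.MP_688fd0_co.SQ3.Small.Iface

/-!
Ladders (row RIGC): statements.

The group `Q` is generated by a central involution `r` and two reflections `q a`, `q b` with squares in `{1, r}`; all
labels lie over `r`, `a`, `r a`, `b`, `r b`. The columns are `x₀ = 1`, `x₁ = a`, `x₂ = w = a b⁻¹`, `x₃ = w a`, ...; the
other line is `r x`. A world consists of two closed walks `lX` from `1` and `lY` from `r` whose labels have the same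
images; every label goes up, straight or across.
-/

set_option autoImplicit false

namespace Pool.Agent.Lib.MP_688fd0_co.SQ4.Small

open Pool.Agent.Lib.MP_688fd0_co.OSF Pool.Agent.Lib.MP_688fd0_co.SQ2 Pool.Agent.Lib.MP_688fd0_co.SQ3
open Pool.Agent.Lib.MP_688fd0_co.SQ3.Small (HP rd)

/-! ### Two closed walks -/

/-- Two disjoint closed walks through all vertices. -/
structure TwoC {Q : Type} [Group Q] (B : Lb.{0, 0} Q) (x₀ y₀ : Q) (lX lY : List B.L) : Prop where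
  fx : B.fin x₀ lX = x₀
  fy : B.fin y₀ lY = y₀
  nd : (src B x₀ lX ++ src B y₀ lY).Nodup
  all : ∀ q, q ∈ src B x₀ lX ++ src B y₀ lY

/-- T1B: two closed walks. `X` is entered at `x₀` and traversed in one of the two directions, a rung leads from the
neighbour `x₁` (`x₋₁`) to the other walk, which is traversed in the opposite direction up to `y₀`; `s` leads back to
`x₀`. At every prime both volumes are not zero, or both are zero and a step is not. -/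
def T1BS : Prop :=
  ∀ (Q : Type) [Group Q] [Finite Q] (B : Lb.{0, 0} Q) (m : ℕ) [NeZero m] (V : Vd B (ZMod m)) (x₀ y₀ r : Q)
    (g₀ gX h₀ gY s : B.L) (lX lY : List B.L), Squarefree m →
    (∀ x, r * x = x * r) → r * r = 1 → y₀ = x₀ * r → B.q s = r → B.q h₀ = B.q g₀ → B.q gY = B.q gX →
    TwoC B x₀ y₀ (g₀ :: (lX ++ [gX])) (h₀ :: (lY ++ [gY])) →
    (∀ p ∈ m.primeFactors,
      (rd p (V.vol x₀ (g₀ :: (lX ++ [gX]))) ≠ 0 ∧ rd p (V.vol y₀ (h₀ :: (lY ++ [gY]))) ≠ 0) ∨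
      (rd p (V.vol x₀ (g₀ :: (lX ++ [gX]))) = 0 ∧ rd p (V.vol y₀ (h₀ :: (lY ++ [gY]))) = 0 ∧
        ∃ k, B.q k = r ∧ (rd p (V.vol x₀ [g₀, k, B.inv h₀, s]) ≠ 0 ∨
          rd p (V.vol x₀ [B.inv gX, k, gY, s]) ≠ 0))) → HP V

/-- T1Z: two closed walks and a label `c` which leads from `x₀` to `y₁` and from `y₀` to `x₁`. At the third kind of primes
the rungs do not generate; one goes from one run to the next by `c` or its inverse, at `x₀` and `x₁` alternately. -/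
def T1ZS : Prop :=
  ∀ (Q : Type) [Group Q] [Finite Q] (B : Lb.{0, 0} Q) (m : ℕ) [NeZero m] (V : Vd B (ZMod m)) (x₀ x₁ y₀ y₁ r : Q)
    (g₀ g₁ gX h₀ h₁ gY s c : B.L) (lX lY : List B.L), Squarefree m →
    (∀ x, r * x = x * r) → r * r = 1 → y₀ = x₀ * r → B.q s = r → B.q h₀ = B.q g₀ → B.q h₁ = B.q g₁ →
    B.q gY = B.q gX → x₁ = x₀ * B.q g₀ → y₁ = y₀ * B.q h₀ → B.q c = B.q g₀ * r →
    TwoC B x₀ y₀ (g₀ :: g₁ :: (lX ++ [gX])) (h₀ :: h₁ :: (lY ++ [gY])) →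
    (∀ p ∈ m.primeFactors,
      (rd p (V.vol x₀ (g₀ :: g₁ :: (lX ++ [gX]))) ≠ 0 ∧ rd p (V.vol y₀ (h₀ :: h₁ :: (lY ++ [gY]))) ≠ 0) ∨
      (rd p (V.vol x₀ (g₀ :: g₁ :: (lX ++ [gX]))) = 0 ∧ rd p (V.vol y₀ (h₀ :: h₁ :: (lY ++ [gY]))) = 0 ∧
        (((∃ k, B.q k = r ∧ (rd p (V.vol x₀ [g₀, k, B.inv h₀, s]) ≠ 0 ∨
              rd p (V.vol x₀ [B.inv gX, k, gY, s]) ≠ 0)) ∧
            ∃ k, B.q k = r ∧ (rd p (V.vol x₁ [g₁, k, B.inv h₁, s]) ≠ 0 ∨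
              rd p (V.vol x₁ [B.inv g₀, k, h₀, s]) ≠ 0)) ∨
          ((∀ k, B.q k = r → rd p (V.vol x₀ [g₀, k, B.inv h₀, s]) = 0 ∧
              rd p (V.vol x₀ [B.inv gX, k, gY, s]) = 0 ∧ rd p (V.vol x₁ [g₁, k, B.inv h₁, s]) = 0 ∧
              rd p (V.vol x₁ [B.inv g₀, k, h₀, s]) = 0) ∧
            rd p (V.vol y₀ [s, g₀, B.inv c]) = rd p (V.vol y₁ [s, B.inv g₀, c]) ∧
            rd p (V.vol y₀ [s, g₀, B.inv c]) ≠ 0)))) → HP V

/-! ### The ladder -/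

/-- The ladder of length `2 N`. -/
structure Ld {Q : Type} [Group Q] (B : Lb.{0, 0} Q) (a b : B.L) (eps : Q →* ℤˣ) (r : Q) (N : ℕ) : Prop where
  fin : Finite Q
  finL : Finite B.L
  rr : r * r = 1
  rc : ∀ x, r * x = x * r
  er : eps r = 1
  ea : eps (B.q a) = -1
  eb : eps (B.q b) = -1
  aa : B.q a * B.q a = 1 ∨ B.q a * B.q a = r
  bb : B.q b * B.q b = 1 ∨ B.q b * B.q b = r
  lab : ∀ g, B.q g = r ∨ B.q g = B.q a ∨ B.q g = r * B.q a ∨ B.q g = B.q b ∨ B.q g = r * B.q b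
  rot : ∃ s, B.q s = r
  N0 : 0 < N
  pw : (B.q a * (B.q b)⁻¹) ^ N = 1 ∨ (B.q a * (B.q b)⁻¹) ^ N = r
  mn : ∀ i : ℕ, 0 < i → i < N → (B.q a * (B.q b)⁻¹) ^ i ≠ 1 ∧ (B.q a * (B.q b)⁻¹) ^ i ≠ r
  all : ∀ x : Q, ∃ i < N, x = (B.q a * (B.q b)⁻¹) ^ i ∨ x = (B.q a * (B.q b)⁻¹) ^ i * r ∨
    x = (B.q a * (B.q b)⁻¹) ^ i * B.q a ∨ x = (B.q a * (B.q b)⁻¹) ^ i * B.q a * r

/-- Labels which go up, straight or across: over `a`, `a r` at the even levels, over `b⁻¹`, `b⁻¹ r` at the odd ones. -/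
def Alt {Q : Type} [Group Q] (B : Lb.{0, 0} Q) (a b : B.L) (r : Q) : List B.L → Prop
  | [] => True
  | [_] => False
  | g :: h :: l => (B.q g = B.q a ∨ B.q g = B.q a * r) ∧ (B.q h = (B.q b)⁻¹ ∨ B.q h = (B.q b)⁻¹ * r) ∧ Alt B a b r l

/-- LCOV: worlds. -/
def LdCovS : Prop :=
  ∀ (Q : Type) [Group Q] (B : Lb.{0, 0} Q) (a b : B.L) (eps : Q →* ℤˣ) (r : Q) (N : ℕ), Ld B a b eps r N →
    ∀ l l' : List B.L, Alt B a b r l → l.length = 2 * N → B.fin 1 l = 1 →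
      List.Forall₂ (fun g g' => B.q g = B.q g') l l' → TwoC B 1 r l l'

/-- The words `a b⁻¹ a b⁻¹ ...` (`t` times). -/
def rep2 {Q : Type} [Group Q] {B : Lb.{0, 0} Q} (a b : B.L) (t : ℕ) : List B.L :=
  (List.replicate t [a, B.inv b]).flatten

/-- The condition on the voltages (old form of `KapV`). -/
def KapO {Q : Type} [Group Q] {B : Lb.{0, 0} Q} {R : Type} [CommRing R] (V : Vd B R) (eps : Q →* ℤˣ) : Prop :=
  ((∃ x, eps x = 1 ∧ V.chi x ≠ 1) ∧ ∃ s t, V.kap s t ≠ 0) ∨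
    ((∀ x, eps x = 1 → V.chi x = 1) ∧ ∃ t : B.L, eps (B.q t) = 1 ∧ V.n t ≠ 0)

/-- LRED: from the hypotheses of RIGC to a ladder. `y` is a power of `z` which is inverted by the reflections. -/
def LdRedS : Prop :=
  ∀ (Q : Type) [Group Q] (B : Lb.{0, 0} Q) (a b : B.L) (eps : Q →* ℤˣ) (D : Subgroup Q) (z r : Q) (k e : ℕ),
    Finite Q → Finite B.L → Subgroup.closure (Set.range B.q) = ⊤ → 0 < k → D.Normal → D ≤ eps.ker → Nat.card D ∣ k →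
    eps (B.q a) = -1 → eps (B.q b) = -1 → (∀ s : B.L, eps (B.q s) = 1 → B.q s ∈ D) → (∃ s : B.L, eps (B.q s) = 1) →
    (∀ x : Q, eps x = 1 → x * z = z * x) → (orderOf z).Coprime k → z⁻¹ * (B.q a * (B.q b)⁻¹) ∈ D →
    z ^ e * z ^ e ≠ 1 → (∀ x, eps x = -1 → x * z ^ e * x⁻¹ = (z ^ e)⁻¹) →
    r ≠ 1 → r * r = 1 → (∀ x, r * x = x * r) →
    (∀ g, B.q g = r ∨ B.q g = B.q a ∨ B.q g = r * B.q a ∨ B.q g = B.q b ∨ B.q g = r * B.q b) →
    ∃ N : ℕ, orderOf (z ^ k) ≤ 2 * N ∧ Ld B a b eps r N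

/-- PRIMES, a crossing label `c` over `a r`. Hypotheses: `p` does not divide `N`, all slots of length eight have the
volume of the straight slot and the straight world (with one crossing if `w ^ N = r`) has volume zero. -/
def LdPrCS : Prop :=
  ∀ (Q : Type) [Group Q] (B : Lb.{0, 0} Q) (a b : B.L) (eps : Q →* ℤˣ) (r : Q) (N : ℕ), Ld B a b eps r N →
    ∀ (p : ℕ) (_ : Fact p.Prime) (V : Vd B (ZMod p)) (c s : B.L), p ≠ 2 → ¬ p ∣ N → B.q c = B.q a * r → B.q s = r →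
    KapO V eps →
    (∀ l, Alt B a b r l → l.length = 8 → B.fin 1 l = (B.q a * (B.q b)⁻¹) ^ 4 → V.vol 1 l = V.vol 1 (rep2 a b 4)) →
    (((B.q a * (B.q b)⁻¹) ^ N = 1 ∧ V.vol 1 (rep2 a b N) = 0) ∨
      ((B.q a * (B.q b)⁻¹) ^ N = r ∧ ∃ i j, N = i + 1 + j ∧
        V.vol 1 (rep2 a b i ++ c :: B.inv b :: rep2 a b j) = 0)) →
    ((∃ k, B.q k = r ∧ (V.vol 1 [a, k, B.inv a, s] ≠ 0 ∨ V.vol 1 [B.inv (B.inv b), k, B.inv b, s] ≠ 0)) ∧
      ∃ k, B.q k = r ∧ (V.vol (B.q a) [B.inv b, k, B.inv (B.inv b), s] ≠ 0 ∨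
        V.vol (B.q a) [B.inv a, k, a, s] ≠ 0)) ∨
    ((∀ k, B.q k = r → V.vol 1 [a, k, B.inv a, s] = 0 ∧ V.vol 1 [B.inv (B.inv b), k, B.inv b, s] = 0 ∧
        V.vol (B.q a) [B.inv b, k, B.inv (B.inv b), s] = 0 ∧ V.vol (B.q a) [B.inv a, k, a, s] = 0) ∧
      V.vol r [s, a, B.inv c] = V.vol (r * B.q a) [s, B.inv a, c] ∧ V.vol r [s, a, B.inv c] ≠ 0)

/-- PRIMES, no crossing label, `w ^ N = 1`. -/
def LdPrNS : Prop :=
  ∀ (Q : Type) [Group Q] (B : Lb.{0, 0} Q) (a b : B.L) (eps : Q →* ℤˣ) (r : Q) (N : ℕ), Ld B a b eps r N →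
    ∀ (p : ℕ) (_ : Fact p.Prime) (V : Vd B (ZMod p)) (s : B.L), p ≠ 2 → ¬ p ∣ N → B.q s = r →
    (∀ g, B.q g ≠ B.q a * r) → (∀ g, B.q g ≠ B.q b * r) → (B.q a * (B.q b)⁻¹) ^ N = 1 → KapO V eps →
    (∀ l, Alt B a b r l → l.length = 8 → B.fin 1 l = (B.q a * (B.q b)⁻¹) ^ 4 → V.vol 1 l = V.vol 1 (rep2 a b 4)) →
    V.vol 1 (rep2 a b N) = 0 →
    ∃ k, B.q k = r ∧ (V.vol 1 [a, k, B.inv a, s] ≠ 0 ∨ V.vol 1 [B.inv (B.inv b), k, B.inv b, s] ≠ 0)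

end Pool.Agent.Lib.MP_688fd0_co.SQ4.Small
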