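import Pool.Agent.Lib.MP_688fd0_co.SQ4.Small.LadI

/-!
Ladders, one prime (rows LdPrC, LdPrN). If all slots have the volume of the straight slot and the straight world has
volume zero, then all labels over reflections come from a potential with two constants (`Pot`).
-/

set_option autoImplicit false

namespace Pool.Agent.Lib.MP_688fd0_co.SQ4.Small

open Pool.Agent.Lib.MP_688fd0_co.OSF Pool.Agent.Lib.MP_688fd0_co.SQ2 Pool.Agent.Lib.MP_688fd0_co.SQ3
open Pool.Agent.Lib.MP_688fd0_co.SQ3.Small (HP rd)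

section

variable {Q : Type} [Group Q] {B : Lb.{0, 0} Q} {a b : B.L} {eps : Q →* ℤˣ} {r : Q} {N : ℕ}

theorem Ld.ai (H : Ld B a b eps r N) : (B.q a)⁻¹ = B.q a ∨ (B.q a)⁻¹ = B.q a * r := by
  rcases H.aa with h | h
  · exact Or.inl (inv_eq_of_mul_eq_one_right h)
  · refine Or.inr (inv_eq_of_mul_eq_one_right ?_)
    rw [← mul_assoc, h, H.rr]

theorem Ld.bi (H : Ld B a b eps r N) : (B.q b)⁻¹ = B.q b ∨ (B.q b)⁻¹ = B.q b * r := by
  rcases H.bb with h | h
  · exact Or.inl (inv_eq_of_mul_eq_one_right h)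
  · refine Or.inr (inv_eq_of_mul_eq_one_right ?_)
    rw [← mul_assoc, h, H.rr]

theorem Ld.ri (H : Ld B a b eps r N) : r⁻¹ = r := inv_eq_of_mul_eq_one_right H.rr

theorem Ld.lab' (H : Ld B a b eps r N) (g : B.L) (hg : eps (B.q g) = -1) :
    (B.q g = B.q a ∨ B.q g = B.q a * r) ∨ (B.q g = (B.q b)⁻¹ ∨ B.q g = (B.q b)⁻¹ * r) := by
  rcases H.lab g with h | h | h | h | h
  · rw [h, H.er] at hg
    exact absurd hg (by decide)
  · exact Or.inl (Or.inl h)
  · exact Or.inl (Or.inr (h.trans (H.rc _)))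
  · right
    rcases H.bi with h1 | h1
    · exact Or.inl (h.trans h1.symm)
    · exact Or.inr (by rw [h, h1, mul_assoc, H.rr, mul_one])
  · right
    rw [h, H.rc]
    rcases H.bi with h1 | h1
    · exact Or.inr (by rw [h1])
    · exact Or.inl h1.symm

theorem Ld.rot' (H : Ld B a b eps r N) (g : B.L) (hg : eps (B.q g) ≠ -1) : B.q g = r := by
  rcases H.lab g with h | h | h | h | h
  · exact h
  · exact absurd (by rw [h]; exact H.ea) hg
  · exact absurd (by rw [h, map_mul, H.er, H.ea, one_mul]) hg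
  · exact absurd (by rw [h]; exact H.eb) hg
  · exact absurd (by rw [h, map_mul, H.er, H.eb, one_mul]) hg

variable {F : Type} [Field F] (V : Vd B F)

/-- A potential with two constants. -/
structure Pot (a b : B.L) (r : Q) (cp cm : F) : Prop where
  up : ∀ g, B.q g = B.q a ∨ B.q g = B.q a * r → V.n g = V.chi (B.q g) * cm - cp
  dn : ∀ g, B.q g = (B.q b)⁻¹ ∨ B.q g = (B.q b)⁻¹ * r → V.n g = V.chi (B.q g) * cp - cm

theorem chi_inv (x : Q) : V.chi x * V.chi x⁻¹ = 1 := by rw [← map_mul, mul_inv_cancel, map_one]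

theorem chi_ne (x : Q) : V.chi x ≠ 0 := left_ne_zero_of_mul_eq_one (chi_inv V x)

theorem n_inv' (g : B.L) : V.chi (B.q g) * V.n (B.inv g) = -V.n g := by
  rw [V.n_inv, mul_neg, ← mul_assoc, chi_inv, one_mul]

theorem Pot.refl (H : Ld B a b eps r N) {cp cm : F} (hP : Pot V a b r cp cm) (g : B.L) (hg : eps (B.q g) = -1) :
    V.n g = V.chi (B.q g) * cm - cp ∧ V.n g = V.chi (B.q g) * cp - cm := by
  have hi := n_inv' V g
  have hc := chi_inv V (B.q g)
  rcases H.lab' g hg with h | h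
  · refine ⟨hP.up g h, ?_⟩
    have h1 := hP.up (B.inv g) (by
      rw [B.q_inv]
      rcases h with h | h
      · rw [h]; exact H.ai
      · rw [h, mul_inv_rev, H.ri, H.rc]
        rcases H.ai with h2 | h2
        · exact Or.inr (by rw [h2])
        · exact Or.inl (by rw [h2, mul_assoc, H.rr, mul_one]))
    rw [B.q_inv] at h1
    rw [h1] at hi
    linear_combination hi - cm * hc
  · refine ⟨?_, hP.dn g h⟩
    have h1 := hP.dn (B.inv g) (by
      rw [B.q_inv]
      rcases h with h | h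
      · rw [h, inv_inv]
        rcases H.bi with h2 | h2
        · exact Or.inl h2.symm
        · exact Or.inr (by rw [h2, mul_assoc, H.rr, mul_one])
      · rw [h, mul_inv_rev, H.ri, inv_inv, H.rc]
        rcases H.bi with h2 | h2
        · exact Or.inr (by rw [h2])
        · exact Or.inl h2.symm)
    rw [B.q_inv] at h1
    rw [h1] at hi
    linear_combination hi - cp * hc

theorem Ld.chi_er (H : Ld B a b eps r N) (hw : V.chi (B.q a * (B.q b)⁻¹) = 1) (hr : V.chi r = 1) (x : Q)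
    (hx : eps x = 1) : V.chi x = 1 := by
  have hew : eps (B.q a * (B.q b)⁻¹) = 1 := by rw [map_mul, map_inv, H.ea, H.eb]; decide
  obtain ⟨i, -, h | h | h | h⟩ := H.all x
  · rw [h, map_pow, hw, one_pow]
  · rw [h, map_mul, map_pow, hw, one_pow, hr, one_mul]
  · rw [h, map_mul, map_pow, hew, H.ea, one_pow, one_mul] at hx
    exact absurd hx (by decide)
  · rw [h, map_mul, map_mul, map_pow, hew, H.ea, H.er, one_pow, one_mul, mul_one] at hx
    exact absurd hx (by decide)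

/-- Not all rungs come from the potential. -/
theorem pot_ne (H : Ld B a b eps r N) {cp cm : F} (hP : Pot V a b r cp cm)
    (hK : KapO V eps) (hz : ∀ k, B.q k = r → V.n k = (V.chi r - 1) * cp ∧ V.n k = (V.chi r - 1) * cm) : False := by
  have hall : ∀ g, V.n g = V.chi (B.q g) * cm - cp ∨ B.q g = r := by
    intro g
    by_cases hg : eps (B.q g) = -1
    · exact Or.inl (hP.refl V H g hg).1
    · exact Or.inr (H.rot' g hg)
  by_cases hc : cm = cp
  · subst hc
    have h1 : ∀ g, V.n g = (V.chi (B.q g) - 1) * cm := by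
      intro g
      by_cases hg : eps (B.q g) = -1
      · rw [(hP.refl V H g hg).1]; ring
      · rw [(hz g (H.rot' g hg)).1, H.rot' g hg]
    rcases hK with ⟨-, s, t, h⟩ | ⟨h, t, ht, h2⟩
    · apply h
      rw [Vd.kap, h1 s, h1 t]; ring
    · apply h2
      rw [h1 t, h _ ht, sub_self, zero_mul]
  · have h1 : ∀ g, eps (B.q g) = -1 → V.chi (B.q g) = -1 := by
      intro g hg
      obtain ⟨h2, h3⟩ := hP.refl V H g hg
      have h4 : (V.chi (B.q g) + 1) * (cm - cp) = 0 := by linear_combination h3 - h2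
      rcases mul_eq_zero.1 h4 with h5 | h5
      · linear_combination h5
      · exact absurd (sub_eq_zero.1 h5) hc
    obtain ⟨s, hs⟩ := H.rot
    have h2 : V.chi r = 1 := by
      obtain ⟨h3, h4⟩ := hz s hs
      have h5 : (V.chi r - 1) * (cm - cp) = 0 := by linear_combination h3 - h4
      rcases mul_eq_zero.1 h5 with h6 | h6
      · linear_combination h6
      · exact absurd (sub_eq_zero.1 h6) hc
    have h3 : V.chi (B.q a * (B.q b)⁻¹) = 1 := by
      have h4 := chi_inv V (B.q b)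
      rw [h1 b H.eb] at h4
      rw [map_mul, h1 a H.ea]
      linear_combination h4
    rcases hK with ⟨⟨x, hx, hx1⟩, -⟩ | ⟨-, t, ht, h4⟩
    · exact hx1 (H.chi_er V h3 h2 x hx)
    · apply h4
      rw [(hz t (H.rot' t (by rw [ht]; decide))).1, h2, sub_self, zero_mul]

/-! ### Short closed walks -/

theorem n_bb (b : B.L) : V.n (B.inv (B.inv b)) = V.n b := by
  have h1 := n_inv' V b
  have h2 := n_inv' V (B.inv b)
  have h3 := chi_inv V (B.q b)
  rw [B.q_inv] at h2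
  linear_combination V.chi (B.q b) * h2 - V.n (B.inv (B.inv b)) * h3 - h1

theorem vol_K1 (k s : B.L) (hk : B.q k = r) :
    V.vol 1 [a, k, B.inv a, s] = (1 - V.chi r) * V.n a + V.chi (B.q a) * V.n k + V.chi r * V.n s := by
  have h1 := n_inv' V a
  have h2 := chi_inv V (B.q a)
  simp only [Vd.vol, hk, B.q_inv, map_mul, map_one]
  linear_combination V.chi r * h1 + V.chi r * V.n s * h2

theorem vol_K2 (k s : B.L) (hk : B.q k = r) :
    V.vol 1 [B.inv (B.inv b), k, B.inv b, s] =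
      (1 - V.chi r) * V.n b + V.chi (B.q b) * V.n k + V.chi r * V.n s := by
  have h1 := n_inv' V b
  have h2 := chi_inv V (B.q b)
  simp only [Vd.vol, hk, B.q_inv, map_mul, map_one, n_bb, inv_inv]
  linear_combination V.chi r * h1 + V.chi r * V.n s * h2

theorem vol_K3 (k s : B.L) (hk : B.q k = r) :
    V.vol (B.q a) [B.inv b, k, B.inv (B.inv b), s] =
      V.chi (B.q a) * V.chi (B.q b)⁻¹ * (V.n k - (1 - V.chi r) * V.n b) + V.chi r * V.chi (B.q a) * V.n s := by
  have h1 := n_inv' V b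
  have h2 := chi_inv V (B.q b)
  simp only [Vd.vol, hk, B.q_inv, map_mul, n_bb, inv_inv]
  linear_combination V.chi (B.q a) * V.chi (B.q b)⁻¹ * h1 - V.chi (B.q a) * V.n (B.inv b) * h2 +
    V.chi (B.q a) * V.chi r * V.n s * h2

theorem vol_K4 (k s : B.L) (hk : B.q k = r) :
    V.vol (B.q a) [B.inv a, k, a, s] =
      V.n k - (1 - V.chi r) * V.n a + V.chi r * V.chi (B.q a) * V.n s := by
  have h1 := n_inv' V a
  have h2 := chi_inv V (B.q a)
  simp only [Vd.vol, hk, B.q_inv, map_mul]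
  linear_combination h1 + (V.n k + V.chi r * V.n a + V.chi r * V.chi (B.q a) * V.n s) * h2

theorem Ld.eta (H : Ld B a b eps r N) : V.chi r * V.chi r = 1 := by rw [← map_mul, H.rr, map_one]

theorem vol_T0 (H : Ld B a b eps r N) (c s : B.L) (hs : B.q s = r) (hc : B.q c = B.q a * r) :
    V.vol r [s, a, B.inv c] = V.chi r * V.n s + V.n a - V.chi r * V.n c := by
  have h1 := n_inv' V c
  rw [hc, map_mul] at h1
  have h3 := H.eta V
  simp only [Vd.vol, hs, map_mul]
  linear_combination V.chi r * h1 + (V.n a + V.chi (B.q a) * V.n (B.inv c) - V.chi (B.q a) * V.n (B.inv c)) * h3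

theorem vol_T1 (H : Ld B a b eps r N) (c s : B.L) (hs : B.q s = r) :
    V.vol (r * B.q a) [s, B.inv a, c] = V.chi r * V.chi (B.q a) * V.n s - V.n a + V.n c := by
  have h1 := n_inv' V a
  have h2 := chi_inv V (B.q a)
  have h3 := H.eta V
  simp only [Vd.vol, hs, B.q_inv, map_mul]
  linear_combination h1 + (V.chi (B.q a) * V.n (B.inv a)) * h3 + V.n c * (h3 * V.chi (B.q a) * V.chi (B.q a)⁻¹ + h2)

/-! ### The slots -/

/-- All slots have the volume of the straight slot. -/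
def SlV {R : Type} [CommRing R] (V : Vd B R) (a b : B.L) (r : Q) : Prop :=
  ∀ l, Alt B a b r l → l.length = 8 → B.fin 1 l = (B.q a * (B.q b)⁻¹) ^ 4 → V.vol 1 l = V.vol 1 (rep2 a b 4)

theorem Ld.cwa (H : Ld B a b eps r N) (x : Q) : x * r * B.q a = x * B.q a * r := by
  rw [mul_assoc, H.rc, ← mul_assoc]

theorem Ld.cwb (H : Ld B a b eps r N) (x : Q) : x * r * (B.q b)⁻¹ = x * (B.q b)⁻¹ * r := by
  rw [mul_assoc, H.rc, ← mul_assoc]

theorem Ld.rr' (H : Ld B a b eps r N) (x : Q) : x * r * r = x := by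
  rw [mul_assoc, H.rr, mul_one]

theorem rep2_four : rep2 a b 4 = [a, B.inv b, a, B.inv b, a, B.inv b, a, B.inv b] := rfl

theorem sl_a (hD : SlV V a b r) (g : B.L) (hg : B.q g = B.q a) : V.n g = V.n a := by
  have h := hD [g, B.inv b, a, B.inv b, a, B.inv b, a, B.inv b]
    ⟨Or.inl hg, Or.inl (B.q_inv b), Or.inl rfl, Or.inl (B.q_inv b), Or.inl rfl, Or.inl (B.q_inv b),
      Or.inl rfl, Or.inl (B.q_inv b), trivial⟩ rfl (by
      simp only [Lb.fin, B.q_inv, hg, pow_succ, pow_zero, one_mul, ← mul_assoc])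
  rw [rep2_four] at h
  simp only [Vd.vol, hg, map_one] at h
  linear_combination h

theorem sl_b (hD : SlV V a b r) (g : B.L) (hg : B.q g = (B.q b)⁻¹) : V.n g = V.n (B.inv b) := by
  have h := hD [a, g, a, B.inv b, a, B.inv b, a, B.inv b]
    ⟨Or.inl rfl, Or.inl hg, Or.inl rfl, Or.inl (B.q_inv b), Or.inl rfl, Or.inl (B.q_inv b),
      Or.inl rfl, Or.inl (B.q_inv b), trivial⟩ rfl (by
      simp only [Lb.fin, B.q_inv, hg, pow_succ, pow_zero, one_mul, ← mul_assoc])
  rw [rep2_four] at h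
  simp only [Vd.vol, hg, map_one, map_mul, B.q_inv] at h
  have h2 := chi_inv V (B.q a)
  linear_combination V.chi (B.q a)⁻¹ * h - (V.n g - V.n (B.inv b)) * h2

/-- Two crossings at the gaps `0`, `2`. -/
theorem sl_1 (H : Ld B a b eps r N) (hD : SlV V a b r) (c c' : B.L) (hc : B.q c = B.q a * r)
    (hc' : B.q c' = B.q a * r) :
    V.n c - V.n a + (V.chi r - 1) * (V.chi (B.q a) * V.n (B.inv b)) +
      V.chi (B.q a) * V.chi (B.q b)⁻¹ * (V.chi r * V.n c' - V.n a) = 0 := by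
  have h := hD [c, B.inv b, c', B.inv b, a, B.inv b, a, B.inv b]
    ⟨Or.inr hc, Or.inl (B.q_inv b), Or.inr hc', Or.inl (B.q_inv b), Or.inl rfl, Or.inl (B.q_inv b),
      Or.inl rfl, Or.inl (B.q_inv b), trivial⟩ rfl (by
      simp only [Lb.fin, B.q_inv, hc, hc', pow_succ, pow_zero, one_mul, ← mul_assoc, H.cwa, H.cwb, H.rr'])
  rw [rep2_four] at h
  simp only [Vd.vol, hc, hc', map_one, map_mul, B.q_inv] at h
  have h3 := H.eta V
  linear_combination h - (V.chi (B.q a) * V.chi (B.q b)⁻¹ * V.chi (B.q a) * V.n (B.inv b) +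
    (V.chi (B.q a) * V.chi (B.q b)⁻¹) ^ 2 * (V.n a + V.chi (B.q a) * V.n (B.inv b)) +
    (V.chi (B.q a) * V.chi (B.q b)⁻¹) ^ 3 * (V.n a + V.chi (B.q a) * V.n (B.inv b))) * h3

/-- Two crossings at the gaps `0`, `4`. -/
theorem sl_2 (H : Ld B a b eps r N) (hD : SlV V a b r) (c c' : B.L) (hc : B.q c = B.q a * r)
    (hc' : B.q c' = B.q a * r) :
    V.n c - V.n a + (V.chi r - 1) * (V.chi (B.q a) * V.n (B.inv b)) +
      (V.chi r - 1) * (V.chi (B.q a) * V.chi (B.q b)⁻¹ * (V.n a + V.chi (B.q a) * V.n (B.inv b))) +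
      (V.chi (B.q a) * V.chi (B.q b)⁻¹) ^ 2 * (V.chi r * V.n c' - V.n a) = 0 := by
  have h := hD [c, B.inv b, a, B.inv b, c', B.inv b, a, B.inv b]
    ⟨Or.inr hc, Or.inl (B.q_inv b), Or.inl rfl, Or.inl (B.q_inv b), Or.inr hc', Or.inl (B.q_inv b),
      Or.inl rfl, Or.inl (B.q_inv b), trivial⟩ rfl (by
      simp only [Lb.fin, B.q_inv, hc, hc', pow_succ, pow_zero, one_mul, ← mul_assoc, H.cwa, H.cwb, H.rr'])
  rw [rep2_four] at h
  simp only [Vd.vol, hc, hc', map_one, map_mul, B.q_inv] at h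
  have h3 := H.eta V
  linear_combination h - ((V.chi (B.q a) * V.chi (B.q b)⁻¹) ^ 2 * V.chi (B.q a) * V.n (B.inv b) +
    (V.chi (B.q a) * V.chi (B.q b)⁻¹) ^ 3 * (V.n a + V.chi (B.q a) * V.n (B.inv b))) * h3

/-- Two crossings at the gaps `1`, `3`. -/
theorem sl_3 (H : Ld B a b eps r N) (hD : SlV V a b r) (g g' : B.L) (hg : B.q g = (B.q b)⁻¹ * r)
    (hg' : B.q g' = (B.q b)⁻¹ * r) :
    V.chi (B.q a) * (V.n g - V.n (B.inv b)) + (V.chi r - 1) * (V.chi (B.q a) * V.chi (B.q b)⁻¹ * V.n a) +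
      V.chi (B.q a) * V.chi (B.q b)⁻¹ * V.chi (B.q a) * (V.chi r * V.n g' - V.n (B.inv b)) = 0 := by
  have h := hD [a, g, a, g', a, B.inv b, a, B.inv b]
    ⟨Or.inl rfl, Or.inr hg, Or.inl rfl, Or.inr hg', Or.inl rfl, Or.inl (B.q_inv b),
      Or.inl rfl, Or.inl (B.q_inv b), trivial⟩ rfl (by
      simp only [Lb.fin, B.q_inv, hg, hg', pow_succ, pow_zero, one_mul, ← mul_assoc, H.cwa, H.cwb, H.rr'])
  rw [rep2_four] at h
  simp only [Vd.vol, hg, hg', map_one, map_mul, B.q_inv] at h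
  have h3 := H.eta V
  linear_combination h - (
    (V.chi (B.q a) * V.chi (B.q b)⁻¹) ^ 2 * (V.n a + V.chi (B.q a) * V.n (B.inv b)) +
    (V.chi (B.q a) * V.chi (B.q b)⁻¹) ^ 3 * (V.n a + V.chi (B.q a) * V.n (B.inv b))) * h3

/-- Two crossings at the gaps `1`, `5`. -/
theorem sl_4 (H : Ld B a b eps r N) (hD : SlV V a b r) (g g' : B.L) (hg : B.q g = (B.q b)⁻¹ * r)
    (hg' : B.q g' = (B.q b)⁻¹ * r) :
    V.chi (B.q a) * (V.n g - V.n (B.inv b)) + (V.chi r - 1) * (V.chi (B.q a) * V.chi (B.q b)⁻¹ * V.n a) +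
      (V.chi r - 1) * (V.chi (B.q a) * V.chi (B.q b)⁻¹ * V.chi (B.q a) * V.n (B.inv b)) +
      (V.chi r - 1) * ((V.chi (B.q a) * V.chi (B.q b)⁻¹) ^ 2 * V.n a) +
      (V.chi (B.q a) * V.chi (B.q b)⁻¹) ^ 2 * V.chi (B.q a) * (V.chi r * V.n g' - V.n (B.inv b)) = 0 := by
  have h := hD [a, g, a, B.inv b, a, g', a, B.inv b]
    ⟨Or.inl rfl, Or.inr hg, Or.inl rfl, Or.inl (B.q_inv b), Or.inl rfl, Or.inr hg',
      Or.inl rfl, Or.inl (B.q_inv b), trivial⟩ rfl (by
      simp only [Lb.fin, B.q_inv, hg, hg', pow_succ, pow_zero, one_mul, ← mul_assoc, H.cwa, H.cwb, H.rr'])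
  rw [rep2_four] at h
  simp only [Vd.vol, hg, hg', map_one, map_mul, B.q_inv] at h
  have h3 := H.eta V
  linear_combination h - (
    (V.chi (B.q a) * V.chi (B.q b)⁻¹) ^ 3 * (V.n a + V.chi (B.q a) * V.n (B.inv b))) * h3

/-- Two crossings at the gaps `0`, `1`. -/
theorem sl_5 (H : Ld B a b eps r N) (hD : SlV V a b r) (c g : B.L) (hc : B.q c = B.q a * r)
    (hg : B.q g = (B.q b)⁻¹ * r) :
    V.n c - V.n a + V.chi (B.q a) * (V.chi r * V.n g - V.n (B.inv b)) = 0 := by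
  have h := hD [c, g, a, B.inv b, a, B.inv b, a, B.inv b]
    ⟨Or.inr hc, Or.inr hg, Or.inl rfl, Or.inl (B.q_inv b), Or.inl rfl, Or.inl (B.q_inv b),
      Or.inl rfl, Or.inl (B.q_inv b), trivial⟩ rfl (by
      simp only [Lb.fin, B.q_inv, hc, hg, pow_succ, pow_zero, one_mul, ← mul_assoc, H.cwb, H.rr'])
  rw [rep2_four] at h
  simp only [Vd.vol, hc, hg, map_one, map_mul, B.q_inv] at h
  have h3 := H.eta V
  linear_combination h - (
    V.chi (B.q a) * V.chi (B.q b)⁻¹ * (V.n a + V.chi (B.q a) * V.n (B.inv b)) +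
    (V.chi (B.q a) * V.chi (B.q b)⁻¹) ^ 2 * (V.n a + V.chi (B.q a) * V.n (B.inv b)) +
    (V.chi (B.q a) * V.chi (B.q b)⁻¹) ^ 3 * (V.n a + V.chi (B.q a) * V.n (B.inv b))) * h3

/-! ### Potentials -/

theorem two_zero {x α η : F} (hα : α ≠ 1) (hα0 : α ≠ 0) (hη : η * η = 1) (h1 : x * (1 + η * α) = 0)
    (h2 : x * (1 + η * α ^ 2) = 0) : x = 0 := by
  have hη0 : η ≠ 0 := left_ne_zero_of_mul_eq_one hη
  have h3 : x * (η * α * (α - 1)) = 0 := by linear_combination h2 - h1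
  rcases mul_eq_zero.1 h3 with h4 | h4
  · exact h4
  · rcases mul_eq_zero.1 h4 with h5 | h5
    · rcases mul_eq_zero.1 h5 with h6 | h6
      · exact absurd h6 hη0
      · exact absurd h6 hα0
    · exact absurd (sub_eq_zero.1 h5) hα

theorem pot_I (H : Ld B a b eps r N) (hD : SlV V a b r) (hα : V.chi (B.q a) * V.chi (B.q b)⁻¹ ≠ 1) :
    ∃ cp cm, Pot V a b r cp cm := by
  have hη := H.eta V
  have hA := chi_ne V (B.q a)
  have hα0 : V.chi (B.q a) * V.chi (B.q b)⁻¹ ≠ 0 := mul_ne_zero hA (chi_ne V _)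
  have hα1 : V.chi (B.q a) * V.chi (B.q b)⁻¹ - 1 ≠ 0 := sub_ne_zero.2 hα
  obtain ⟨cp, hcp⟩ : ∃ cp : F, (V.chi (B.q a) * V.chi (B.q b)⁻¹ - 1) * cp =
      V.n a + V.chi (B.q a) * V.n (B.inv b) :=
    ⟨(V.n a + V.chi (B.q a) * V.n (B.inv b)) / (V.chi (B.q a) * V.chi (B.q b)⁻¹ - 1), by
      rw [mul_div_cancel₀ _ hα1]⟩
  obtain ⟨cm, hcm⟩ : ∃ cm : F, V.n (B.inv b) = V.chi (B.q b)⁻¹ * cp - cm :=
    ⟨V.chi (B.q b)⁻¹ * cp - V.n (B.inv b), by ring⟩
  have hna : V.n a = V.chi (B.q a) * cm - cp := by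
    linear_combination -hcp - V.chi (B.q a) * hcm
  refine ⟨cp, cm, ?_, ?_⟩
  · rintro g (hg | hg)
    · rw [sl_a V hD g hg, hg, hna]
    · have h1 := sl_1 V H hD g g hg hg
      have h2 := sl_2 V H hD g g hg hg
      rw [hna, hcm] at h1 h2
      have h3 : V.n g - (V.chi (B.q g) * cm - cp) = 0 := by
        refine two_zero hα hα0 hη ?_ ?_
        · rw [hg, map_mul]
          linear_combination h1 - V.chi (B.q a) * V.chi (B.q b)⁻¹ * V.chi (B.q a) * cm * hη
        · rw [hg, map_mul]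
          linear_combination h2 - (V.chi (B.q a) * V.chi (B.q b)⁻¹) ^ 2 * V.chi (B.q a) * cm * hη
      linear_combination h3
  · rintro g (hg | hg)
    · rw [sl_b V hD g hg, hg, hcm]
    · have h1 := sl_3 V H hD g g hg hg
      have h2 := sl_4 V H hD g g hg hg
      rw [hna, hcm] at h1 h2
      have h3 : V.chi (B.q a) * (V.n g - (V.chi (B.q g) * cp - cm)) = 0 := by
        refine two_zero hα hα0 hη ?_ ?_
        · rw [hg, map_mul]
          linear_combination h1 - (V.chi (B.q a) * V.chi (B.q b)⁻¹) ^ 2 * cp * hη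
        · rw [hg, map_mul]
          linear_combination h2 - (V.chi (B.q a) * V.chi (B.q b)⁻¹) ^ 3 * cp * hη
      linear_combination (mul_eq_zero.1 h3).resolve_left hA

theorem pot_IV (H : Ld B a b eps r N) (hD : SlV V a b r) (h2 : (2 : F) ≠ 0)
    (hα : V.chi (B.q a) * V.chi (B.q b)⁻¹ = 1) (hη : V.chi r = 1) (hν : V.n a + V.chi (B.q a) * V.n (B.inv b) = 0) :
    Pot V a b r (-V.n a) 0 := by
  have hA := chi_ne V (B.q a)
  refine ⟨?_, ?_⟩
  · rintro g (hg | hg)
    · rw [sl_a V hD g hg]; ring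
    · have h1 := sl_1 V H hD g g hg hg
      rw [hη, hα] at h1
      have h3 : (2 : F) * (V.n g - V.n a) = 0 := by linear_combination h1
      linear_combination (mul_eq_zero.1 h3).resolve_left h2
  · have h5 : V.n (B.inv b) = -(V.chi (B.q b)⁻¹ * V.n a) := by
      have h6 : V.chi (B.q a) * (V.n (B.inv b) + V.chi (B.q b)⁻¹ * V.n a) = 0 := by
        linear_combination hν + V.n a * hα
      linear_combination (mul_eq_zero.1 h6).resolve_left hA
    rintro g (hg | hg)
    · rw [sl_b V hD g hg, hg, h5]; ring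
    · have h1 := sl_3 V H hD g g hg hg
      rw [hη, hα] at h1
      have h3 : (2 : F) * (V.chi (B.q a) * (V.n g - V.n (B.inv b))) = 0 := by linear_combination h1
      have h4 := (mul_eq_zero.1 ((mul_eq_zero.1 h3).resolve_left h2)).resolve_left hA
      rw [hg, map_mul, hη]
      linear_combination h4 + h5

theorem pot_III (H : Ld B a b eps r N) (hD : SlV V a b r) (h2 : (2 : F) ≠ 0)
    (hα : V.chi (B.q a) * V.chi (B.q b)⁻¹ = 1) (hη : V.chi r = -1) (hν : V.n a + V.chi (B.q a) * V.n (B.inv b) = 0)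
    (c : B.L) (hc : B.q c = B.q a * r) :
    ∃ cp cm, Pot V a b r cp cm := by
  have hA := chi_ne V (B.q a)
  obtain ⟨cm, hcm⟩ : ∃ cm : F, 2 * V.chi (B.q a) * cm = V.n a - V.n c :=
    ⟨(V.n a - V.n c) / (2 * V.chi (B.q a)), by rw [mul_div_cancel₀ _ (mul_ne_zero h2 hA)]⟩
  have h5 : V.n (B.inv b) = -(V.chi (B.q b)⁻¹ * V.n a) := by
    have h6 : V.chi (B.q a) * (V.n (B.inv b) + V.chi (B.q b)⁻¹ * V.n a) = 0 := by
      linear_combination hν + V.n a * hα
    linear_combination (mul_eq_zero.1 h6).resolve_left hA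
  refine ⟨V.chi (B.q a) * cm - V.n a, cm, ?_, ?_⟩
  · rintro g (hg | hg)
    · rw [sl_a V hD g hg, hg]; ring
    · have h1 := sl_1 V H hD g c hg hc
      rw [hη, hα] at h1
      rw [hg, map_mul, hη]
      linear_combination h1 + 2 * hν + hcm
  · rintro g (hg | hg)
    · rw [sl_b V hD g hg, hg, h5]
      linear_combination -cm * hα
    · have h1 := sl_5 V H hD c g hc hg
      rw [hη] at h1
      rw [hg, map_mul, hη]
      have h7 : V.chi (B.q a) * (V.n g - (V.chi (B.q b)⁻¹ * -1 * (V.chi (B.q a) * cm - V.n a) - cm)) = 0 := by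
        linear_combination -h1 - hν + hcm + (V.chi (B.q a) * cm - V.n a) * hα
      linear_combination (mul_eq_zero.1 h7).resolve_left hA

theorem pot_N (hD : SlV V a b r)
    (hα : V.chi (B.q a) * V.chi (B.q b)⁻¹ = 1) (hν : V.n a + V.chi (B.q a) * V.n (B.inv b) = 0)
    (hna : ∀ g, B.q g ≠ B.q a * r) (hnb : ∀ g, B.q g ≠ (B.q b)⁻¹ * r) (cm : F) :
    Pot V a b r (V.chi (B.q a) * cm - V.n a) cm := by
  have hA := chi_ne V (B.q a)
  have h5 : V.n (B.inv b) = -(V.chi (B.q b)⁻¹ * V.n a) := by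
    have h6 : V.chi (B.q a) * (V.n (B.inv b) + V.chi (B.q b)⁻¹ * V.n a) = 0 := by
      linear_combination hν + V.n a * hα
    linear_combination (mul_eq_zero.1 h6).resolve_left hA
  refine ⟨?_, ?_⟩
  · rintro g (hg | hg)
    · rw [sl_a V hD g hg, hg]; ring
    · exact absurd hg (hna g)
  · rintro g (hg | hg)
    · rw [sl_b V hD g hg, hg, h5]
      linear_combination -cm * hα
    · exact absurd hg (hnb g)

/-! ### Straight worlds -/

theorem rep2_succ (t : ℕ) : rep2 a b (t + 1) = a :: B.inv b :: rep2 a b t := rfl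

theorem vol_rep2 (hα : V.chi (B.q a) * V.chi (B.q b)⁻¹ = 1) (t : ℕ) (x : Q) :
    V.vol x (rep2 a b t) = V.chi x * (t * (V.n a + V.chi (B.q a) * V.n (B.inv b))) := by
  induction t generalizing x with
  | zero => simp [rep2, Vd.vol]
  | succ t ih =>
    rw [rep2_succ]
    show V.chi x * V.n a + (V.chi (x * B.q a) * V.n (B.inv b) + V.vol (x * B.q a * B.q (B.inv b)) (rep2 a b t)) = _
    rw [ih, map_mul, map_mul, map_mul, B.q_inv]
    push_cast
    linear_combination V.chi x * (t * (V.n a + V.chi (B.q a) * V.n (B.inv b))) * hα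

theorem fin_rep2 (t : ℕ) (x : Q) : B.fin x (rep2 a b t) = x * (B.q a * (B.q b)⁻¹) ^ t := by
  induction t generalizing x with
  | zero => simp [rep2, Lb.fin]
  | succ t ih =>
    rw [rep2_succ]
    show B.fin (x * B.q a * B.q (B.inv b)) (rep2 a b t) = _
    rw [ih, B.q_inv, pow_succ', mul_assoc, mul_assoc, mul_assoc]

theorem vol_app' (x : Q) (l l' : List B.L) : V.vol x (l ++ l') = V.vol x l + V.vol (B.fin x l) l' := by
  induction l generalizing x with
  | nil => show V.vol x l' = 0 + V.vol x l'; rw [zero_add]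
  | cons g l ih =>
    show V.chi x * V.n g + V.vol (x * B.q g) (l ++ l') = V.chi x * V.n g + V.vol (x * B.q g) l + _
    rw [ih, add_assoc]; rfl

/-- The potential. -/
theorem pot_C (H : Ld B a b eps r N) (hD : SlV V a b r) (h2 : (2 : F) ≠ 0) (hN : (N : F) ≠ 0) (c : B.L)
    (hc : B.q c = B.q a * r)
    (hB : ((B.q a * (B.q b)⁻¹) ^ N = 1 ∧ V.vol 1 (rep2 a b N) = 0) ∨
      ((B.q a * (B.q b)⁻¹) ^ N = r ∧ ∃ i j, N = i + 1 + j ∧
        V.vol 1 (rep2 a b i ++ c :: B.inv b :: rep2 a b j) = 0)) :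
    ∃ cp cm, Pot V a b r cp cm := by
  by_cases hα : V.chi (B.q a) * V.chi (B.q b)⁻¹ = 1
  swap
  · exact pot_I V H hD hα
  have hw : V.chi (B.q a * (B.q b)⁻¹) = 1 := by rw [map_mul, hα]
  have hA := chi_ne V (B.q a)
  rcases hB with ⟨-, hB⟩ | ⟨hr, i, j, hij, hB⟩
  · rw [vol_rep2 V hα, map_one, one_mul] at hB
    have hν := (mul_eq_zero.1 hB).resolve_left hN
    have hη := H.eta V
    have h3 : (V.chi r - 1) * (V.chi r + 1) = 0 := by linear_combination hη
    rcases mul_eq_zero.1 h3 with h4 | h4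
    · exact ⟨_, _, pot_IV V H hD h2 hα (by linear_combination h4) hν⟩
    · exact pot_III V H hD h2 hα (by linear_combination h4) hν c hc
  · have hη : V.chi r = 1 := by rw [← hr, map_pow, hw, one_pow]
    have h1 := sl_1 V H hD c c hc hc
    rw [hη, hα] at h1
    have h3 : (2 : F) * (V.n c - V.n a) = 0 := by linear_combination h1
    have h4 := (mul_eq_zero.1 h3).resolve_left h2
    rw [vol_app', vol_rep2 V hα, fin_rep2, one_mul] at hB
    simp only [Vd.vol, vol_rep2 V hα, map_mul, map_pow, map_one, hc, hη, hα, B.q_inv, one_pow, one_mul,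
      mul_one] at hB
    have h5 : (N : F) * (V.n a + V.chi (B.q a) * V.n (B.inv b)) = 0 := by
      rw [hij]
      push_cast
      linear_combination hB - h4
    exact ⟨_, _, pot_IV V H hD h2 hα hη ((mul_eq_zero.1 h5).resolve_left hN)⟩

/-! ### The rungs -/

theorem n_rot (H : Ld B a b eps r N) (k : B.L) (hk : B.q k = r) :
    B.q (B.inv k) = r ∧ V.n (B.inv k) = -(V.chi r * V.n k) := by
  refine ⟨by rw [B.q_inv, hk, H.ri], ?_⟩
  rw [V.n_inv, hk, H.ri]

/-- All steps at one site are zero. -/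
theorem steps_zero (H : Ld B a b eps r N) (h2 : (2 : F) ≠ 0) (s : B.L) (hs : B.q s = r) (u v : F) (hu : u ≠ 0)
    (h : ∀ k, B.q k = r → u * V.n k = v) :
    (∀ k, B.q k = r → V.n k = V.n s) ∧ (V.chi r = 1 → V.n s = 0) := by
  have h1 : ∀ k, B.q k = r → V.n k = V.n s := fun k hk => mul_left_cancel₀ hu ((h k hk).trans (h s hs).symm)
  refine ⟨h1, fun h3 => ?_⟩
  obtain ⟨h4, h5⟩ := n_rot V H s hs
  rw [h1 _ h4, h3, one_mul] at h5
  have h6 : (2 : F) * V.n s = 0 := by linear_combination h5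
  exact (mul_eq_zero.1 h6).resolve_left h2

theorem eta_cases (H : Ld B a b eps r N) : V.chi r = 1 ∨ V.chi r = -1 := by
  have h3 : (V.chi r - 1) * (V.chi r + 1) = 0 := by linear_combination H.eta V
  rcases mul_eq_zero.1 h3 with h4 | h4
  · exact Or.inl (by linear_combination h4)
  · exact Or.inr (by linear_combination h4)

/-- Site `0`. -/
theorem site0 (H : Ld B a b eps r N) (h2 : (2 : F) ≠ 0) {cp cm : F} (hP : Pot V a b r cp cm) (hK : KapO V eps)
    (s : B.L) (hs : B.q s = r)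
    (h : ∀ k, B.q k = r → V.vol 1 [a, k, B.inv a, s] = 0 ∧ V.vol 1 [B.inv (B.inv b), k, B.inv b, s] = 0) :
    V.chi r = -1 ∧ (∀ k, B.q k = r → V.n k = V.n s) ∧ V.chi (B.q a) = V.chi (B.q b) ∧
      V.chi (B.q a) * (V.n s + 2 * cm) = V.n s + 2 * cp ∧ V.n s + 2 * cp ≠ 0 := by
  have hA := chi_ne V (B.q a)
  have h3 : ∀ k, B.q k = r → V.chi (B.q a) * V.n k = -((1 - V.chi r) * V.n a + V.chi r * V.n s) := by
    intro k hk
    have := (h k hk).1
    rw [vol_K1 V k s hk] at this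
    linear_combination this
  obtain ⟨h4, h5⟩ := steps_zero V H h2 s hs _ _ hA h3
  rcases eta_cases V H with hη | hη
  · refine absurd (pot_ne V H hP hK fun k hk => ?_) id
    rw [h4 k hk, h5 hη, hη]
    constructor <;> ring
  have hna := (hP.refl V H a H.ea).1
  have hnb := (hP.refl V H b H.eb).1
  obtain ⟨h6, h7⟩ := h s hs
  rw [vol_K1 V s s hs, hη, hna] at h6
  rw [vol_K2 V s s hs, hη, hnb] at h7
  have h8 : V.chi (B.q a) * (V.n s + 2 * cm) = V.n s + 2 * cp := by linear_combination h6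
  have h9 : V.chi (B.q b) * (V.n s + 2 * cm) = V.n s + 2 * cp := by linear_combination h7
  have hne : V.n s + 2 * cp ≠ 0 := by
    intro h10
    have h11 : V.n s + 2 * cm = 0 := by
      rw [h10] at h8
      exact (mul_eq_zero.1 h8).resolve_left hA
    refine pot_ne V H hP hK fun k hk => ?_
    rw [h4 k hk, hη]
    exact ⟨by linear_combination h10, by linear_combination h11⟩
  refine ⟨hη, h4, ?_, h8, hne⟩
  have h10 : V.n s + 2 * cm ≠ 0 := by
    intro h10
    rw [h10, mul_zero] at h8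
    exact hne h8.symm
  exact mul_right_cancel₀ h10 (h8.trans h9.symm)

/-- Site `1`. -/
theorem site1 (H : Ld B a b eps r N) (h2 : (2 : F) ≠ 0) {cp cm : F} (hP : Pot V a b r cp cm) (hK : KapO V eps)
    (s : B.L) (hs : B.q s = r)
    (h : ∀ k, B.q k = r → V.vol (B.q a) [B.inv b, k, B.inv (B.inv b), s] = 0 ∧
      V.vol (B.q a) [B.inv a, k, a, s] = 0) :
    V.chi r = -1 ∧ (∀ k, B.q k = r → V.n k = V.n s) ∧ V.chi (B.q a) = V.chi (B.q b) ∧
      V.chi (B.q a) * (V.n s + 2 * cm) = V.n s + 2 * cp ∧ V.n s + 2 * cp ≠ 0 := by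
  have hA := chi_ne V (B.q a)
  have h3 : ∀ k, B.q k = r → 1 * V.n k = (1 - V.chi r) * V.n a - V.chi r * V.chi (B.q a) * V.n s := by
    intro k hk
    have := (h k hk).2
    rw [vol_K4 V k s hk] at this
    linear_combination this
  obtain ⟨h4, h5⟩ := steps_zero V H h2 s hs _ _ one_ne_zero h3
  rcases eta_cases V H with hη | hη
  · refine absurd (pot_ne V H hP hK fun k hk => ?_) id
    rw [h4 k hk, h5 hη, hη]
    constructor <;> ring
  have hna := (hP.refl V H a H.ea).1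
  have hnb := (hP.refl V H b H.eb).1
  have hbb := chi_inv V (B.q b)
  obtain ⟨h6, h7⟩ := h s hs
  rw [vol_K3 V s s hs, hη, hnb] at h6
  rw [vol_K4 V s s hs, hη, hna] at h7
  have h8 : V.chi (B.q a) * (V.n s + 2 * cm) = V.n s + 2 * cp := by linear_combination -h7
  have h9 : V.chi (B.q a) * (V.chi (B.q b) * (V.n s + 2 * cm) - (V.n s + 2 * cp)) = 0 := by
    linear_combination -V.chi (B.q b) * h6 + V.chi (B.q a) * (V.n s - 2 * (V.chi (B.q b) * cm - cp)) * hbb
  have h9' := (mul_eq_zero.1 h9).resolve_left hA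
  have hne : V.n s + 2 * cp ≠ 0 := by
    intro h10
    have h11 : V.n s + 2 * cm = 0 := by
      rw [h10] at h8
      exact (mul_eq_zero.1 h8).resolve_left hA
    refine pot_ne V H hP hK fun k hk => ?_
    rw [h4 k hk, hη]
    exact ⟨by linear_combination h10, by linear_combination h11⟩
  refine ⟨hη, h4, ?_, h8, hne⟩
  have h10 : V.n s + 2 * cm ≠ 0 := by
    intro h10
    rw [h10, mul_zero] at h8
    exact hne h8.symm
  exact mul_right_cancel₀ h10 (h8.trans (sub_eq_zero.1 h9').symm)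

/-- The third kind. -/
theorem kindZ (H : Ld B a b eps r N) {cp cm : F} (hP : Pot V a b r cp cm)
    (s c : B.L) (hs : B.q s = r) (hc : B.q c = B.q a * r)
    (h : V.chi r = -1 ∧ (∀ k, B.q k = r → V.n k = V.n s) ∧ V.chi (B.q a) = V.chi (B.q b) ∧
      V.chi (B.q a) * (V.n s + 2 * cm) = V.n s + 2 * cp ∧ V.n s + 2 * cp ≠ 0) :
    (∀ k, B.q k = r → V.vol 1 [a, k, B.inv a, s] = 0 ∧ V.vol 1 [B.inv (B.inv b), k, B.inv b, s] = 0 ∧
        V.vol (B.q a) [B.inv b, k, B.inv (B.inv b), s] = 0 ∧ V.vol (B.q a) [B.inv a, k, a, s] = 0) ∧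
      V.vol r [s, a, B.inv c] = V.vol (r * B.q a) [s, B.inv a, c] ∧ V.vol r [s, a, B.inv c] ≠ 0 := by
  obtain ⟨hη, h4, hab, h8, hne⟩ := h
  have hna := (hP.refl V H a H.ea).1
  have hnb := (hP.refl V H b H.eb).1
  have hnc := hP.up c (Or.inr hc)
  rw [hc, map_mul, hη] at hnc
  have hbb := chi_inv V (B.q b)
  refine ⟨fun k hk => ⟨?_, ?_, ?_, ?_⟩, ?_, ?_⟩
  · rw [vol_K1 V k s hk, h4 k hk, hη, hna]
    linear_combination h8
  · rw [vol_K2 V k s hk, h4 k hk, hη, hnb, ← hab]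
    linear_combination h8
  · rw [vol_K3 V k s hk, h4 k hk, hη, hnb, ← hab]
    rw [← hab] at hbb
    linear_combination -h8 + (V.n s - 2 * (V.chi (B.q a) * cm - cp)) * hbb
  · rw [vol_K4 V k s hk, h4 k hk, hη, hna]
    linear_combination -h8
  · rw [vol_T0 V H c s hs hc, vol_T1 V H c s hs, hη, hna, hnc]
    linear_combination h8
  · rw [vol_T0 V H c s hs hc, hη, hna, hnc]
    intro h10
    exact hne (by linear_combination -h10)

end

theorem ldPrC : LdPrCS := by
  intro Q _ B a b eps r N H p hp V c s hp2 hpN hc hs hK hD hB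
  have h2 : (2 : ZMod p) ≠ 0 := by
    intro h
    have h1 : ((2 : ℕ) : ZMod p) = 0 := by exact_mod_cast h
    rw [ZMod.natCast_eq_zero_iff] at h1
    exact hp2 ((Nat.prime_dvd_prime_iff_eq hp.out Nat.prime_two).1 h1)
  have hN : (N : ZMod p) ≠ 0 := by rwa [Ne, ZMod.natCast_eq_zero_iff]
  obtain ⟨cp, cm, hP⟩ := pot_C V H hD h2 hN c hc hB
  by_cases h0 : ∀ k, B.q k = r → V.vol 1 [a, k, B.inv a, s] = 0 ∧ V.vol 1 [B.inv (B.inv b), k, B.inv b, s] = 0
  · exact Or.inr (kindZ V H hP s c hs hc (site0 V H h2 hP hK s hs h0))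
  by_cases h1 : ∀ k, B.q k = r → V.vol (B.q a) [B.inv b, k, B.inv (B.inv b), s] = 0 ∧
      V.vol (B.q a) [B.inv a, k, a, s] = 0
  · exact Or.inr (kindZ V H hP s c hs hc (site1 V H h2 hP hK s hs h1))
  left
  push Not at h0 h1
  obtain ⟨k, hk, h3⟩ := h0
  obtain ⟨k', hk', h3'⟩ := h1
  refine ⟨⟨k, hk, ?_⟩, k', hk', ?_⟩
  · by_cases h4 : V.vol 1 [a, k, B.inv a, s] = 0
    · exact Or.inr (h3 h4)
    · exact Or.inl h4
  · by_cases h4 : V.vol (B.q a) [B.inv b, k', B.inv (B.inv b), s] = 0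
    · exact Or.inr (h3' h4)
    · exact Or.inl h4

theorem ldPrN : LdPrNS := by
  intro Q _ B a b eps r N H p hp V s hp2 hpN hs hna hnb hw hK hD hB
  have h2 : (2 : ZMod p) ≠ 0 := by
    intro h
    have h1 : ((2 : ℕ) : ZMod p) = 0 := by exact_mod_cast h
    rw [ZMod.natCast_eq_zero_iff] at h1
    exact hp2 ((Nat.prime_dvd_prime_iff_eq hp.out Nat.prime_two).1 h1)
  have hN : (N : ZMod p) ≠ 0 := by rwa [Ne, ZMod.natCast_eq_zero_iff]
  have hnb' : ∀ g, B.q g ≠ (B.q b)⁻¹ * r := by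
    intro g hg
    refine hnb (B.inv g) ?_
    rw [B.q_inv, hg, mul_inv_rev, inv_inv, H.ri, H.rc]
  by_contra hcon
  push Not at hcon
  by_cases hα : V.chi (B.q a) * V.chi (B.q b)⁻¹ = 1
  · rw [vol_rep2 V hα, map_one, one_mul] at hB
    have hν := (mul_eq_zero.1 hB).resolve_left hN
    have hP := pot_N V hD hα hν hna hnb'
    obtain ⟨-, -, -, h8, h9⟩ := site0 V H h2 (hP (-(V.n s) / 2)) hK s hs hcon
    apply h9
    rw [← h8]
    have h10 : V.n s + 2 * (-(V.n s) / 2) = 0 := by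
      rw [mul_div_cancel₀ _ h2, add_neg_cancel]
    rw [h10, mul_zero]
  · obtain ⟨cp, cm, hP⟩ := pot_I V H hD hα
    obtain ⟨-, -, hab, -⟩ := site0 V H h2 hP hK s hs hcon
    exact hα (by rw [hab, chi_inv])

end Pool.Agent.Lib.MP_688fd0_co.SQ4.Small
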