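import Pool.Agent.Lib.MP_688fd0_co.SQ4.Small.LadI
import Pool.Agent.Lib.MP_688fd0_co.SQ3.Small.T1

/-!
Ladders, rows T1B and T1Z, first part: cells. `side` and `P` (a potential) are functions on `Q`; all edges of the two
closed walks are tight modulo `H`. The cell of `(q, v)` is `(side q, v - P q mod H)`. A cell is traversed from any of its
vertices `(q, v)` completely, ending at a neighbour of `(q, v)` on the closed walk (`blk_cell`).
-/

set_option autoImplicit false

namespace Pool.Agent.Lib.MP_688fd0_co.SQ4.Small.Lad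

open Pool.Agent.Lib.MP_688fd0_co.OSF Pool.Agent.Lib.MP_688fd0_co.SQ2 Pool.Agent.Lib.MP_688fd0_co.SQ3
open Pool.Agent.Lib.MP_688fd0_co.SQ3.Small

variable {Q : Type} [Group Q] {B : Lb.{0, 0} Q} {R : Type} [CommRing R] (V : Vd B R)
  (H : AddSubgroup R) (side : Q → Bool) (P : Q → R)

/-- All edges of the path are tight. -/
def Tt : Q → List B.L → Prop
  | _, [] => True
  | q, g :: l => P (q * B.q g) - P q - V.chi q * V.n g ∈ H ∧ Tt (q * B.q g) l

theorem tt_append (q : Q) (l l' : List B.L) :
    Tt V H P q (l ++ l') ↔ Tt V H P q l ∧ Tt V H P (B.fin q l) l' := by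
  induction l generalizing q with
  | nil => exact ⟨fun h => ⟨trivial, h⟩, fun h => h.2⟩
  | cons g l ih =>
    show (P (q * B.q g) - P q - V.chi q * V.n g ∈ H ∧ Tt V H P (q * B.q g) (l ++ l')) ↔
      (P (q * B.q g) - P q - V.chi q * V.n g ∈ H ∧ Tt V H P (q * B.q g) l) ∧ Tt V H P (B.fin (q * B.q g) l) l'
    rw [ih, and_assoc]

theorem tt_inv (q : Q) (g : B.L) (h : P (q * B.q g) - P q - V.chi q * V.n g ∈ H) :
    P (q * B.q g * B.q (B.inv g)) - P (q * B.q g) - V.chi (q * B.q g) * V.n (B.inv g) ∈ H := by
  have e : q * B.q g * B.q (B.inv g) = q := by rw [B.q_inv]; group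
  have h1 : V.chi (B.q g) * V.chi (B.q g)⁻¹ = 1 := by rw [← map_mul, mul_inv_cancel, map_one]
  rw [e, V.n_inv, map_mul]
  have e2 : P q - P (q * B.q g) - V.chi q * V.chi (B.q g) * -(V.chi (B.q g)⁻¹ * V.n g) =
      -(P (q * B.q g) - P q - V.chi q * V.n g) := by
    linear_combination V.chi q * V.n g * h1
  rw [e2]
  exact H.neg_mem h

theorem tt_rev (q : Q) (l : List B.L) (h : Tt V H P q l) : Tt V H P (B.fin q l) (B.rev l) := by
  induction l generalizing q with
  | nil => trivial
  | cons g l ih =>
    rw [rev_cons, tt_append]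
    refine ⟨ih _ h.2, ?_⟩
    show Tt V H P (B.fin (B.fin (q * B.q g) l) (B.rev l)) [B.inv g]
    rw [fin_rev]
    exact ⟨tt_inv V H P q g h.1, trivial⟩

theorem tt_mem (q : Q) (v : R) (l : List B.L) (h : Tt V H P q l) (y : Q) (r : R) (hy : (y, r) ∈ ev V (q, v) l) :
    r - v - (P y - P q) ∈ H := by
  induction l generalizing q v with
  | nil =>
    have e : (y, r) = (q, v) := List.mem_singleton.1 hy
    simp only [Prod.mk.injEq] at e
    rw [e.1, e.2, sub_self, sub_self, sub_self]
    exact H.zero_mem
  | cons g l ih =>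
    rcases List.mem_cons.1 hy with e | hy
    · simp only [Prod.mk.injEq] at e
      rw [e.1, e.2, sub_self, sub_self, sub_self]
      exact H.zero_mem
    · have h1 := ih _ _ h.2 hy
      have e : r - v - (P y - P q) = (r - (v + V.chi q * V.n g) - (P y - P (q * B.q g))) -
          (P (q * B.q g) - P q - V.chi q * V.n g) := by ring
      rw [e]
      exact H.sub_mem h1 h.1

theorem vol_rev (x : Q) (l : List B.L) : V.vol (B.fin x l) (B.rev l) = - V.vol x l := by
  induction l generalizing x with
  | nil => show (0 : R) = -0; rw [neg_zero]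
  | cons g l ih =>
    rw [rev_cons, H6.vol_append]
    show V.vol (B.fin (x * B.q g) l) (B.rev l) + V.vol (B.fin (B.fin (x * B.q g) l) (B.rev l)) [B.inv g] =
      -(V.chi x * V.n g + V.vol (x * B.q g) l)
    rw [ih, fin_rev]
    show -V.vol (x * B.q g) l + (V.chi (x * B.q g) * V.n (B.inv g) + 0) = _
    have h1 : V.chi (B.q g) * V.chi (B.q g)⁻¹ = 1 := by rw [← map_mul, mul_inv_cancel, map_one]
    rw [V.n_inv, map_mul, add_zero]
    linear_combination -V.chi x * V.n g * h1

/-- A closed walk through all vertices of its side. -/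
structure CW (q : Q) (w : List B.L) : Prop where
  fin : B.fin q w = q
  nd : (src B q w).Nodup
  mem : ∀ y, y ∈ src B q w ↔ side y = side q
  tt : Tt V H P q w
  vol : AddSubgroup.zmultiples (V.vol q w) = H

variable {V H side P}

theorem CW.rot {q : Q} {w₁ w₂ : List B.L} (h : CW V H side P q (w₁ ++ w₂)) :
    CW V H side P (B.fin q w₁) (w₂ ++ w₁) := by
  have hf := h.fin
  rw [fin_append] at hf
  have hs : side (B.fin q w₁) = side q := by
    by_cases h0 : w₂ = []
    · rw [h0] at hf
      have : B.fin q w₁ = q := hf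
      rw [this]
    · rw [← h.mem, src_append, src_ne_nil _ h0]
      exact List.mem_append_right _ List.mem_cons_self
  have htt := (tt_append V H P q w₁ w₂).1 h.tt
  refine ⟨by rw [fin_append, hf], ?_, ?_, ?_, ?_⟩
  · have := h.nd
    rw [src_append] at this
    rw [src_append, hf]
    exact (List.perm_append_comm.nodup_iff).1 this
  · intro y
    rw [hs, ← h.mem, src_append, src_append, hf, List.mem_append, List.mem_append, or_comm]
  · rw [tt_append, hf]
    exact ⟨htt.2, htt.1⟩
  · rw [← h.vol, H6.vol_append, H6.vol_append, hf, add_comm]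

theorem CW.rev {q : Q} {w : List B.L} (h : CW V H side P q w) : CW V H side P q (B.rev w) := by
  have hv := verts_rev (B := B) q w
  rw [h.fin, verts_eq, verts_eq] at hv
  have hf : B.fin q (B.rev w) = q := by
    have := fin_rev (B := B) q w
    rwa [h.fin] at this
  rw [hf, h.fin] at hv
  have hp : (src B q (B.rev w)).Perm (src B q w) := by
    have h1 : (src B q (B.rev w) ++ [q]).Perm (src B q w ++ [q]) := by
      rw [hv]; exact List.reverse_perm _
    exact (List.perm_append_right_iff _).1 h1
  refine ⟨hf, hp.nodup_iff.2 h.nd, fun y => by rw [hp.mem_iff, h.mem], ?_, ?_⟩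
  · have := tt_rev V H P q w h.tt
    rwa [h.fin] at this
  · have := vol_rev V q w
    rw [h.fin] at this
    rw [this, AddSubgroup.zmultiples_neg, h.vol]

variable (V H side P)

/-- The label `g` leads from `q` to a neighbour on the closed walk of `q`. -/
def OKL (q : Q) (g : B.L) : Prop :=
  ∃ (l : List B.L) (g' : B.L), CW V H side P q (l ++ [g']) ∧ B.q g' = (B.q g)⁻¹ ∧
    V.n g + V.chi (B.q g) * V.n g' = 0

/-- The cell of a vertex. -/
def cell (y : Q × R) : Bool × (R ⧸ H) := (side y.1, QuotientAddGroup.mk (y.2 - P y.1))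

variable {V H side P}

theorem okl_last {q : Q} {l : List B.L} {g : B.L} (h : CW V H side P q (l ++ [g])) :
    OKL V H side P q (B.inv g) := by
  refine ⟨l, g, h, by rw [B.q_inv, inv_inv], ?_⟩
  rw [V.n_inv, B.q_inv]; ring

theorem okl_first {q : Q} {l : List B.L} {g : B.L} (h : CW V H side P q (g :: l)) : OKL V H side P q g := by
  have h1 := h.rev
  rw [rev_cons] at h1
  refine ⟨B.rev l, B.inv g, h1, B.q_inv g, ?_⟩
  have h2 : V.chi (B.q g) * V.chi (B.q g)⁻¹ = 1 := by rw [← map_mul, mul_inv_cancel, map_one]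
  rw [V.n_inv]
  linear_combination -V.n g * h2

theorem okl_next {q : Q} {l : List B.L} {g : B.L} (h : CW V H side P q (g :: l)) :
    OKL V H side P (q * B.q g) (B.inv g) :=
  okl_last (CW.rot (w₁ := [g]) (w₂ := l) h)

theorem okl_prev {q : Q} {l : List B.L} {g : B.L} (h : CW V H side P q (l ++ [g])) :
    OKL V H side P (q * (B.q g)⁻¹) g := by
  have h1 := CW.rot h
  have hf := h.fin
  rw [fin_append] at hf
  have e : B.fin q l = q * (B.q g)⁻¹ := by
    rw [eq_mul_inv_iff_mul_eq]; exact hf
  rw [e] at h1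
  exact okl_first h1

theorem OKL.tight {q : Q} {g : B.L} (h : OKL V H side P q g) :
    side (q * B.q g) = side q ∧ P (q * B.q g) - P q - V.chi q * V.n g ∈ H := by
  obtain ⟨l, g', hC, hq, hn⟩ := h
  have hf := hC.fin
  rw [fin_append] at hf
  have e : B.fin q l = q * B.q g := by
    have : B.fin q l * B.q g' = q := hf
    rw [hq, mul_inv_eq_iff_eq_mul] at this
    exact this
  constructor
  · rw [← e, ← hC.mem, src_append]
    exact List.mem_append_right _ List.mem_cons_self
  · have h1 := ((tt_append V H P q l [g']).1 hC.tt).2.1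
    rw [e] at h1
    have e2 : q * B.q g * B.q g' = q := by rw [hq, mul_inv_cancel_right]
    rw [e2, map_mul] at h1
    have e3 : P (q * B.q g) - P q - V.chi q * V.n g =
        -(P q - P (q * B.q g) - V.chi q * V.chi (B.q g) * V.n g') := by
      linear_combination -V.chi q * hn
    rw [e3]
    exact H.neg_mem h1

theorem cell_step {e : Q × R} {g : B.L} (h : OKL V H side P e.1 g) :
    cell H side P (ef V e [g]) = cell H side P e := by
  obtain ⟨h1, h2⟩ := h.tight
  unfold cell
  rw [ef_eq]
  simp only [Lb.fin, Vd.vol, add_zero, h1, Prod.mk.injEq, true_and]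
  rw [QuotientAddGroup.eq]
  have e3 : -(e.2 + V.chi e.1 * V.n g - P (e.1 * B.q g)) + (e.2 - P e.1) =
      P (e.1 * B.q g) - P e.1 - V.chi e.1 * V.n g := by ring
  rw [e3]
  exact h2

/-- A cell is traversed. -/
theorem blk_cell [Finite R] {q : Q} {g : B.L} (h : OKL V H side P q g) (v : R) :
    ∃ L : List B.L, (ev V (q, v) L).Nodup ∧
      (∀ y, y ∈ ev V (q, v) L ↔ cell H side P y = cell H side P (q, v)) ∧ ef V (q, v) L = ef V (q, v) [g] := by
  obtain ⟨l, g', hC, hq, hn⟩ := h
  have hsrc : src B q (l ++ [g']) = B.verts q l := by rw [src_append, verts_eq]; rfl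
  have hnd : (B.verts q l).Nodup := by rw [← hsrc]; exact hC.nd
  have hf := hC.fin
  rw [fin_append] at hf
  have e : B.fin q l = q * B.q g := by
    have : B.fin q l * B.q g' = q := hf
    rw [hq, mul_inv_eq_iff_eq_mul] at this
    exact this
  set n := addOrderOf (V.vol q (l ++ [g'])) with hndef
  have hpos : 0 < n := addOrderOf_pos _
  have hnd0 := H6.nodup_blk V q l g' hC.fin hnd
  have hadd := ev_add V (q, (0 : R)) v (H6.blk l g' n)
  simp only [zero_add] at hadd
  have htr : ∀ y : Q × R, y ∈ ev V (q, v) (H6.blk l g' n) ↔ (y.1, y.2 - v) ∈ ev V (q, 0) (H6.blk l g' n) := by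
    intro y
    rw [hadd, List.mem_map]
    constructor
    · rintro ⟨⟨a, b⟩, hab, rfl⟩
      simpa using hab
    · intro hh
      exact ⟨_, hh, by simp⟩
  refine ⟨H6.blk l g' n, ?_, ?_, ?_⟩
  · rw [hadd]
    refine hnd0.map ?_
    rintro ⟨a, b⟩ ⟨a', b'⟩ hab
    simpa using hab
  · rintro ⟨y, r⟩
    rw [htr, H6.mem_blk V q l g' hC.fin, hC.vol]
    simp only
    have httl := ((tt_append V H P q l [g']).1 hC.tt).1
    constructor
    · rintro ⟨r₀, h1, h2⟩
      have h3 := tt_mem V H P q 0 l httl y r₀ h1
      have h4 : side y = side q := by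
        rw [← hC.mem, hsrc]
        have := ev_fst V (q, (0 : R)) l
        simp only at this
        rw [← this]
        exact List.mem_map.2 ⟨_, h1, rfl⟩
      unfold cell
      simp only [h4, Prod.mk.injEq, true_and]
      rw [QuotientAddGroup.eq]
      have e3 : -(r - P y) + (v - P q) = -((r - v - r₀) + (r₀ - 0 - (P y - P q))) := by ring
      rw [e3]
      exact H.neg_mem (H.add_mem h2 h3)
    · intro hc
      unfold cell at hc
      simp only [Prod.mk.injEq] at hc
      obtain ⟨h4, h5⟩ := hc
      rw [← hC.mem, hsrc] at h4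
      have := ev_fst V (q, (0 : R)) l
      simp only at this
      rw [← this, List.mem_map] at h4
      obtain ⟨⟨a, r₀⟩, h1, rfl⟩ := h4
      refine ⟨r₀, h1, ?_⟩
      have h3 := tt_mem V H P q 0 l httl a r₀ h1
      rw [QuotientAddGroup.eq] at h5
      have e3 : r - v - r₀ = -((-(r - P a) + (v - P q)) + (r₀ - 0 - (P a - P q))) := by ring
      rw [e3]
      exact H.neg_mem (H.add_mem h5 h3)
  · rw [ef_eq, ef_eq, H6.fin_blk V q l g' hC.fin, H6.vol_blk V q l g' hC.fin, e]
    simp only [Lb.fin, Vd.vol, add_zero, Prod.mk.injEq, true_and]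
    have h1 : ((n - 1 : ℕ) : R) * V.vol q (l ++ [g']) = - V.vol q (l ++ [g']) := by
      have h2 : (n : R) * V.vol q (l ++ [g']) = 0 := by
        rw [← nsmul_eq_mul]; exact addOrderOf_nsmul_eq_zero _
      rw [Nat.cast_sub (by omega), sub_mul, h2]; simp
    have h3 : V.vol q (l ++ [g']) = V.vol q l + V.chi q * V.chi (B.q g) * V.n g' := by
      rw [H6.vol_append, e]
      simp only [Vd.vol, add_zero, map_mul]
    rw [h1, h3]
    linear_combination V.chi q * -hn

/-! ### Walks among the cells -/

variable (V H side P)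

/-- The cells of a walk: every pair is a block and a label to the next cell. -/
def cs : Q × R → List (B.L × B.L) → List (Bool × (R ⧸ H))
  | _, [] => []
  | e, p :: W => cell H side P e :: cs (ef V e [p.1, p.2]) W

/-- The labels of the blocks are right. -/
def ok : Q × R → List (B.L × B.L) → Prop
  | _, [] => True
  | e, p :: W => OKL V H side P e.1 p.1 ∧ ok (ef V e [p.1, p.2]) W

/-- The end. -/
def tg : Q × R → List (B.L × B.L) → Q × R
  | e, [] => e
  | e, p :: W => tg (ef V e [p.1, p.2]) W

variable {V H side P}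

theorem tg_append (e : Q × R) (W W' : List (B.L × B.L)) : tg V e (W ++ W') = tg V (tg V e W) W' := by
  induction W generalizing e with
  | nil => rfl
  | cons p W ih => exact ih _

theorem ok_append (e : Q × R) (W W' : List (B.L × B.L)) :
    ok V H side P e (W ++ W') ↔ ok V H side P e W ∧ ok V H side P (tg V e W) W' := by
  induction W generalizing e with
  | nil => exact ⟨fun h => ⟨trivial, h⟩, fun h => h.2⟩
  | cons p W ih =>
    show (OKL V H side P e.1 p.1 ∧ ok V H side P (ef V e [p.1, p.2]) (W ++ W')) ↔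
      (OKL V H side P e.1 p.1 ∧ ok V H side P (ef V e [p.1, p.2]) W) ∧
        ok V H side P (tg V (ef V e [p.1, p.2]) W) W'
    rw [ih, and_assoc]

theorem cs_append (e : Q × R) (W W' : List (B.L × B.L)) :
    cs V H side P e (W ++ W') = cs V H side P e W ++ cs V H side P (tg V e W) W' := by
  induction W generalizing e with
  | nil => rfl
  | cons p W ih => exact congrArg (List.cons _) (ih _)

theorem walk [Finite R] (e : Q × R) (W : List (B.L × B.L)) (hok : ok V H side P e W)
    (hnd : (cs V H side P e W).Nodup) :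
    ∃ l : List B.L, (es V e l).Nodup ∧ (∀ y, y ∈ es V e l ↔ cell H side P y ∈ cs V H side P e W) ∧
      ef V e l = tg V e W := by
  induction W generalizing e with
  | nil => exact ⟨[], List.nodup_nil, fun y => by simp [es, cs], rfl⟩
  | cons p W ih =>
    obtain ⟨h1, h2⟩ := hok
    have hnd' := List.nodup_cons.1 hnd
    obtain ⟨l, a1, a2, a3⟩ := ih _ h2 hnd'.2
    obtain ⟨L, b1, b2, b3⟩ := blk_cell h1 e.2
    have hef : ef V e (L ++ [p.2]) = ef V e [p.1, p.2] := by
      rw [ef_append, b3]; rfl
    have hes : es V e (L ++ [p.2]) = ev V e L := by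
      rw [es_append, ev_eq]; rfl
    refine ⟨(L ++ [p.2]) ++ l, ?_, ?_, ?_⟩
    · rw [es_append, hes, hef, List.nodup_append]
      refine ⟨b1, a1, ?_⟩
      rintro y hy z hz rfl
      rw [b2] at hy
      rw [a2] at hz
      rw [hy] at hz
      exact hnd'.1 hz
    · intro y
      rw [es_append, hes, hef, List.mem_append, a2]
      have hb := b2 y
      rw [hb]
      show _ ↔ cell H side P y ∈ cell H side P e :: cs V H side P (ef V e [p.1, p.2]) W
      rw [List.mem_cons]
    · rw [ef_append, hef, a3]; rfl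

/-- A walk through all cells gives a Hamiltonian path. -/
theorem hp_of [Finite R] (e : Q × R) (W : List (B.L × B.L)) (hok : ok V H side P e W)
    (hnd : (cs V H side P e W).Nodup) (hall : ∀ y, cell H side P y ∈ cs V H side P e W) : HP V := by
  obtain ⟨l, h1, h2, -⟩ := walk e W hok hnd
  rcases List.eq_nil_or_concat l with rfl | ⟨l', g, rfl⟩
  · have := (h2 e).2 (hall e)
    exact absurd this List.not_mem_nil
  · rw [List.concat_eq_append] at h1 h2
    have hes : es V e (l' ++ [g]) = ev V e l' := by
      rw [es_append, ev_eq]; rfl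
    rw [hes] at h1 h2
    exact ⟨e, l', h1, fun y => (h2 y).2 (hall y)⟩

end Pool.Agent.Lib.MP_688fd0_co.SQ4.Small.Lad
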