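import Pool.Agent.Lib.MP_688fd0_co.SQ4.Small.LadT0

/-!
Ladders, rows T1B and T1Z, second part: runs (all cells of a coset of `Γ'`, at one site) and chains of runs.
-/

set_option autoImplicit false

namespace Pool.Agent.Lib.MP_688fd0_co.SQ4.Small.Lad

open Pool.Agent.Lib.MP_688fd0_co.OSF Pool.Agent.Lib.MP_688fd0_co.SQ2 Pool.Agent.Lib.MP_688fd0_co.SQ3
open Pool.Agent.Lib.MP_688fd0_co.SQ3.Small

variable {Q : Type} [Group Q] {B : Lb.{0, 0} Q} {R : Type} [CommRing R] (V : Vd B R)
  (H : AddSubgroup R) (side : Q → Bool) (P : Q → R)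

/-- A site: `ys` on the second walk, `s` leads to `xs` on the first one; a move `(g, k, h)` goes from `xs` to a neighbour,
across, and back to `ys`. -/
structure Site (xs ys : Q) (s : B.L) (M : Set (B.L × B.L × B.L)) : Prop where
  sx : side xs = true
  sy : side ys = false
  hs : ys * B.q s = xs
  m₁ : ∀ μ ∈ M, OKL V H side P xs μ.1
  m₂ : ∀ μ ∈ M, OKL V H side P (xs * B.q μ.1 * B.q μ.2.1) μ.2.2
  m₃ : ∀ μ ∈ M, xs * B.q μ.1 * B.q μ.2.1 * B.q μ.2.2 = ys

/-- The displacement of a move. -/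
def dsp (xs : Q) (s : B.L) (μ : B.L × B.L × B.L) : R := V.vol xs [μ.1, μ.2.1, μ.2.2, s]

/-- The moves as a walk. -/
def mw (s : B.L) (ms : List (B.L × B.L × B.L)) : List (B.L × B.L) :=
  ms.flatMap fun μ => [(μ.1, μ.2.1), (μ.2.2, s)]

/-- The difference between the indices of an `X`-cell and the `Y`-cell before it. -/
def dl (xs ys : Q) (s : B.L) : R := P xs - V.chi ys * V.n s - P ys

variable {V H side P}

theorem fin_move {xs ys : Q} {s : B.L} {M : Set (B.L × B.L × B.L)} (S : Site V H side P xs ys s M)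
    {μ : B.L × B.L × B.L} (hμ : μ ∈ M) (u : R) :
    ef V (ef V (xs, u) [μ.1, μ.2.1]) [μ.2.2, s] = (xs, u + dsp V xs s μ) := by
  rw [← ef_append, ef_eq]
  show (xs * B.q μ.1 * B.q μ.2.1 * B.q μ.2.2 * B.q s, u + V.vol xs [μ.1, μ.2.1, μ.2.2, s]) = _
  rw [S.m₃ μ hμ, S.hs]
  rfl

theorem mw_spec {xs ys : Q} {s : B.L} {M : Set (B.L × B.L × B.L)} (S : Site V H side P xs ys s M)
    (ms : List (B.L × B.L × B.L)) (hms : ∀ μ ∈ ms, μ ∈ M) (u : R) :
    ok V H side P (xs, u) (mw s ms) ∧ tg V (xs, u) (mw s ms) = (xs, u + (ms.map (dsp V xs s)).sum) ∧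
    ((false, QuotientAddGroup.mk (u - P xs) + QuotientAddGroup.mk (dl V P xs ys s)) ::
      (cs V H side P (xs, u) (mw s ms) ++
        [(true, QuotientAddGroup.mk (u + (ms.map (dsp V xs s)).sum - P xs))]) : List (Bool × (R ⧸ H))) =
      (List.scanl (fun x y : R ⧸ H => x + y) (QuotientAddGroup.mk (u - P xs))
        (ms.map fun μ => (QuotientAddGroup.mk (dsp V xs s μ) : R ⧸ H))).flatMap
        (fun a => [(false, a + QuotientAddGroup.mk (dl V P xs ys s)), (true, a)]) := by
  induction ms generalizing u with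
  | nil =>
    refine ⟨trivial, by simp [mw, tg], ?_⟩
    simp [mw, cs]
  | cons μ ms ih =>
    have hμ := hms μ List.mem_cons_self
    obtain ⟨i1, i2, i3⟩ := ih (fun ν hν => hms ν (List.mem_cons_of_mem _ hν)) (u + dsp V xs s μ)
    have hmw : mw s (μ :: ms) = (μ.1, μ.2.1) :: (μ.2.2, s) :: mw s ms := rfl
    have hf := fin_move S hμ u
    have hsum : ((μ :: ms).map (dsp V xs s)).sum = dsp V xs s μ + (ms.map (dsp V xs s)).sum := by simp
    have hok2 : OKL V H side P (ef V (xs, u) [μ.1, μ.2.1]).1 μ.2.2 := by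
      rw [ef_eq]; exact S.m₂ μ hμ
    refine ⟨?_, ?_, ?_⟩
    · rw [hmw]
      refine ⟨S.m₁ μ hμ, hok2, ?_⟩
      show ok V H side P (ef V (ef V (xs, u) [μ.1, μ.2.1]) [μ.2.2, s]) (mw s ms)
      rw [hf]
      exact i1
    · rw [hmw]
      show tg V (ef V (ef V (xs, u) [μ.1, μ.2.1]) [μ.2.2, s]) (mw s ms) = _
      rw [hf, i2, hsum, add_assoc]
    · rw [hmw]
      show (false, _) :: (cell H side P (xs, u) :: cell H side P (ef V (xs, u) [μ.1, μ.2.1]) ::
        cs V H side P (ef V (ef V (xs, u) [μ.1, μ.2.1]) [μ.2.2, s]) (mw s ms) ++ _) = _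
      rw [hf, hsum]
      have e1 : cell H side P (xs, u) = (true, QuotientAddGroup.mk (u - P xs)) := by
        unfold cell
        simp only [S.sx]
      have e2 : cell H side P (ef V (xs, u) [μ.1, μ.2.1]) =
          (false, QuotientAddGroup.mk (u + dsp V xs s μ - P xs) + QuotientAddGroup.mk (dl V P xs ys s)) := by
        rw [← cell_step hok2, ← ef_append]
        have e3 : ef V (xs, u) ([μ.1, μ.2.1] ++ [μ.2.2]) = (ys, u + V.vol xs [μ.1, μ.2.1, μ.2.2]) := by
          rw [ef_eq]
          show (xs * B.q μ.1 * B.q μ.2.1 * B.q μ.2.2, _) = _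
          rw [S.m₃ μ hμ]
          rfl
        rw [e3]
        unfold cell
        simp only [S.sy, Prod.mk.injEq, true_and]
        rw [← QuotientAddGroup.mk_add]
        congr 1
        have e4 : dsp V xs s μ = V.vol xs [μ.1, μ.2.1, μ.2.2] + V.chi ys * V.n s := by
          unfold dsp
          rw [show [μ.1, μ.2.1, μ.2.2, s] = [μ.1, μ.2.1, μ.2.2] ++ [s] from rfl, H6.vol_append]
          have e5 : B.fin xs [μ.1, μ.2.1, μ.2.2] = ys := S.m₃ μ hμ
          rw [e5]
          simp only [Vd.vol, add_zero]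
        rw [e4]
        unfold dl
        ring
      have e6 : u + (dsp V xs s μ + (ms.map (dsp V xs s)).sum) - P xs =
          u + dsp V xs s μ + (ms.map (dsp V xs s)).sum - P xs := by ring
      rw [e1, e2, e6]
      have e7 : List.scanl (fun x y : R ⧸ H => x + y) (QuotientAddGroup.mk (u - P xs))
          ((μ :: ms).map fun μ => (QuotientAddGroup.mk (dsp V xs s μ) : R ⧸ H)) =
          QuotientAddGroup.mk (u - P xs) :: List.scanl (fun x y : R ⧸ H => x + y)
            (QuotientAddGroup.mk (u + dsp V xs s μ - P xs))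
            (ms.map fun μ => (QuotientAddGroup.mk (dsp V xs s μ) : R ⧸ H)) := by
        rw [List.map_cons, List.scanl_cons, ← QuotientAddGroup.mk_add]
        congr 3
        ring
      rw [e7, List.flatMap_cons, ← i3]
      rfl

/-- A Hamiltonian path in a subgroup. -/
theorem hs_sub (hH : HsS) {A : Type} [AddCommGroup A] [Finite A] (G : AddSubgroup A) {κ : Type} (M : Set κ) (d : κ → A)
    (hd : ∀ μ ∈ M, d μ ∈ G) (hG : ∀ K : AddSubgroup A, (∀ μ ∈ M, d μ ∈ K) → G ≤ K) :
    ∃ ms : List κ, (∀ μ ∈ ms, μ ∈ M) ∧ (List.scanl (fun x y : A => x + y) 0 (ms.map d)).Nodup ∧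
      ∀ a, a ∈ List.scanl (fun x y : A => x + y) 0 (ms.map d) ↔ a ∈ G := by
  have hcl : AddSubgroup.closure {x : G | ∃ μ ∈ M, (x : A) = d μ} = ⊤ := by
    have h1 := hG ((AddSubgroup.closure {x : G | ∃ μ ∈ M, (x : A) = d μ}).map G.subtype) (by
      intro μ hμ
      exact ⟨⟨d μ, hd μ hμ⟩, AddSubgroup.subset_closure ⟨μ, hμ, rfl⟩, rfl⟩)
    rw [eq_top_iff]
    rintro ⟨x, hx⟩ -
    obtain ⟨y, hy, he⟩ := h1 hx
    have : y = ⟨x, hx⟩ := Subtype.ext he
    rw [← this]; exact hy
  obtain ⟨l, hl1, hl2, hl3⟩ := hH G _ hcl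
  have hlift : ∃ ms : List κ, (∀ μ ∈ ms, μ ∈ M) ∧ (ms.map d) = l.map (fun x : G => (x : A)) := by
    clear hl2 hl3
    induction l with
    | nil => exact ⟨[], by simp, rfl⟩
    | cons a l ih =>
      obtain ⟨ss, h1, h2⟩ := ih (fun x hx => hl1 x (List.mem_cons_of_mem _ hx))
      obtain ⟨s, hs, hsa⟩ := hl1 a List.mem_cons_self
      refine ⟨s :: ss, ?_, ?_⟩
      · intro r hr
        rcases List.mem_cons.1 hr with rfl | hr
        · exact hs
        · exact h1 r hr
      · rw [List.map_cons, h2, List.map_cons, hsa]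
  obtain ⟨ms, hms, hmap⟩ := hlift
  have hsc : ∀ (l : List G) (x : G), List.scanl (fun x y : A => x + y) (x : A) (l.map (fun x : G => (x : A))) =
      (List.scanl (fun x y : G => x + y) x l).map (fun x : G => (x : A)) := by
    intro l
    induction l with
    | nil => intro x; simp
    | cons a l ih =>
      intro x
      rw [List.map_cons, List.scanl_cons, List.scanl_cons, List.map_cons, ← ih (x + a)]
      rfl
  have h0 := hsc l 0
  refine ⟨ms, hms, ?_, ?_⟩
  · rw [hmap]
    have : ((0 : G) : A) = 0 := rfl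
    rw [← this, h0]
    exact hl2.map Subtype.val_injective
  · intro a
    rw [hmap]
    have : ((0 : G) : A) = 0 := rfl
    rw [← this, h0, List.mem_map]
    constructor
    · rintro ⟨x, -, rfl⟩; exact x.2
    · intro ha
      exact ⟨⟨a, ha⟩, hl3 _, rfl⟩

theorem scanl_add {A : Type} [AddCommGroup A] (l : List A) (a x : A) :
    List.scanl (fun x y : A => x + y) (a + x) l = (List.scanl (fun x y : A => x + y) x l).map (fun y => a + y) := by
  induction l generalizing x with
  | nil => simp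
  | cons b l ih => rw [List.scanl_cons, List.scanl_cons, List.map_cons, ← ih, add_assoc]

section run

variable (H side) in
/-- The class of a cell modulo `Γ'`: `X`-cells are moved to the `Y`-cell before them. -/
def nu (G : AddSubgroup (R ⧸ H)) (δ : R ⧸ H) (c : Bool × (R ⧸ H)) : (R ⧸ H) ⧸ G :=
  QuotientAddGroup.mk (if c.1 then c.2 + δ else c.2)

/-- A run: all cells of a class. -/
theorem run (hH : HsS) [Finite R] {xs ys : Q} {s : B.L} {M : Set (B.L × B.L × B.L)}
    (S : Site V H side P xs ys s M) (G : AddSubgroup (R ⧸ H)) (δ : R ⧸ H)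
    (hδ : δ - QuotientAddGroup.mk (dl V P xs ys s) ∈ G)
    (hd : ∀ μ ∈ M, (QuotientAddGroup.mk (dsp V xs s μ) : R ⧸ H) ∈ G)
    (hG : ∀ K : AddSubgroup (R ⧸ H), (∀ μ ∈ M, (QuotientAddGroup.mk (dsp V xs s μ) : R ⧸ H) ∈ K) → G ≤ K)
    (e : Q × R) (b : B.L) (hb : OKL V H side P e.1 b) (hey : e.1 * B.q b = ys) (ge ce : B.L)
    (hge : OKL V H side P xs ge) :
    ∃ W, ok V H side P e W ∧ (cs V H side P e W).Nodup ∧
      (∀ c, c ∈ cs V H side P e W ↔ nu H G δ c = nu H G δ (cell H side P e)) ∧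
      ∃ t, tg V e W = (xs * B.q ge * B.q ce, e.2 + V.vol e.1 [b, s, ge, ce] + t) ∧
        (QuotientAddGroup.mk t : R ⧸ H) ∈ G := by
  obtain ⟨ms, hms, hnd, hmem⟩ := hs_sub hH G M (fun μ => (QuotientAddGroup.mk (dsp V xs s μ) : R ⧸ H)) hd hG
  have he1 : ef V e [b, s] = (xs, e.2 + V.vol e.1 [b, s]) := by
    rw [ef_eq]
    show (e.1 * B.q b * B.q s, _) = _
    rw [hey, S.hs]
  set u := e.2 + V.vol e.1 [b, s] with hu
  obtain ⟨i1, i2, i3⟩ := mw_spec S ms hms u
  set a₀ : R ⧸ H := QuotientAddGroup.mk (u - P xs) with ha₀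
  set dd : R ⧸ H := QuotientAddGroup.mk (dl V P xs ys s) with hdd
  have hce : cell H side P e = (false, a₀ + dd) := by
    rw [← cell_step hb]
    have e3 : ef V e [b] = (ys, e.2 + V.vol e.1 [b]) := by
      rw [ef_eq]
      show (e.1 * B.q b, _) = _
      rw [hey]
    rw [e3]
    unfold cell
    simp only [S.sy, Prod.mk.injEq, true_and]
    rw [ha₀, hdd, ← QuotientAddGroup.mk_add]
    congr 1
    rw [hu]
    have e4 : V.vol e.1 [b, s] = V.vol e.1 [b] + V.chi ys * V.n s := by
      rw [show [b, s] = [b] ++ [s] from rfl, H6.vol_append]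
      have e5 : B.fin e.1 [b] = ys := hey
      rw [e5]
      simp only [Vd.vol, add_zero]
    rw [e4]
    unfold dl
    ring
  -- the walk
  have hW : cs V H side P e ((b, s) :: (mw s ms ++ [(ge, ce)])) =
      (List.scanl (fun x y : R ⧸ H => x + y) a₀
        (ms.map fun μ => (QuotientAddGroup.mk (dsp V xs s μ) : R ⧸ H))).flatMap
        (fun a => [(false, a + dd), (true, a)]) := by
    rw [← i3]
    show cell H side P e :: cs V H side P (ef V e [b, s]) (mw s ms ++ [(ge, ce)]) = _
    rw [hce, cs_append, he1, i2]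
    show _ :: (_ ++ [cell H side P (xs, u + (ms.map (dsp V xs s)).sum)]) = _
    have : cell H side P (xs, u + (ms.map (dsp V xs s)).sum) =
        (true, QuotientAddGroup.mk (u + (ms.map (dsp V xs s)).sum - P xs)) := by
      unfold cell
      simp only [S.sx]
    rw [this]
  have hsc := scanl_add (ms.map fun μ => (QuotientAddGroup.mk (dsp V xs s μ) : R ⧸ H)) a₀ 0
  rw [add_zero] at hsc
  refine ⟨(b, s) :: (mw s ms ++ [(ge, ce)]), ?_, ?_, ?_, ?_⟩
  · refine ⟨hb, ?_⟩
    show ok V H side P (ef V e [b, s]) _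
    rw [he1, ok_append, i2]
    exact ⟨i1, hge, trivial⟩
  · rw [hW, hsc, List.nodup_flatMap]
    refine ⟨fun a _ => by simp, ?_⟩
    have h1 : ((List.scanl (fun x y : R ⧸ H => x + y) 0
        (ms.map fun μ => (QuotientAddGroup.mk (dsp V xs s μ) : R ⧸ H))).map (fun y => a₀ + y)).Nodup :=
      hnd.map (add_right_injective a₀)
    refine List.Pairwise.imp ?_ h1
    intro a a' haa
    rw [Function.onFun, List.disjoint_left]
    intro c hc hc'
    simp only [List.mem_cons, List.not_mem_nil, or_false] at hc hc'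
    rcases hc with rfl | rfl <;> rcases hc' with h2 | h2 <;> simp only [Prod.mk.injEq] at h2
    · exact haa (add_right_cancel h2.2)
    · exact absurd h2.1 (by decide)
    · exact absurd h2.1 (by decide)
    · exact haa h2.2
  · intro c
    rw [hW, hsc, hce, List.mem_flatMap]
    have hn : nu H G δ (false, a₀ + dd) = QuotientAddGroup.mk (a₀ + dd) := rfl
    rw [hn]
    constructor
    · rintro ⟨a, ha, hc⟩
      obtain ⟨a', ha', rfl⟩ := List.mem_map.1 ha
      rw [hmem] at ha'
      simp only [List.mem_cons, List.not_mem_nil, or_false] at hc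
      rcases hc with rfl | rfl
      · show (QuotientAddGroup.mk (a₀ + a' + dd) : (R ⧸ H) ⧸ G) = _
        rw [QuotientAddGroup.eq]
        have : -(a₀ + a' + dd) + (a₀ + dd) = -a' := by abel
        rw [this]; exact G.neg_mem ha'
      · show (QuotientAddGroup.mk (a₀ + a' + δ) : (R ⧸ H) ⧸ G) = _
        rw [QuotientAddGroup.eq]
        have : -(a₀ + a' + δ) + (a₀ + dd) = -(a' + (δ - dd)) := by abel
        rw [this]; exact G.neg_mem (G.add_mem ha' hδ)
    · intro hc
      obtain ⟨σ, a⟩ := c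
      cases σ with
      | false =>
        have h1 : (QuotientAddGroup.mk a : (R ⧸ H) ⧸ G) = QuotientAddGroup.mk (a₀ + dd) := hc
        rw [QuotientAddGroup.eq] at h1
        refine ⟨a - dd, ?_, by simp⟩
        rw [List.mem_map]
        refine ⟨a - dd - a₀, ?_, by abel⟩
        rw [hmem]
        have : a - dd - a₀ = -(-a + (a₀ + dd)) := by abel
        rw [this]; exact G.neg_mem h1
      | true =>
        have h1 : (QuotientAddGroup.mk (a + δ) : (R ⧸ H) ⧸ G) = QuotientAddGroup.mk (a₀ + dd) := hc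
        rw [QuotientAddGroup.eq] at h1
        refine ⟨a, ?_, by simp⟩
        rw [List.mem_map]
        refine ⟨a - a₀, ?_, by abel⟩
        rw [hmem]
        have : a - a₀ = -((-(a + δ) + (a₀ + dd)) + (δ - dd)) := by abel
        rw [this]; exact G.neg_mem (G.add_mem h1 hδ)
  · refine ⟨(ms.map (dsp V xs s)).sum, ?_, ?_⟩
    · show tg V (ef V e [b, s]) (mw s ms ++ [(ge, ce)]) = _
      rw [he1, tg_append, i2]
      show ef V (xs, u + (ms.map (dsp V xs s)).sum) [ge, ce] = _
      rw [ef_eq]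
      show (xs * B.q ge * B.q ce, u + (ms.map (dsp V xs s)).sum + V.vol xs [ge, ce]) = _
      have e4 : V.vol e.1 [b, s, ge, ce] = V.vol e.1 [b, s] + V.vol xs [ge, ce] := by
        rw [show [b, s, ge, ce] = [b, s] ++ [ge, ce] from rfl, H6.vol_append]
        have e5 : B.fin e.1 [b, s] = xs := by
          show e.1 * B.q b * B.q s = xs
          rw [hey, S.hs]
        rw [e5]
      rw [e4, hu]
      congr 1
      ring
    · have h1 : ∀ l : List (B.L × B.L × B.L), (∀ μ ∈ l, μ ∈ M) →
          (QuotientAddGroup.mk ((l.map (dsp V xs s)).sum) : R ⧸ H) ∈ G := by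
        intro l
        induction l with
        | nil => intro _; exact G.zero_mem
        | cons μ l ih =>
          intro hl
          rw [List.map_cons, List.sum_cons, QuotientAddGroup.mk_add]
          exact G.add_mem (hd μ (hl μ List.mem_cons_self)) (ih fun ν hν => hl ν (List.mem_cons_of_mem _ hν))
      exact h1 ms hms

/-- A chain of runs. -/
theorem chain [Finite R] (G : AddSubgroup (R ⧸ H)) (δ : R ⧸ H) (τ : (R ⧸ H) ⧸ G) (en : Bool → Q)
    (hrun : ∀ (f : Bool) (e : Q × R), e.1 = en f → ∃ W, ok V H side P e W ∧ (cs V H side P e W).Nodup ∧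
      (∀ c, c ∈ cs V H side P e W ↔ nu H G δ c = nu H G δ (cell H side P e)) ∧ (tg V e W).1 = en (!f) ∧
      nu H G δ (cell H side P (tg V e W)) = nu H G δ (cell H side P e) + τ) :
    ∀ n : ℕ, n ≤ addOrderOf τ → ∀ (f : Bool) (e : Q × R), e.1 = en f →
      ∃ W, ok V H side P e W ∧ (cs V H side P e W).Nodup ∧
        ∀ c, c ∈ cs V H side P e W ↔ ∃ j < n, nu H G δ c = nu H G δ (cell H side P e) + j • τ := by
  intro n
  induction n with
  | zero =>
    intro _ f e he
    exact ⟨[], trivial, List.nodup_nil, fun c => by simp [cs]⟩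
  | succ n ih =>
    intro hn f e he
    obtain ⟨W₁, a1, a2, a3, a4, a5⟩ := hrun f e he
    obtain ⟨W₂, b1, b2, b3⟩ := ih (by omega) (!f) (tg V e W₁) a4
    refine ⟨W₁ ++ W₂, (ok_append e W₁ W₂).2 ⟨a1, b1⟩, ?_, ?_⟩
    · rw [cs_append, List.nodup_append]
      refine ⟨a2, b2, ?_⟩
      rintro c hc c' hc' rfl
      rw [a3] at hc
      obtain ⟨j, hj, h1⟩ := (b3 c).1 hc'
      rw [hc, a5] at h1
      have h2 : (j + 1) • τ = 0 := by
        rw [succ_nsmul]
        have h3 : nu H G δ (cell H side P e) = nu H G δ (cell H side P e) + (τ + j • τ) := by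
          rw [← add_assoc]; exact h1
        have h4 : j • τ + τ = nu H G δ (cell H side P e) + (τ + j • τ) - nu H G δ (cell H side P e) := by abel
        rw [h4, ← h3, sub_self]
      have h5 := addOrderOf_le_of_nsmul_eq_zero (Nat.succ_pos j) h2
      omega
    · intro c
      rw [cs_append, List.mem_append, a3, b3]
      constructor
      · rintro (h | ⟨j, hj, h⟩)
        · exact ⟨0, by omega, by rw [h, zero_nsmul, add_zero]⟩
        · refine ⟨j + 1, by omega, ?_⟩
          rw [h, a5, succ_nsmul]; abel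
      · rintro ⟨j, hj, h⟩
        cases j with
        | zero => left; rw [h, zero_nsmul, add_zero]
        | succ j =>
          right
          refine ⟨j, by omega, ?_⟩
          rw [h, a5, succ_nsmul]; abel

end run

end Pool.Agent.Lib.MP_688fd0_co.SQ4.Small.Lad
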