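import Pool.Agent.Lib.MP_688fd0_co.SQ4.Small.Iface
import Pool.Agent.Lib.MP_688fd0_co.SQ4.H87.Dstr
import Pool.Agent.Lib.MP_688fd0_co.SQ3.H23.Str

/-!
Row SMALLC: from the quotient to the group. If there are at most two lines, `M = N / C₁` is `<z>`, central in `ker eps`,
and `ker eps = <z> E` with `E` = all `x` in `ker eps` with `x ^ k = 1`.
-/

set_option autoImplicit false

namespace Pool.Agent.Lib.MP_688fd0_co.SQ4.Small

open Pool.Agent.Lib.MP_688fd0_co.OSF Pool.Agent.Lib.MP_688fd0_co.SQ2 Pool.Agent.Lib.MP_688fd0_co.SQ3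
open Pool.Agent.Lib.MP_688fd0_co.SQ4
open Pool.Agent.Lib.MP_688fd0_co.SQ3.Small (HP LiftS)
open Subgroup

/-- A subgroup which meets a normal subgroup `M` trivially has order dividing the index of `M`. -/
theorem card_dvd_index {Q : Type*} [Group Q] (M E : Subgroup Q) (hM : M.Normal)
    (h : ∀ x ∈ E, x ∈ M → x = 1) : Nat.card E ∣ M.index := by
  have h3 : Nat.card E = Nat.card (E.map (QuotientGroup.mk' M)) := by
    refine Nat.card_congr (Equiv.ofBijective (fun x => ⟨QuotientGroup.mk' M x.1, x.1, x.2, rfl⟩) ⟨?_, ?_⟩)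
    · intro x y hxy
      have h4 : QuotientGroup.mk' M x.1 = QuotientGroup.mk' M y.1 := congrArg Subtype.val hxy
      have h5 : x.1⁻¹ * y.1 ∈ M := QuotientGroup.eq.1 h4
      have h6 := h _ (E.mul_mem (E.inv_mem x.2) y.2) h5
      exact Subtype.ext (inv_mul_eq_one.1 h6)
    · rintro ⟨_, x, hx, rfl⟩
      exact ⟨⟨x, hx⟩, rfl⟩
  rw [h3, Subgroup.index]
  exact Subgroup.card_subgroup_dvd_card _

/-- The structure of `K` if the central Hall subgroup `M` is generated by `z`. -/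
theorem splitE {Q : Type*} [Group Q] [Finite Q] (K M : Subgroup Q) (z : Q) (k : ℕ) (hK : K.Normal) (hM : M.Normal)
    (hMz : zpowers z = M) (hMK : M ≤ K) (hcen : ∀ x ∈ K, x * z = z * x) (hidx : M.index = k)
    (hcop : (Nat.card M).Coprime k) :
    ∃ E : Subgroup Q, E.Normal ∧ Nat.card E ∣ k ∧ (∀ x, x ∈ E ↔ x ∈ K ∧ x ^ k = 1) ∧
      ∀ x ∈ K, ∃ j : ℤ, z ^ j * x ∈ E := by
  have hcM : ∀ y ∈ M, ∀ x ∈ K, y * x = x * y := by
    intro y hy x hx
    rw [← hMz] at hy
    obtain ⟨i, rfl⟩ := mem_zpowers_iff.1 hy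
    have h1 : Commute z x := (hcen x hx).symm
    exact h1.zpow_left i
  set Y : Subgroup K := M.subgroupOf K with hY
  have hYc : Nat.card Y = Nat.card M := Nat.card_congr (subgroupOfEquivOfLe hMK).toEquiv
  have hYi : (Nat.card Y).Coprime Y.index := by
    rw [hYc]
    refine hcop.coprime_dvd_right ?_
    have h1 : M.relIndex K * K.index = M.index := relIndex_mul_index hMK
    rw [← hidx, ← h1]
    exact dvd_mul_right _ _
  have hYcen : ∀ y ∈ Y, ∀ g, y * g = g * y := by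
    intro y hy g
    exact Subtype.ext (hcM y (mem_subgroupOf.1 hy) g g.2)
  obtain ⟨E₀, hE1, hE2, -⟩ := H87.compl Y hYcen hYi
  rw [hYc] at hE1 hE2
  have hpow : ∀ x : Q, x ^ k ∈ M := by
    intro x
    have h2 := Subgroup.pow_index_mem M x
    rwa [hidx] at h2
  have hord : ∀ x ∈ M, orderOf x ∣ Nat.card M := by
    intro x hx
    rw [← Subgroup.orderOf_mk x hx]
    exact orderOf_dvd_natCard _
  have hMpow : ∀ x ∈ M, x ^ k = 1 → x = 1 := by
    intro x hx hxk
    have h3 : orderOf x = 1 := Nat.eq_one_of_dvd_coprimes hcop (hord x hx) (orderOf_dvd_of_pow_eq_one hxk)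
    exact orderOf_eq_one_iff.1 h3
  have hmem : ∀ x, x ∈ E₀.map K.subtype ↔ x ∈ K ∧ x ^ k = 1 := by
    intro x
    constructor
    · rintro ⟨y, hy, rfl⟩
      refine ⟨y.2, ?_⟩
      have h1 : orderOf ((y : Q) ^ k) ∣ Nat.card E₀ := by
        refine (orderOf_pow_dvd k).trans ?_
        rw [Subgroup.orderOf_coe, ← Subgroup.orderOf_mk y hy]
        exact orderOf_dvd_natCard _
      exact orderOf_eq_one_iff.1 (Nat.eq_one_of_dvd_coprimes hE1 h1 (hord _ (hpow _)))
    · rintro ⟨hx, hxk⟩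
      refine ⟨⟨x, hx⟩, hE2 _ ?_, rfl⟩
      rw [Subgroup.orderOf_mk]
      exact hcop.symm.coprime_dvd_left (orderOf_dvd_of_pow_eq_one hxk)
  refine ⟨E₀.map K.subtype, ⟨fun x hx g => ?_⟩, ?_, hmem, ?_⟩
  · rw [hmem] at hx ⊢
    exact ⟨hK.conj_mem x hx.1 g, by rw [conj_pow, hx.2, mul_one, mul_inv_cancel]⟩
  · rw [← hidx]
    exact card_dvd_index M _ hM fun x hx hxM => hMpow x hxM ((hmem x).1 hx).2
  · intro x hx
    have h2 : (orderOf (x ^ k)).Coprime k := hcop.coprime_dvd_left (hord _ (hpow x))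
    obtain ⟨t, ht⟩ := exists_pow_eq_self_of_coprime h2.symm
    have h3 : (x ^ k) ^ t ∈ zpowers z := by
      rw [hMz]
      exact M.pow_mem (hpow x) t
    obtain ⟨i, hi⟩ := mem_zpowers_iff.1 h3
    refine ⟨-i, (hmem _).2 ⟨K.mul_mem (K.zpow_mem ?_ _) hx, ?_⟩⟩
    · exact hMK (hMz ▸ mem_zpowers z)
    · have h4 : Commute z x := (hcen x hx).symm
      rw [(h4.zpow_left (-i)).mul_pow, zpow_neg, hi, inv_pow, ← pow_mul, mul_comm t k, pow_mul, ht, inv_mul_cancel]

/-- The data of `HypE` for `E`. -/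
theorem hypE {G : Type} [Group G] [Finite G] {N C : Subgroup G} {eps : G →* ℤˣ} {k P : ℕ} (hg : GN N C eps k P)
    {A : Set G} {hsym : ∀ x ∈ A, x⁻¹ ∈ A} {C₁ : Subgroup G} [C₁.Normal] {h1 : ∀ g ∈ A, g ∈ C₁ → g = 1}
    {a b : (qLb C₁ A hsym h1).L} {eps' : G ⧸ C₁ →* ℤˣ} {D : Subgroup (G ⧸ C₁)} {z : G ⧸ C₁} {u : G}
    (H : HypC (qLb C₁ A hsym h1) a b eps' D z k) (hC₁N : C₁ ≤ N) (heps' : ∀ g, eps' (QuotientGroup.mk' C₁ g) = eps g)
    (hu : u ∈ N) (huz : QuotientGroup.mk' C₁ u = z)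
    (hidx : (zpowers ((qLb C₁ A hsym h1).q a * ((qLb C₁ A hsym h1).q b)⁻¹)).relIndex eps'.ker ≤ 2)
    (hPz : P ∣ orderOf z) :
    ∃ E : Subgroup (G ⧸ C₁), Nat.card E ∣ k ∧ E.Normal ∧ E ≤ eps'.ker ∧ HypE (qLb C₁ A hsym h1) a b eps' E z k := by
  have := hg.Nn
  have := hg.Nc
  have hk := H.kpos
  have hfin := H.fin
  have hNodd : Odd (Nat.card N) := by
    rw [← Nat.not_even_iff_odd]
    intro he
    have h1 := (hg.big 2 (Nat.mem_primeFactors.2 ⟨Nat.prime_two, even_iff_two_dvd.1 he, Nat.card_pos.ne'⟩)).1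
    omega
  obtain ⟨π, hπ⟩ : ∃ π, π = QuotientGroup.mk' C₁ := ⟨_, rfl⟩
  rw [← hπ] at heps' huz
  have hsurj : Function.Surjective π := by rw [hπ]; exact QuotientGroup.mk'_surjective C₁
  obtain ⟨M, hM⟩ : ∃ M, M = N.map π := ⟨_, rfl⟩
  have hMn : M.Normal := by rw [hM]; exact hg.Nn.map π hsurj
  have hMk : M.index = k := by
    rw [hM, Subgroup.index_map, hπ, QuotientGroup.ker_mk', sup_of_le_left hC₁N,
      MonoidHom.range_eq_top.2 (QuotientGroup.mk'_surjective C₁), Subgroup.index_top, mul_one, hg.idx]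
  have hMd : Nat.card M ∣ Nat.card N := by rw [hM]; exact Subgroup.card_map_dvd N π
  have hMcop : (Nat.card M).Coprime k := hg.cop.coprime_dvd_left hMd
  have hModd : Odd (Nat.card M) := Odd.of_dvd_nat hNodd hMd
  have hMK : M ≤ eps'.ker := by
    rw [hM]
    rintro _ ⟨x, hx, rfl⟩
    rw [MonoidHom.mem_ker, heps', hg.eN x hx]
  have hord : ∀ x ∈ M, orderOf x ∣ Nat.card M := by
    intro x hx
    rw [← Subgroup.orderOf_mk x hx]
    exact orderOf_dvd_natCard _
  have hzM : z ∈ M := by rw [hM, ← huz]; exact mem_map_of_mem π hu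
  obtain ⟨w, hw⟩ : ∃ w, w = (qLb C₁ A hsym h1).q a * ((qLb C₁ A hsym h1).q b)⁻¹ := ⟨_, rfl⟩
  have hwmem := H.mem
  rw [← hw] at hidx hwmem
  have hD1 : ∀ x ∈ D, x ^ k = 1 := by
    intro x hx
    refine orderOf_dvd_iff_pow_eq_one.1 (dvd_trans ?_ H.card)
    rw [← Subgroup.orderOf_mk x hx]
    exact orderOf_dvd_natCard _
  have hdker : eps' (z⁻¹ * w) = 1 := H.leD hwmem
  have hzker : eps' z = 1 := hMK hzM
  have hwker : w ∈ eps'.ker := by
    have h2 : w = z * (z⁻¹ * w) := by rw [mul_inv_cancel_left]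
    rw [h2]
    exact mul_mem hzker hdker
  -- `M = <z>`
  have hMz : zpowers z = M := by
    refine le_antisymm (by rw [zpowers_le]; exact hzM) ?_
    intro m hm
    -- `m ^ 2 ∈ <w>`
    have h2 : m ^ 2 ∈ zpowers w := by
      have h3 : ((zpowers w).subgroupOf eps'.ker).index ≠ 0 := Subgroup.index_ne_zero_of_finite
      have hlt : (zpowers w).relIndex eps'.ker = 1 ∨ (zpowers w).relIndex eps'.ker = 2 := by
        change (zpowers w).relIndex eps'.ker ≠ 0 at h3
        omega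
      rcases hlt with h4 | h4
      · rw [Subgroup.relIndex_eq_one] at h4
        exact pow_mem (h4 (hMK hm)) 2
      · have h5 : ((zpowers w).subgroupOf eps'.ker).index = 2 := h4
        have h6 := Subgroup.sq_mem_of_index_two h5 (⟨m, hMK hm⟩ : eps'.ker)
        exact mem_subgroupOf.1 h6
    have h3 : m ∈ zpowers w := by
      have h4 : (orderOf m).Coprime 2 := (Nat.coprime_two_right.2 (Odd.of_dvd_nat hModd (hord m hm)))
      obtain ⟨t, ht⟩ := exists_pow_eq_self_of_coprime h4.symm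
      rw [← ht]
      exact pow_mem h2 t
    obtain ⟨i, hi⟩ := mem_zpowers_iff.1 h3
    have hcz : Commute z (z⁻¹ * w) := (H.cen _ hdker).symm
    have h4 : m ^ k ∈ zpowers z := by
      have h5 : w = z * (z⁻¹ * w) := by rw [mul_inv_cancel_left]
      have h6 : m ^ k = z ^ (i * k) := by
        rw [← hi, ← zpow_natCast, ← zpow_mul, h5, hcz.mul_zpow, mul_comm i (k : ℤ), zpow_mul (z⁻¹ * w), zpow_natCast,
          hD1 _ hwmem, one_zpow, mul_one]
      rw [h6]
      exact zpow_mem (mem_zpowers z) _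
    obtain ⟨t, ht⟩ := exists_pow_eq_self_of_coprime (hMcop.coprime_dvd_left (hord m hm)).symm
    rw [← ht]
    exact pow_mem h4 t
  obtain ⟨E, hEn, hEk, hEm, hEp⟩ := splitE eps'.ker M z k inferInstance hMn hMz hMK (fun x hx => H.cen x hx) hMk hMcop
  have hEker : E ≤ eps'.ker := fun x hx => ((hEm x).1 hx).1
  have hDE : D ≤ E := fun x hx => (hEm x).2 ⟨H.leD hx, hD1 x hx⟩
  refine ⟨E, hEk, hEn, hEker, ?_⟩
  refine
    { fin := H.fin
      finL := H.finL
      gen := H.gen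
      kpos := H.kpos
      nD := hEn
      leD := hEker
      card := hEk
      ea := H.ea
      eb := H.eb
      near := fun s hs => hDE (H.near s hs)
      rot := H.rot
      cen := H.cen
      cop := H.cop
      mem := hDE H.mem
      prod := fun x hx => hEp x hx
      nz := by rw [hMz]; exact hMn
      oddz := Odd.of_dvd_nat hModd (hord z hzM)
      le2 := by rw [← hw]; exact hidx
      inv := ?_ }
  -- inversion
  have hPp := hg.prime
  have hz0 : 0 < orderOf z := orderOf_pos z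
  obtain ⟨e, he⟩ := hPz
  have hz : orderOf (z ^ e) = P := by
    rw [orderOf_pow_of_dvd (fun h => by rw [h, mul_zero] at he; omega) (by rw [he]; exact dvd_mul_left _ _), he]
    exact Nat.mul_div_cancel _ (Nat.pos_of_ne_zero fun h => by rw [h, mul_zero] at he; omega)
  have hzP : (z ^ e) ^ P = 1 := by rw [← hz, pow_orderOf_eq_one]
  refine ⟨e, fun h2 => ?_, fun x hx => ?_⟩
  · rw [← pow_two] at h2
    have h3 : P ∣ 2 := by rw [← hz]; exact orderOf_dvd_of_pow_eq_one h2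
    have h4 := Nat.le_of_dvd (by norm_num) h3
    have h5 := (hg.big P (Nat.mem_primeFactors.2 ⟨hPp, hg.dvd, Nat.card_pos.ne'⟩)).1
    omega
  · obtain ⟨g, rfl⟩ := hsurj x
    rw [heps'] at hx
    have h2 := hg.act (u ^ e) (N.pow_mem hu e) g
    rw [hx, Units.val_neg, Units.val_one, zpow_neg_one, inv_inv] at h2
    -- the image of `g u ^ e g⁻¹ u ^ e`
    have hMc : ∀ x ∈ M, ∀ y ∈ M, x * y = y * x := by
      intro x hx y hy
      rw [← hMz] at hy
      obtain ⟨i, rfl⟩ := mem_zpowers_iff.1 hy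
      have h5 : Commute z x := (H.cen x (hMK hx)).symm
      exact (h5.zpow_left i).symm.eq
    have h3 : (π g * z ^ e * (π g)⁻¹ * z ^ e) ^ P = 1 := by
      have h4 : Commute (π g * z ^ e * (π g)⁻¹) (z ^ e) :=
        hMc _ (hMn.conj_mem _ (M.pow_mem hzM e) _) _ (M.pow_mem hzM e)
      rw [h4.mul_pow, conj_pow, hzP, mul_one, mul_one, mul_inv_cancel]
    have h4 : (π g * z ^ e * (π g)⁻¹ * z ^ e) = π (g * u ^ e * g⁻¹ * u ^ e) := by
      rw [map_mul, map_mul, map_mul, map_inv, map_pow, huz]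
    have h5 : orderOf (π g * z ^ e * (π g)⁻¹ * z ^ e) ∣ Nat.card C := by
      rw [h4]
      refine (orderOf_map_dvd π _).trans ?_
      rw [← Subgroup.orderOf_mk _ h2]
      exact orderOf_dvd_natCard _
    have h6 : orderOf (π g * z ^ e * (π g)⁻¹ * z ^ e) = 1 := by
      rcases (Nat.dvd_prime hPp).1 (orderOf_dvd_of_pow_eq_one h3) with h7 | h7
      · exact h7
      · rw [h7] at h5
        exact absurd h5 hg.ndvd
    exact eq_inv_of_mul_eq_one_left (orderOf_eq_one_iff.1 h6)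

theorem small (hSq : SqCS) (hK : KapCS) (hH : HdataS.{0}) (hF : SQ3.FactorS) (hL : LiftS) : SmallCS := by
  classical
  intro G _ _ N C eps k P A hsym C₁ hC₁n hA1' a b eps' D z u H hg hgen hAN hPA hC₁ heps' huN huz hidx hPz hall
  have := hg.Cn
  have := hg.Nn
  have hk := H.kpos
  have hNodd : Odd (Nat.card N) := by
    rw [← Nat.not_even_iff_odd]
    intro he
    have h1 := (hg.big 2 (Nat.mem_primeFactors.2 ⟨Nat.prime_two, even_iff_two_dvd.1 he, Nat.card_pos.ne'⟩)).1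
    omega
  have hC₁N : C₁ ≤ N := by rw [hC₁]; exact inf_le_left
  have := hg.Nc
  have hcyc : IsCyclic C₁ := isCyclic_of_injective (inclusion hC₁N) (inclusion_injective hC₁N)
  have hC₁d : Nat.card C₁ ∣ Nat.card N := card_dvd_of_le hC₁N
  have hcop : (Nat.card C₁).Coprime C₁.index := by
    rw [← relIndex_mul_index hC₁N, hg.idx]
    refine Nat.Coprime.mul_right ?_ (hg.cop.coprime_dvd_left hC₁d)
    have h1 : Nat.card C₁ * C₁.relIndex N = Nat.card N := by
      have h2 := (C₁.subgroupOf N).card_mul_index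
      rwa [Nat.card_congr (subgroupOfEquivOfLe hC₁N).toEquiv] at h2
    have hsq := hg.Nsq
    rw [← h1] at hsq
    exact Nat.coprime_of_squarefree_mul hsq
  have hr : (Nat.card C₁).primeFactors.card ≤ (Nat.card G).primeFactorsList.length :=
    (Finset.card_le_card (Nat.primeFactors_mono (card_subgroup_dvd_card _) Nat.card_pos.ne')).trans
      (List.toFinset_card_le _)
  obtain ⟨E, hEk, hEn, hEker, HE⟩ := hypE hg H hC₁N heps' huN huz hidx hPz
  obtain ⟨c, W, hSi, hSe, hLe, hW1, hW2⟩ := hall E hEk hEn hEker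
  obtain ⟨s, zz, chi, ν, h1, h2, h3, h4, h5, h6, h7, h8⟩ := hH G C₁ hC₁n hcyc hcop
  have hm0 : 0 < Nat.card C₁ := Nat.card_pos
  have : NeZero (Nat.card C₁) := ⟨hm0.ne'⟩
  have : Fintype (G ⧸ C₁) := Fintype.ofFinite _
  have : DecidableEq (G ⧸ C₁) := Classical.decEq _
  let V : Vd (qLb C₁ A hsym hA1') (ZMod (Nat.card C₁)) :=
    { chi := chi
      n := fun g => ν g.1
      n_inv := fun g => h6 g.1 }
  have hC₁odd : Odd (Nat.card C₁) := Odd.of_dvd_nat hNodd hC₁d
  have hea : eps a.1 = -1 := by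
    have h9 := H.ea
    rw [← heps']
    exact h9
  have heb : eps b.1 = -1 := by
    have h9 := H.eb
    rw [← heps']
    exact h9
  have hkap : ∀ p, ∀ hp : p ∈ (Nat.card C₁).primeFactors,
      KapV (V.map (red (Nat.dvd_of_mem_primeFactors hp))) a b eps' := by
    intro p hp
    exact hK G N C eps k P hg A hsym hgen C₁ hC₁n hA1' a b hC₁ hea heb s zz chi ν h1 h2 h3 h4 h5 eps' heps' V rfl
      (fun g => rfl) p hp
  have hzchi : V.chi z = 1 := by
    show chi z = 1
    rw [← huz]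
    refine h8 u fun c hc => ?_
    exact SQ2.H41.comm_of_cyclic N hg.Nc u huN c (hC₁N hc)
  have hcardQ : Nat.card (G ⧸ C₁) = C₁.index := rfl
  have hprm : ∀ p ∈ (Nat.card C₁).primeFactors, 4 * k < p ∧ 8 * ((Nat.card C₁).primeFactors.card + 2) ^ 2 < p ∧
      ¬ p ∣ Nat.card (G ⧸ C₁) := by
    intro p hp
    have hpN := Nat.primeFactors_mono hC₁d Nat.card_pos.ne' hp
    refine ⟨(hg.big p hpN).1, lt_of_le_of_lt ?_ (hg.marg p hpN), fun hd => ?_⟩
    · obtain ⟨y, hy⟩ : ∃ y, y = (Nat.card G).primeFactorsList.length + 2 := ⟨_, rfl⟩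
      rw [← hy]
      have h11 : 2 ≤ y := by omega
      calc 8 * ((Nat.card C₁).primeFactors.card + 2) ^ 2 ≤ 2 ^ 8 * y ^ 2 :=
            Nat.mul_le_mul (by norm_num) (Nat.pow_le_pow_left (by omega) 2)
        _ ≤ y ^ 8 * y ^ 2 := Nat.mul_le_mul_right _ (Nat.pow_le_pow_left h11 8)
        _ = y ^ 10 := by rw [← pow_add]
    · rw [hcardQ] at hd
      have hpp := Nat.prime_of_mem_primeFactors hp
      have := Nat.dvd_gcd (Nat.dvd_of_mem_primeFactors hp) hd
      rw [hcop] at this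
      exact hpp.one_lt.ne' (Nat.dvd_one.1 this)
  have hbig : P ≤ orderOf (z ^ k) := by
    rw [H.cop.orderOf_pow]
    have hfin := H.fin
    exact Nat.le_of_dvd (orderOf_pos z) hPz
  have hNm : NmC (qLb C₁ A hsym hA1') z k c W (Nat.card C₁) :=
    { sq := hg.Nsq.squarefree_of_dvd hC₁d
      odd := hC₁odd
      prm := hprm
      need := hW1
      big := lt_of_lt_of_le hW2 hbig }
  have hz1 : QuotientGroup.mk' C₁ zz = 1 := by
    rw [QuotientGroup.mk'_apply, QuotientGroup.eq_one_iff, ← h2]; exact mem_zpowers zz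
  have hker : ∀ g : G, QuotientGroup.mk' C₁ g = 1 → g ∈ zpowers zz := fun g hg => by
    rw [h2]; exact (QuotientGroup.eq_one_iff g).1 hg
  rcases hSq (G ⧸ C₁) (qLb C₁ A hsym hA1') a b eps' E z k c W HE hSi hSe hLe (Nat.card C₁) V hNm
    hzchi hkap with hHP | ⟨T, hT⟩
  · exact hL G (G ⧸ C₁) (Nat.card C₁) (QuotientGroup.mk' C₁) s zz chi ν hm0 h1 hz1 h3 hker h4 h5 A
      (qLb C₁ A hsym hA1') V (fun g => g.1) (fun g => g.2.1) ⟨a⟩ (fun _ => rfl) (fun _ => rfl) rfl hHP
  · exact hF G (G ⧸ C₁) (Nat.card C₁) (QuotientGroup.mk' C₁) s zz chi ν hm0 h1 hz1 h3 hker h4 h5 A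
      (fun x => (T.lab x).1) T.cls hgen (fun x => (T.lab x).2.1) T.bij T.step T.trans hT

end Pool.Agent.Lib.MP_688fd0_co.SQ4.Small
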