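import Pool.Agent.Lib.MP_688fd0_co.SQ4.Small.Geo

/-!
Type C1, at most two lines, one window: counting on the lines.
-/

set_option autoImplicit false

namespace Pool.Agent.Lib.MP_688fd0_co.SQ4.Small

open Pool.Agent.Lib.MP_688fd0_co.OSF Pool.Agent.Lib.MP_688fd0_co.SQ2 Pool.Agent.Lib.MP_688fd0_co.SQ3
open Pool.Agent.Lib.MP_688fd0_co.SQ4
open Finset (range)

/-! ### Periodic functions -/

theorem per_sum (f : ℕ → ℤ) (e : ℕ) (h : ∀ t, f (t + e) = f t) (s : ℕ) :
    ∑ t ∈ range e, f (s + t) = ∑ t ∈ range e, f t := by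
  induction s with
  | zero => simp
  | succ s ih =>
    rw [← ih]
    have h1 : ∑ t ∈ range (e + 1), f (s + t) = ∑ t ∈ range e, f (s + t) + f (s + e) := Finset.sum_range_succ _ _
    have h2 : ∑ t ∈ range (e + 1), f (s + t) = ∑ t ∈ range e, f (s + (t + 1)) + f (s + 0) :=
      Finset.sum_range_succ' _ _
    have h3 : ∑ t ∈ range e, f (s + 1 + t) = ∑ t ∈ range e, f (s + (t + 1)) :=
      Finset.sum_congr rfl fun t _ => by rw [show s + 1 + t = s + (t + 1) by omega]
    rw [h3]
    have h4 := h s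
    rw [add_zero] at h2
    linarith

theorem equi (f : ℕ → ℤ) (M e : ℕ) (hM : ∀ t, f (t + M) = f t) (he : ∀ t, f (t + e) = f t) :
    (M : ℤ) * ∑ t ∈ range e, f t = e * ∑ t ∈ range M, f t := by
  have h1 : ∑ s ∈ range M, ∑ t ∈ range e, f (s + t) = M * ∑ t ∈ range e, f t := by
    rw [Finset.sum_congr rfl fun s _ => per_sum f e he s, Finset.sum_const, Finset.card_range, nsmul_eq_mul]
  have h2 : ∑ t ∈ range e, ∑ s ∈ range M, f (s + t) = e * ∑ t ∈ range M, f t := by
    have : ∀ t ∈ range e, ∑ s ∈ range M, f (s + t) = ∑ t ∈ range M, f t := by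
      intro t _
      rw [← per_sum f M hM t]
      exact Finset.sum_congr rfl fun s _ => by rw [add_comm]
    rw [Finset.sum_congr rfl this, Finset.sum_const, Finset.card_range, nsmul_eq_mul]
  rw [← h1, ← h2, Finset.sum_comm]

/-- The sum over an arc. -/
theorem sum_arc (f : ℕ → ℤ) (M d e : ℕ) (h : d + e ≤ M) :
    ∑ t ∈ range M, (if d ≤ t ∧ t < d + e then f t else 0) = ∑ t ∈ range e, f (d + t) := by
  rw [← Finset.sum_filter]
  have h1 : (range M).filter (fun t => d ≤ t ∧ t < d + e) = Finset.Ico d (d + e) := by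
    ext t
    simp only [Finset.mem_filter, Finset.mem_range, Finset.mem_Ico]
    omega
  rw [h1, Finset.sum_Ico_eq_sum_range]
  congr 2
  omega

section

variable {Q : Type} [Group Q] [DecidableEq Q] {B : Lb.{0, 0} Q} {a b : B.L} {eps : Q →* ℤˣ} {D : Subgroup Q} {z : Q}
  {k : ℕ}

/-- The indicator function of `S` on the line of `x`. -/
def fS (U : Up B) (S : Finset Q) (x : Q) (t : ℕ) : ℤ := if (U.U ^ (t + 1)) x ∈ S then 1 else 0

/-- The arc. -/
def Arc (U : Up B) (x : Q) (d e : ℕ) (v : Q) : Prop := ∃ t : ℕ, d < t ∧ t ≤ e ∧ v = (U.U ^ t) x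

variable (H : HypC B a b eps D z k)

include H

omit [DecidableEq Q] in
theorem arc_iff {x : Q} {d e t : ℕ} (h0 : 0 < t) (h1 : t ≤ lnM B a b) (he : e ≤ lnM B a b) :
    Arc H.up x d e ((H.up.U ^ t) x) ↔ d < t ∧ t ≤ e := by
  constructor
  · rintro ⟨t', h2, h3, h4⟩
    rw [U_inj' H h0 h1 (by omega) (h3.trans he) h4]
    exact ⟨h2, h3⟩
  · intro h
    exact ⟨t, h.1, h.2, rfl⟩

theorem sum_line (S : Finset Q) (x : Q) (hS : ∀ v ∈ S, Ln H.up x v) (w : Q → ℤ) :
    ∑ v ∈ S, w v = ∑ t ∈ range (lnM B a b), fS H.up S x t * w ((H.up.U ^ (t + 1)) x) := by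
  have h1 : S = ((range (lnM B a b)).filter (fun t => (H.up.U ^ (t + 1)) x ∈ S)).image
      (fun t => (H.up.U ^ (t + 1)) x) := by
    ext v
    simp only [Finset.mem_image, Finset.mem_filter, Finset.mem_range]
    constructor
    · intro hv
      obtain ⟨t, ht, h2⟩ := ln_pos H (hS v hv)
      have hM := lnM_pos H
      rcases Nat.eq_zero_or_pos t with rfl | h3
      · refine ⟨lnM B a b - 1, ⟨by omega, ?_⟩, ?_⟩
        · rw [show lnM B a b - 1 + 1 = lnM B a b by omega, U_per H]
          rw [← h2] at hv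
          exact hv
        · rw [show lnM B a b - 1 + 1 = lnM B a b by omega, U_per H]
          exact h2
      · refine ⟨t - 1, ⟨by omega, ?_⟩, ?_⟩
        · rw [show t - 1 + 1 = t by omega, h2]; exact hv
        · rw [show t - 1 + 1 = t by omega, h2]
    · rintro ⟨t, ⟨-, h2⟩, rfl⟩
      exact h2
  conv_lhs => rw [h1]
  rw [Finset.sum_image, Finset.sum_filter]
  · refine Finset.sum_congr rfl fun t _ => ?_
    unfold fS
    split_ifs <;> simp
  · intro t ht t' ht' h
    simp only [Finset.coe_filter, Set.mem_setOf_eq, Finset.mem_range] at ht ht'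
    have := U_inj' H (Nat.succ_pos t) (by omega) (Nat.succ_pos t') (by omega) h
    omega

theorem card_line (S : Finset Q) (x : Q) (hS : ∀ v ∈ S, Ln H.up x v) :
    (S.card : ℤ) = ∑ t ∈ range (lnM B a b), fS H.up S x t := by
  have := sum_line H S x hS (fun _ => 1)
  simpa using this

theorem fS_per (S : Finset Q) (x : Q) (t : ℕ) : fS H.up S x (t + lnM B a b) = fS H.up S x t := by
  unfold fS
  rw [show t + lnM B a b + 1 = t + 1 + lnM B a b by omega, H.up.U_pow_add, U_per H]

omit H in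
omit [DecidableEq Q] in
theorem mem_of_inj {S : Finset Q} {g : Q} (h : ∀ v ∈ S, g * v ∈ S) {v : Q} : g * v ∈ S ↔ v ∈ S := by
  classical
  constructor
  · intro hv
    have h1 : S.image (fun v => g * v) = S := by
      refine Finset.eq_of_subset_of_card_le ?_ ?_
      · intro u hu
        rw [Finset.mem_image] at hu
        obtain ⟨u', hu', rfl⟩ := hu
        exact h u' hu'
      · rw [Finset.card_image_of_injective S (mul_right_injective g)]
    rw [← h1, Finset.mem_image] at hv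
    obtain ⟨u, hu, h2⟩ := hv
    rwa [← mul_left_cancel h2]
  · exact h v

/-- A left multiplication which preserves `S` gives a period. -/
theorem fS_lm {S : Finset Q} {g : Q} (hg : eps g = 1) (h : ∀ v ∈ S, g * v ∈ S) {x : Q} {d : ℕ}
    (hd : (H.up.U ^ d) x = g * x) (t : ℕ) : fS H.up S x (t + d) = fS H.up S x t := by
  unfold fS
  have h1 : (H.up.U ^ (t + d + 1)) x = g * (H.up.U ^ (t + 1)) x := by
    rw [show t + d + 1 = d + (t + 1) by omega, H.up.U_pow_add, hd, U_lmp H hg]
  rw [h1]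
  by_cases h2 : (H.up.U ^ (t + 1)) x ∈ S
  · rw [if_pos h2, if_pos (h _ h2)]
  · rw [if_neg h2, if_neg (fun h3 => h2 ((mem_of_inj h).1 h3))]

omit H in
theorem fS_nonneg (U : Up B) (S : Finset Q) (x : Q) (t : ℕ) : 0 ≤ fS U S x t := by
  unfold fS; split_ifs <;> norm_num

omit H in
theorem fS_le (U : Up B) (S : Finset Q) (x : Q) (t : ℕ) : fS U S x t ≤ 1 := by
  unfold fS; split_ifs <;> norm_num

omit H in
theorem fS_one {U : Up B} {S : Finset Q} {x : Q} {t : ℕ} (h0 : 0 < t) (h : (U.U ^ t) x ∈ S) : fS U S x (t - 1) = 1 := by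
  unfold fS
  rw [show t - 1 + 1 = t by omega, if_pos h]

/-- The weights on one line. -/
theorem sum_one (S : Finset Q) (x : Q) (hS : ∀ v ∈ S, Ln H.up x v) (w : Q → ℤ) (d e : ℕ) (h : d + e ≤ lnM B a b)
    (α β : ℤ) (hw : ∀ t, 0 < t → t ≤ lnM B a b → w ((H.up.U ^ t) x) = if d < t ∧ t ≤ d + e then α else β) :
    ∑ v ∈ S, w v = β * S.card + (α - β) * ∑ t ∈ range e, fS H.up S x (d + t) := by
  rw [sum_line H S x hS w, card_line H S x hS, ← sum_arc (fS H.up S x) (lnM B a b) d e h, Finset.mul_sum,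
    Finset.mul_sum, ← Finset.sum_add_distrib]
  refine Finset.sum_congr rfl fun t ht => ?_
  rw [hw (t + 1) (Nat.succ_pos t) (Finset.mem_range.1 ht)]
  by_cases h1 : d ≤ t ∧ t < d + e
  · rw [if_pos h1, if_pos ⟨by omega, by omega⟩]; ring
  · rw [if_neg h1, if_neg (by omega)]; ring

theorem sum_abs (S : Finset Q) (w : Q → ℤ) (hw : ∀ v, |w v| ≤ 1) : |∑ v ∈ S, w v| ≤ S.card := by
  refine (Finset.abs_sum_le_sum_abs _ _).trans ?_
  refine (Finset.sum_le_card_nsmul S _ 1 fun v _ => hw v).trans ?_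
  simp

/-- A left multiplication which exchanges the lines. -/
theorem card_swap (hi : (Subgroup.zpowers (B.q a * (B.q b)⁻¹)).relIndex eps.ker = 2) {S : Finset Q} {g x y : Q}
    (hg : eps g = 1) (h : ∀ v ∈ S, g * v ∈ S) (hy : y = g * x) (hxy : ¬ Ln H.up x y)
    [DecidablePred (Ln H.up x)] :
    (S.filter (Ln H.up x)).card = (S.filter (fun v => ¬ Ln H.up x v)).card := by
  have k1 : ∀ v, Ln H.up x v → ¬ Ln H.up x (g * v) := by
    intro v hv h1
    have h2 := ln_lm H hg hv
    rw [← hy] at h2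
    exact hxy (h1.trans (ln_symm H h2))
  have k2 : ∀ v, ¬ Ln H.up x v → Ln H.up x (g * v) := by
    intro v hv
    by_contra h1
    have h2 := (cover2 H hi hxy (g * v)).resolve_left h1
    have h3 : eps g⁻¹ = 1 := by rw [map_inv, hg, inv_one]
    have h4 := ln_lm H h3 h2
    rw [hy, inv_mul_cancel_left, inv_mul_cancel_left] at h4
    exact hv h4
  apply le_antisymm
  · refine Finset.card_le_card_of_injOn (fun v => g * v) ?_ (fun v _ v' _ e => mul_left_cancel e)
    intro v hv
    simp only [Finset.coe_filter, Set.mem_setOf_eq] at hv ⊢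
    exact ⟨h v hv.1, k1 v hv.2⟩
  · refine Finset.card_le_card_of_injOn (fun v => g * v) ?_ (fun v _ v' _ e => mul_left_cancel e)
    intro v hv
    simp only [Finset.coe_filter, Set.mem_setOf_eq] at hv ⊢
    exact ⟨h v hv.1, k2 v hv.2⟩

end

end Pool.Agent.Lib.MP_688fd0_co.SQ4.Small
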