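import Pool.Agent.Lib.MP_688fd0_co.SQ4.Small.Tm0
import Pool.Agent.Lib.MP_688fd0_co.SQ4.Small.Mk0
import Pool.Agent.Lib.MP_688fd0_co.SQ3.Small.Mk2
import Pool.Agent.Lib.MP_688fd0_co.SQ3.Small.Mk3
import Pool.Agent.Lib.MP_688fd0_co.SQ3.Small.OneW

/-!
Type C1, at most two lines, one window: the weights and the tour makers on one line.
-/

set_option autoImplicit false

namespace Pool.Agent.Lib.MP_688fd0_co.SQ4.Small

open Pool.Agent.Lib.MP_688fd0_co.OSF Pool.Agent.Lib.MP_688fd0_co.SQ2 Pool.Agent.Lib.MP_688fd0_co.SQ3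
open Pool.Agent.Lib.MP_688fd0_co.SQ4
open Pool.Agent.Lib.MP_688fd0_co.SQ3.Small (TM pow_comm' mem_im' lvd)
open Finset (range)
open H31

section

variable {Q : Type} [Group Q] {B : Lb.{0, 0} Q} {a b : B.L} {eps : Q →* ℤˣ} {D : Subgroup Q} {z : Q}
  {k c W : ℕ}

open Classical in
/-- The weights on one line. -/
noncomputable def wA (U : Up B) (x : Q) (d e : ℕ) (v : Q) : ℤ := if Arc U x d e v then -1 else 1

theorem wA_abs (U : Up B) (x : Q) (d e : ℕ) (v : Q) : |wA U x d e v| ≤ 1 := by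
  unfold wA; split_ifs <;> simp

theorem wA_eq (H : HypC B a b eps D z k) {x : Q} {d e t : ℕ} (h0 : 0 < t) (h1 : t ≤ lnM B a b)
    (he : e ≤ lnM B a b) : wA H.up x d e ((H.up.U ^ t) x) = if d < t ∧ t ≤ e then -1 else 1 := by
  unfold wA
  by_cases h : d < t ∧ t ≤ e
  · rw [if_pos h, if_pos ((arc_iff H h0 h1 he).2 h)]
  · rw [if_neg h, if_neg (fun h2 => h ((arc_iff H h0 h1 he).1 h2))]

variable [DecidableEq Q]

/-- The sum of the weights, one line. -/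
theorem sum_wA (H : HypC B a b eps D z k) (hi : (Subgroup.zpowers (B.q a * (B.q b)⁻¹)).relIndex eps.ker = 1)
    (S : Finset Q) (x : Q) (d e : ℕ) (hde : d ≤ e) (h : e ≤ lnM B a b) :
    ∑ v ∈ S, wA H.up x d e v = S.card - 2 * ∑ t ∈ range (e - d), fS H.up S x (d + t) := by
  rw [sum_one H S x (fun v _ => cover1 H hi x v) _ d (e - d) (by omega) (-1) 1]
  · ring
  · intro t h0 h1
    rw [wA_eq H h0 h1 h, show d + (e - d) = e by omega]

omit [DecidableEq Q] in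
/-- A near leaf gives a period. -/
theorem near_per (H : HypC B a b eps D z k) {F : Finset Q} {x s₁ s₂ s : Q} {S : Finset Q}
    (hS : InS D k F x s₁ s₂ S) (hs : s ∈ S) (hn : x⁻¹ * s ∈ D) :
    eps (s * x⁻¹) = 1 ∧ (∀ v ∈ S, s * x⁻¹ * v ∈ S) ∧ s = s * x⁻¹ * x := by
  refine ⟨?_, hS.inv s hs hn, by group⟩
  have h1 : eps (x⁻¹ * s) = 1 := H.leD hn
  rw [map_mul, map_inv] at h1 ⊢
  rw [mul_comm]
  exact h1

theorem near_f (H : HypC B a b eps D z k) {F : Finset Q} {x s₁ s₂ s : Q} {S : Finset Q}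
    (hS : InS D k F x s₁ s₂ S) (hs : s ∈ S) (hn : x⁻¹ * s ∈ D) {d : ℕ} (hd : (H.up.U ^ d) x = s) (t : ℕ) :
    fS H.up S x (t + d) = fS H.up S x t := by
  obtain ⟨h1, h2, h3⟩ := near_per H hS hs hn
  exact fS_lm H h1 h2 (hd.trans h3) t

omit [DecidableEq Q] in
theorem card_pos {D : Subgroup Q} {F : Finset Q} {x s₁ s₂ : Q} {S : Finset Q} (hS : InS D k F x s₁ s₂ S) :
    0 < (S.card : ℤ) := by
  have := Finset.card_pos.2 ⟨x, hS.hx⟩
  exact_mod_cast this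

omit [DecidableEq Q] in
theorem abs_le' {D : Subgroup Q} {F : Finset Q} {x s₁ s₂ : Q} {S : Finset Q} (hS : InS D k F x s₁ s₂ S) (w : Q → ℤ)
    (hw : ∀ v, |w v| ≤ 1) : |∑ v ∈ S, w v| ≤ 4 * k := by
  classical
  have h1 : |∑ v ∈ S, w v| ≤ S.card := by
    refine (Finset.abs_sum_le_sum_abs _ _).trans ?_
    refine (Finset.sum_le_card_nsmul S _ 1 fun v _ => hw v).trans ?_
    simp
  have h2 : (S.card : ℤ) ≤ 4 * k := by exact_mod_cast hS.card
  exact h1.trans h2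

/-- p1. -/
theorem ne_p1 (H : HypC B a b eps D z k) (hi : (Subgroup.zpowers (B.q a * (B.q b)⁻¹)).relIndex eps.ker = 1)
    {F : Finset Q} {x s₁ s₂ : Q} (hx : eps x = 1) {d₁ d₂ : ℕ} (h12 : d₁ < d₂) (h2 : d₂ < lnM B a b)
    (e₂ : (H.up.U ^ d₁) x = s₂) (e₁ : (H.up.U ^ d₂) x = s₁) (hh : lnM B a b ≠ 2 * (d₂ - d₁))
    (n₁ : x⁻¹ * s₁ ∈ D) (n₂ : x⁻¹ * s₂ ∈ D) {S : Finset Q} (hS : InS D k F x s₁ s₂ S) :
    ∑ v ∈ S, wA H.up x d₁ d₂ v ≠ 0 := by
  rw [sum_wA H hi S x d₁ d₂ h12.le h2.le]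
  have p1 : ∀ t, fS H.up S x (t + d₁) = fS H.up S x t := near_f H hS hS.h₂ n₂ e₂
  have p2 : ∀ t, fS H.up S x (t + d₂) = fS H.up S x t := near_f H hS hS.h₁ n₁ e₁
  have pe : ∀ t, fS H.up S x (t + (d₂ - d₁)) = fS H.up S x t := by
    intro t
    rw [← p1, show t + (d₂ - d₁) + d₁ = t + d₂ by omega, p2]
  have h3 := equi _ _ _ (fS_per H S x) pe
  rw [← card_line H S x (fun v _ => cover1 H hi x v)] at h3
  rw [per_sum _ _ pe d₁]
  intro h0
  have hc := card_pos hS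
  have h4 : (lnM B a b : ℤ) * S.card = 2 * ((d₂ - d₁ : ℕ) : ℤ) * S.card := by
    linear_combination (lnM B a b : ℤ) * h0 + 2 * h3
  have h5 := mul_right_cancel₀ hc.ne' h4
  exact hh (by exact_mod_cast h5)

/-- Half of the line. -/
theorem half_per (H : HypC B a b eps D z k) {F : Finset Q} {x s₁ s₂ s : Q} (hx : eps x = 1) {S : Finset Q}
    (hS : InS D k F x s₁ s₂ S) (hs : s ∈ S) (hn : x⁻¹ * s ∈ D) (hev : Even (orderOf (x⁻¹ * s))) {d : ℕ}
    (hd : (H.up.U ^ d) x = s) (t : ℕ) :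
    fS H.up S x (t + orderOf (B.q a * (B.q b)⁻¹)) = fS H.up S x t := by
  have hfin := H.fin
  have hp := near_f H hS hs hn hd
  have hp' : ∀ n t, fS H.up S x (t + d * n) = fS H.up S x t := by
    intro n
    induction n with
    | zero => intro t; rfl
    | succ n ih => intro t; rw [mul_add, mul_one, ← add_assoc, hp, ih]
  have hes : eps s = 1 := by
    have h1 : eps (x⁻¹ * s) = 1 := H.leD hn
    rw [map_mul, map_inv, hx, inv_one, one_mul] at h1
    exact h1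
  obtain ⟨j, hj⟩ : ∃ j, d = 2 * j := by
    rcases Nat.even_or_odd' d with ⟨j, h | h⟩
    · exact ⟨j, h⟩
    · exfalso
      have h1 := eps_Up H d x
      rw [hd, hes, hx, h, Odd.neg_one_pow ⟨j, rfl⟩] at h1
      exact absurd h1 (by decide)
  have hw : (B.q a * (B.q b)⁻¹) ^ j = x⁻¹ * s := by
    rw [hj, C_U_pow H hx] at hd
    rw [← hd, inv_mul_cancel_left]
  obtain ⟨n', hn'⟩ := hev
  have hord : 0 < orderOf (x⁻¹ * s) := orderOf_pos _
  set N := orderOf (B.q a * (B.q b)⁻¹) with hN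
  -- `d * n' ≡ N` modulo `2 N`
  have h1 : N ∣ 2 * (j * n') := by
    rw [hN, orderOf_dvd_iff_pow_eq_one, show 2 * (j * n') = j * (n' + n') by ring, pow_mul, hw, ← hn',
      pow_orderOf_eq_one]
  have h2 : ¬ N ∣ j * n' := by
    rw [hN, orderOf_dvd_iff_pow_eq_one, pow_mul, hw]
    intro h3
    have := orderOf_le_of_pow_eq_one (by omega) h3
    omega
  obtain ⟨q, hq⟩ := h1
  have hq1 : q % 2 = 1 := by
    by_contra h3
    have h4 : 2 ∣ q := by omega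
    obtain ⟨q', rfl⟩ := h4
    apply h2
    refine ⟨q', ?_⟩
    have : 2 * (j * n') = 2 * (N * q') := by rw [hq]; ring
    omega
  have hM : lnM B a b = 2 * N := rfl
  have h5 : d * n' = N + lnM B a b * (q / 2) := by
    rw [hj, hM]
    have : q = 2 * (q / 2) + 1 := by omega
    calc 2 * j * n' = 2 * (j * n') := by ring
      _ = N * q := hq
      _ = N * (2 * (q / 2) + 1) := by rw [← this]
      _ = N + 2 * N * (q / 2) := by ring
  have hpM : ∀ n t, fS H.up S x (t + lnM B a b * n) = fS H.up S x t := by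
    intro n
    induction n with
    | zero => intro t; rfl
    | succ n ih => intro t; rw [mul_add, mul_one, ← add_assoc, fS_per H, ih]
  rw [← hp' n' t, h5, ← add_assoc, hpM]

/-- p1f. -/
theorem ne_p1f (H : HypC B a b eps D z k) (hi : (Subgroup.zpowers (B.q a * (B.q b)⁻¹)).relIndex eps.ker = 1)
    {F : Finset Q} {x s₁ s₂ : Q} (hx : eps x = 1) {d₁ d₂ : ℕ} (h1 : 0 < d₁) (h12 : d₁ < d₂) (h2 : d₂ < lnM B a b)
    (e₂ : (H.up.U ^ d₁) x = s₂) (e₁ : (H.up.U ^ d₂) x = s₁) (hh : lnM B a b ≠ 2 * (d₂ - d₁))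
    (n : (x⁻¹ * s₁ ∈ D ∧ Even (orderOf (x⁻¹ * s₁))) ∨ (x⁻¹ * s₂ ∈ D ∧ Even (orderOf (x⁻¹ * s₂))))
    {S : Finset Q} (hS : InS D k F x s₁ s₂ S) :
    ∑ v ∈ S, wA H.up x d₁ d₂ v ≠ 0 := by
  rw [sum_wA H hi S x d₁ d₂ h12.le h2.le]
  set N := orderOf (B.q a * (B.q b)⁻¹) with hN
  have hM : lnM B a b = 2 * N := rfl
  have hp : ∀ t, fS H.up S x (t + N) = fS H.up S x t := by
    rcases n with ⟨n1, n2⟩ | ⟨n1, n2⟩
    · exact half_per H hx hS hS.h₁ n1 n2 e₁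
    · exact half_per H hx hS hS.h₂ n1 n2 e₂
  have hc : (S.card : ℤ) = 2 * ∑ t ∈ range N, fS H.up S x t := by
    rw [card_line H S x (fun v _ => cover1 H hi x v), hM, two_mul N, Finset.sum_range_add, two_mul]
    congr 1
    exact per_sum _ _ hp N
  have hf₂ : fS H.up S x (d₁ - 1) = 1 := fS_one h1 (by rw [e₂]; exact hS.h₂)
  have hf₁ : fS H.up S x (d₂ - 1) = 1 := fS_one (by omega) (by rw [e₁]; exact hS.h₁)
  rw [hM] at hh
  rcases Nat.lt_or_ge (d₂ - d₁) N with hlt | hge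
  · -- the arc is short
    have h3 : ∑ t ∈ range (d₂ - d₁), fS H.up S x (d₁ + t) + 1 ≤ ∑ t ∈ range N, fS H.up S x t := by
      rw [← per_sum _ _ hp (d₁ - 1)]
      obtain ⟨r, hr⟩ : ∃ r, N = (d₂ - d₁) + 1 + r := ⟨N - (d₂ - d₁ + 1), by omega⟩
      rw [hr, Finset.sum_range_add, Finset.sum_range_succ']
      rw [add_zero, hf₂]
      have h4 : ∑ t ∈ range (d₂ - d₁), fS H.up S x (d₁ + t) =
          ∑ t ∈ range (d₂ - d₁), fS H.up S x (d₁ - 1 + (t + 1)) :=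
        Finset.sum_congr rfl fun t _ => by rw [show d₁ + t = d₁ - 1 + (t + 1) by omega]
      have h5 : 0 ≤ ∑ t ∈ range r, fS H.up S x (d₁ - 1 + (d₂ - d₁ + 1 + t)) :=
        Finset.sum_nonneg fun t _ => fS_nonneg _ _ _ _
      rw [h4]
      linarith
    omega
  · have hgt : N < d₂ - d₁ := by omega
    have h3 : ∑ t ∈ range N, fS H.up S x t + 1 ≤ ∑ t ∈ range (d₂ - d₁), fS H.up S x (d₁ + t) := by
      obtain ⟨r, hr⟩ : ∃ r, d₂ - d₁ = r + N + 1 := ⟨d₂ - d₁ - (N + 1), by omega⟩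
      rw [hr, Finset.sum_range_succ, Finset.sum_range_add]
      have h4 : ∑ t ∈ range N, fS H.up S x (d₁ + (r + t)) = ∑ t ∈ range N, fS H.up S x t := by
        rw [← per_sum _ _ hp (d₁ + r)]
        exact Finset.sum_congr rfl fun t _ => by rw [add_assoc]
      have h5 : 0 ≤ ∑ t ∈ range r, fS H.up S x (d₁ + t) := Finset.sum_nonneg fun t _ => fS_nonneg _ _ _ _
      rw [h4, show d₁ + (r + N) = d₂ - 1 by omega, hf₁]
      linarith
    omega

/-- p0. -/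
theorem ne_p0 (H : HypC B a b eps D z k) (hi : (Subgroup.zpowers (B.q a * (B.q b)⁻¹)).relIndex eps.ker = 1)
    {F : Finset Q} {x s₁ s₂ : Q} (hx : eps x = 1) {d : ℕ} (h1 : 0 < d) (h4 : 4 * d = lnM B a b)
    (e₂ : (H.up.U ^ d) x = s₂) (n₂ : x⁻¹ * s₂ ∈ D) {S : Finset Q} (hS : InS D k F x s₁ s₂ S) :
    ∑ v ∈ S, wA H.up x 0 (3 * d) v ≠ 0 := by
  rw [sum_wA H hi S x 0 (3 * d) (by omega) (by omega)]
  have p : ∀ t, fS H.up S x (t + d) = fS H.up S x t := near_f H hS hS.h₂ n₂ e₂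
  have p3 : ∀ t, fS H.up S x (t + 3 * d) = fS H.up S x t := by
    intro t
    rw [show t + 3 * d = t + d + d + d by omega, p, p, p]
  have h5 := equi _ _ _ (fS_per H S x) p
  have h6 := equi _ _ _ p3 p
  rw [← card_line H S x (fun v _ => cover1 H hi x v), ← h4] at h5
  intro h0
  have hc := card_pos hS
  have h7 : ∑ t ∈ range (3 * d - 0), fS H.up S x (0 + t) = ∑ t ∈ range (3 * d), fS H.up S x t := by simp
  rw [h7] at h0
  have hd : (0 : ℤ) < d := by exact_mod_cast h1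
  push_cast at h5 h6
  have h8 : (d : ℤ) * (S.card : ℤ) = 0 := by linear_combination 4 * h6 - 3 * h5 - 2 * d * h0
  have h9 := mul_pos hd hc
  omega

end

end Pool.Agent.Lib.MP_688fd0_co.SQ4.Small
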